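import Pool.Agent.Work.MP_584b0c_al.Api

set_option autoImplicit false
set_option linter.unusedSectionVars false

/-! Item B2: the short block. -/

namespace Pool.Agent.IntComm

open Matrix Polynomial

namespace Base

variable {τ σ : Type} [Fintype τ] [DecidableEq τ] [Fintype σ] [DecidableEq σ]

theorem col_add (d : Matrix (τ ⊕ σ) (τ ⊕ σ) ℤ) :
    fromCols d.toCols₁ 0 + d.toCols₂ * fromCols (0 : Matrix σ τ ℤ) 1 = d := by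
  rw [mul_fromCols, Matrix.mul_zero, Matrix.mul_one]
  ext i j
  rcases j with j | j <;> simp [Matrix.toCols₁, Matrix.toCols₂]

theorem one_cols : (1 : Matrix (τ ⊕ σ) (τ ⊕ σ) ℤ).toCols₂ = fromRows 0 1 := by
  ext i j
  rcases i with i | i
  · simp [Matrix.toCols₂]
  · simp [Matrix.toCols₂, Matrix.one_apply]

theorem mul_cols (e d : Matrix (τ ⊕ σ) (τ ⊕ σ) ℤ) : e * d.toCols₂ = (e * d).toCols₂ := by
  ext i j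
  simp [Matrix.toCols₂, Matrix.mul_apply]

theorem inv_cols (d : (Matrix (τ ⊕ σ) (τ ⊕ σ) ℤ)ˣ) :
    fromCols (0 : Matrix σ τ ℤ) (1 : Matrix σ σ ℤ) * (((d⁻¹ : (Matrix (τ ⊕ σ) (τ ⊕ σ) ℤ)ˣ) :
      Matrix (τ ⊕ σ) (τ ⊕ σ) ℤ) * (d : Matrix (τ ⊕ σ) (τ ⊕ σ) ℤ).toCols₂) = 1 := by
  rw [mul_cols, Units.inv_mul, one_cols, fromCols_mul_fromRows, Matrix.mul_one, Matrix.zero_mul,
    zero_add]

/-- the unitriangular matrix -/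
def T (v : Matrix (τ ⊕ σ) σ ℤ) : (Matrix ((τ ⊕ σ) ⊕ σ) ((τ ⊕ σ) ⊕ σ) ℤ)ˣ where
  val := fromBlocks 1 v 0 1
  inv := fromBlocks 1 (-v) 0 1
  val_inv := by
    rw [fromBlocks_multiply]
    simp
  inv_val := by
    rw [fromBlocks_multiply]
    simp

end Base

open Base

theorem claimBase : ClaimBase := by
  intro τ σ _ _ _ _ d γ
  set D₂ : Matrix (τ ⊕ σ) σ ℤ := (d : Matrix (τ ⊕ σ) (τ ⊕ σ) ℤ).toCols₂ with hD₂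
  set E : Matrix σ (τ ⊕ σ) ℤ := fromCols (0 : Matrix σ τ ℤ) 1 with hE
  refine ⟨-D₂ + D₂ * γ - (d : Matrix (τ ⊕ σ) (τ ⊕ σ) ℤ) * D₂, E, γ - E * D₂, ⟨T D₂, ?_⟩, ?_⟩
  · show fromBlocks 1 D₂ 0 1 * _ = _ * fromBlocks 1 D₂ 0 1
    rw [fromBlocks_multiply, fromBlocks_multiply]
    simp only [Matrix.one_mul, Matrix.mul_one, Matrix.zero_mul, Matrix.mul_zero, zero_add,
      add_zero]
    rw [col_add]
    congr 1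
    · abel
    · abel
  · have h1 : E * (((d⁻¹ : (Matrix (τ ⊕ σ) (τ ⊕ σ) ℤ)ˣ) : Matrix (τ ⊕ σ) (τ ⊕ σ) ℤ) * D₂) = 1 :=
      inv_cols d
    have h2 : E * ((d⁻¹ : (Matrix (τ ⊕ σ) (τ ⊕ σ) ℤ)ˣ) : Matrix (τ ⊕ σ) (τ ⊕ σ) ℤ) *
        (-D₂ + D₂ * γ - (d : Matrix (τ ⊕ σ) (τ ⊕ σ) ℤ) * D₂) = -1 + γ - E * D₂ := by
      rw [Matrix.mul_sub, Matrix.mul_add, Matrix.mul_neg]
      have e1 : E * ((d⁻¹ : (Matrix (τ ⊕ σ) (τ ⊕ σ) ℤ)ˣ) : Matrix (τ ⊕ σ) (τ ⊕ σ) ℤ) * D₂ = 1 := by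
        rw [Matrix.mul_assoc]; exact h1
      have e2 : E * ((d⁻¹ : (Matrix (τ ⊕ σ) (τ ⊕ σ) ℤ)ˣ) : Matrix (τ ⊕ σ) (τ ⊕ σ) ℤ) * (D₂ * γ) =
          γ := by
        rw [← Matrix.mul_assoc, e1, Matrix.one_mul]
      have e3 : E * ((d⁻¹ : (Matrix (τ ⊕ σ) (τ ⊕ σ) ℤ)ˣ) : Matrix (τ ⊕ σ) (τ ⊕ σ) ℤ) *
          ((d : Matrix (τ ⊕ σ) (τ ⊕ σ) ℤ) * D₂) = E * D₂ := by
        rw [← Matrix.mul_assoc, Matrix.mul_assoc E, Units.inv_mul, Matrix.mul_one]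
      rw [e1, e2, e3]
    rw [h2]
    abel

end Pool.Agent.IntComm
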