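import Pool.Agent.Work.MP_584b0c_al.Api

set_option autoImplicit false

namespace Pool.Agent.IntComm

open Matrix Polynomial

namespace Block

theorem isUnit_compan (h2 : ClaimCompan) {m : ℕ} (hm : 0 < m) {f : ℤ[X]} (hf : f.Monic)
    (hd : f.natDegree = m) (hu : IsUnit (f.coeff 0)) :
    IsUnit (compan f : Matrix (Fin m) (Fin m) ℤ) := by
  rw [Matrix.isUnit_iff_isUnit_det, (h2 m f hm hf hd).2]
  exact (IsUnit.pow m isUnit_one.neg).mul hu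

theorem isUnit_aeval {n : Type} [Fintype n] [DecidableEq n] {D : Matrix n n ℤ} {f g : ℤ[X]}
    (hg : aeval D g = 0) (h : IsCoprime f g) : IsUnit (aeval D f) := by
  obtain ⟨a, b, hab⟩ := h
  have h1 : aeval D a * aeval D f = 1 := by
    have := congrArg (aeval D) hab
    simpa [hg] using this
  have h2 : aeval D f * aeval D a = 1 := by
    rw [← map_mul, mul_comm f a, map_mul, h1]
  exact ⟨⟨_, _, h2, h1⟩, rfl⟩

/-- block diagonal unit -/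
def dg {m n : Type} [Fintype m] [DecidableEq m] [Fintype n] [DecidableEq n]
    (A : (Matrix m m ℤ)ˣ) (D : (Matrix n n ℤ)ˣ) : (Matrix (m ⊕ n) (m ⊕ n) ℤ)ˣ where
  val := fromBlocks (A : Matrix m m ℤ) 0 0 (D : Matrix n n ℤ)
  inv := fromBlocks ((A⁻¹ : (Matrix m m ℤ)ˣ) : Matrix m m ℤ) 0 0
    ((D⁻¹ : (Matrix n n ℤ)ˣ) : Matrix n n ℤ)
  val_inv := by
    rw [fromBlocks_multiply]
    simp [-Matrix.coe_units_inv]
  inv_val := by
    rw [fromBlocks_multiply]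
    simp [-Matrix.coe_units_inv]

/-- upper unipotent unit -/
def up {m n : Type} [Fintype m] [DecidableEq m] [Fintype n] [DecidableEq n]
    (W : Matrix m n ℤ) : (Matrix (m ⊕ n) (m ⊕ n) ℤ)ˣ where
  val := fromBlocks 1 W 0 1
  inv := fromBlocks 1 (-W) 0 1
  val_inv := by
    rw [fromBlocks_multiply]
    simp
  inv_val := by
    rw [fromBlocks_multiply]
    simp

theorem comm_eq {m n : Type} [Fintype m] [DecidableEq m] [Fintype n] [DecidableEq n]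
    (A : (Matrix m m ℤ)ˣ) (D : (Matrix n n ℤ)ˣ) (W Y : Matrix m n ℤ)
    (h : (A : Matrix m m ℤ) * W - W * (D : Matrix n n ℤ) = Y * (D : Matrix n n ℤ)) :
    ((dg A D * up W * (dg A D)⁻¹ * (up W)⁻¹ : (Matrix (m ⊕ n) (m ⊕ n) ℤ)ˣ) :
      Matrix (m ⊕ n) (m ⊕ n) ℤ) = fromBlocks 1 Y 0 1 := by
  have e1 : (A : Matrix m m ℤ) * W * ((D⁻¹ : (Matrix n n ℤ)ˣ) : Matrix n n ℤ) - W = Y := by
    have := congrArg (fun M : Matrix m n ℤ => M * ((D⁻¹ : (Matrix n n ℤ)ˣ) : Matrix n n ℤ)) h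
    simp only [Matrix.sub_mul, Matrix.mul_assoc, Units.mul_inv, Matrix.mul_one] at this
    rw [← this, Matrix.mul_assoc]
  show (fromBlocks (A : Matrix m m ℤ) 0 0 (D : Matrix n n ℤ)) * (fromBlocks 1 W 0 1) *
    (fromBlocks ((A⁻¹ : (Matrix m m ℤ)ˣ) : Matrix m m ℤ) 0 0
      ((D⁻¹ : (Matrix n n ℤ)ˣ) : Matrix n n ℤ)) * (fromBlocks 1 (-W) 0 1) = _
  rw [fromBlocks_multiply, fromBlocks_multiply, fromBlocks_multiply]
  simp only [Matrix.mul_one, Matrix.mul_zero, Matrix.zero_mul, add_zero, zero_add, Units.mul_inv,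
    Matrix.mul_neg, Matrix.one_mul]
  congr 1
  · rw [← e1]; abel
  · simp

end Block

open Block in
theorem claimBlock (h1 : ClaimSylv) (h2 : ClaimCompan) (h3 : ClaimDiag) : ClaimBlock := by
  intro m hm κ _ _ e Y Fs hlen hFam
  obtain ⟨F, rfl⟩ := List.length_eq_one_iff.1 hlen
  obtain ⟨f, g, hf, hg, hdf, hdg, huf, hug, hcop, rfl⟩ := hFam F (by simp)
  have hA := (h2 m f hm hf hdf).1
  have hD := (h2 m g hm hg hdg).1
  obtain ⟨A, eA⟩ := isUnit_compan h2 hm hf hdf huf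
  obtain ⟨D, eD⟩ := isUnit_compan h2 hm hg hdg hug
  rw [← eA] at hA
  rw [← eD] at hD
  obtain ⟨W, hW⟩ := h1 (Fin m) (Fin m) A D f hA (isUnit_aeval hD hcop) (Y * (D : Matrix _ _ ℤ))
  have hc := comm_eq A D W Y hW
  have hae : aeval ((dg A D : (Matrix (Fin m ⊕ Fin m) (Fin m ⊕ Fin m) ℤ)ˣ) :
      Matrix (Fin m ⊕ Fin m) (Fin m ⊕ Fin m) ℤ) (f * g) = 0 :=
    (h3 (Fin m) (Fin m) A D f g hA hD hcop).2.2
  let φ : Matrix (Fin m ⊕ Fin m) (Fin m ⊕ Fin m) ℤ ≃ₐ[ℤ] Matrix κ κ ℤ :=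
    Matrix.reindexAlgEquiv ℤ ℤ e.symm
  let ψ : (Matrix (Fin m ⊕ Fin m) (Fin m ⊕ Fin m) ℤ)ˣ →* (Matrix κ κ ℤ)ˣ :=
    Units.map (φ : Matrix (Fin m ⊕ Fin m) (Fin m ⊕ Fin m) ℤ →* Matrix κ κ ℤ)
  refine ⟨ψ (dg A D), ψ (up W), ?_, 1, rfl, ?_⟩
  · show aeval (φ ((dg A D : (Matrix (Fin m ⊕ Fin m) (Fin m ⊕ Fin m) ℤ)ˣ) :
      Matrix (Fin m ⊕ Fin m) (Fin m ⊕ Fin m) ℤ)) (f * g) = 0
    rw [Polynomial.aeval_algEquiv, AlgHom.comp_apply, hae]
    simp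
  · rw [mul_one, ← map_inv, ← map_inv, ← map_mul, ← map_mul, ← map_mul]
    show _ = φ _
    rw [hc]
    rfl

end Pool.Agent.IntComm
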