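import Pool.Agent.Work.MP_584b0c_al.Api

set_option autoImplicit false

/-! Item C17: the Carter and Keller step. -/

namespace Pool.Agent.IntComm

open Matrix

namespace CK

section
variable {n : Type} [Fintype n] [DecidableEq n]

theorem mul' {r s : ℕ} {M N : Matrix n n ℤ} (hM : El r M) (hN : El s N) : El (r + s) (M * N) := by
  obtain ⟨L, hL, rfl⟩ := hM
  obtain ⟨L', hL', rfl⟩ := hN
  refine ⟨L ++ L', by rw [List.length_append]; omega, ?_⟩
  rw [List.map_append, List.prod_append]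

theorem mono' {r s : ℕ} (h : r ≤ s) {M : Matrix n n ℤ} (hM : El r M) : El s M := by
  obtain ⟨L, hL, rfl⟩ := hM
  exact ⟨L, hL.trans h, rfl⟩

theorem tv (i j : n) (hij : i ≠ j) (c : ℤ) : El 1 (transvection i j c) :=
  ⟨[⟨i, j, hij, c⟩], by simp, by simp [TransvectionStruct.toMatrix]⟩

theorem exInv {r : ℕ} {M : Matrix n n ℤ} (hM : El r M) : ∃ N : Matrix n n ℤ, El r N ∧ M * N = 1 := by
  obtain ⟨L, hL, rfl⟩ := hM
  refine ⟨(L.reverse.map (TransvectionStruct.toMatrix ∘ TransvectionStruct.inv)).prod,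
    ⟨L.reverse.map TransvectionStruct.inv, by simpa using hL, by rw [List.map_map]⟩, ?_⟩
  exact TransvectionStruct.prod_mul_reverse_inv_prod L

theorem transp {r : ℕ} {M : Matrix n n ℤ} (hM : El r M) : El r Mᵀ := by
  obtain ⟨L, hL, rfl⟩ := hM
  refine ⟨L.reverse.map fun t => ⟨t.j, t.i, t.hij.symm, t.c⟩, by simpa using hL, ?_⟩
  rw [Matrix.transpose_list_prod, List.map_map, List.map_map, List.map_reverse]
  congr 2
  refine List.map_congr_left fun t _ => ?_
  simp only [Function.comp, TransvectionStruct.toMatrix, transvection, Matrix.transpose_add,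
    Matrix.transpose_one, Matrix.transpose_single]

end

theorem corner_eq (A : Matrix (Fin 2) (Fin 2) ℤ) : (corner A : Matrix (Fin 3) (Fin 3) ℤ) =
    !![A 0 0, A 0 1, 0; A 1 0, A 1 1, 0; 0, 0, 1] := by
  ext i j
  fin_cases i <;> fin_cases j <;> rfl

theorem corner_mul (A B : Matrix (Fin 2) (Fin 2) ℤ) : (corner (A * B) : Matrix (Fin 3) (Fin 3) ℤ) =
    corner A * corner B := by
  rw [corner_eq, corner_eq, corner_eq]
  ext i j
  fin_cases i <;> fin_cases j <;> simp [Matrix.mul_apply, Fin.sum_univ_succ]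

theorem corner_transpose (A : Matrix (Fin 2) (Fin 2) ℤ) :
    (corner Aᵀ : Matrix (Fin 3) (Fin 3) ℤ) = (corner A : Matrix (Fin 3) (Fin 3) ℤ)ᵀ := by
  rw [corner_eq, corner_eq]
  ext i j
  fin_cases i <;> fin_cases j <;> rfl

theorem corner_lo (t : ℤ) : El 1 (corner !![1, 0; t, 1] : Matrix (Fin 3) (Fin 3) ℤ) := by
  have : (corner !![1, 0; t, 1] : Matrix (Fin 3) (Fin 3) ℤ) = transvection 1 0 t := by
    rw [corner_eq]
    ext i j
    fin_cases i <;> fin_cases j <;> simp [transvection]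
  rw [this]
  exact tv _ _ (by decide) _

theorem corner_up (t : ℤ) : El 1 (corner !![1, t; 0, 1] : Matrix (Fin 3) (Fin 3) ℤ) := by
  have : (corner !![1, t; 0, 1] : Matrix (Fin 3) (Fin 3) ℤ) = transvection 0 1 t := by
    rw [corner_eq]
    ext i j
    fin_cases i <;> fin_cases j <;> simp [transvection]
  rw [this]
  exact tv _ _ (by decide) _

theorem prodE (a b c d s t : ℤ) : !![1, 0; t, 1] * !![a, b; c, d] * !![1, s; 0, 1] =
    !![a, b + s * a; c + t * a, d + t * b + s * (c + t * a)] := by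
  rw [Matrix.mul_fin_two, Matrix.mul_fin_two]
  ext i j
  fin_cases i <;> fin_cases j <;> (simp; try ring)

theorem odd_case (h1 : ClaimPow) (h2 : ClaimDir) (A : Matrix (Fin 2) (Fin 2) ℤ) (hA : A.det = 1)
    (ha : Odd (A 0 0)) : El 78 (corner A : Matrix (Fin 3) (Fin 3) ℤ) := by
  have hdet : A 0 0 * A 1 1 - A 0 1 * A 1 0 = 1 := by rw [← hA, Matrix.det_fin_two]
  obtain ⟨s, t, m, hs, ht⟩ := h2 (A 0 0) (A 0 1) (A 1 0) (A 1 1) hdet ha
  set B : Matrix (Fin 2) (Fin 2) ℤ := !![1, 0; t, 1] * A * !![1, s; 0, 1] with hB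
  have hdB : B.det = 1 := by
    rw [hB, Matrix.det_mul, Matrix.det_mul, hA]
    simp [Matrix.det_fin_two]
  have hBe : B = !![A 0 0, A 0 1 + s * A 0 0; A 1 0 + t * A 0 0,
      A 1 1 + t * A 0 1 + s * (A 1 0 + t * A 0 0)] := by
    rw [← prodE, ← Matrix.eta_fin_two A]
  have hB00 : B 0 0 = A 0 0 := by rw [hBe]; rfl
  have hB01 : B 0 1 = A 0 1 + s * A 0 0 := by rw [hBe]; rfl
  have hB10 : B 1 0 = A 1 0 + t * A 0 0 := by rw [hBe]; rfl
  have e1 : El 38 (corner (B ^ (m + 1)) : Matrix (Fin 3) (Fin 3) ℤ) :=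
    h1 B (m + 1) hdB (by rw [hB00, hB01]; exact hs)
  have e2 : El 38 (corner (Bᵀ ^ m) : Matrix (Fin 3) (Fin 3) ℤ) := by
    refine h1 Bᵀ m (by rw [Matrix.det_transpose]; exact hdB) (Or.inl ?_)
    rw [Matrix.transpose_apply, Matrix.transpose_apply, hB00, hB10]
    exact ht
  have e3 : El 38 (corner (B ^ m) : Matrix (Fin 3) (Fin 3) ℤ) := by
    have := transp e2
    rw [← corner_transpose, Matrix.transpose_pow, Matrix.transpose_transpose] at this
    exact this
  obtain ⟨N, hN, hMN⟩ := exInv e3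
  have e4 : El 76 (corner B : Matrix (Fin 3) (Fin 3) ℤ) := by
    have h := mul' e1 hN
    rw [pow_succ', corner_mul, Matrix.mul_assoc, hMN, Matrix.mul_one] at h
    exact h
  have hAB : A = !![1, 0; -t, 1] * B * !![1, -s; 0, 1] := by
    rw [hBe, prodE]
    conv_lhs => rw [Matrix.eta_fin_two A]
    ext i j
    fin_cases i <;> fin_cases j <;> (simp; try ring)
  rw [hAB, corner_mul, corner_mul]
  exact mul' (mul' (corner_lo _) e4) (corner_up _)

end CK

theorem claimCK (h1 : ClaimPow) (h2 : ClaimDir) : ClaimCK := by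
  intro A hA
  rcases Int.even_or_odd (A 0 0) with ha | ha
  · have hdet : A 0 0 * A 1 1 - A 0 1 * A 1 0 = 1 := by rw [← hA, Matrix.det_fin_two]
    have hb : Odd (A 0 1) := by
      by_contra hb
      rw [Int.not_odd_iff_even] at hb
      have : Even (1 : ℤ) := by
        rw [← hdet]
        exact (ha.mul_right _).sub (hb.mul_right _)
      exact absurd this (by decide)
    set B : Matrix (Fin 2) (Fin 2) ℤ := A * !![1, 0; 1, 1] with hB
    have hdB : B.det = 1 := by
      rw [hB, Matrix.det_mul, hA]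
      simp [Matrix.det_fin_two]
    have hB00 : B 0 0 = A 0 0 + A 0 1 := by
      simp [hB, Matrix.mul_apply, Fin.sum_univ_two]
    have e := CK.odd_case h1 h2 B hdB (by rw [hB00]; exact ha.add_odd hb)
    have hAB : A = B * !![1, 0; -1, 1] := by
      rw [hB]
      ext i j
      fin_cases i <;> fin_cases j <;> simp [Matrix.mul_apply, Fin.sum_univ_two]
    rw [hAB, CK.corner_mul]
    exact CK.mono' (by norm_num) (CK.mul' e (CK.corner_lo _))
  · exact CK.mono' (by norm_num) (CK.odd_case h1 h2 A hA ha)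

end Pool.Agent.IntComm
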