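import Pool.Agent.Work.MP_584b0c_al.ElGood

set_option autoImplicit false

namespace Pool.Agent.IntComm

open Matrix Polynomial

namespace Col

/-- the matrix with first column `u` -/
def cm {K : ℕ} (u : Fin K → ℤ) : Matrix (Fin K) (Fin K) ℤ :=
  Matrix.of fun (i j : Fin K) => if j.val = 0 then u i else 0

theorem good_cm (h : ClaimBlock) {m K : ℕ} (hm : 0 < m) (hK : K = 2 * m) (u : Fin K → ℤ)
    (S : Finset (Fin K)) (hS : S.card ≤ m) (hS0 : ∀ i ∈ S, i.val ≠ 0)
    (hu : ∀ i, i ∉ S → u i = 0) : Good m 1 (1 + cm u) := by
  have hK0 : 0 < K := by omega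
  obtain ⟨e, he, he'⟩ := ElGood.exists_equiv hm (by rw [Fintype.card_fin, hK]) S hS
    (⟨0, hK0⟩ : Fin K) (fun hmem => hS0 _ hmem rfl)
  apply ElGood.good_of h hm e
  intro a b hab
  have hab : (if b.val = 0 then u a else 0) ≠ 0 := hab
  by_cases hb : b.val = 0
  · rw [if_pos hb] at hab
    have ha : a ∈ S := by
      by_contra hcon
      exact hab (hu a hcon)
    have hb' : b = ⟨0, hK0⟩ := Fin.ext hb
    exact ⟨he a ha, hb' ▸ he'⟩
  · rw [if_neg hb] at hab
    exact absurd rfl hab

theorem cm_mul {K : ℕ} (u v : Fin K → ℤ) (hv : ∀ i : Fin K, i.val = 0 → v i = 0) :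
    cm u * cm v = 0 := by
  ext i j
  rw [Matrix.mul_apply, Matrix.zero_apply]
  apply Finset.sum_eq_zero
  intro k _
  show (if k.val = 0 then u i else 0) * (if j.val = 0 then v k else 0) = 0
  by_cases hk : k.val = 0
  · rw [hv k hk]; simp
  · rw [if_neg hk, zero_mul]

end Col

theorem claimCol (h : ClaimBlock) : ClaimCol := by
  intro m K hm hK u hu
  let u1 : Fin K → ℤ := fun i => if i.val ≤ m then u i else 0
  let u2 : Fin K → ℤ := fun i => if i.val ≤ m then 0 else u i
  have g1 : Good m 1 (1 + Col.cm u1) := by
    apply Col.good_cm h hm hK u1 (Finset.univ.filter fun i : Fin K => 1 ≤ i.val ∧ i.val ≤ m)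
    · calc (Finset.univ.filter fun i : Fin K => 1 ≤ i.val ∧ i.val ≤ m).card
          ≤ (Finset.Icc 1 m).card := by
            apply Finset.card_le_card_of_injOn (fun i => i.val)
            · intro i hi
              have hi := (Finset.mem_filter.1 hi).2
              exact Finset.mem_coe.2 (Finset.mem_Icc.2 hi)
            · intro a _ b _ hab
              exact Fin.ext hab
        _ = m := by simp
    · intro i hi
      have := (Finset.mem_filter.1 hi).2
      omega
    · intro i hi
      show (if i.val ≤ m then u i else 0) = 0
      by_cases h1 : i.val ≤ m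
      · have h0 : i.val = 0 := by
          by_contra hne
          exact hi (Finset.mem_filter.2 ⟨Finset.mem_univ _, by omega, h1⟩)
        rw [if_pos h1, hu i h0]
      · rw [if_neg h1]
  have g2 : Good m 1 (1 + Col.cm u2) := by
    apply Col.good_cm h hm hK u2 (Finset.univ.filter fun i : Fin K => m < i.val)
    · calc (Finset.univ.filter fun i : Fin K => m < i.val).card
          ≤ (Finset.Ico (m + 1) (2 * m)).card := by
            apply Finset.card_le_card_of_injOn (fun i => i.val)
            · intro i hi
              have hi := (Finset.mem_filter.1 hi).2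
              have hlt := i.isLt
              have h1 : m + 1 ≤ i.val := hi
              have h2 : i.val < 2 * m := by omega
              exact Finset.mem_coe.2 (Finset.mem_Ico.2 ⟨h1, h2⟩)
            · intro a _ b _ hab
              exact Fin.ext hab
        _ ≤ m := by rw [Nat.card_Ico]; omega
    · intro i hi
      have := (Finset.mem_filter.1 hi).2
      omega
    · intro i hi
      show (if i.val ≤ m then 0 else u i) = 0
      by_cases h1 : i.val ≤ m
      · rw [if_pos h1]
      · exact absurd (Finset.mem_filter.2 ⟨Finset.mem_univ _, by omega⟩) hi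
  have key := good_mul g1 g2
  have e : (1 + Col.cm u1) * (1 + Col.cm u2) =
      1 + Matrix.of fun (i j : Fin K) => if j.val = 0 then u i else 0 := by
    have hz : Col.cm u1 * Col.cm u2 = 0 := by
      apply Col.cm_mul
      intro i hi
      show (if i.val ≤ m then 0 else u i) = 0
      rw [if_pos (by omega)]
    have hs : Col.cm u1 + Col.cm u2 =
        Matrix.of fun (i j : Fin K) => if j.val = 0 then u i else 0 := by
      ext i j
      show (if j.val = 0 then (if i.val ≤ m then u i else 0) else 0) +
        (if j.val = 0 then (if i.val ≤ m then 0 else u i) else 0) =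
        (if j.val = 0 then u i else 0)
      split_ifs <;> simp
    rw [mul_add, mul_one, add_mul, one_mul, hz, add_zero, add_assoc, hs]
  rwa [e] at key

end Pool.Agent.IntComm
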