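import Pool.Agent.Work.MP_584b0c_al.Api

set_option autoImplicit false

namespace Pool.Agent.IntComm

open Matrix Polynomial

namespace CompanC2

/-- Standard basis vectors indexed by natural numbers. -/
def ee {k : ℕ} (a : ℕ) : Fin k → ℤ := fun i => if i.val = a then 1 else 0

theorem mulVec_ee {k : ℕ} (A : Matrix (Fin k) (Fin k) ℤ) {a : ℕ} (ha : a < k) :
    A.mulVec (ee a) = fun i => A i ⟨a, ha⟩ := by
  funext i
  rw [Matrix.mulVec, dotProduct, Finset.sum_eq_single ⟨a, ha⟩]
  · simp [ee]
  · intro b _ hb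
    have : b.val ≠ a := fun h => hb (Fin.ext h)
    simp [ee, this]
  · intro h; exact absurd (Finset.mem_univ _) h

theorem step {k : ℕ} (f : ℤ[X]) {a : ℕ} (ha : a + 1 < k) :
    (compan f : Matrix (Fin k) (Fin k) ℤ).mulVec (ee a) = ee (a + 1) := by
  rw [mulVec_ee _ (by omega : a < k)]
  funext i
  have : ¬ (a + 1 = k) := by omega
  simp [compan, ee, this]

theorem pow_ee {k : ℕ} (f : ℤ[X]) : ∀ {a : ℕ}, a < k →
    ((compan f : Matrix (Fin k) (Fin k) ℤ) ^ a).mulVec (ee 0) = ee a
  | 0, _ => by simp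
  | a + 1, ha => by
    rw [pow_succ', ← Matrix.mulVec_mulVec, pow_ee f (by omega : a < k), step f ha]

theorem aeval_ee {k : ℕ} (f : ℤ[X]) (hk : 0 < k) (hf : f.Monic) (hd : f.natDegree = k) :
    (aeval (compan f : Matrix (Fin k) (Fin k) ℤ) f).mulVec (ee 0) = 0 := by
  rw [aeval_eq_sum_range, hd, Matrix.sum_mulVec, Finset.sum_range_succ]
  obtain ⟨k, rfl⟩ := Nat.exists_eq_add_of_le' hk
  have h1 : ((f.coeff (k + 1)) • (compan f : Matrix (Fin (k + 1)) (Fin (k + 1)) ℤ) ^ (k + 1)).mulVec
      (ee 0) = fun i => -f.coeff i.val := by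
    have : f.coeff (k + 1) = 1 := by rw [← hd]; exact hf
    rw [this, one_smul, pow_succ', ← Matrix.mulVec_mulVec, pow_ee f (by omega : k < k + 1),
      mulVec_ee _ (by omega : k < k + 1)]
    funext i
    simp [compan]
  rw [h1]
  funext i
  rw [Pi.add_apply, Finset.sum_apply]
  have h2 : ∀ a ∈ Finset.range (k + 1), (((f.coeff a) • (compan f :
      Matrix (Fin (k + 1)) (Fin (k + 1)) ℤ) ^ a).mulVec (ee 0)) i =
        if a = i.val then f.coeff i.val else 0 := by
    intro a ha
    rw [Matrix.smul_mulVec, pow_ee f (Finset.mem_range.1 ha)]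
    simp only [Pi.smul_apply, ee, smul_eq_mul]
    by_cases h : i.val = a
    · simp [h]
    · simp [h, Ne.symm h]
  rw [Finset.sum_congr rfl h2, Finset.sum_ite_eq' (Finset.range (k + 1)) i.val,
    if_pos (Finset.mem_range.2 i.isLt)]
  simp

theorem aeval_zero {k : ℕ} (f : ℤ[X]) (hk : 0 < k) (hf : f.Monic) (hd : f.natDegree = k) :
    aeval (compan f : Matrix (Fin k) (Fin k) ℤ) f = 0 := by
  ext i j
  have h1 : (aeval (compan f : Matrix (Fin k) (Fin k) ℤ) f).mulVec (ee j.val) = 0 := by
    rw [← pow_ee f j.isLt, Matrix.mulVec_mulVec]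
    have : Commute (aeval (compan f : Matrix (Fin k) (Fin k) ℤ) f)
        ((compan f : Matrix (Fin k) (Fin k) ℤ) ^ j.val) := by
      refine Commute.pow_right ?_ _
      have := Polynomial.aeval_X (R := ℤ) (compan f : Matrix (Fin k) (Fin k) ℤ)
      conv => arg 2; rw [← this]
      exact (Commute.all f X).map (aeval (compan f : Matrix (Fin k) (Fin k) ℤ))
    rw [this.eq, ← Matrix.mulVec_mulVec, aeval_ee f hk hf hd, Matrix.mulVec_zero]
  rw [mulVec_ee _ j.isLt] at h1
  exact congrFun h1 i

theorem det_compan {k : ℕ} (f : ℤ[X]) (hk : 0 < k) :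
    (compan f : Matrix (Fin k) (Fin k) ℤ).det = (-1) ^ k * f.coeff 0 := by
  obtain ⟨k, rfl⟩ := Nat.exists_eq_add_of_le' hk
  rw [det_succ_row_zero, Finset.sum_eq_single (Fin.last k)]
  · have h1 : ((compan f : Matrix (Fin (k + 1)) (Fin (k + 1)) ℤ).submatrix Fin.succ
        (Fin.last k).succAbove) = 1 := by
      ext i j
      have hj : ¬ (j.val + 1 = k + 1) := by omega
      simp only [Matrix.submatrix_apply, compan, Matrix.of_apply, Fin.succAbove_last,
        Fin.val_castSucc, Fin.val_succ, hj, if_false, Matrix.one_apply]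
      by_cases h : i = j
      · simp [h]
      · have : i.val ≠ j.val := fun h' => h (Fin.ext h')
        simp [h, this]
    rw [h1, det_one]
    simp [compan]
    ring
  · intro b _ hb
    have hb' : ¬ (b.val + 1 = k + 1) := by
      intro h
      exact hb (Fin.ext (by simpa using h))
    have : (compan f : Matrix (Fin (k + 1)) (Fin (k + 1)) ℤ) 0 b = 0 := by
      simp only [compan, Matrix.of_apply, hb', if_false]
      rw [if_neg]
      simp
    rw [this]; simp
  · intro h; exact absurd (Finset.mem_univ _) h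

end CompanC2

theorem claimCompan : ClaimCompan := fun _ f hk hf hd =>
  ⟨CompanC2.aeval_zero f hk hf hd, CompanC2.det_compan f hk⟩

end Pool.Agent.IntComm
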