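import Pool.Agent.Work.MP_584b0c_al.Api

set_option autoImplicit false

/-! D6: a matrix whose columns are independent modulo every prime is completed to a basis. -/

namespace Pool.Agent.IntComm

open Matrix Polynomial

namespace Complete

variable {n ρ : Type} [Fintype n] [DecidableEq n] [Fintype ρ] [DecidableEq ρ]

/-- Reduction: if `S x` is divisible by `p` then so is `x`. -/
theorem dvd_of (S : Matrix n ρ ℤ) (hS : PInd S) (p : ℕ) (hp : p.Prime) (x : ρ → ℤ) (y : n → ℤ)
    (h : S.mulVec x = (p : ℤ) • y) : ∃ x' : ρ → ℤ, x = (p : ℤ) • x' := by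
  have h1 := hS p hp (fun i => (x i : ZMod p)) (by
    funext i
    have h2 : S.mulVec x i = (p : ℤ) * y i := by rw [h]; rfl
    have h3 : ((S.mulVec x i : ℤ) : ZMod p) = 0 := by
      rw [h2]
      simp
    show (S.map Int.cast *ᵥ fun i => ((x i : ℤ) : ZMod p)) i = 0
    rw [← h3]
    simp [Matrix.mulVec, dotProduct])
  have h4 : ∀ i, ∃ c : ℤ, x i = (p : ℤ) * c := by
    intro i
    have h5 : ((x i : ℤ) : ZMod p) = 0 := congrFun h1 i
    rw [ZMod.intCast_zmod_eq_zero_iff_dvd] at h5
    exact h5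
  choose x' hx' using h4
  exact ⟨x', funext fun i => by simpa using hx' i⟩

theorem inj (S : Matrix n ρ ℤ) (hS : PInd S) : Function.Injective (Matrix.toLin' S) := by
  rw [← LinearMap.ker_eq_bot, LinearMap.ker_eq_bot']
  intro x hx
  funext i
  by_contra hi
  obtain ⟨p, hp1, hp2⟩ := Nat.exists_infinite_primes ((x i).natAbs + 1)
  obtain ⟨x', hx'⟩ := dvd_of S hS p hp2 x 0 (by
    rw [smul_zero]
    exact hx)
  have h1 : x i = (p : ℤ) * x' i := by
    conv_lhs => rw [hx']
    rfl
  have h2 : (x i).natAbs = p * (x' i).natAbs := by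
    rw [h1, Int.natAbs_mul, Int.natAbs_natCast]
  have h3 : (x' i).natAbs ≠ 0 := by
    intro h
    rw [h, mul_zero] at h2
    exact hi (Int.natAbs_eq_zero.mp h2)
  have h4 : p ≤ p * (x' i).natAbs := Nat.le_mul_of_pos_right _ (Nat.pos_of_ne_zero h3)
  omega

theorem sat (S : Matrix n ρ ℤ) (hS : PInd S) (a : ℕ) : a ≠ 0 → ∀ y : n → ℤ,
    (a : ℤ) • y ∈ LinearMap.range (Matrix.toLin' S) → y ∈ LinearMap.range (Matrix.toLin' S) := by
  induction a using induction_on_primes with
  | zero => intro h; exact absurd rfl h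
  | one => intro _ y h; simpa using h
  | prime_mul p a hp ih =>
    intro h0 y h
    have ha : a ≠ 0 := fun h => h0 (by rw [h, mul_zero])
    apply ih ha
    obtain ⟨x, hx⟩ := h
    rw [Nat.cast_mul, mul_smul] at hx
    obtain ⟨x', rfl⟩ := dvd_of S hS p hp x _ hx
    refine ⟨x', ?_⟩
    rw [map_smul] at hx
    have hp0 : (p : ℤ) ≠ 0 := by exact_mod_cast hp.ne_zero
    exact smul_right_injective _ hp0 hx

theorem torsionFree (S : Matrix n ρ ℤ) (hS : PInd S) :
    Module.IsTorsionFree ℤ ((n → ℤ) ⧸ LinearMap.range (Matrix.toLin' S)) := by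
  apply Module.IsTorsionFree.of_smul_eq_zero
  intro r m h
  by_cases hr : r = 0
  · exact Or.inl hr
  right
  obtain ⟨y, rfl⟩ := Submodule.Quotient.mk_surjective _ m
  rw [← Submodule.Quotient.mk_smul, Submodule.Quotient.mk_eq_zero] at h
  rw [Submodule.Quotient.mk_eq_zero]
  apply sat S hS r.natAbs (by simpa using hr)
  rcases Int.natAbs_eq r with h1 | h1
  · rw [← h1]; exact h
  · have h2 : ((r.natAbs : ℕ) : ℤ) = -r := by omega
    rw [h2, neg_smul]
    exact Submodule.neg_mem _ h

end Complete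

open Complete

/-- D6. Completion to a basis. -/
theorem claimComplete : ClaimComplete := by
  intro n ρ _ _ _ _ S δ hS hcard
  have hinj := inj S hS
  haveI := torsionFree S hS
  haveI : Module.Free ℤ ((n → ℤ) ⧸ LinearMap.range (Matrix.toLin' S)) :=
    Module.free_of_finite_type_torsion_free'
  have hrank : Module.finrank ℤ ((n → ℤ) ⧸ LinearMap.range (Matrix.toLin' S)) = δ := by
    have h1 := Submodule.finrank_quotient_add_finrank (LinearMap.range (Matrix.toLin' S))
    rw [LinearMap.finrank_range_of_inj hinj, Module.finrank_pi, Module.finrank_pi, hcard] at h1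
    omega
  let b : Module.Basis (Fin δ) ℤ ((n → ℤ) ⧸ LinearMap.range (Matrix.toLin' S)) :=
    Module.finBasisOfFinrankEq ℤ _ hrank
  let π := (LinearMap.range (Matrix.toLin' S)).mkQ
  let lift : Fin δ → (n → ℤ) := fun i => (Submodule.mkQ_surjective _ (b i)).choose
  have hlift : ∀ i, π (lift i) = b i := fun i => (Submodule.mkQ_surjective _ (b i)).choose_spec
  let Lm : (n → ℤ) →ₗ[ℤ] (Fin δ → ℤ) := b.equivFun.toLinearMap ∘ₗ π
  let s : ((n → ℤ) ⧸ LinearMap.range (Matrix.toLin' S)) →ₗ[ℤ] (n → ℤ) := b.constr ℤ lift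
  have hs : ∀ q, π (s q) = q := by
    intro q
    have h1 : π ∘ₗ s = LinearMap.id := by
      apply b.ext
      intro i
      simp only [LinearMap.comp_apply, s, b.constr_basis, LinearMap.id_apply]
      exact hlift i
    exact LinearMap.congr_fun h1 q
  let Bm : (Fin δ → ℤ) →ₗ[ℤ] (n → ℤ) := s ∘ₗ b.equivFun.symm.toLinearMap
  have hLB : Lm ∘ₗ Bm = LinearMap.id := by
    ext1 z
    apply LinearMap.ext
    intro w
    show b.equivFun (π (s (b.equivFun.symm _))) = _
    rw [hs, LinearEquiv.apply_symm_apply]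
    rfl
  have hmem : ∀ y : n → ℤ, ((LinearMap.id : (n → ℤ) →ₗ[ℤ] (n → ℤ)) - Bm ∘ₗ Lm) y ∈ LinearMap.range (Matrix.toLin' S) := by
    intro y
    rw [← Submodule.ker_mkQ (LinearMap.range (Matrix.toLin' S)), LinearMap.mem_ker]
    show π (y - s (b.equivFun.symm (b.equivFun (π y)))) = 0
    rw [LinearEquiv.symm_apply_apply, map_sub, hs, sub_self]
  let Km : (n → ℤ) →ₗ[ℤ] (ρ → ℤ) :=
    (LinearEquiv.ofInjective (Matrix.toLin' S) hinj).symm.toLinearMap ∘ₗ
      (LinearMap.codRestrict _ (LinearMap.id - Bm ∘ₗ Lm) hmem)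
  have hK : ∀ y, Matrix.toLin' S (Km y) = y - Bm (Lm y) := by
    intro y
    have h1 := LinearEquiv.apply_symm_apply (LinearEquiv.ofInjective (Matrix.toLin' S) hinj)
      (LinearMap.codRestrict _ (LinearMap.id - Bm ∘ₗ Lm) hmem y)
    exact congrArg Subtype.val h1
  have hLS : ∀ x, Lm (Matrix.toLin' S x) = 0 := by
    intro x
    show b.equivFun (π (Matrix.toLin' S x)) = 0
    have h1 : π (Matrix.toLin' S x) = 0 := by
      rw [Submodule.mkQ_apply, Submodule.Quotient.mk_eq_zero]
      exact LinearMap.mem_range_self _ _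
    rw [h1, map_zero]
  have hLB' : ∀ z, Lm (Bm z) = z := fun z => LinearMap.congr_fun hLB z
  refine ⟨LinearMap.toMatrix' Bm, LinearMap.toMatrix' Km, LinearMap.toMatrix' Lm, ?_, ?_, ?_, ?_, ?_⟩
  · have h1 : Km ∘ₗ Matrix.toLin' S = LinearMap.id := by
      apply LinearMap.ext
      intro x
      apply hinj
      rw [LinearMap.comp_apply, hK, hLS, map_zero, sub_zero, LinearMap.id_apply]
    have h2 := congrArg LinearMap.toMatrix' h1
    rwa [LinearMap.toMatrix'_comp, LinearMap.toMatrix'_toLin', LinearMap.toMatrix'_id] at h2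
  · rw [← LinearMap.toMatrix'_comp, hLB, LinearMap.toMatrix'_id]
  · have h1 : Km ∘ₗ Bm = 0 := by
      apply LinearMap.ext
      intro x
      apply hinj
      rw [LinearMap.comp_apply, hK, hLB', sub_self, LinearMap.zero_apply, map_zero]
    rw [← LinearMap.toMatrix'_comp, h1, map_zero]
  · have h1 : Lm ∘ₗ Matrix.toLin' S = 0 := LinearMap.ext hLS
    have h2 := congrArg LinearMap.toMatrix' h1
    rwa [LinearMap.toMatrix'_comp, LinearMap.toMatrix'_toLin', map_zero] at h2
  · have h1 : Matrix.toLin' S ∘ₗ Km + Bm ∘ₗ Lm = LinearMap.id := by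
      apply LinearMap.ext
      intro x
      show Matrix.toLin' S (Km x) + Bm (Lm x) = x
      rw [hK, sub_add_cancel]
    have h2 := congrArg LinearMap.toMatrix' h1
    rwa [map_add, LinearMap.toMatrix'_comp, LinearMap.toMatrix'_comp, LinearMap.toMatrix'_toLin',
      LinearMap.toMatrix'_id] at h2

end Pool.Agent.IntComm
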