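import Pool.Agent.Work.MP_584b0c_al.Api

set_option autoImplicit false

/-! C3: `A * Kry1 A v k = Kry1 A v k * compan A.charpoly`. -/

namespace Pool.Agent.IntComm

open Matrix Polynomial

namespace Cyc

theorem mul_kry_apply {k : ℕ} (A : Matrix (Fin k) (Fin k) ℤ) (v : Fin k → ℤ) (i j : Fin k) :
    (A * Kry1 A v k) i j = (A ^ (j.val + 1)).mulVec v i := by
  rw [pow_succ', ← Matrix.mulVec_mulVec]
  rfl

/-- Cayley Hamilton applied to a vector. -/
theorem cayley {k : ℕ} (A : Matrix (Fin k) (Fin k) ℤ) (v : Fin k → ℤ) (i : Fin k) :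
    (A ^ k).mulVec v i = ∑ l : Fin k, (A ^ l.val).mulVec v i * (-A.charpoly.coeff l.val) := by
  have h0 : aeval A A.charpoly = 0 := Matrix.aeval_self_charpoly A
  have hd : A.charpoly.natDegree = k := by
    rw [Matrix.charpoly_natDegree_eq_dim, Fintype.card_fin]
  have hk : A.charpoly.coeff k = 1 := by
    have := (Matrix.charpoly_monic A).coeff_natDegree
    rwa [hd] at this
  rw [Polynomial.aeval_eq_sum_range, hd, Finset.sum_range_succ, hk, one_smul] at h0
  have h1 : A ^ k = -∑ l ∈ Finset.range k, A.charpoly.coeff l • A ^ l := by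
    rw [eq_neg_iff_add_eq_zero, add_comm]
    exact h0
  rw [h1, ← Fin.sum_univ_eq_sum_range (fun l => A.charpoly.coeff l • A ^ l) k,
    Matrix.neg_mulVec, Matrix.sum_mulVec, Pi.neg_apply, Finset.sum_apply, ← Finset.sum_neg_distrib]
  refine Finset.sum_congr rfl fun l _ => ?_
  rw [Matrix.smul_mulVec, Pi.smul_apply, smul_eq_mul]
  ring

end Cyc

theorem claimCyc : ClaimCyc := by
  intro k A v
  ext i j
  rw [Cyc.mul_kry_apply]
  by_cases hj : j.val + 1 = k
  · have h1 : (Kry1 A v k * (compan A.charpoly : Matrix (Fin k) (Fin k) ℤ) :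
        Matrix (Fin k) (Fin k) ℤ) i j =
        ∑ l : Fin k, (A ^ l.val).mulVec v i * (-A.charpoly.coeff l.val) := by
      rw [Matrix.mul_apply]
      refine Finset.sum_congr rfl fun l _ => ?_
      have : (compan A.charpoly : Matrix (Fin k) (Fin k) ℤ) l j = -A.charpoly.coeff l.val := by
        unfold compan
        rw [Matrix.of_apply, if_pos hj]
      rw [this]
      rfl
    rw [h1, ← Cyc.cayley, hj]
  · have hlt : j.val + 1 < k := lt_of_le_of_ne j.isLt hj
    rw [Matrix.mul_apply, Finset.sum_eq_single (⟨j.val + 1, hlt⟩ : Fin k)]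
    · have : (compan A.charpoly : Matrix (Fin k) (Fin k) ℤ) ⟨j.val + 1, hlt⟩ j = 1 := by
        unfold compan
        rw [Matrix.of_apply, if_neg hj, if_pos rfl]
      rw [this, mul_one]
      rfl
    · intro l _ hl
      have : (compan A.charpoly : Matrix (Fin k) (Fin k) ℤ) l j = 0 := by
        unfold compan
        rw [Matrix.of_apply, if_neg hj, if_neg]
        intro h
        exact hl (Fin.ext h)
      rw [this, mul_zero]
    · intro h
      exact absurd (Finset.mem_univ _) h

end Pool.Agent.IntComm
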