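import Pool.Agent.Work.MP_584b0c_al.Api

set_option autoImplicit false

/-! Item B4: the determinant of a block companion matrix. -/

namespace Pool.Agent.IntComm

open Matrix Polynomial

namespace DetH

variable {τ σ : Type} [Fintype τ] [DecidableEq τ] [Fintype σ] [DecidableEq σ]

theorem base (P : Matrix (τ ⊕ σ) (τ ⊕ σ) ℤ) (γ : Matrix σ σ ℤ) :
    (fromBlocks (fromCols P.toCols₁ 0) P.toCols₂ (fromCols (0 : Matrix σ τ ℤ) 1) γ).det =
      (P * J τ σ).det := by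
  have h1 : fromBlocks (fromCols P.toCols₁ 0) P.toCols₂ (fromCols (0 : Matrix σ τ ℤ) 1) γ *
      fromBlocks (1 : Matrix (τ ⊕ σ) (τ ⊕ σ) ℤ) (fromRows (0 : Matrix τ σ ℤ) (1 - γ))
        (0 : Matrix σ (τ ⊕ σ) ℤ) (1 : Matrix σ σ ℤ) =
      fromBlocks (fromCols P.toCols₁ 0) P.toCols₂ (fromCols (0 : Matrix σ τ ℤ) 1) 1 := by
    rw [fromBlocks_multiply, fromCols_mul_fromRows, fromCols_mul_fromRows]
    simp
  have h2 := congrArg Matrix.det h1
  rw [Matrix.det_mul, Matrix.det_fromBlocks_zero₂₁, Matrix.det_one, Matrix.det_one, mul_one,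
    mul_one, Matrix.det_fromBlocks_one₂₂] at h2
  rw [h2]
  congr 1
  unfold J
  conv_rhs => rw [← fromCols_toCols P, fromCols_mul_fromBlocks]
  rw [mul_fromCols]
  ext i j
  rcases j with j | j <;> simp [Matrix.toCols₁, Matrix.toCols₂]

theorem step (h1 : ClaimSchur) {κ n : Type} [Fintype κ] [DecidableEq κ] [Fintype n]
    [DecidableEq n] (r : Matrix κ (κ ⊕ n) ℤ) (H : Matrix (κ ⊕ n) (κ ⊕ n) ℤ) :
    (fromBlocks 0 r (fromRows (1 : Matrix κ κ ℤ) (0 : Matrix n κ ℤ)) H).det =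
      (fromRows (-r) H.toRows₂).det := by
  obtain ⟨B, E, D, hs, hD⟩ := h1 κ n 1 r H
  rw [inv_one, Units.val_one, Matrix.mul_one, Matrix.one_mul] at hD
  rw [hs.det_eq, Units.val_one, Matrix.det_fromBlocks_one₁₁, hD]

end DetH

theorem claimDetH (h1 : ClaimSchur) (_h2 : ClaimBase) (h3 : ClaimRepl) : ClaimDetH := by
  intro τ σ _ _ _ _ q
  induction q with
  | zero =>
    intro P H hH
    obtain ⟨γ, rfl⟩ := hH
    rw [pow_zero, one_smul]
    exact DetH.base P γ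
  | succ q ih =>
    intro P H hH
    obtain ⟨P', H', hH', rfl⟩ := hH
    have e2 := DetH.step h1 (κ := τ ⊕ σ) (n := Idx τ σ q) (row q P) H'
    have e3 : -row q P = row q (-P) := (row_neg q P).symm
    have e4 := ih (-P) _ (h3 τ σ q (-P) P' H' hH')
    have e5 : (fromRows (-row q P) (Matrix.toRows₂ (m₁ := τ ⊕ σ) (m₂ := Idx τ σ q) H')) =
      (fromRows (row q (-P)) (Matrix.toRows₂ (m₁ := τ ⊕ σ) (m₂ := Idx τ σ q) H')) := by rw [e3]
    refine (e2.trans ((congrArg Matrix.det e5).trans e4)).trans ?_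
    rw [pow_succ, Matrix.neg_mul, smul_neg, mul_neg_one, neg_smul]

end Pool.Agent.IntComm
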