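import Pool.Agent.Work.MP_584b0c_al.Api

set_option autoImplicit false

/-! Item A2: block triangular matrices with comaximal annihilators. -/

namespace Pool.Agent.IntComm

open Matrix Polynomial

namespace Diag

variable {m n : Type} [Fintype m] [DecidableEq m] [Fintype n] [DecidableEq n]

theorem isUnit_aeval (D : Matrix n n ℤ) (f g : ℤ[X]) (hg : aeval D g = 0) (h : IsCoprime f g) :
    IsUnit (aeval D f) := by
  obtain ⟨a, b, hab⟩ := h
  have h1 : aeval D a * aeval D f = 1 := by
    have := congrArg (aeval D) hab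
    rwa [map_add, map_mul, map_mul, hg, mul_zero, add_zero, map_one] at this
  have h2 : aeval D f * aeval D a = 1 := by
    rw [← map_mul, mul_comm, map_mul, h1]
  exact ⟨⟨aeval D f, aeval D a, h2, h1⟩, rfl⟩

/-- The unit `[[1, W], [0, 1]]`. -/
def upU (W : Matrix m n ℤ) : (Matrix (m ⊕ n) (m ⊕ n) ℤ)ˣ where
  val := fromBlocks 1 W 0 1
  inv := fromBlocks 1 (-W) 0 1
  val_inv := by rw [fromBlocks_multiply]; simp [fromBlocks_one]
  inv_val := by rw [fromBlocks_multiply]; simp [fromBlocks_one]

/-- The unit `[[1, 0], [W, 1]]`. -/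
def loU (W : Matrix n m ℤ) : (Matrix (m ⊕ n) (m ⊕ n) ℤ)ˣ where
  val := fromBlocks 1 0 W 1
  inv := fromBlocks 1 0 (-W) 1
  val_inv := by rw [fromBlocks_multiply]; simp [fromBlocks_one]
  inv_val := by rw [fromBlocks_multiply]; simp [fromBlocks_one]

theorem aeval_blocks (A : Matrix m m ℤ) (D : Matrix n n ℤ) (p : ℤ[X]) :
    aeval (fromBlocks A 0 0 D) p = fromBlocks (aeval A p) 0 0 (aeval D p) := by
  induction p using Polynomial.induction_on' with
  | add p q hp hq => rw [map_add, map_add, map_add, hp, hq, fromBlocks_add, add_zero, add_zero]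
  | monomial k a =>
    rw [aeval_monomial, aeval_monomial, aeval_monomial, Algebra.algebraMap_eq_smul_one,
      Algebra.algebraMap_eq_smul_one, Algebra.algebraMap_eq_smul_one, smul_mul_assoc,
      smul_mul_assoc, smul_mul_assoc, one_mul, one_mul, one_mul, fromBlocks_diagonal_pow,
      fromBlocks_smul, smul_zero, smul_zero]

end Diag

theorem claimDiag (h : ClaimSylv) : ClaimDiag := by
  intro m n _ _ _ _ A D f g hA hD hfg
  refine ⟨?_, ?_, ?_⟩
  · intro Y
    obtain ⟨W, hW⟩ := h m n A D f hA (Diag.isUnit_aeval D f g hD hfg) Y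
    refine ⟨Diag.upU W, ?_⟩
    change fromBlocks 1 W 0 1 * fromBlocks A Y 0 D = fromBlocks A 0 0 D * fromBlocks 1 W 0 1
    rw [fromBlocks_multiply, fromBlocks_multiply]
    simp [← hW]
  · intro Y
    obtain ⟨W, hW⟩ := h n m D A g hD (Diag.isUnit_aeval A g f hA hfg.symm) Y
    refine ⟨Diag.loU W, ?_⟩
    change fromBlocks 1 0 W 1 * fromBlocks A 0 Y D = fromBlocks A 0 0 D * fromBlocks 1 0 W 1
    rw [fromBlocks_multiply, fromBlocks_multiply]
    simp [← hW]
  · rw [Diag.aeval_blocks, map_mul, map_mul, hA, hD, zero_mul, mul_zero, fromBlocks_zero]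

end Pool.Agent.IntComm
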