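import Pool.Agent.Work.MP_584b0c_al.Api

set_option autoImplicit false

/-! MP_584b0c_al, item C16: the arithmetic input (Dirichlet). -/

namespace Pool.Agent.IntComm

namespace Dir

/-- Dirichlet's theorem for integers. -/
theorem exists_prime (r N : ℤ) (hN : N ≠ 0) (h : IsCoprime r N) (k : ℕ) :
    ∃ p : ℕ, p.Prime ∧ k < p ∧ N ∣ (p : ℤ) - r := by
  have hne : NeZero N.natAbs := ⟨Int.natAbs_ne_zero.2 hN⟩
  have hu : IsUnit (r : ZMod N.natAbs) := by
    obtain ⟨x, y, hxy⟩ := h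
    have : ((x * r + y * N : ℤ) : ZMod N.natAbs) = 1 := by rw [hxy]; simp
    have hN0 : ((N : ℤ) : ZMod N.natAbs) = 0 := by
      rw [ZMod.intCast_zmod_eq_zero_iff_dvd]
      exact Int.natAbs_dvd.2 dvd_rfl
    push_cast at this
    rw [hN0, mul_zero, add_zero] at this
    exact IsUnit.of_mul_eq_one (x : ZMod N.natAbs) (by rw [mul_comm]; exact this)
  obtain ⟨p, hpk, hp, hpr⟩ := Nat.forall_exists_prime_gt_and_eq_mod hu k
  refine ⟨p, hp, hpk, ?_⟩
  have h1 : (((p : ℤ) - r : ℤ) : ZMod N.natAbs) = 0 := by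
    push_cast
    rw [hpr, sub_self]
  rw [ZMod.intCast_zmod_eq_zero_iff_dvd] at h1
  exact Int.natAbs_dvd.1 h1

theorem exists_mul {u w : ℕ} (hu : 1 ≤ u) (hw : 1 ≤ w) (h : Nat.Coprime u w) :
    ∃ x y : ℕ, u * x = w * y + 1 := by
  rcases hw.eq_or_lt with rfl | hw'
  · exact ⟨1, u - 1, by omega⟩
  · obtain ⟨x, hx⟩ := Nat.exists_mul_mod_eq_one_of_coprime h hw'
    refine ⟨x, u * x / w, ?_⟩
    have := Nat.div_add_mod (u * x) w
    omega

end Dir

open Dir in
/-- C16 -/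
theorem claimDir : ClaimDir := by
  intro a b c d hdet hodd
  have ha0 : a ≠ 0 := by
    rintro rfl
    simp at hodd
  have hba : IsCoprime b a := ⟨-c, d, by linarith⟩
  have hca : IsCoprime c a := ⟨-b, d, by linarith⟩
  -- the prime `b'`
  set r := b + a * (a * (3 - b)) with hr
  have hra : IsCoprime r a := by
    rw [hr]
    exact IsCoprime.add_mul_left_left hba _
  have h4 : (4 : ℤ) ∣ r - 3 := by
    obtain ⟨j, hj⟩ := hodd
    have : r - 3 = (a * a - 1) * (3 - b) := by rw [hr]; ring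
    rw [this, hj]
    exact ⟨(j * (j + 1)) * (3 - b), by ring⟩
  have hr4 : IsCoprime r 4 := by
    obtain ⟨z, hz⟩ := h4
    have : r = 3 + 4 * z := by linarith
    rw [this]
    exact ⟨-1, 1 + z, by ring⟩
  obtain ⟨b', hb'p, hb'a, hb'r⟩ := exists_prime r (4 * a) (by simpa using ha0)
    (IsCoprime.mul_right hr4 hra) a.natAbs
  have hb'1 : a ∣ (b' : ℤ) - b := by
    have h1 : a ∣ (b' : ℤ) - r := (Dvd.intro_left 4 rfl).trans hb'r
    have h2 : a ∣ r - b := ⟨a * (3 - b), by rw [hr]; ring⟩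
    have := dvd_add h1 h2
    have e : (b' : ℤ) - r + (r - b) = b' - b := by ring
    rwa [e] at this
  have hb'3 : (4 : ℤ) ∣ (b' : ℤ) - 3 := by
    have h1 : (4 : ℤ) ∣ (b' : ℤ) - r := (Dvd.intro a rfl).trans hb'r
    have := dvd_add h1 h4
    have e : (b' : ℤ) - r + (r - 3) = b' - 3 := by ring
    rwa [e] at this
  obtain ⟨j, hj⟩ : ∃ j : ℕ, b' = 4 * j + 3 := by
    obtain ⟨z, hz⟩ := hb'3
    have hz0 : 0 ≤ z := by
      have := hb'p.two_le
      omega
    obtain ⟨j, rfl⟩ := Int.eq_ofNat_of_zero_le hz0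
    exact ⟨j, by omega⟩
  set u := 2 * j + 1 with hu
  have hb'u : b' = 2 * u + 1 := by omega
  have hfb : Fact b'.Prime := ⟨hb'p⟩
  -- a prime larger than `|a|` does not divide `a`
  have hnd : ∀ p : ℕ, p.Prime → a.natAbs < p → ((a : ℤ) : ZMod p) ≠ 0 := by
    intro p hp hlt h0
    rw [ZMod.intCast_zmod_eq_zero_iff_dvd, Int.natCast_dvd] at h0
    exact absurd (Nat.le_of_dvd (Int.natAbs_pos.2 ha0) h0) (not_le.2 hlt)
  have hau : ((a : ℤ) : ZMod b') ^ u = 1 ∨ ((a : ℤ) : ZMod b') ^ u = -1 := by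
    have h1 := ZMod.pow_card_sub_one_eq_one (hnd b' hb'p hb'a)
    have e : b' - 1 = u * 2 := by omega
    rw [e, pow_mul, sq] at h1
    exact mul_self_eq_one_iff.1 h1
  -- the prime `c'`
  obtain ⟨x, y, hxy⟩ : ∃ x y : ℤ, (Int.gcd a u : ℤ) = a * x + u * y :=
    ⟨_, _, Int.gcd_eq_gcd_ab a u⟩
  set G : ℤ := (Int.gcd a u : ℤ) with hG
  have hGa : G ∣ a := Int.gcd_dvd_left _ _
  have hGu : G ∣ (u : ℤ) := Int.gcd_dvd_right _ _
  have hGc : G ∣ c + 1 := by
    obtain ⟨z, hz⟩ := hb'1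
    have h1 : c + 1 = a * (d + z * c) - u * (2 * c) := by
      have e : (b' : ℤ) = 2 * u + 1 := by exact_mod_cast hb'u
      have hb : b = 2 * u + 1 - a * z := by linarith
      rw [hb] at hdet
      linear_combination (-1 : ℤ) * hdet
    rw [h1]
    exact dvd_sub (Dvd.dvd.mul_right hGa _) (Dvd.dvd.mul_right hGu _)
  obtain ⟨z, hz⟩ := hGc
  set c0 := c - a * (x * z) with hc0
  have hc0u : c0 = -1 + u * (y * z) := by
    rw [hc0]
    rw [hxy] at hz
    linear_combination hz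
  have hc0a : IsCoprime c0 a := by
    have e : c0 = c + a * (-(x * z)) := by rw [hc0]; ring
    rw [e]
    exact IsCoprime.add_mul_left_left hca _
  have hc0u' : IsCoprime c0 (u : ℤ) := by
    rw [hc0u]
    exact IsCoprime.add_mul_left_left ⟨-1, 0, by ring⟩ _
  have hu0 : (u : ℤ) ≠ 0 := by
    have : 0 < u := by omega
    exact_mod_cast this.ne'
  obtain ⟨c', hc'p, hc'a, hc'r⟩ := exists_prime c0 (a * u) (mul_ne_zero ha0 hu0)
    (IsCoprime.mul_right hc0a hc0u') a.natAbs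
  have hc'1 : a ∣ (c' : ℤ) - c := by
    have h1 : a ∣ (c' : ℤ) - c0 := (Dvd.intro _ rfl).trans hc'r
    have h2 : a ∣ c0 - c := ⟨-(x * z), by rw [hc0]; ring⟩
    have := dvd_add h1 h2
    have e : (c' : ℤ) - c0 + (c0 - c) = c' - c := by ring
    rwa [e] at this
  have hc'2 : (u : ℤ) ∣ (c' : ℤ) + 1 := by
    have h1 : (u : ℤ) ∣ (c' : ℤ) - c0 := (Dvd.intro_left _ rfl).trans hc'r
    have h2 : (u : ℤ) ∣ c0 + 1 := ⟨y * z, by rw [hc0u]; ring⟩
    have := dvd_add h1 h2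
    have e : (c' : ℤ) - c0 + (c0 + 1) = c' + 1 := by ring
    rwa [e] at this
  have hfc : Fact c'.Prime := ⟨hc'p⟩
  set w := c' - 1 with hw
  have hc'w : c' = w + 1 := by
    have := hc'p.two_le
    omega
  have haw : ((a : ℤ) : ZMod c') ^ w = 1 := ZMod.pow_card_sub_one_eq_one (hnd c' hc'p hc'a)
  have hcop : Nat.Coprime u w := by
    have h1 : (u : ℤ) ∣ (w : ℤ) + 2 := by
      have e : (c' : ℤ) = w + 1 := by exact_mod_cast hc'w
      rw [e] at hc'2
      have e2 : (w : ℤ) + 1 + 1 = w + 2 := by ring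
      rwa [e2] at hc'2
    have h2 : u ∣ w + 2 := by exact_mod_cast h1
    have h3 : Nat.gcd u w ∣ 2 := by
      have := Nat.dvd_sub ((Nat.gcd_dvd_left u w).trans h2) (Nat.gcd_dvd_right u w)
      rwa [Nat.add_sub_cancel_left] at this
    have h4 : Nat.gcd u w ∣ u := Nat.gcd_dvd_left u w
    have h5 : Nat.Coprime u 2 := by
      rw [Nat.coprime_two_right, hu]
      exact ⟨j, rfl⟩
    exact Nat.eq_one_of_dvd_coprimes h5 h4 h3
  obtain ⟨X, Y, hXY⟩ := exists_mul (show 1 ≤ u by omega)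
    (show 1 ≤ w by have := hc'p.two_le; omega) hcop
  obtain ⟨s, hs⟩ := hb'1
  obtain ⟨t, ht⟩ := hc'1
  refine ⟨s, t, w * Y, ?_, ?_⟩
  · have e : b + s * a = b' := by linarith
    rw [e, ← hXY]
    have h1 : ((a : ℤ) : ZMod b') ^ (u * X) = 1 ∨ ((a : ℤ) : ZMod b') ^ (u * X) = -1 := by
      rw [pow_mul]
      rcases hau with h | h
      · left
        rw [h, one_pow]
      · rw [h]
        exact neg_one_pow_eq_or (ZMod b') X
    rcases h1 with h | h
    · left
      rw [← ZMod.intCast_zmod_eq_zero_iff_dvd]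
      push_cast
      rw [h, sub_self]
    · right
      rw [← ZMod.intCast_zmod_eq_zero_iff_dvd]
      push_cast
      rw [h, neg_add_cancel]
  · have e : c + t * a = c' := by linarith
    rw [e, ← ZMod.intCast_zmod_eq_zero_iff_dvd]
    push_cast
    rw [pow_mul, haw, one_pow, sub_self]

end Pool.Agent.IntComm
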