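import Pool.Agent.Work.MP_584b0c_al.Api

set_option autoImplicit false

/-! C18: from `SL₃` to `SL_k`. -/

namespace Pool.Agent.IntComm

open Matrix Polynomial

namespace Emb

/-- `Fin 3 ⊕ Fin k ≃ Fin (k + 3)`, the first three indices first. -/
def eqv (k : ℕ) : Fin 3 ⊕ Fin k ≃ Fin (k + 3) :=
  finSumFinEquiv.trans (finCongr (Nat.add_comm 3 k))

theorem eqv_inl (k : ℕ) (i : Fin 3) : (eqv k (Sum.inl i)).val = i.val := by
  simp [eqv]

theorem eqv_inr (k : ℕ) (i : Fin k) : (eqv k (Sum.inr i)).val = 3 + i.val := by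
  simp [eqv, Nat.add_comm]

theorem corner_eq (k : ℕ) (A : Matrix (Fin 2) (Fin 2) ℤ) :
    (corner A : Matrix (Fin (k + 3)) (Fin (k + 3)) ℤ) =
      reindexAlgEquiv ℤ _ (eqv k)
        (fromBlocks (corner A : Matrix (Fin 3) (Fin 3) ℤ) 0 0 (1 : Matrix (Fin k) (Fin k) ℤ)) := by
  have key : (corner A : Matrix (Fin (k + 3)) (Fin (k + 3)) ℤ).submatrix (eqv k) (eqv k) =
      fromBlocks (corner A : Matrix (Fin 3) (Fin 3) ℤ) 0 0 (1 : Matrix (Fin k) (Fin k) ℤ) := by
    ext i j
    rcases i with i | i <;> rcases j with j | j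
    · simp only [submatrix_apply, fromBlocks_apply₁₁, corner, of_apply, eqv_inl,
        EmbeddingLike.apply_eq_iff_eq, Sum.inl.injEq]
    · have h : ¬ (3 + j.val < 2) := by omega
      simp only [submatrix_apply, fromBlocks_apply₁₂, corner, of_apply, eqv_inl, eqv_inr,
        EmbeddingLike.apply_eq_iff_eq, h, dif_neg, not_false_eq_true, reduceCtorEq, if_false,
        dite_eq_ite, ite_self]
      rfl
    · have h : ¬ (3 + i.val < 2) := by omega
      simp only [submatrix_apply, fromBlocks_apply₂₁, corner, of_apply, eqv_inl, eqv_inr,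
        EmbeddingLike.apply_eq_iff_eq, h, dif_neg, not_false_eq_true, reduceCtorEq, if_false,
        dite_eq_ite, ite_self]
      rfl
    · have h : ¬ (3 + i.val < 2) := by omega
      simp only [submatrix_apply, fromBlocks_apply₂₂, corner, of_apply, eqv_inr,
        EmbeddingLike.apply_eq_iff_eq, h, dif_neg, not_false_eq_true, Sum.inr.injEq, one_apply]
  rw [← key]
  ext i j
  simp [coe_reindexAlgEquiv, reindex_apply]

end Emb

open Emb

/-- C18. From `SL₃` to `SL_k`. -/
theorem claimEmb : ClaimEmb := by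
  rintro r k A ⟨L, hL, hA⟩
  refine ⟨(L.map (TransvectionStruct.sumInl (Fin k))).map (TransvectionStruct.reindexEquiv (eqv k)),
    by simpa using hL, ?_⟩
  rw [corner_eq, hA, List.map_map, TransvectionStruct.toMatrix_reindexEquiv_prod]
  congr 1
  have h := TransvectionStruct.sumInl_toMatrix_prod_mul (p := Fin k)
    (1 : Matrix (Fin 3) (Fin 3) ℤ) L 1
  rw [fromBlocks_one, Matrix.mul_one, Matrix.mul_one] at h
  rw [List.map_map, h]

end Pool.Agent.IntComm
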