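import Pool.Agent.Work.MP_584b0c_al.Api

set_option autoImplicit false

/-!
D5: extension by several Krylov strings.
-/

namespace Pool.Agent.IntComm

open Matrix

namespace ExtItem

/-- A subfamily of independent columns is independent. -/
theorem PInd.sub {n ρ ρ' : Type} [Fintype ρ] [Fintype ρ'] {S : Matrix n ρ ℤ} (hS : PInd S)
    (f : ρ' → ρ) (hf : Function.Injective f) : PInd (S.submatrix id f) := by
  intro p hp x hx
  have hy : (S.map (Int.cast : ℤ → ZMod p)).mulVec (Function.extend f x 0) = 0 := by
    rw [← hx]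
    funext k
    rw [mulVec, mulVec, dotProduct, dotProduct]
    symm
    refine Fintype.sum_of_injective f hf _ _ ?_ ?_
    · intro r hr
      rw [Function.extend_apply' _ _ _ (fun ⟨i, hi⟩ => hr ⟨i, hi⟩), Pi.zero_apply, mul_zero]
    · intro i
      rw [hf.extend_apply]
      rfl
  have hz := hS p hp _ hy
  funext i
  have := congrFun hz (f i)
  rwa [hf.extend_apply] at this

/-- The index map of the step. -/
def fidx (d t : ℕ) (ι : Type) (p : Fin d × (ι ⊕ Fin (t + 1))) :
    (Fin d × (ι ⊕ Fin t)) ⊕ Fin d :=
  match p.2 with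
  | Sum.inl i => Sum.inl (p.1, Sum.inl i)
  | Sum.inr j => Fin.lastCases (motive := fun _ => (Fin d × (ι ⊕ Fin t)) ⊕ Fin d)
      (Sum.inr p.1) (fun j' => Sum.inl (p.1, Sum.inr j')) j

theorem fidx_inl (d t : ℕ) (ι : Type) (a : Fin d) (i : ι) :
    fidx d t ι (a, Sum.inl i) = Sum.inl (a, Sum.inl i) := rfl

theorem fidx_cast (d t : ℕ) (ι : Type) (a : Fin d) (j : Fin t) :
    fidx d t ι (a, Sum.inr j.castSucc) = Sum.inl (a, Sum.inr j) := by
  simp only [fidx, Fin.lastCases_castSucc]

theorem fidx_last (d t : ℕ) (ι : Type) (a : Fin d) :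
    fidx d t ι (a, Sum.inr (Fin.last t)) = Sum.inr a := by
  simp only [fidx, Fin.lastCases_last]

theorem fidx_inj (d t : ℕ) (ι : Type) : Function.Injective (fidx d t ι) := by
  let g : (Fin d × (ι ⊕ Fin t)) ⊕ Fin d → Fin d × (ι ⊕ Fin (t + 1)) := fun s =>
    match s with
    | Sum.inl (a, Sum.inl i) => (a, Sum.inl i)
    | Sum.inl (a, Sum.inr j) => (a, Sum.inr j.castSucc)
    | Sum.inr a => (a, Sum.inr (Fin.last t))
  have hg : Function.LeftInverse g (fidx d t ι) := by
    rintro ⟨a, i | j⟩
    · rfl
    · induction j using Fin.lastCases with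
      | last => rw [fidx_last]
      | cast j => rw [fidx_cast]
  exact hg.injective

end ExtItem

open ExtItem in
theorem claimExt (h : ClaimStep) : ClaimExt := by
  intro n ι ν _ _ _ _ _ _ C V G d κ₀ t B hKB hcard hV hG
  induction t with
  | zero =>
    refine ⟨0, ?_⟩
    have hs : Kry C (fromCols V (B + G * (0 : Matrix ν (Fin 0) ℤ))) d =
        (Kry C V d).submatrix id (fun p : Fin d × (ι ⊕ Fin 0) =>
          (p.1, p.2.elim id (fun j => j.elim0))) := by
      ext i p
      obtain ⟨a, c | c⟩ := p
      · show (C ^ (a : ℕ) * fromCols V (B + G * (0 : Matrix ν (Fin 0) ℤ))) i (Sum.inl c) =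
          (C ^ (a : ℕ) * V) i c
        rw [mul_fromCols, fromCols_apply_inl]
      · exact c.elim0
    rw [hs]
    refine PInd.sub hV _ ?_
    rintro ⟨a, c | c⟩ ⟨a', c' | c'⟩ hh
    · simp only [Sum.elim_inl, id, Prod.mk.injEq] at hh
      rw [hh.1, hh.2]
    · exact c'.elim0
    · exact c.elim0
    · exact c.elim0
  | succ t ih =>
    obtain ⟨Xt, hXt⟩ := ih (B.submatrix id Fin.castSucc) (by
      refine le_trans ?_ hcard
      have : d * (Fintype.card ι + t) ≤ d * (Fintype.card ι + (t + 1)) :=
        Nat.mul_le_mul_left _ (by omega)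
      omega)
    obtain ⟨x, hx⟩ := h n (Fin d × (ι ⊕ Fin t)) ν C _ G (fun k => B k (Fin.last t)) d κ₀ hKB (by
      rw [Fintype.card_prod, Fintype.card_sum, Fintype.card_fin, Fintype.card_fin]
      refine le_trans (le_of_eq ?_) hcard
      ring) hXt hG
    refine ⟨Matrix.of fun r j => Fin.lastCases (motive := fun _ => ℤ) (x r) (fun j' => Xt r j') j,
      ?_⟩
    set X : Matrix ν (Fin (t + 1)) ℤ :=
      Matrix.of fun r j => Fin.lastCases (motive := fun _ => ℤ) (x r) (fun j' => Xt r j') j with hX
    have hXc : ∀ r (j : Fin t), X r j.castSucc = Xt r j := by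
      intro r j
      rw [hX, Matrix.of_apply, Fin.lastCases_castSucc]
    have hXl : ∀ r, X r (Fin.last t) = x r := by
      intro r
      rw [hX, Matrix.of_apply, Fin.lastCases_last]
    have hs : Kry C (fromCols V (B + G * X)) d =
        (fromCols (Kry C (fromCols V (B.submatrix id Fin.castSucc + G * Xt)) d)
          (Kry1 C ((fun k => B k (Fin.last t)) + G.mulVec x) d)).submatrix id (fidx d t ι) := by
      ext i p
      obtain ⟨a, c | c⟩ := p
      · rw [submatrix_apply, fidx_inl, fromCols_apply_inl]
        show (C ^ (a : ℕ) * fromCols V (B + G * X)) i (Sum.inl c) =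
          (C ^ (a : ℕ) * fromCols V (B.submatrix id Fin.castSucc + G * Xt)) i (Sum.inl c)
        rw [mul_fromCols, mul_fromCols, fromCols_apply_inl, fromCols_apply_inl]
      · induction c using Fin.lastCases with
        | last =>
          rw [submatrix_apply, fidx_last, fromCols_apply_inr]
          show (C ^ (a : ℕ) * fromCols V (B + G * X)) i (Sum.inr (Fin.last t)) =
            (C ^ (a : ℕ)).mulVec ((fun k => B k (Fin.last t)) + G.mulVec x) i
          rw [mul_fromCols, fromCols_apply_inr, mul_apply, mulVec, dotProduct]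
          refine Finset.sum_congr rfl fun k _ => ?_
          rw [Matrix.add_apply, mul_apply, Pi.add_apply, mulVec, dotProduct]
          simp only [hXl]
        | cast c =>
          rw [submatrix_apply, fidx_cast, fromCols_apply_inl]
          show (C ^ (a : ℕ) * fromCols V (B + G * X)) i (Sum.inr c.castSucc) =
            (C ^ (a : ℕ) * fromCols V (B.submatrix id Fin.castSucc + G * Xt)) i (Sum.inr c)
          rw [mul_fromCols, mul_fromCols, fromCols_apply_inr, fromCols_apply_inr, mul_apply,
            mul_apply]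
          refine Finset.sum_congr rfl fun k _ => ?_
          rw [Matrix.add_apply, mul_apply, Matrix.add_apply, mul_apply]
          simp only [hXc]
          rfl
    rw [hs]
    exact PInd.sub hx _ (fidx_inj d t ι)

end Pool.Agent.IntComm
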