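import Pool.Agent.Work.MP_584b0c_al.Api

set_option autoImplicit false

namespace Pool.Agent.IntComm

open Matrix Polynomial

namespace Fact

theorem pc_append {n : Type} [Fintype n] [DecidableEq n] : ∀ (Fs Gs : List ℤ[X])
    (D E : Matrix n n ℤ), ProdComm Fs D → ProdComm Gs E → ProdComm (Fs ++ Gs) (D * E)
  | [], Gs, D, E, h, h' => by
      have hD : D = 1 := h
      rw [hD, one_mul]
      exact h'
  | F :: Fs, Gs, D, E, h, h' => by
      obtain ⟨X, g, hX, D', hD', hD⟩ := h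
      refine ⟨X, g, hX, D' * E, pc_append Fs Gs D' E hD' h', ?_⟩
      rw [hD, mul_assoc]

theorem pc_sub {n m : Type} [Fintype n] [DecidableEq n] [Fintype m] [DecidableEq m] (e : m ≃ n) :
    ∀ (Fs : List ℤ[X]) (D : Matrix n n ℤ), ProdComm Fs D → ProdComm Fs (D.submatrix e e)
  | [], D, h => by
      have hD : D = 1 := h
      show D.submatrix e e = 1
      rw [hD]
      exact Matrix.submatrix_one_equiv e
  | F :: Fs, D, h => by
      obtain ⟨X, g, hX, D', hD', hD⟩ := h
      have hφ : ∀ M : Matrix n n ℤ, Matrix.reindexAlgEquiv ℤ ℤ e.symm M = M.submatrix e e := by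
        intro M
        rfl
      refine ⟨Units.map (Matrix.reindexAlgEquiv ℤ ℤ e.symm : Matrix n n ℤ →* Matrix m m ℤ) X,
        Units.map (Matrix.reindexAlgEquiv ℤ ℤ e.symm : Matrix n n ℤ →* Matrix m m ℤ) g, ?_,
        D'.submatrix e e, pc_sub e Fs D' hD', ?_⟩
      · have h1 := Polynomial.aeval_algHom_apply
          (Matrix.reindexAlgEquiv ℤ ℤ e.symm : Matrix n n ℤ →ₐ[ℤ] Matrix m m ℤ)
          (X : Matrix n n ℤ) F
        rw [hX, map_zero] at h1
        exact h1
      · rw [← map_inv, ← map_inv, ← map_mul, ← map_mul, ← map_mul]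
        rw [Units.coe_map]
        show D.submatrix e e = (Matrix.reindexAlgEquiv ℤ ℤ e.symm
          ((X * g * X⁻¹ * g⁻¹ : (Matrix n n ℤ)ˣ) : Matrix n n ℤ)) * D'.submatrix e e
        rw [← hφ D, ← hφ D', ← map_mul, ← hD]

theorem good_mul {n : Type} [Fintype n] [DecidableEq n] {m r s : ℕ} {S T : Matrix n n ℤ}
    (hS : Good m r S) (hT : Good m s T) : Good m (r + s) (S * T) := by
  intro Fs hl hF
  rw [← List.take_append_drop r Fs]
  refine pc_append _ _ _ _ (hS _ ?_ ?_) (hT _ ?_ ?_)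
  · rw [List.length_take, hl]; omega
  · exact fun F hF' => hF F (List.mem_of_mem_take hF')
  · rw [List.length_drop, hl]; omega
  · exact fun F hF' => hF F (List.mem_of_mem_drop hF')

end Fact

theorem claimFact (h5 : ClaimElGood) (h8 : ClaimUp) (h9 : ClaimLo) (h12 : ClaimULUL)
    (h17 : ClaimCK) (h18 : ClaimEmb) : ClaimFact := by
  intro m hm κ _ _ hκ Fs hFs hlen D hD
  obtain ⟨k, hk⟩ : ∃ k, k + 3 = 2 * m := ⟨2 * m - 3, by omega⟩
  have e : κ ≃ Fin (k + 3) := Fintype.equivOfCardEq (by rw [hκ, Fintype.card_fin, hk])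
  have hD' : (D.submatrix e.symm e.symm).det = 1 :=
    (Matrix.det_submatrix_equiv_self e.symm D).trans hD
  obtain ⟨u, l, u', l', A, hu, hl, hu', hl', hA, hfac⟩ := h12 (k + 1) (D.submatrix e.symm e.symm) hD'
  have hm0 : 0 < m := by omega
  have g1 : Good m 3 u := h8 m (k + 3) hm0 hk u hu
  have g2 : Good m 3 l := h9 m (k + 3) hm0 hk l hl
  have g3 : Good m 3 u' := h8 m (k + 3) hm0 hk u' hu'
  have g4 : Good m 3 l' := h9 m (k + 3) hm0 hk l' hl'
  have g5 : Good m 80 (corner A : Matrix (Fin (k + 3)) (Fin (k + 3)) ℤ) :=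
    h5 m 80 hm0 (Fin (k + 3)) (by rw [Fintype.card_fin, hk]) _ (h18 80 k A (h17 A hA))
  have g6 : Good m (Fs.length - 92) (1 : Matrix (Fin (k + 3)) (Fin (k + 3)) ℤ) :=
    h5 m _ hm0 (Fin (k + 3)) (by rw [Fintype.card_fin, hk]) _ ⟨[], Nat.zero_le _, by simp⟩
  have g7 := Fact.good_mul (Fact.good_mul (Fact.good_mul (Fact.good_mul (Fact.good_mul g1 g2) g3) g5)
    g4) g6
  have hfac' : D.submatrix e.symm e.symm = u * l * u' * corner A * l' * 1 := by
    rw [mul_one]; exact hfac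
  have g8 : ProdComm Fs (D.submatrix e.symm e.symm) := by
    rw [hfac']
    exact g7 Fs (by omega) hFs
  have g9 := Fact.pc_sub e Fs _ g8
  rw [Matrix.submatrix_submatrix] at g9
  simpa using g9

end Pool.Agent.IntComm
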