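import Pool.Agent.Work.MP_584b0c_al.Api

set_option autoImplicit false

/-! MP_584b0c_al, item D3: only finitely many primes are bad. -/

namespace Pool.Agent.IntComm

open Matrix Polynomial

theorem claimFin : ClaimFin := by
  intro n ρ _ _ _ _ S p hp hS
  haveI : Fact p.Prime := ⟨hp⟩
  set f := Int.castRingHom (ZMod p) with hf
  have hinj : LinearMap.ker (Matrix.toLin' (S.map (Int.cast : ℤ → ZMod p))) = ⊥ := by
    rw [LinearMap.ker_eq_bot']
    intro x hx
    exact hS x (by simpa [Matrix.toLin'_apply] using hx)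
  obtain ⟨g, hg⟩ := LinearMap.exists_leftInverse_of_injective _ hinj
  have hR0 : (LinearMap.toMatrix' g) * (S.map (Int.cast : ℤ → ZMod p)) = 1 := by
    have h1 := congrArg LinearMap.toMatrix' hg
    rw [LinearMap.toMatrix'_comp, LinearMap.toMatrix'_toLin', LinearMap.toMatrix'_id] at h1
    exact h1
  have hlift : ∃ R : Matrix ρ n ℤ, R.map (Int.cast : ℤ → ZMod p) = LinearMap.toMatrix' g := by
    have h2 : ∀ i j, ∃ z : ℤ, (z : ZMod p) = (LinearMap.toMatrix' g) i j := fun i j =>
      ZMod.intCast_surjective _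
    choose R hR using h2
    exact ⟨Matrix.of R, by ext i j; exact hR i j⟩
  obtain ⟨R, hR⟩ := hlift
  have hdet : ((R * S).det : ZMod p) = 1 := by
    have h3 : f (R * S).det = (f.mapMatrix (R * S)).det := RingHom.map_det f (R * S)
    have h4 : f.mapMatrix (R * S) = 1 := by
      rw [← hR0, ← hR]
      exact Matrix.map_mul (f := f)
    rw [h4, Matrix.det_one] at h3
    exact h3
  have hne : (R * S).det ≠ 0 := by
    intro h
    rw [h] at hdet
    simp at hdet
  refine Set.Finite.subset (Nat.divisors (R * S).det.natAbs).finite_toSet ?_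
  rintro q ⟨hq, hbad⟩
  haveI : Fact q.Prime := ⟨hq⟩
  rw [Finset.mem_coe, Nat.mem_divisors]
  refine ⟨?_, by simpa using hne⟩
  by_contra hnd
  apply hbad
  intro x hx
  have hdq : ((R * S).map (Int.cast : ℤ → ZMod q)).det ≠ 0 := by
    have h3 : (Int.castRingHom (ZMod q)) (R * S).det =
        ((Int.castRingHom (ZMod q)).mapMatrix (R * S)).det := RingHom.map_det _ (R * S)
    intro h
    have h5 : ((R * S).det : ZMod q) = 0 := h3.trans h
    rw [ZMod.intCast_zmod_eq_zero_iff_dvd] at h5
    exact hnd (Int.natCast_dvd.1 h5)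
  refine Matrix.eq_zero_of_mulVec_eq_zero hdq ?_
  have h6 : (R * S).map (Int.cast : ℤ → ZMod q) =
      R.map (Int.cast : ℤ → ZMod q) * S.map (Int.cast : ℤ → ZMod q) :=
    Matrix.map_mul (f := Int.castRingHom (ZMod q))
  rw [h6, ← Matrix.mulVec_mulVec, hx, Matrix.mulVec_zero]

end Pool.Agent.IntComm
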