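import Pool.Agent.Work.MP_584b0c_al.Api

set_option autoImplicit false

namespace Pool.Agent.IntComm

open Matrix Polynomial

namespace Frame

theorem row_rows {τ σ : Type} : ∀ (q : ℕ) {p p' : Type} (f : p' → p) (P : Matrix p (τ ⊕ σ) ℤ),
    row q (P.submatrix f id) = (row q P).submatrix f id
  | 0, p, p', f, P => by
      show fromCols (fromCols (P.submatrix f id).toCols₁ 0) (P.submatrix f id).toCols₂ =
        (fromCols (fromCols P.toCols₁ 0) P.toCols₂).submatrix f id
      ext i j
      rcases j with (j | j) | j <;> simp [Matrix.toCols₁, Matrix.toCols₂]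
  | q + 1, p, p', f, P => by
      show fromCols 0 (row q (P.submatrix f id)) =
        (fromCols (0 : Matrix p (τ ⊕ σ) ℤ) (row q P)).submatrix f id
      rw [row_rows q f P]
      ext i j
      rcases j with j | j <;> simp

theorem sub_cols {n p ι r s : Type} [Fintype p] [Fintype ι] {M : Matrix n r ℤ} {g : Matrix n p ℤ}
    {F : Matrix n ι ℤ} {G : Matrix p r ℤ} {H : Matrix ι r ℤ} (h : M = g * G + F * H) (f : s → r) :
    M.submatrix id f = g * G.submatrix id f + F * H.submatrix id f := by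
  rw [h]
  rfl

theorem zero_aux {n τ σ p : Type} [Fintype n] [DecidableEq n] [Fintype τ] [DecidableEq τ]
    [Fintype σ] [DecidableEq σ] [Fintype p] (C : Matrix n n ℤ) (V : Matrix n (τ ⊕ σ) ℤ)
    (g : Matrix n p ℤ) (G : Matrix p ((τ ⊕ σ) ⊕ σ) ℤ)
    (H : Matrix ((τ ⊕ σ) ⊕ σ) ((τ ⊕ σ) ⊕ σ) ℤ) (Y₀ : Matrix p τ ℤ)
    (Y : Matrix ((τ ⊕ σ) ⊕ σ) τ ℤ)
    (inj : ∀ (r : Type) (a a' : Matrix p r ℤ) (b b' : Matrix ((τ ⊕ σ) ⊕ σ) r ℤ),
      g * a + fromCols V (C * V).toCols₂ * b = g * a' + fromCols V (C * V).toCols₂ * b' →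
        a = a' ∧ b = b')
    (heq : C * fromCols V (C * V).toCols₂ = g * G + fromCols V (C * V).toCols₂ * H)
    (hlast : (C ^ 1 * V).toCols₁ = g * Y₀ + fromCols V (C * V).toCols₂ * Y)
    (hY : ∀ (t : σ) (a : τ), Y (Sum.inr t) a = 0) :
    (∃ P₀ : Matrix p (τ ⊕ σ) ℤ, G = fromCols (fromCols P₀.toCols₁ 0) P₀.toCols₂) ∧
    ∃ (P : Matrix (τ ⊕ σ) (τ ⊕ σ) ℤ) (γ : Matrix σ σ ℤ),
      H = fromBlocks (fromCols P.toCols₁ 0) P.toCols₂ (fromCols (0 : Matrix σ τ ℤ) 1) γ := by
  rw [mul_fromCols] at heq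
  have h1 := sub_cols heq (fun a : τ => Sum.inl (Sum.inl a))
  have h2 := sub_cols heq (fun a : σ => Sum.inl (Sum.inr a))
  have e1 : (fromCols (C * V) (C * (C * V).toCols₂)).submatrix id
      (fun a : τ => Sum.inl (Sum.inl a)) = (C ^ 1 * V).toCols₁ := by
    ext i j; simp [Matrix.toCols₁]
  have e2 : (fromCols (C * V) (C * (C * V).toCols₂)).submatrix id
      (fun a : σ => Sum.inl (Sum.inr a)) =
      g * (0 : Matrix p σ ℤ) + fromCols V (C * V).toCols₂ *
        fromRows (0 : Matrix (τ ⊕ σ) σ ℤ) (1 : Matrix σ σ ℤ) := by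
    rw [fromCols_mul_fromRows]
    ext i j; simp [Matrix.toCols₂]
  rw [e1, hlast] at h1
  rw [e2] at h2
  obtain ⟨g1, y1⟩ := inj _ _ _ _ _ h1
  obtain ⟨g2, y2⟩ := inj _ _ _ _ _ h2
  constructor
  · refine ⟨fromCols Y₀ (G.submatrix id Sum.inr), ?_⟩
    ext i j
    rcases j with (j | j) | j
    · simpa using (congrFun (congrFun g1 i) j).symm
    · simpa using (congrFun (congrFun g2 i) j).symm
    · simp
  · refine ⟨fromCols (Y.submatrix Sum.inl id) (H.submatrix Sum.inl Sum.inr),
      H.submatrix Sum.inr Sum.inr, ?_⟩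
    ext i j
    rcases j with (j | j) | j
    · have := (congrFun (congrFun y1 i) j).symm
      rcases i with i | i
      · simpa using this
      · rw [hY] at this
        simpa using this
    · have := (congrFun (congrFun y2 i) j).symm
      rcases i with i | i
      · simpa using this
      · simpa using this
    · rcases i with i | i <;> simp

theorem succ_aux {n κ ι p : Type} [Fintype n] [DecidableEq n] [Fintype κ] [DecidableEq κ]
    [Fintype ι] [DecidableEq ι] [Fintype p] (C : Matrix n n ℤ) (V : Matrix n κ ℤ)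
    (R : Matrix n ι ℤ)
    (g : Matrix n p ℤ) (G : Matrix p (κ ⊕ (κ ⊕ ι)) ℤ)
    (H : Matrix (κ ⊕ (κ ⊕ ι)) (κ ⊕ (κ ⊕ ι)) ℤ)
    (inj : ∀ (r : Type) (a a' : Matrix p r ℤ) (b b' : Matrix (κ ⊕ (κ ⊕ ι)) r ℤ),
      g * a + fromCols V (fromCols (C * V) R) * b = g * a' + fromCols V (fromCols (C * V) R) * b' →
        a = a' ∧ b = b')
    (heq : C * fromCols V (fromCols (C * V) R) = g * G + fromCols V (fromCols (C * V) R) * H) :
    G = fromCols 0 (G.submatrix id Sum.inr) ∧
    H = fromBlocks 0 (H.submatrix Sum.inl Sum.inr)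
      (fromRows (1 : Matrix κ κ ℤ) (0 : Matrix ι κ ℤ)) (H.submatrix Sum.inr Sum.inr) ∧
    C * fromCols (C * V) R = fromCols g V *
      fromRows (G.submatrix id Sum.inr) (H.submatrix Sum.inl Sum.inr) +
      fromCols (C * V) R * H.submatrix Sum.inr Sum.inr := by
  rw [mul_fromCols] at heq
  have h1 := sub_cols heq (fun a : κ => Sum.inl a)
  have h2 := sub_cols heq (fun a : κ ⊕ ι => Sum.inr a)
  have e1 : (fromCols (C * V) (C * fromCols (C * V) R)).submatrix id (fun a : κ => Sum.inl a) =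
      g * (0 : Matrix p κ ℤ) + fromCols V (fromCols (C * V) R) *
        fromRows (0 : Matrix κ κ ℤ) (fromRows (1 : Matrix κ κ ℤ) (0 : Matrix ι κ ℤ)) := by
    rw [fromCols_mul_fromRows, fromCols_mul_fromRows]
    ext i j; simp
  rw [e1] at h1
  obtain ⟨g1, y1⟩ := inj _ _ _ _ _ h1
  refine ⟨?_, ?_, ?_⟩
  · ext i j
    rcases j with j | j
    · simpa using (congrFun (congrFun g1 i) j).symm
    · simp
  · ext i j
    rcases j with j | j
    · have := (congrFun (congrFun y1 i) j).symm
      rcases i with i | i | i <;> simpa using this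
    · rcases i with i | i <;> simp
  · have e2 : (fromCols (C * V) (C * fromCols (C * V) R)).submatrix id
        (fun a : κ ⊕ ι => Sum.inr a) = C * fromCols (C * V) R := by
      ext i j; simp
    rw [e2] at h2
    rw [h2, fromCols_mul_fromRows, add_assoc]
    congr 1
    have : H.submatrix id (fun a : κ ⊕ ι => Sum.inr a) =
        fromRows (H.submatrix Sum.inl Sum.inr) (H.submatrix Sum.inr Sum.inr) := by
      ext i j; rcases i with i | i <;> simp
    rw [this, fromCols_mul_fromRows]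

theorem regroup {n κ ι p r : Type} [Fintype n] [Fintype κ] [Fintype ι] [Fintype p]
    (g : Matrix n p ℤ) (V : Matrix n κ ℤ) (F : Matrix n ι ℤ) (a : Matrix p r ℤ)
    (Y : Matrix (κ ⊕ ι) r ℤ) :
    g * a + fromCols V F * Y =
      fromCols g V * fromRows a (Y.submatrix Sum.inl id) + F * Y.submatrix Sum.inr id := by
  have eY : Y = fromRows (Y.submatrix Sum.inl id) (Y.submatrix Sum.inr id) := by
    ext i j; rcases i with i | i <;> rfl
  conv_lhs => rw [eY]
  rw [fromCols_mul_fromRows, fromCols_mul_fromRows, add_assoc]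

theorem regroup' {n κ ι p r : Type} [Fintype n] [Fintype κ] [Fintype ι] [Fintype p]
    (g : Matrix n p ℤ) (V : Matrix n κ ℤ) (F : Matrix n ι ℤ) (a : Matrix (p ⊕ κ) r ℤ)
    (b : Matrix ι r ℤ) :
    fromCols g V * a + F * b =
      g * a.submatrix Sum.inl id + fromCols V F * fromRows (a.submatrix Sum.inr id) b := by
  have eY : a = fromRows (a.submatrix Sum.inl id) (a.submatrix Sum.inr id) := by
    ext i j; rcases i with i | i <;> rfl
  conv_lhs => rw [eY]
  rw [fromCols_mul_fromRows, fromCols_mul_fromRows, add_assoc]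

theorem general {n τ σ : Type} [Fintype n] [DecidableEq n] [Fintype τ] [DecidableEq τ]
    [Fintype σ] [DecidableEq σ] (C : Matrix n n ℤ) : ∀ (q : ℕ) (p : Type) [Fintype p]
    (g : Matrix n p ℤ) (V : Matrix n (τ ⊕ σ) ℤ) (G : Matrix p (Idx τ σ (q + 1)) ℤ)
    (H : Matrix (Idx τ σ (q + 1)) (Idx τ σ (q + 1)) ℤ)
    (Y₀ : Matrix p τ ℤ) (Y : Matrix (Idx τ σ (q + 1)) τ ℤ),
    (∀ (r : Type) (a a' : Matrix p r ℤ) (b b' : Matrix (Idx τ σ (q + 1)) r ℤ),
      g * a + frame C (q + 1) V * b = g * a' + frame C (q + 1) V * b' → a = a' ∧ b = b') →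
    C * frame C (q + 1) V = g * G + frame C (q + 1) V * H →
    (C ^ (q + 1) * V).toCols₁ = g * Y₀ + frame C (q + 1) V * Y →
    (∀ (t : σ) (a : τ), Y (lastIdx (q + 1) t) a = 0) →
    (∃ P₀ : Matrix p (τ ⊕ σ) ℤ, G = row q P₀) ∧ ∃ P : Matrix (τ ⊕ σ) (τ ⊕ σ) ℤ, IsH q P H
  | 0, p, _, g, V, G, H, Y₀, Y => by
      intro inj heq hlast hY
      exact zero_aux C V g G H Y₀ Y inj heq hlast hY
  | q + 1, p, _, g, V, G, H, Y₀, Y => by
      intro inj heq hlast hY
      obtain ⟨s1, s2, s3⟩ := succ_aux C V (frame C q (C * (C * V))) g G H inj heq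
      have := general C q (p ⊕ (τ ⊕ σ)) (fromCols g V) (C * V)
        (fromRows (G.submatrix id Sum.inr) (H.submatrix Sum.inl Sum.inr))
        (H.submatrix Sum.inr Sum.inr) (fromRows Y₀ (Y.submatrix Sum.inl id))
        (Y.submatrix Sum.inr id) ?_ s3 ?_ ?_
      · obtain ⟨⟨P₀, hP₀⟩, P, hP⟩ := this
        refine ⟨⟨P₀.submatrix Sum.inl id, ?_⟩, P₀.submatrix Sum.inr id, ?_⟩
        · show G = fromCols 0 (row q (P₀.submatrix Sum.inl id))
          rw [row_rows, ← hP₀]
          exact s1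
        · refine ⟨P, H.submatrix Sum.inr Sum.inr, hP, ?_⟩
          rw [row_rows, ← hP₀]
          exact s2
      · intro r a a' b b' hab
        have h3 := inj r (a.submatrix Sum.inl id) (a'.submatrix Sum.inl id)
          (fromRows (a.submatrix Sum.inr id) b) (fromRows (a'.submatrix Sum.inr id) b') ?_
        · obtain ⟨h4, h5⟩ := h3
          constructor
          · ext i j
            rcases i with i | i
            · simpa using congrFun (congrFun h4 i) j
            · simpa using congrFun (congrFun h5 (Sum.inl i)) j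
          · ext i j
            simpa using congrFun (congrFun h5 (Sum.inr i)) j
        · have r1 := regroup' g V (frame C (q + 1) (C * V)) a b
          have r2 := regroup' g V (frame C (q + 1) (C * V)) a' b'
          exact (r1.symm.trans hab).trans r2
      · have e : C ^ (q + 1) * (C * V) = C ^ (q + 1 + 1) * V := by
          rw [← Matrix.mul_assoc, ← pow_succ]
        rw [e]
        exact hlast.trans (regroup g V (frame C (q + 1) (C * V)) Y₀ Y)
      · intro t a
        exact hY t a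

end Frame

theorem claimFrame : ClaimFrame := by
  intro n τ σ _ _ _ _ _ _ C V q h' Y h1 h2 hY hY0
  refine (Frame.general C q Empty (0 : Matrix n Empty ℤ) V 0
    (h' * C * frame C (q + 1) V) 0 Y ?_ ?_ ?_ hY0).2
  · intro r a a' b b' hab
    refine ⟨Matrix.ext fun i => i.elim, ?_⟩
    rw [Matrix.zero_mul, Matrix.zero_mul, zero_add, zero_add] at hab
    have := congrArg (fun M => h' * M) hab
    simpa only [← Matrix.mul_assoc, h1, Matrix.one_mul] using this
  · rw [Matrix.zero_mul, zero_add, ← Matrix.mul_assoc, ← Matrix.mul_assoc, h2, Matrix.one_mul]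
  · rw [Matrix.zero_mul, zero_add]
    exact hY

end Pool.Agent.IntComm
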