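import Pool.Agent.Work.MP_584b0c_al.Api

set_option autoImplicit false

/-! D7. Existence of Krylov frames. -/

namespace Pool.Agent.IntComm

open Matrix Polynomial

namespace Frames

/-- The selection of columns as a matrix product. -/
lemma mul_sel {R n ρ ρ' : Type} [CommRing R] [Fintype ρ] [DecidableEq ρ]
    (S : Matrix n ρ R) (f : ρ' → ρ) :
    S * ((1 : Matrix ρ ρ R).submatrix id f) = S.submatrix id f := by
  ext i a
  simp [Matrix.mul_apply, Matrix.one_apply]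

lemma pind_sel {n ρ ρ' : Type} [Fintype ρ] [Fintype ρ'] (S : Matrix n ρ ℤ) (f : ρ' → ρ)
    (hf : Function.Injective f) (h : PInd S) : PInd (S.submatrix id f) := by
  classical
  intro p hp x hx
  have h1 := h p hp (((1 : Matrix ρ ρ (ZMod p)).submatrix id f).mulVec x) (by
    rw [Matrix.mulVec_mulVec, mul_sel]
    exact hx)
  funext a
  have h2 := congrFun h1 (f a)
  simp only [Matrix.mulVec, dotProduct, Matrix.submatrix_apply, id, Matrix.one_apply,
    Pi.zero_apply] at h2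
  rw [Finset.sum_eq_single a] at h2
  · simpa using h2
  · intro b _ hb
    rw [if_neg (fun h => hb (hf h).symm), zero_mul]
  · intro h; exact absurd (Finset.mem_univ a) h

/-- Krylov matrices of selected columns. -/
lemma kry_sel {n ρ ρ' : Type} [Fintype n] [DecidableEq n] (C : Matrix n n ℤ) (V : Matrix n ρ ℤ)
    (g : ρ' → ρ) {d d' : ℕ} (hd : d' ≤ d) :
    Kry C (V.submatrix id g) d' =
      (Kry C V d).submatrix id (fun a : Fin d' × ρ' => (Fin.castLE hd a.1, g a.2)) := by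
  ext i a
  simp [Kry, Matrix.mul_apply]

lemma pind_kry_sel {n ρ ρ' : Type} [Fintype n] [DecidableEq n] [Fintype ρ] [Fintype ρ']
    (C : Matrix n n ℤ) (V : Matrix n ρ ℤ) (g : ρ' → ρ) (hg : Function.Injective g) {d d' : ℕ}
    (hd : d' ≤ d) (h : PInd (Kry C V d)) : PInd (Kry C (V.submatrix id g) d') := by
  rw [kry_sel C V g hd]
  refine pind_sel _ _ ?_ h
  rintro ⟨a, b⟩ ⟨a', b'⟩ hab
  simp only [Prod.mk.injEq] at hab
  obtain ⟨h1, h2⟩ := hab
  exact Prod.ext (Fin.castLE_injective hd h1) (hg h2)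

/-- integer column span -/
def Span {n ρ : Type} [Fintype ρ] (S : Matrix n ρ ℤ) (y : n → ℤ) : Prop :=
  ∃ x : ρ → ℤ, S.mulVec x = y

lemma span_add {n ρ : Type} [Fintype ρ] (S : Matrix n ρ ℤ) {y z : n → ℤ} (hy : Span S y)
    (hz : Span S z) : Span S (y + z) := by
  obtain ⟨x, rfl⟩ := hy
  obtain ⟨x', rfl⟩ := hz
  exact ⟨x + x', Matrix.mulVec_add _ _ _⟩

lemma span_sel {n ρ ρ' : Type} [Fintype ρ] [Fintype ρ'] (S : Matrix n ρ ℤ) (f : ρ' → ρ)
    (x : ρ' → ℤ) : Span S ((S.submatrix id f).mulVec x) := by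
  classical
  refine ⟨((1 : Matrix ρ ρ ℤ).submatrix id f).mulVec x, ?_⟩
  rw [Matrix.mulVec_mulVec, mul_sel]

lemma pind_one {n : Type} [Fintype n] [DecidableEq n] : PInd (1 : Matrix n n ℤ) := by
  intro p _ x hx
  rw [Matrix.map_one _ Int.cast_zero Int.cast_one, Matrix.one_mulVec] at hx
  exact hx

end Frames

open Frames

theorem claimFrames (h5 : ClaimExt) (h6 : ClaimComplete) : ClaimFrames := by
  intro N Q e k s j₀ δ C hQ hKB hN1 hN2 hk hδ hj hs
  -- phase 1
  obtain ⟨X1, hX1⟩ := h5 (Fin N) (Fin 0) (Fin N) C 0 1 (Q + 1) (Q * e) j₀ 0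
    (by simpa using hKB (Q + 1))
    (by simp only [Fintype.card_fin]; rw [hN2]; nlinarith)
    (by
      intro p _ x _
      funext a
      exact a.2.elim0)
    pind_one
  set V1 : Matrix (Fin N) (Fin j₀) ℤ := X1 with hV1
  have hS1 : PInd (Kry C V1 (Q + 1)) := by
    have := pind_kry_sel C _ (Sum.inr : Fin j₀ → Fin 0 ⊕ Fin j₀) Sum.inr_injective le_rfl hX1
    have h1 : (fromCols (0 : Matrix (Fin N) (Fin 0) ℤ)
        (0 + (1 : Matrix (Fin N) (Fin N) ℤ) * X1)).submatrix id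
        (Sum.inr : Fin j₀ → Fin 0 ⊕ Fin j₀) = V1 := by
      rw [zero_add, Matrix.one_mul]
      ext i a; simp [hV1]
    rwa [h1] at this
  have hS1Q : PInd (Kry C V1 Q) := by
    have := pind_kry_sel C V1 id Function.injective_id (Nat.le_succ Q) hS1
    simpa using this
  -- phase 2
  set S1 := Kry C V1 (Q + 1) with hS1def
  obtain ⟨B, K, L, -, -, -, -, hBKL⟩ := h6 (Fin N) (Fin (Q + 1) × Fin j₀) S1 δ hS1 (by
    simp only [Fintype.card_prod, Fintype.card_fin]; exact hN2)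
  obtain ⟨X2, hX2⟩ := h5 (Fin N) (Fin j₀) (Fin (Q + 1) × Fin j₀) C V1 S1 Q ((Q - 1) * e) δ B
    (hKB Q)
    (by
      simp only [Fintype.card_prod, Fintype.card_fin]
      nlinarith)
    hS1Q hS1
  set V2 : Matrix (Fin N) (Fin δ) ℤ := B + S1 * X2 with hV2
  -- phase 3
  obtain ⟨t, rfl⟩ : ∃ t, k = j₀ + δ + t := ⟨k - (j₀ + δ), by omega⟩
  obtain ⟨X3, hX3⟩ := h5 (Fin N) (Fin j₀ ⊕ Fin δ) (Fin N) C (fromCols V1 V2) 1 Q ((Q - 1) * e) t 0
    (hKB Q)
    (by
      simp only [Fintype.card_sum, Fintype.card_fin]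
      rw [hN1]
      nlinarith)
    hX2 pind_one
  set V3 : Matrix (Fin N) (Fin t) ℤ := X3 with hV3
  have hcard : Fintype.card (Fin (j₀ + δ + t)) = Fintype.card ((Fin j₀ ⊕ Fin δ) ⊕ Fin t) := by
    simp
  let σ : Fin (j₀ + δ + t) ≃ (Fin j₀ ⊕ Fin δ) ⊕ Fin t := Fintype.equivOfCardEq hcard
  set W : Matrix (Fin N) ((Fin j₀ ⊕ Fin δ) ⊕ Fin t) ℤ := fromCols (fromCols V1 V2) V3 with hW
  have hW3 : PInd (Kry C W Q) := by
    have h1 : fromCols (fromCols V1 V2) (0 + (1 : Matrix (Fin N) (Fin N) ℤ) * X3) = W := by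
      rw [zero_add, Matrix.one_mul]
    rwa [h1] at hX3
  refine ⟨W.submatrix id σ, pind_kry_sel C W σ σ.injective le_rfl hW3, ?_⟩
  intro y
  have hy : y = S1.mulVec (K.mulVec y - X2.mulVec (L.mulVec y)) + V2.mulVec (L.mulVec y) := by
    have h1 : (S1 * K + B * L).mulVec y = y := by rw [hBKL, Matrix.one_mulVec]
    rw [Matrix.add_mulVec, ← Matrix.mulVec_mulVec, ← Matrix.mulVec_mulVec] at h1
    rw [hV2, Matrix.add_mulVec, Matrix.mulVec_sub, ← Matrix.mulVec_mulVec (L.mulVec y) S1 X2]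
    conv_lhs => rw [← h1]
    abel
  rw [hy]
  refine span_add _ ?_ ?_
  · have h1 : S1 = (Kry C (W.submatrix id σ) (Q + 1)).submatrix id
        (fun a : Fin (Q + 1) × Fin j₀ => (a.1, σ.symm (Sum.inl (Sum.inl a.2)))) := by
      ext i a
      simp [hS1def, Kry, Matrix.mul_apply, hW]
    rw [h1]
    exact span_sel _ _ _
  · have h1 : V2 = (Kry C (W.submatrix id σ) (Q + 1)).submatrix id
        (fun a : Fin δ => ((0 : Fin (Q + 1)), σ.symm (Sum.inl (Sum.inr a)))) := by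
      ext i a
      simp [Kry, hW]
    generalize L.mulVec y = z
    rw [h1]
    exact span_sel _ _ _

end Pool.Agent.IntComm
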