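import Pool.Agent.Work.MP_584b0c_al.Api

set_option autoImplicit false

/-! C7: the Krylov matrix of `T * compan f` (with `T` upper unitriangular) is upper unitriangular. -/

namespace Pool.Agent.IntComm

open Matrix Polynomial

namespace Hess

theorem mul_compan_apply {k : ℕ} (f : ℤ[X]) (T : Matrix (Fin k) (Fin k) ℤ) (i j : Fin k)
    (hj : j.val + 1 < k) : (T * (compan f : Matrix (Fin k) (Fin k) ℤ)) i j =
      T i ⟨j.val + 1, hj⟩ := by
  rw [Matrix.mul_apply, Finset.sum_eq_single (⟨j.val + 1, hj⟩ : Fin k)]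
  · have : (compan f : Matrix (Fin k) (Fin k) ℤ) ⟨j.val + 1, hj⟩ j = 1 := by
      unfold compan
      rw [Matrix.of_apply, if_neg (ne_of_lt hj), if_pos rfl]
    rw [this, mul_one]
  · intro l _ hl
    have : (compan f : Matrix (Fin k) (Fin k) ℤ) l j = 0 := by
      unfold compan
      rw [Matrix.of_apply, if_neg (ne_of_lt hj), if_neg]
      intro h
      exact hl (Fin.ext h)
    rw [this, mul_zero]
  · intro h
    exact absurd (Finset.mem_univ _) h

theorem key {k : ℕ} (f : ℤ[X]) (T : Matrix (Fin k) (Fin k) ℤ) (hT : UpU T) (v : Fin k → ℤ)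
    (hv : ∀ i : Fin k, v i = if i.val = 0 then 1 else 0) :
    ∀ (a : ℕ), a < k → ∀ i : Fin k,
      (i.val = a → ((T * (compan f : Matrix (Fin k) (Fin k) ℤ)) ^ a).mulVec v i = 1) ∧
      (a < i.val → ((T * (compan f : Matrix (Fin k) (Fin k) ℤ)) ^ a).mulVec v i = 0) := by
  intro a
  induction a with
  | zero =>
    intro _ i
    rw [pow_zero, Matrix.one_mulVec, hv i]
    refine ⟨fun h => if_pos h, fun h => if_neg (ne_of_gt h)⟩
  | succ a ih =>
    intro ha i
    have ih' := ih (Nat.lt_of_succ_lt ha)
    rw [pow_succ', ← Matrix.mulVec_mulVec]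
    set w := ((T * (compan f : Matrix (Fin k) (Fin k) ℤ)) ^ a).mulVec v with hw
    refine ⟨fun h => ?_, fun h => ?_⟩
    · show ∑ j, (T * (compan f : Matrix (Fin k) (Fin k) ℤ)) i j * w j = 1
      rw [Finset.sum_eq_single (⟨a, Nat.lt_of_succ_lt ha⟩ : Fin k)]
      · rw [mul_compan_apply f T i _ ha, (ih' ⟨a, Nat.lt_of_succ_lt ha⟩).1 rfl, mul_one]
        have : (⟨a + 1, ha⟩ : Fin k) = i := Fin.ext h.symm
        show T i (⟨a + 1, ha⟩ : Fin k) = 1
        rw [this]
        exact hT.1 i
      · intro j _ hj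
        rcases lt_trichotomy j.val a with h1 | h1 | h1
        · have h2 : j.val + 1 < k := by omega
          rw [mul_compan_apply f T i j h2, hT.2 i _ (by
            show j.val + 1 < i.val
            omega), zero_mul]
        · exact absurd (Fin.ext h1) hj
        · rw [(ih' j).2 h1, mul_zero]
      · intro h'
        exact absurd (Finset.mem_univ _) h'
    · show ∑ j, (T * (compan f : Matrix (Fin k) (Fin k) ℤ)) i j * w j = 0
      refine Finset.sum_eq_zero fun j _ => ?_
      rcases Nat.lt_or_ge a j.val with h1 | h1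
      · rw [(ih' j).2 h1, mul_zero]
      · have h2 : j.val + 1 < k := by omega
        rw [mul_compan_apply f T i j h2, hT.2 i _ (by
          show j.val + 1 < i.val
          omega), zero_mul]

end Hess

theorem claimHess : ClaimHess := by
  intro k f T hT v hv
  refine ⟨fun i => ?_, fun i j hij => ?_⟩
  · exact (Hess.key f T hT v hv i.val i.isLt i).1 rfl
  · exact (Hess.key f T hT v hv j.val j.isLt i).2 hij

end Pool.Agent.IntComm
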