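import Pool.Agent.Work.MP_584b0c_al.Api

set_option autoImplicit false

/-! D1. Eigenspace bounds give kernel bounds for polynomials. -/

namespace Pool.Agent.IntComm

open Matrix Polynomial

namespace Ker

theorem finrank_ker_comp {K V : Type*} [Field K] [AddCommGroup V] [Module K V]
    [FiniteDimensional K V] (f g : V →ₗ[K] V) :
    Module.finrank K (LinearMap.ker (f ∘ₗ g)) ≤
      Module.finrank K (LinearMap.ker f) + Module.finrank K (LinearMap.ker g) := by
  set h : LinearMap.ker (f ∘ₗ g) →ₗ[K] V := g ∘ₗ (LinearMap.ker (f ∘ₗ g)).subtype with hh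
  have h1 := LinearMap.finrank_range_add_finrank_ker h
  have h2 : Module.finrank K (LinearMap.range h) ≤ Module.finrank K (LinearMap.ker f) := by
    apply Submodule.finrank_mono
    rintro _ ⟨x, rfl⟩
    exact x.2
  have h3 : Module.finrank K (LinearMap.ker h) ≤ Module.finrank K (LinearMap.ker g) := by
    have hm : ∀ x : LinearMap.ker h, ((x : LinearMap.ker (f ∘ₗ g)) : V) ∈ LinearMap.ker g := by
      intro x
      exact x.2
    let φ : LinearMap.ker h →ₗ[K] LinearMap.ker g :=
      LinearMap.codRestrict (LinearMap.ker g)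
        ((LinearMap.ker (f ∘ₗ g)).subtype ∘ₗ (LinearMap.ker h).subtype) hm
    apply LinearMap.finrank_le_finrank_of_injective (f := φ)
    intro x y hxy
    have := congrArg Subtype.val hxy
    exact Subtype.ext (Subtype.ext this)
  omega

/-- The kernel does not shrink under field extension. -/
theorem finrank_ker_map {F K n : Type} [Field F] [Field K] [Algebra F K] [Fintype n]
    [DecidableEq n] (M : Matrix n n F) :
    Module.finrank F (LinearMap.ker (Matrix.toLin' M)) ≤
      Module.finrank K (LinearMap.ker (Matrix.toLin' (M.map (algebraMap F K)))) := by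
  set U := LinearMap.ker (Matrix.toLin' M) with hU
  set r := Module.finrank F U with hr
  let b := Module.finBasis F U
  let f : (Fin r → F) →ₗ[F] (n → F) := U.subtype ∘ₗ b.equivFun.symm.toLinearMap
  have hf : LinearMap.ker f = ⊥ := by
    rw [LinearMap.ker_eq_bot]
    exact Subtype.val_injective.comp b.equivFun.symm.injective
  obtain ⟨g, hg⟩ := LinearMap.exists_leftInverse_of_injective f hf
  have h1 : (LinearMap.toMatrix' g) * (LinearMap.toMatrix' f) = 1 := by
    rw [← LinearMap.toMatrix'_comp, hg, LinearMap.toMatrix'_id]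
  have h2 : M * LinearMap.toMatrix' f = 0 := by
    apply Matrix.toLin'.injective
    rw [Matrix.toLin'_mul, Matrix.toLin'_toMatrix', map_zero]
    apply LinearMap.ext
    intro x
    have h0 : ((b.equivFun.symm x : U) : n → F) ∈ LinearMap.ker (Matrix.toLin' M) :=
      (b.equivFun.symm x).2
    exact LinearMap.mem_ker.1 h0
  have h3 : ((LinearMap.toMatrix' g).map (algebraMap F K)) *
      ((LinearMap.toMatrix' f).map (algebraMap F K)) = 1 := by
    rw [← Matrix.map_mul, h1, Matrix.map_one _ (map_zero _) (map_one _)]
  have h4 : (M.map (algebraMap F K)) * ((LinearMap.toMatrix' f).map (algebraMap F K)) = 0 := by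
    rw [← Matrix.map_mul, h2]
    ext i j
    simp
  have hm : ∀ x, Matrix.toLin' ((LinearMap.toMatrix' f).map (algebraMap F K)) x ∈
      LinearMap.ker (Matrix.toLin' (M.map (algebraMap F K))) := by
    intro x
    rw [LinearMap.mem_ker, Matrix.toLin'_apply, Matrix.toLin'_apply, Matrix.mulVec_mulVec, h4,
      Matrix.zero_mulVec]
  have h5 := LinearMap.finrank_le_finrank_of_injective (f := LinearMap.codRestrict
    (LinearMap.ker (Matrix.toLin' (M.map (algebraMap F K))))
    (Matrix.toLin' ((LinearMap.toMatrix' f).map (algebraMap F K))) hm) (by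
      intro x y hxy
      have h6 := congrArg Subtype.val hxy
      have h7 : ((LinearMap.toMatrix' f).map (algebraMap F K)) *ᵥ x =
        ((LinearMap.toMatrix' f).map (algebraMap F K)) *ᵥ y := h6
      have h8 := congrArg (fun v => ((LinearMap.toMatrix' g).map (algebraMap F K)) *ᵥ v) h7
      simpa only [Matrix.mulVec_mulVec, h3, Matrix.one_mulVec] using h8)
  simpa using h5

theorem finrank_ker_poly {K n : Type} [Field K] [IsAlgClosed K] [Fintype n] [DecidableEq n]
    (A : Matrix n n K) (e : ℕ)
    (h : ∀ μ : K, Module.finrank K (LinearMap.ker (Matrix.toLin' (A - Matrix.scalar n μ))) ≤ e) :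
    ∀ (k : ℕ) (b : K[X]), b ≠ 0 → b.natDegree = k →
      Module.finrank K (LinearMap.ker (Matrix.toLin' (aeval A b))) ≤ k * e := by
  intro k
  induction k with
  | zero =>
    intro b hb hd
    rw [Polynomial.eq_C_of_natDegree_eq_zero hd] at hb ⊢
    have hc : b.coeff 0 ≠ 0 := fun h0 => hb (by rw [h0, map_zero])
    have : LinearMap.ker (Matrix.toLin' (aeval A (C (b.coeff 0)))) = ⊥ := by
      rw [LinearMap.ker_eq_bot']
      intro x hx
      rw [aeval_C, Matrix.toLin'_apply] at hx
      rw [Algebra.algebraMap_eq_smul_one, Matrix.smul_mulVec, Matrix.one_mulVec] at hx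
      exact (smul_eq_zero.1 hx).resolve_left hc
    rw [this]
    simp
  | succ k ih =>
    intro b hb hd
    have hdeg : b.degree ≠ 0 := by
      intro h0
      have := Polynomial.natDegree_eq_of_degree_eq_some (n := 0) (by simpa using h0)
      omega
    obtain ⟨μ, hμ⟩ := IsAlgClosed.exists_root b hdeg
    obtain ⟨b', rfl⟩ := Polynomial.dvd_iff_isRoot.2 hμ
    have hb' : b' ≠ 0 := right_ne_zero_of_mul hb
    have hd' : b'.natDegree = k := by
      rw [Polynomial.natDegree_mul (Polynomial.X_sub_C_ne_zero μ) hb',
        Polynomial.natDegree_X_sub_C] at hd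
      omega
    have e1 : aeval A (X - C μ) = A - Matrix.scalar n μ := by
      rw [map_sub, aeval_X, aeval_C]
      rfl
    rw [map_mul, e1, Matrix.toLin'_mul]
    calc _ ≤ _ := finrank_ker_comp _ _
      _ ≤ e + k * e := add_le_add (h μ) (ih b' hb' hd')
      _ = (k + 1) * e := by ring

end Ker

theorem claimKer : ClaimKer := by
  intro n _ _ C e h d p _ a ha hd
  have h1 := Ker.finrank_ker_map (K := AlgebraicClosure (ZMod p))
    (aeval (C.map (Int.castRingHom (ZMod p))) a)
  have h2 : (aeval (C.map (Int.castRingHom (ZMod p))) a).map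
      (algebraMap (ZMod p) (AlgebraicClosure (ZMod p))) =
      aeval (C.map (Int.castRingHom (AlgebraicClosure (ZMod p))))
        (a.map (algebraMap (ZMod p) (AlgebraicClosure (ZMod p)))) := by
    have h3 := Polynomial.map_aeval_eq_aeval_map
      (φ := algebraMap (ZMod p) (AlgebraicClosure (ZMod p)))
      (ψ := (algebraMap (ZMod p) (AlgebraicClosure (ZMod p))).mapMatrix (m := n)) (by
        ext x i j
        simp only [RingHom.comp_apply, RingHom.mapMatrix_apply, Matrix.map_apply,
          Matrix.algebraMap_matrix_apply]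
        split_ifs
        · rfl
        · rw [map_zero]) a (C.map (Int.castRingHom (ZMod p)))
    rw [RingHom.mapMatrix_apply, RingHom.mapMatrix_apply, Matrix.map_map] at h3
    rw [h3]
    congr 2
  rw [h2] at h1
  have hne : a.map (algebraMap (ZMod p) (AlgebraicClosure (ZMod p))) ≠ 0 := by
    rwa [Ne, Polynomial.map_eq_zero]
  have h4 := Ker.finrank_ker_poly (C.map (Int.castRingHom (AlgebraicClosure (ZMod p)))) e
    (h p) _ _ hne rfl
  rw [Polynomial.natDegree_map] at h4
  refine h1.trans (h4.trans ?_)
  exact Nat.mul_le_mul_right _ (by omega)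

end Pool.Agent.IntComm
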