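import Pool.Agent.Work.MP_584b0c_al.Api

set_option autoImplicit false

/-! C9: lower unitriangular matrices are good. -/

namespace Pool.Agent.IntComm

open Matrix Polynomial

namespace Lo

variable {n m : Type} [Fintype n] [DecidableEq n] [Fintype m] [DecidableEq m]

/-- `ProdComm` is preserved by isomorphisms of matrix algebras. -/
theorem prodComm_algEquiv (φ : Matrix n n ℤ ≃ₐ[ℤ] Matrix m m ℤ) : ∀ (Fs : List ℤ[X])
    (D : Matrix n n ℤ), ProdComm Fs D → ProdComm Fs (φ D)
  | [], D, h => by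
      have h' : D = 1 := h
      show φ D = 1
      rw [h', map_one]
  | F :: Fs, D, h => by
      obtain ⟨X, g, hX, D', hD', hD⟩ := h
      refine ⟨Units.map (φ : Matrix n n ℤ →* Matrix m m ℤ) X,
        Units.map (φ : Matrix n n ℤ →* Matrix m m ℤ) g, ?_, φ D', prodComm_algEquiv φ Fs D' hD', ?_⟩
      · have h1 : ((Units.map (φ : Matrix n n ℤ →* Matrix m m ℤ) X : (Matrix m m ℤ)ˣ) :
            Matrix m m ℤ) = φ (X : Matrix n n ℤ) := rfl
        rw [h1, Polynomial.aeval_algHom_apply, hX, map_zero]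
      · have h2 : Units.map (φ : Matrix n n ℤ →* Matrix m m ℤ) X *
            Units.map (φ : Matrix n n ℤ →* Matrix m m ℤ) g *
            (Units.map (φ : Matrix n n ℤ →* Matrix m m ℤ) X)⁻¹ *
            (Units.map (φ : Matrix n n ℤ →* Matrix m m ℤ) g)⁻¹ =
            Units.map (φ : Matrix n n ℤ →* Matrix m m ℤ) (X * g * X⁻¹ * g⁻¹) := by
          rw [map_mul, map_mul, map_mul, map_inv, map_inv]
        rw [h2, hD, map_mul]
        rfl

end Lo

/-- `ProdComm` is preserved by reindexing. -/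
theorem prodComm_submatrix {n m : Type} [Fintype n] [DecidableEq n] [Fintype m] [DecidableEq m]
    (e : n ≃ m) {Fs : List ℤ[X]} {D : Matrix m m ℤ} (h : ProdComm Fs D) :
    ProdComm Fs (D.submatrix e e) := by
  have h1 := Lo.prodComm_algEquiv (reindexAlgEquiv ℤ ℤ e.symm) Fs D h
  rwa [coe_reindexAlgEquiv, reindex_apply, Equiv.symm_symm] at h1

/-- `Good` is preserved by reindexing. -/
theorem good_submatrix {n m : Type} [Fintype n] [DecidableEq n] [Fintype m] [DecidableEq m]
    (e : n ≃ m) {k r : ℕ} {D : Matrix m m ℤ} (h : Good k r D) : Good k r (D.submatrix e e) :=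
  fun Fs h1 h2 => prodComm_submatrix e (h Fs h1 h2)

/-- C9. Lower unitriangular matrices are good. -/
theorem claimLo (h : ClaimUp) : ClaimLo := by
  intro m K hm hK T hT
  have h1 : UpU (T.submatrix (Fin.revPerm : Fin K ≃ Fin K) Fin.revPerm) := by
    refine ⟨fun i => hT.1 _, fun i j hij => hT.2 _ _ ?_⟩
    rw [Fin.revPerm_apply, Fin.revPerm_apply]
    exact Fin.rev_lt_rev.2 hij
  have h2 := good_submatrix (Fin.revPerm : Fin K ≃ Fin K) (h m K hm hK _ h1)
  have h3 : (T.submatrix (Fin.revPerm : Fin K ≃ Fin K) Fin.revPerm).submatrix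
      (Fin.revPerm : Fin K ≃ Fin K) Fin.revPerm = T := by
    ext i j
    simp
  rwa [h3] at h2

end Pool.Agent.IntComm
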