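import Pool.Agent.Work.MP_584b0c_al.Api

set_option autoImplicit false

/-! MP_584b0c_al, item D2: extension by a Krylov string modulo one prime. -/

namespace Pool.Agent.IntComm

open Matrix Polynomial

namespace Local

section

variable {n ρ : Type} [Fintype n] [DecidableEq n] [Fintype ρ]

/-- Krylov matrices commute with reduction. -/
theorem map_kry1 {R' : Type} [CommRing R'] (f : ℤ →+* R') (C : Matrix n n ℤ) (v : n → ℤ) (d : ℕ) :
    (Kry1 C v d).map f = Kry1 (C.map f) (f ∘ v) d := by
  ext i k
  unfold Kry1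
  rw [Matrix.map_apply, Matrix.of_apply, Matrix.of_apply, RingHom.map_mulVec]
  have h : (C ^ (k : ℕ)).map f = (C.map f) ^ (k : ℕ) := map_pow f.mapMatrix C k
  rw [h]

theorem kry1_mulVec {R' : Type} [CommRing R'] (C : Matrix n n R') (v : n → R') (d : ℕ)
    (a : Fin d → R') : (Kry1 C v d).mulVec a = ∑ k, a k • (C ^ (k : ℕ)).mulVec v := by
  ext i
  rw [Finset.sum_apply]
  simp only [Matrix.mulVec, dotProduct, Kry1, Matrix.of_apply, Pi.smul_apply, smul_eq_mul]
  exact Finset.sum_congr rfl fun k _ => mul_comm _ _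

theorem fromCols_mulVec' {R' σ : Type} [CommRing R'] [Fintype σ] (A : Matrix n ρ R')
    (B : Matrix n σ R') (y : ρ ⊕ σ → R') :
    (fromCols A B).mulVec y = A.mulVec (y ∘ Sum.inl) + B.mulVec (y ∘ Sum.inr) := by
  ext i
  simp [Matrix.mulVec, dotProduct, Fintype.sum_sum_type]

theorem pindAt_iff (p d : ℕ) (C : Matrix n n ℤ) (S : Matrix n ρ ℤ) (v : n → ℤ) :
    PIndAt p (fromCols S (Kry1 C v d)) ↔
      ∀ (s : ρ → ZMod p) (a : Fin d → ZMod p),
        (S.map (Int.castRingHom (ZMod p))).mulVec s + (Kry1 (C.map (Int.castRingHom (ZMod p)))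
          ((Int.castRingHom (ZMod p)) ∘ v) d).mulVec a = 0 → s = 0 ∧ a = 0 := by
  have h1 : (fromCols S (Kry1 C v d)).map (Int.cast : ℤ → ZMod p) =
      fromCols (S.map (Int.castRingHom (ZMod p))) (Kry1 (C.map (Int.castRingHom (ZMod p)))
          ((Int.castRingHom (ZMod p)) ∘ v) d) := by
    rw [← map_kry1]
    ext i j
    rcases j with j | j <;> rfl
  unfold PIndAt
  rw [h1]
  constructor
  · intro h s a hsa
    have h2 := h (Sum.elim s a) (by
      rw [fromCols_mulVec', Sum.elim_comp_inl, Sum.elim_comp_inr]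
      exact hsa)
    constructor
    · have := congrArg (fun y => y ∘ Sum.inl) h2
      simpa using this
    · have := congrArg (fun y => y ∘ Sum.inr) h2
      simpa using this
  · intro h y hy
    rw [fromCols_mulVec'] at hy
    obtain ⟨h2, h3⟩ := h _ _ hy
    ext j
    rcases j with j | j
    · exact congrFun h2 j
    · exact congrFun h3 j

end

/-- the polynomial with the coefficients `a` -/
noncomputable def pol {F : Type} [Field F] {d : ℕ} (a : Fin d → F) : F[X] :=
  ∑ k : Fin d, Polynomial.C (a k) * X ^ (k : ℕ)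

theorem pol_ne {F : Type} [Field F] {d : ℕ} {a : Fin d → F} (h : a ≠ 0) : pol a ≠ 0 := by
  intro h0
  apply h
  ext k
  have h1 := congrArg (fun q : F[X] => q.coeff (k : ℕ)) h0
  simp only [pol, Polynomial.finset_sum_coeff, Polynomial.coeff_C_mul_X_pow,
    Polynomial.coeff_zero] at h1
  rw [Finset.sum_eq_single k] at h1
  · simpa using h1
  · intro j _ hj
    rw [if_neg]
    intro h'
    exact hj (Fin.ext h'.symm)
  · intro h'
    exact absurd (Finset.mem_univ k) h'

theorem pol_deg {F : Type} [Field F] {d : ℕ} {a : Fin d → F} (h : a ≠ 0) :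
    (pol a).natDegree < d :=
  (Polynomial.natDegree_lt_iff_degree_lt (pol_ne h)).2 (Polynomial.degree_sum_fin_lt a)

theorem aeval_pol {F n : Type} [Field F] [Fintype n] [DecidableEq n] {d : ℕ} (a : Fin d → F)
    (C : Matrix n n F) (v : n → F) :
    (aeval C (pol a)).mulVec v = (Kry1 C v d).mulVec a := by
  rw [kry1_mulVec, pol, map_sum, Matrix.sum_mulVec]
  refine Finset.sum_congr rfl fun k _ => ?_
  rw [map_mul, aeval_C, map_pow, aeval_X, Algebra.algebraMap_eq_smul_one, smul_mul_assoc, one_mul,
    Matrix.smul_mulVec]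

/-- cardinality of a fibre -/
theorem card_fibre {F n ν : Type} [Field F] [Fintype F] [DecidableEq F] [Fintype n] [DecidableEq n]
    [Fintype ν] [DecidableEq ν] (A : Matrix n n F) (G : Matrix n ν F)
    (hG : ∀ x, G.mulVec x = 0 → x = 0) (c : n → F) (κ : ℕ)
    (hκ : Module.finrank F (LinearMap.ker (Matrix.toLin' A)) ≤ κ) :
    (Finset.univ.filter fun x : ν → F => A.mulVec (G.mulVec x) = c).card ≤
      (Fintype.card F) ^ κ := by
  classical
  by_cases hne : (Finset.univ.filter fun x : ν → F => A.mulVec (G.mulVec x) = c).Nonempty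
  · obtain ⟨x0, hx0⟩ := hne
    rw [Finset.mem_filter] at hx0
    have h1 : ∀ x : (Finset.univ.filter fun x : ν → F => A.mulVec (G.mulVec x) = c),
        G.mulVec (x.1 - x0) ∈ LinearMap.ker (Matrix.toLin' A) := by
      intro x
      have hx := (Finset.mem_filter.1 x.2).2
      rw [LinearMap.mem_ker, Matrix.toLin'_apply, Matrix.mulVec_sub, Matrix.mulVec_sub, hx, hx0.2,
        sub_self]
    let φ : (Finset.univ.filter fun x : ν → F => A.mulVec (G.mulVec x) = c) →
        LinearMap.ker (Matrix.toLin' A) := fun x => ⟨G.mulVec (x.1 - x0), h1 x⟩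
    have hφ : Function.Injective φ := by
      intro x y hxy
      have h2 : G.mulVec (x.1 - x0) = G.mulVec (y.1 - x0) := congrArg Subtype.val hxy
      have h3 : G.mulVec (x.1 - y.1) = 0 := by
        rw [Matrix.mulVec_sub] at h2 ⊢
        rw [Matrix.mulVec_sub] at h2
        have := sub_left_injective h2
        rw [this, sub_self]
      exact Subtype.ext (sub_eq_zero.1 (hG _ h3))
    have h4 := Nat.card_le_card_of_injective φ hφ
    rw [Nat.card_eq_fintype_card, Fintype.card_coe] at h4
    refine h4.trans ?_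
    rw [Module.natCard_eq_pow_finrank (K := F), Nat.card_eq_fintype_card]
    exact Nat.pow_le_pow_right Fintype.card_pos hκ
  · rw [Finset.not_nonempty_iff_eq_empty] at hne
    rw [hne, Finset.card_empty]
    exact Nat.zero_le _

end Local

open Local in
theorem claimLocal : ClaimLocal := by
  intro n ρ ν _ _ _ _ _ _ C S G b d κ₀ hKB hcard p hp hS hG
  haveI : Fact p.Prime := ⟨hp⟩
  classical
  set f := Int.castRingHom (ZMod p) with hf
  have hgood : ∃ x : ν → ZMod p, ∀ (s : ρ → ZMod p) (a : Fin d → ZMod p),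
      (S.map f).mulVec s + (Kry1 (C.map f) ((f ∘ b) + (G.map f).mulVec x) d).mulVec a = 0 →
        s = 0 ∧ a = 0 := by
    by_contra hall
    push Not at hall
    have hsub : (Finset.univ : Finset (ν → ZMod p)) ⊆
        (Finset.univ.filter fun q : (ρ → ZMod p) × (Fin d → ZMod p) => q.2 ≠ 0).biUnion
          (fun q => Finset.univ.filter fun x : ν → ZMod p =>
            (aeval (C.map f) (pol q.2)).mulVec ((G.map f).mulVec x) =
              -(S.map f).mulVec q.1 - (aeval (C.map f) (pol q.2)).mulVec (f ∘ b)) := by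
      intro x _
      obtain ⟨s, a, hsa, hne⟩ := hall x
      have ha : a ≠ 0 := by
        intro ha0
        subst ha0
        rw [Matrix.mulVec_zero, add_zero] at hsa
        exact hne (hS s hsa) rfl
      rw [Finset.mem_biUnion]
      refine ⟨(s, a), ?_, ?_⟩
      · rw [Finset.mem_filter]
        exact ⟨Finset.mem_univ _, ha⟩
      · rw [Finset.mem_filter]
        refine ⟨Finset.mem_univ _, ?_⟩
        rw [← aeval_pol, Matrix.mulVec_add] at hsa
        simp only
        rw [eq_sub_iff_add_eq, eq_neg_iff_add_eq_zero, ← hsa]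
        abel
    have h1 := (Finset.card_le_card hsub).trans Finset.card_biUnion_le
    have h2 : ∀ q ∈ (Finset.univ.filter fun q : (ρ → ZMod p) × (Fin d → ZMod p) => q.2 ≠ 0),
        (Finset.univ.filter fun x : ν → ZMod p =>
            (aeval (C.map f) (pol q.2)).mulVec ((G.map f).mulVec x) =
              -(S.map f).mulVec q.1 - (aeval (C.map f) (pol q.2)).mulVec (f ∘ b)).card ≤
          (Fintype.card (ZMod p)) ^ κ₀ := by
      intro q hq
      rw [Finset.mem_filter] at hq
      exact card_fibre _ _ hG _ _ (hKB p (pol q.2) (pol_ne hq.2) (pol_deg hq.2))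
    have h3 := h1.trans (Finset.sum_le_card_nsmul _ _ _ h2)
    have h4 : (Finset.univ.filter fun q : (ρ → ZMod p) × (Fin d → ZMod p) => q.2 ≠ 0).card <
        (Finset.univ : Finset ((ρ → ZMod p) × (Fin d → ZMod p))).card := by
      apply Finset.card_lt_card
      rw [Finset.ssubset_univ_iff]
      intro h
      have := Finset.mem_univ ((0, 0) : (ρ → ZMod p) × (Fin d → ZMod p))
      rw [← h, Finset.mem_filter] at this
      exact this.2 rfl
    rw [Finset.card_univ, Fintype.card_prod] at h4
    rw [Finset.card_univ] at h3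
    simp only [Fintype.card_fun, ZMod.card, Fintype.card_fin, smul_eq_mul] at h3 h4
    have hp0 : 0 < p ^ κ₀ := pow_pos hp.pos _
    have h5 : p ^ Fintype.card ν < p ^ Fintype.card ρ * p ^ d * p ^ κ₀ :=
      lt_of_le_of_lt h3 (Nat.mul_lt_mul_of_pos_right h4 hp0)
    rw [← pow_add, ← pow_add] at h5
    exact absurd (Nat.pow_le_pow_right hp.pos hcard) (not_le.2 h5)
  obtain ⟨x, hx⟩ := hgood
  have hlift : ∃ x' : ν → ℤ, f ∘ x' = x := by
    have h2 : ∀ i, ∃ z : ℤ, (z : ZMod p) = x i := fun i => ZMod.intCast_surjective _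
    choose x' hx' using h2
    exact ⟨x', funext hx'⟩
  obtain ⟨x', hx'⟩ := hlift
  refine ⟨x', ?_⟩
  rw [pindAt_iff]
  have h6 : f ∘ (b + G.mulVec x') = (f ∘ b) + (G.map f).mulVec x := by
    ext i
    simp only [Function.comp, Pi.add_apply, map_add]
    rw [RingHom.map_mulVec, ← hx']
  rw [h6]
  exact hx

end Pool.Agent.IntComm
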