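import Pool.Agent.Work.MP_584b0c_al.Api

set_option autoImplicit false

/-! C13: Mennicke's multiplicativity, and basic lemmas for `El`. -/

namespace Pool.Agent.IntComm

open Matrix Polynomial

section El

variable {n m : Type} [Fintype n] [DecidableEq n] [Fintype m] [DecidableEq m]

theorem El.one : El 0 (1 : Matrix n n ℤ) := ⟨[], le_refl _, by simp⟩

theorem El.mono {r s : ℕ} {M : Matrix n n ℤ} (h : El r M) (hrs : r ≤ s) : El s M := by
  obtain ⟨L, hL, hM⟩ := h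
  exact ⟨L, hL.trans hrs, hM⟩

theorem El.mul {r s : ℕ} {M N : Matrix n n ℤ} (hM : El r M) (hN : El s N) :
    El (r + s) (M * N) := by
  obtain ⟨L, hL, rfl⟩ := hM
  obtain ⟨L', hL', rfl⟩ := hN
  refine ⟨L ++ L', ?_, ?_⟩
  · rw [List.length_append]
    exact Nat.add_le_add hL hL'
  · rw [List.map_append, List.prod_append]

theorem El.transvection {i j : n} (hij : i ≠ j) (c : ℤ) :
    El 1 (Matrix.transvection i j c : Matrix n n ℤ) :=
  ⟨[⟨i, j, hij, c⟩], le_refl _, by simp⟩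

theorem El.of_inv {r : ℕ} {M N : Matrix n n ℤ} (hM : El r M) (hMN : M * N = 1) : El r N := by
  obtain ⟨L, hL, rfl⟩ := hM
  refine ⟨L.reverse.map TransvectionStruct.inv, ?_, ?_⟩
  · rw [List.length_map, List.length_reverse]
    exact hL
  · rw [List.map_map]
    calc N = ((L.reverse.map (TransvectionStruct.toMatrix ∘ TransvectionStruct.inv)).prod *
          (L.map TransvectionStruct.toMatrix).prod) * N := by
          rw [TransvectionStruct.reverse_inv_prod_mul_prod, Matrix.one_mul]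
      _ = (L.reverse.map (TransvectionStruct.toMatrix ∘ TransvectionStruct.inv)).prod := by
          rw [Matrix.mul_assoc, hMN, Matrix.mul_one]

theorem El.reindex {r : ℕ} {M : Matrix n n ℤ} (e : n ≃ m) (hM : El r M) :
    El r (Matrix.reindex e e M) := by
  obtain ⟨L, hL, rfl⟩ := hM
  refine ⟨L.map (TransvectionStruct.reindexEquiv e), ?_, ?_⟩
  · rw [List.length_map]
    exact hL
  · rw [List.map_map, TransvectionStruct.toMatrix_reindexEquiv_prod]
    rfl

theorem El.submatrix {r : ℕ} {M : Matrix n n ℤ} (e : m ≃ n) (hM : El r M) :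
    El r (M.submatrix e e) := by
  have := El.reindex e.symm hM
  simpa [Matrix.reindex_apply] using this

theorem El.transpose {r : ℕ} {M : Matrix n n ℤ} (hM : El r M) : El r Mᵀ := by
  obtain ⟨L, hL, rfl⟩ := hM
  refine ⟨(L.map fun t => (⟨t.j, t.i, t.hij.symm, t.c⟩ : TransvectionStruct n ℤ)).reverse, ?_, ?_⟩
  · rw [List.length_reverse, List.length_map]
    exact hL
  · rw [Matrix.transpose_list_prod, List.map_map, List.map_reverse, List.map_map]
    congr 2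
    refine List.map_congr_left fun t _ => ?_
    show (Matrix.transvection t.i t.j t.c)ᵀ = Matrix.transvection t.j t.i t.c
    simp [Matrix.transvection, Matrix.transpose_add]

theorem El.det_eq_one {r : ℕ} {M : Matrix n n ℤ} (hM : El r M) : M.det = 1 := by
  obtain ⟨L, _, rfl⟩ := hM
  exact TransvectionStruct.det_toMatrix_prod L

end El

namespace Men

theorem corner3 (A : Matrix (Fin 2) (Fin 2) ℤ) : (corner A : Matrix (Fin 3) (Fin 3) ℤ) =
    !![A 0 0, A 0 1, 0; A 1 0, A 1 1, 0; 0, 0, 1] := by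
  ext i j
  fin_cases i <;> fin_cases j <;> simp [corner]

theorem main_id (a b1 c1 d1 b2 c2 d2 : ℤ) (h1 : a * d1 - b1 * c1 = 1) :
    (Matrix.transvection 2 1 (-c2) * (!![a, b1, 0; c1, d1, 0; 0, 0, 1] *
      !![1, 0, 0; 0, a, b2; 0, c2, d2]) * Matrix.transvection 0 1 (-b1) *
      Matrix.transvection 1 0 (-c1) * Matrix.transvection 1 2 (-(d1 * b2)) :
        Matrix (Fin 3) (Fin 3) ℤ) =
    !![a, 0, b1 * b2; 0, 1, 0; -(c1 * c2), 0, d2 - c2 * d1 * b2] := by
  have e21 : (Matrix.transvection 2 1 (-c2) : Matrix (Fin 3) (Fin 3) ℤ) =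
      !![1, 0, 0; 0, 1, 0; 0, -c2, 1] := by
    ext i j
    fin_cases i <;> fin_cases j <;> simp [Matrix.transvection]
  have e01 : (Matrix.transvection 0 1 (-b1) : Matrix (Fin 3) (Fin 3) ℤ) =
      !![1, -b1, 0; 0, 1, 0; 0, 0, 1] := by
    ext i j
    fin_cases i <;> fin_cases j <;> simp [Matrix.transvection]
  have e10 : (Matrix.transvection 1 0 (-c1) : Matrix (Fin 3) (Fin 3) ℤ) =
      !![1, 0, 0; -c1, 1, 0; 0, 0, 1] := by
    ext i j
    fin_cases i <;> fin_cases j <;> simp [Matrix.transvection]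
  have e12 : (Matrix.transvection 1 2 (-(d1 * b2)) : Matrix (Fin 3) (Fin 3) ℤ) =
      !![1, 0, 0; 0, 1, -(d1 * b2); 0, 0, 1] := by
    ext i j
    fin_cases i <;> fin_cases j <;> simp [Matrix.transvection]
  have p1 : (!![a, b1, 0; c1, d1, 0; 0, 0, 1] * !![1, 0, 0; 0, a, b2; 0, c2, d2] :
      Matrix (Fin 3) (Fin 3) ℤ) = !![a, a * b1, b1 * b2; c1, 1 + b1 * c1, d1 * b2; 0, c2, d2] := by
    ext i j
    fin_cases i <;> fin_cases j <;> simp [Matrix.mul_apply, Fin.sum_univ_three] <;>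
      first
        | ring1
        | linear_combination h1
  have p2 : (!![1, 0, 0; 0, 1, 0; 0, -c2, 1] *
      !![a, a * b1, b1 * b2; c1, 1 + b1 * c1, d1 * b2; 0, c2, d2] : Matrix (Fin 3) (Fin 3) ℤ) =
      !![a, a * b1, b1 * b2; c1, 1 + b1 * c1, d1 * b2; -(c1 * c2), -(b1 * c1 * c2),
        d2 - c2 * d1 * b2] := by
    ext i j
    fin_cases i <;> fin_cases j <;> simp [Matrix.mul_apply, Fin.sum_univ_three] <;> ring
  have p3 : (!![a, a * b1, b1 * b2; c1, 1 + b1 * c1, d1 * b2; -(c1 * c2), -(b1 * c1 * c2),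
        d2 - c2 * d1 * b2] * !![1, -b1, 0; 0, 1, 0; 0, 0, 1] : Matrix (Fin 3) (Fin 3) ℤ) =
      !![a, 0, b1 * b2; c1, 1, d1 * b2; -(c1 * c2), 0, d2 - c2 * d1 * b2] := by
    ext i j
    fin_cases i <;> fin_cases j <;> simp [Matrix.mul_apply, Fin.sum_univ_three] <;> ring
  have p4 : (!![a, 0, b1 * b2; c1, 1, d1 * b2; -(c1 * c2), 0, d2 - c2 * d1 * b2] *
      !![1, 0, 0; -c1, 1, 0; 0, 0, 1] : Matrix (Fin 3) (Fin 3) ℤ) =
      !![a, 0, b1 * b2; 0, 1, d1 * b2; -(c1 * c2), 0, d2 - c2 * d1 * b2] := by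
    ext i j
    fin_cases i <;> fin_cases j <;> simp [Matrix.mul_apply, Fin.sum_univ_three]
  have p5 : (!![a, 0, b1 * b2; 0, 1, d1 * b2; -(c1 * c2), 0, d2 - c2 * d1 * b2] *
      !![1, 0, 0; 0, 1, -(d1 * b2); 0, 0, 1] : Matrix (Fin 3) (Fin 3) ℤ) =
      !![a, 0, b1 * b2; 0, 1, 0; -(c1 * c2), 0, d2 - c2 * d1 * b2] := by
    ext i j
    fin_cases i <;> fin_cases j <;> simp [Matrix.mul_apply, Fin.sum_univ_three]
  rw [e21, e01, e10, e12, p1, p2, p3, p4, p5]

/-- Solve `t1 * X * t2 * t3 * t4 = N` for `N`. -/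
theorem el_N (a b1 c1 d1 b2 c2 d2 : ℤ) (r s : ℕ) (h1 : a * d1 - b1 * c1 = 1)
    (hA : El r (!![a, b1, 0; c1, d1, 0; 0, 0, 1] : Matrix (Fin 3) (Fin 3) ℤ))
    (hB : El s (!![1, 0, 0; 0, a, b2; 0, c2, d2] : Matrix (Fin 3) (Fin 3) ℤ)) :
    El (r + s + 4) (!![a, 0, b1 * b2; 0, 1, 0; -(c1 * c2), 0, d2 - c2 * d1 * b2] :
      Matrix (Fin 3) (Fin 3) ℤ) := by
  rw [← main_id a b1 c1 d1 b2 c2 d2 h1]
  have h21 : El 1 (Matrix.transvection 2 1 (-c2) : Matrix (Fin 3) (Fin 3) ℤ) :=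
    El.transvection (by decide) _
  have h01 : El 1 (Matrix.transvection 0 1 (-b1) : Matrix (Fin 3) (Fin 3) ℤ) :=
    El.transvection (by decide) _
  have h10 : El 1 (Matrix.transvection 1 0 (-c1) : Matrix (Fin 3) (Fin 3) ℤ) :=
    El.transvection (by decide) _
  have h12 : El 1 (Matrix.transvection 1 2 (-(d1 * b2)) : Matrix (Fin 3) (Fin 3) ℤ) :=
    El.transvection (by decide) _
  exact El.mono ((((h21.mul (hA.mul hB)).mul h01).mul h10).mul h12) (by omega)

end Men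

theorem claimMen : ClaimMen := by
  intro A B A' r s hA hB hA' hAB hA'A hb hEA hEB
  rw [Matrix.det_fin_two] at hA hB hA'
  rw [Men.corner3] at hEA hEB ⊢
  -- move `B` to the last two coordinates
  have hB2 : El s (!![1, 0, 0; 0, A 0 0, B 0 1; 0, B 1 0, B 1 1] : Matrix (Fin 3) (Fin 3) ℤ) := by
    have := El.submatrix (finRotate 3).symm hEB
    have e : (!![B 0 0, B 0 1, 0; B 1 0, B 1 1, 0; 0, 0, 1] : Matrix (Fin 3) (Fin 3) ℤ).submatrix
        (finRotate 3).symm (finRotate 3).symm =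
        !![1, 0, 0; 0, A 0 0, B 0 1; 0, B 1 0, B 1 1] := by
      rw [hAB]
      ext i j
      fin_cases i <;> fin_cases j <;> rfl
    rwa [e] at this
  have hN := Men.el_N (A 0 0) (A 0 1) (A 1 0) (A 1 1) (B 0 1) (B 1 0) (B 1 1) r s hA hEA hB2
  have hM3 : El (r + s + 4) (!![A 0 0, A 0 1 * B 0 1, 0; -(A 1 0 * B 1 0),
      B 1 1 - B 1 0 * A 1 1 * B 0 1, 0; 0, 0, 1] : Matrix (Fin 3) (Fin 3) ℤ) := by
    have := El.submatrix (Equiv.swap 1 2) hN
    have e : (!![A 0 0, 0, A 0 1 * B 0 1; 0, 1, 0; -(A 1 0 * B 1 0), 0,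
        B 1 1 - B 1 0 * A 1 1 * B 0 1] : Matrix (Fin 3) (Fin 3) ℤ).submatrix
        (Equiv.swap 1 2) (Equiv.swap 1 2) = !![A 0 0, A 0 1 * B 0 1, 0; -(A 1 0 * B 1 0),
      B 1 1 - B 1 0 * A 1 1 * B 0 1, 0; 0, 0, 1] := by
      ext i j
      fin_cases i <;> fin_cases j <;> rfl
    rwa [e] at this
  have hdet : A 0 0 * (B 1 1 - B 1 0 * A 1 1 * B 0 1) - A 0 1 * B 0 1 * (-(A 1 0 * B 1 0)) = 1 := by
    rw [← hAB] at hB
    linear_combination hB - B 1 0 * B 0 1 * hA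
  have ht : El 1 (Matrix.transvection 1 0 (A' 1 0 * (B 1 1 - B 1 0 * A 1 1 * B 0 1) -
      A' 1 1 * (-(A 1 0 * B 1 0))) : Matrix (Fin 3) (Fin 3) ℤ) := El.transvection (by decide) _
  refine El.mono (M := !![A' 0 0, A' 0 1, 0; A' 1 0, A' 1 1, 0; 0, 0, 1]) ?_
    (show 1 + (r + s + 4) ≤ r + s + 5 by omega)
  have hfin : (!![A' 0 0, A' 0 1, 0; A' 1 0, A' 1 1, 0; 0, 0, 1] : Matrix (Fin 3) (Fin 3) ℤ) =
      Matrix.transvection 1 0 (A' 1 0 * (B 1 1 - B 1 0 * A 1 1 * B 0 1) -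
      A' 1 1 * (-(A 1 0 * B 1 0))) * !![A 0 0, A 0 1 * B 0 1, 0; -(A 1 0 * B 1 0),
      B 1 1 - B 1 0 * A 1 1 * B 0 1, 0; 0, 0, 1] := by
    rw [hA'A, hb] at hA' ⊢
    generalize A 0 0 = a at *
    generalize A 0 1 * B 0 1 = b at *
    generalize B 1 1 - B 1 0 * A 1 1 * B 0 1 = m22 at *
    generalize -(A 1 0 * B 1 0) = m21 at *
    generalize A' 1 0 = c' at *
    generalize A' 1 1 = d' at *
    have et : (Matrix.transvection 1 0 (c' * m22 - d' * m21) : Matrix (Fin 3) (Fin 3) ℤ) =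
        !![1, 0, 0; c' * m22 - d' * m21, 1, 0; 0, 0, 1] := by
      ext i j
      fin_cases i <;> fin_cases j <;> simp [Matrix.transvection]
    rw [et]
    ext i j
    fin_cases i <;> fin_cases j <;> simp [Matrix.mul_apply, Fin.sum_univ_three]
    · linear_combination (-c') * hdet + m21 * hA'
    · linear_combination (-d') * hdet + m22 * hA'
  rw [hfin]
  exact ht.mul hM3

end Pool.Agent.IntComm
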