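import Pool.Agent.Work.MP_584b0c_al.Api

set_option autoImplicit false

namespace Pool.Agent.IntComm

namespace Param

/-- Natural number core: all parameters from `m`, `rr` with `2 n = (4 Q + 1) m + rr`. -/
theorem core (Q m e s n rr : ℕ) (hQ : 1 ≤ Q) (h2n : 2 * n = (4 * Q + 1) * m + rr)
    (hrr : rr ≤ 4 * Q) (hs : n = 2 * Q * m + s) (he : 40 * (Q ^ 2 * e) ≤ m)
    (hm : 100 * Q ^ 2 + 100 ≤ m) :
    ∃ j j₀ δ : ℕ, 2 * m = j + s ∧ n = (Q + 1) * j₀ + δ ∧ j₀ + δ ≤ 2 * m ∧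
      Q + 1 + Q * e ≤ δ ∧ Q * δ + Q + (Q - 1) * e ≤ j₀ ∧ Q + (Q - 1) * e ≤ s := by
  have h2s : 2 * s = m + rr := by
    have : 2 * n = 2 * (2 * Q * m + s) := by rw [hs]
    nlinarith
  have hQQ : Q ≤ Q ^ 2 := by nlinarith
  have hQe : Q * e ≤ Q ^ 2 * e := Nat.mul_le_mul_right e hQQ
  have hee : e ≤ Q * e := by nlinarith
  have hm1 : Q * (100 * Q ^ 2 + 100) ≤ Q * m := Nat.mul_le_mul_left Q hm
  have hmX : Q * (40 * (Q ^ 2 * e)) ≤ Q * m := Nat.mul_le_mul_left Q he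
  have hnm : 2 * (Q * m) + s = n := by rw [hs]; ring
  have hmQ : m ≤ Q * m := by nlinarith
  have e6 : (Q - 1) * e ≤ Q * e := Nat.mul_le_mul_right e (Nat.sub_le Q 1)
  have hsm : s ≤ 2 * m := by nlinarith
  generalize hX : Q ^ 2 * e = X at *
  generalize hY : Q * e = Y at *
  set lo := Q + 1 + Y with hlo
  have hlon : lo ≤ n := by nlinarith
  set δ := lo + (n - lo) % (Q + 1) with hδ
  have hδ1 : (n - lo) % (Q + 1) ≤ Q := by
    have := Nat.mod_lt (n - lo) (Nat.succ_pos Q)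
    rw [Nat.succ_eq_add_one] at this
    omega
  have hdiv := Nat.div_add_mod (n - lo) (Q + 1)
  have e2 : δ ≤ 2 * Q + 1 + Y := by omega
  have e1 : (Q + 1) * ((n - lo) / (Q + 1)) + δ = n := by omega
  have e3 : Q * δ ≤ Q * (2 * Q + 1 + Y) := Nat.mul_le_mul_left Q e2
  have hQY : Q * Y = X := by rw [← hY, ← hX]; ring
  have e3' : Q * δ ≤ 2 * Q ^ 2 + Q + X := by nlinarith
  refine ⟨2 * m - s, (n - lo) / (Q + 1), δ, by omega, ?_, ?_, by omega, ?_, ?_⟩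
  · omega
  · -- j₀ + δ ≤ 2 m
    have h1 : (Q + 1) * ((n - lo) / (Q + 1) + δ) ≤ (Q + 1) * (2 * m) := by
      have e5 : (Q + 1) * ((n - lo) / (Q + 1) + δ) = n + Q * δ := by
        rw [mul_add]
        have : (Q + 1) * δ = Q * δ + δ := by ring
        omega
      rw [e5]
      have e7 : (Q + 1) * (2 * m) = 2 * (Q * m) + 2 * m := by ring
      rw [e7]
      nlinarith
    exact Nat.le_of_mul_le_mul_left h1 (Nat.succ_pos Q)
  · have h1 : (Q + 1) * (Q * δ + Q + (Q - 1) * e) ≤ (Q + 1) * ((n - lo) / (Q + 1)) := by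
      have e7 : (Q + 1) * (Q * δ + Q + (Q - 1) * e) + δ ≤ n := by
        have a1 : (Q + 1) * (Q * δ + Q + (Q - 1) * e) ≤
            (Q + 1) * (2 * Q ^ 2 + Q + X + Q + Y) :=
          Nat.mul_le_mul_left _ (by omega)
        have a2 : (Q + 1) * (2 * Q ^ 2 + Q + X + Q + Y) =
            2 * Q ^ 3 + 4 * Q ^ 2 + 2 * Q + Q * X + 2 * X + Y := by
          rw [← hQY]; ring
        have a3 : Q * (100 * Q ^ 2 + 100) = 100 * Q ^ 3 + 100 * Q := by ring
        have a4 : Q ^ 2 ≤ Q ^ 3 := by nlinarith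
        have a5 : Q * (40 * X) = 40 * (Q * X) := by ring
        omega
      omega
    exact Nat.le_of_mul_le_mul_left h1 (Nat.succ_pos Q)
  · omega

end Param

theorem claimParam : ClaimParam := by
  intro Q m₀ hQ
  refine ⟨1 / (200 * (Q : ℝ) ^ 3), by positivity, (4 * Q + 1) * (m₀ + 1000 * Q ^ 2 + 1000), ?_⟩
  intro n hn e he
  set m := 2 * n / (4 * Q + 1) with hmdef
  have hdiv := Nat.div_add_mod (2 * n) (4 * Q + 1)
  have hmod := Nat.mod_lt (2 * n) (Nat.succ_pos (4 * Q))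
  set rr := 2 * n % (4 * Q + 1) with hrr
  have hrr' : rr ≤ 4 * Q := by
    have : 2 * n % (4 * Q + 1) < (4 * Q).succ := hmod
    omega
  have hmm : m₀ + 1000 * Q ^ 2 + 1000 ≤ m := by
    rw [hmdef, Nat.le_div_iff_mul_le (Nat.succ_pos _)]
    calc (m₀ + 1000 * Q ^ 2 + 1000) * (4 * Q + 1) = (4 * Q + 1) * (m₀ + 1000 * Q ^ 2 + 1000) := by
          ring
      _ ≤ n := hn
      _ ≤ 2 * n := by omega
  have h2n : 2 * n = (4 * Q + 1) * m + rr := by rw [hmdef]; omega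
  have hexp : (4 * Q + 1) * m = 4 * (Q * m) + m := by ring
  have hle : 2 * Q * m ≤ n := by
    have : 2 * Q * m = 2 * (Q * m) := by ring
    omega
  obtain ⟨s, hs⟩ := Nat.exists_eq_add_of_le hle
  have hn3 : n ≤ 5 * (Q * m) := by
    have h1 : m ≤ Q * m := by nlinarith
    have h2 : Q * (m₀ + 1000 * Q ^ 2 + 1000) ≤ Q * m := Nat.mul_le_mul_left Q hmm
    have h3 : Q ≤ Q * (m₀ + 1000 * Q ^ 2 + 1000) := by nlinarith
    omega
  have he40 : 40 * (Q ^ 2 * e) ≤ m := by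
    have hQpos : (0 : ℝ) < Q := by exact_mod_cast hQ
    have h1 : (e : ℝ) * (200 * (Q : ℝ) ^ 3) ≤ n := by
      rw [div_mul_eq_mul_div, one_mul, le_div_iff₀ (by positivity)] at he
      exact he
    have h2 : (n : ℝ) ≤ 5 * ((Q : ℝ) * m) := by exact_mod_cast hn3
    have h3 : (Q : ℝ) * (40 * ((Q : ℝ) ^ 2 * e)) ≤ Q * m := by nlinarith
    have h4 := le_of_mul_le_mul_left h3 hQpos
    exact_mod_cast h4
  obtain ⟨j, j₀, δ, h1, h2, h3, h4, h5, h6⟩ := Param.core Q m e s n rr hQ h2n hrr' hs he40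
    (by nlinarith)
  refine ⟨m, s, j, j₀, δ, by omega, by omega, ?_, h1, h2, h3, h4, h5, h6⟩
  rw [hs]; ring

end Pool.Agent.IntComm
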