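import Pool.Agent.Work.MP_584b0c_al.Api

set_option autoImplicit false

namespace Pool.Agent.IntComm

open Matrix Polynomial

namespace Peel

theorem blocks {k l : Type} [Fintype k] [DecidableEq k] [Fintype l] [DecidableEq l]
    {a g11 : Matrix k k ℤ} {b g12 : Matrix k l ℤ} {c g21 : Matrix l k ℤ} {d g22 : Matrix l l ℤ}
    (h : fromBlocks a b c d * fromBlocks g11 g12 g21 g22 = 1) :
    a * g11 + b * g21 = 1 ∧ a * g12 + b * g22 = 0 ∧ c * g11 + d * g21 = 0 ∧
      c * g12 + d * g22 = 1 := by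
  rw [fromBlocks_multiply, ← fromBlocks_one] at h
  exact fromBlocks_inj.1 h

theorem det_top {k l : Type} [Fintype k] [DecidableEq k] [Fintype l] [DecidableEq l]
    {a : Matrix k k ℤ} {b g12 : Matrix k l ℤ} {c : Matrix l k ℤ} {d : Matrix l l ℤ}
    (h : (fromBlocks a b c d).det = 1) (h1 : a * g12 + b = 0) (h2 : c * g12 + d = 1) :
    a.det = 1 := by
  have h3 : fromBlocks a b c d * fromBlocks 1 g12 0 1 = fromBlocks a 0 c 1 := by
    rw [fromBlocks_multiply]
    simp only [Matrix.mul_one, Matrix.mul_zero, add_zero, h1, h2]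
  have h4 := congrArg Matrix.det h3
  rw [det_mul, h, det_fromBlocks_zero₂₁, det_fromBlocks_zero₁₂] at h4
  simpa using h4.symm

end Peel

theorem claimPeel (h : ClaimSR) : ClaimPeel := by
  intro k hk α β γ δ hdet
  obtain ⟨G, hG1, hG2⟩ : ∃ G : Matrix (Fin k ⊕ Fin 1) (Fin k ⊕ Fin 1) ℤ,
      fromBlocks α β γ δ * G = 1 ∧ G * fromBlocks α β γ δ = 1 := by
    refine ⟨(fromBlocks α β γ δ)⁻¹, Matrix.mul_nonsing_inv _ ?_, Matrix.nonsing_inv_mul _ ?_⟩ <;>
      · rw [hdet]; exact isUnit_one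
  obtain ⟨G11, G12, G21, G22, rfl⟩ : ∃ (G11 : Matrix (Fin k) (Fin k) ℤ)
      (G12 : Matrix (Fin k) (Fin 1) ℤ) (G21 : Matrix (Fin 1) (Fin k) ℤ)
      (G22 : Matrix (Fin 1) (Fin 1) ℤ), G = fromBlocks G11 G12 G21 G22 :=
    ⟨_, _, _, _, (fromBlocks_toBlocks G).symm⟩
  obtain ⟨e1, e2, e3, e4⟩ := Peel.blocks hG1
  obtain ⟨f1, f2, f3, f4⟩ := Peel.blocks hG2
  have e5 : ∑ i, γ 0 i * G12 i 0 + δ 0 0 * G22 0 0 = 1 := by
    have := congrFun (congrFun e4 0) 0
    simpa [Matrix.mul_apply] using this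
  obtain ⟨z, y, hzy⟩ := h k hk (fun i => γ 0 i) (δ 0 0) ⟨fun i => G12 i 0, G22 0 0, e5⟩
  set Z : Matrix (Fin 1) (Fin k) ℤ := Matrix.of fun _ i => z i with hZ
  set Y : Matrix (Fin k) (Fin 1) ℤ := Matrix.of fun i _ => y i with hY
  have hZY : (γ + δ * Z) * Y = 1 := by
    ext i j
    rw [Subsingleton.elim i 0, Subsingleton.elim j 0]
    simp only [Matrix.mul_apply, Matrix.add_apply, hZ, hY, Matrix.of_apply, Fin.sum_univ_one,
      Matrix.one_apply_eq]
    simpa using hzy
  -- the inverse of the new matrix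
  set a' := α + β * Z with ha'
  set c' := γ + δ * Z with hc'
  set H21 := G21 - Z * G11 with hH21
  set H22 := G22 - Z * G12 with hH22
  have k1 : a' * G11 + β * H21 = 1 := by
    rw [ha', hH21, ← e1]; (simp only [Matrix.mul_add, Matrix.add_mul, Matrix.mul_sub, Matrix.sub_mul, Matrix.mul_assoc,
      Matrix.mul_one, Matrix.one_mul, Matrix.mul_zero, Matrix.zero_mul]; abel)
  have k2 : a' * G12 + β * H22 = 0 := by
    rw [ha', hH22, ← e2]; (simp only [Matrix.mul_add, Matrix.add_mul, Matrix.mul_sub, Matrix.sub_mul, Matrix.mul_assoc,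
      Matrix.mul_one, Matrix.one_mul, Matrix.mul_zero, Matrix.zero_mul]; abel)
  have k3 : c' * G11 + δ * H21 = 0 := by
    rw [hc', hH21, ← e3]; (simp only [Matrix.mul_add, Matrix.add_mul, Matrix.mul_sub, Matrix.sub_mul, Matrix.mul_assoc,
      Matrix.mul_one, Matrix.one_mul, Matrix.mul_zero, Matrix.zero_mul]; abel)
  have k4 : c' * G12 + δ * H22 = 1 := by
    rw [hc', hH22, ← e4]; (simp only [Matrix.mul_add, Matrix.add_mul, Matrix.mul_sub, Matrix.sub_mul, Matrix.mul_assoc,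
      Matrix.mul_one, Matrix.one_mul, Matrix.mul_zero, Matrix.zero_mul]; abel)
  have l3 : H21 * a' + H22 * c' = 0 := by
    have : H21 * a' + H22 * c' = (G21 * α + G22 * γ) + (G21 * β + G22 * δ) * Z -
        Z * (G11 * α + G12 * γ) - Z * (G11 * β + G12 * δ) * Z := by
      rw [ha', hc', hH21, hH22]; (simp only [Matrix.mul_add, Matrix.add_mul, Matrix.mul_sub, Matrix.sub_mul, Matrix.mul_assoc,
      Matrix.mul_one, Matrix.one_mul, Matrix.mul_zero, Matrix.zero_mul]; abel)
    rw [this, f1, f2, f3, f4]; (simp only [Matrix.mul_add, Matrix.add_mul, Matrix.mul_sub, Matrix.sub_mul, Matrix.mul_assoc,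
      Matrix.mul_one, Matrix.one_mul, Matrix.mul_zero, Matrix.zero_mul]; abel)
  have l4 : H21 * β + H22 * δ = 1 := by
    have : H21 * β + H22 * δ = (G21 * β + G22 * δ) - Z * (G11 * β + G12 * δ) := by
      rw [hH21, hH22]; (simp only [Matrix.mul_add, Matrix.add_mul, Matrix.mul_sub, Matrix.sub_mul, Matrix.mul_assoc,
      Matrix.mul_one, Matrix.one_mul, Matrix.mul_zero, Matrix.zero_mul]; abel)
    rw [this, f2, f4]; (simp only [Matrix.mul_add, Matrix.add_mul, Matrix.mul_sub, Matrix.sub_mul, Matrix.mul_assoc,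
      Matrix.mul_one, Matrix.one_mul, Matrix.mul_zero, Matrix.zero_mul]; abel)
  set x₀ := β - a' * Y * δ with hx₀
  have m1 : H21 * x₀ = 1 := by
    have : H21 * x₀ = H21 * β + H22 * δ - (H21 * a' + H22 * c') * Y * δ + H22 * (c' * Y - 1) * δ := by
      rw [hx₀]; (simp only [Matrix.mul_add, Matrix.add_mul, Matrix.mul_sub, Matrix.sub_mul, Matrix.mul_assoc,
      Matrix.mul_one, Matrix.one_mul, Matrix.mul_zero, Matrix.zero_mul]; abel)
    rw [this, l3, l4, hZY]; (simp only [Matrix.mul_add, Matrix.add_mul, Matrix.mul_sub, Matrix.sub_mul, Matrix.mul_assoc,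
      Matrix.mul_one, Matrix.one_mul, Matrix.mul_zero, Matrix.zero_mul]; abel)
  set x := x₀ * (H22 - 1) with hx
  have m2 : H22 - H21 * x = 1 := by
    rw [hx, ← Matrix.mul_assoc, m1]; (simp only [Matrix.mul_add, Matrix.add_mul, Matrix.mul_sub, Matrix.sub_mul, Matrix.mul_assoc,
      Matrix.mul_one, Matrix.one_mul, Matrix.mul_zero, Matrix.zero_mul]; abel)
  refine ⟨x, Z, ?_⟩
  have hD : (fromBlocks (a' + x * c') (β + x * δ) c' δ).det = 1 := by
    have : fromBlocks (a' + x * c') (β + x * δ) c' δ =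
        fromBlocks 1 x 0 1 * fromBlocks α β γ δ * fromBlocks 1 0 Z 1 := by
      rw [fromBlocks_multiply, fromBlocks_multiply]
      simp only [Matrix.mul_one, Matrix.one_mul, Matrix.mul_zero, Matrix.zero_mul, add_zero,
        zero_add, ha', hc']
      congr 1
      (simp only [Matrix.mul_add, Matrix.add_mul, Matrix.mul_sub, Matrix.sub_mul, Matrix.mul_assoc,
      Matrix.mul_one, Matrix.one_mul, Matrix.mul_zero, Matrix.zero_mul]; abel)
    rw [this, det_mul, det_mul, hdet, det_fromBlocks_zero₂₁, det_fromBlocks_zero₁₂]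
    simp
  have n1 : (a' + x * c') * (G12 - G11 * x) + (β + x * δ) = 0 := by
    have : (a' + x * c') * (G12 - G11 * x) + (β + x * δ) =
        (a' * G12 + β * H22) + x * (c' * G12 + δ * H22) - (a' * G11 + β * H21) * x -
        x * (c' * G11 + δ * H21) * x + (β + x * δ) * (1 - (H22 - H21 * x)) := by
      (simp only [Matrix.mul_add, Matrix.add_mul, Matrix.mul_sub, Matrix.sub_mul, Matrix.mul_assoc,
      Matrix.mul_one, Matrix.one_mul, Matrix.mul_zero, Matrix.zero_mul]; abel)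
    rw [this, k1, k2, k3, k4, m2]
    (simp only [Matrix.mul_add, Matrix.add_mul, Matrix.mul_sub, Matrix.sub_mul, Matrix.mul_assoc,
      Matrix.mul_one, Matrix.one_mul, Matrix.mul_zero, Matrix.zero_mul]; abel)
  have n2 : c' * (G12 - G11 * x) + δ = 1 := by
    have : c' * (G12 - G11 * x) + δ = (c' * G12 + δ * H22) - (c' * G11 + δ * H21) * x +
        δ * (1 - (H22 - H21 * x)) := by
      (simp only [Matrix.mul_add, Matrix.add_mul, Matrix.mul_sub, Matrix.sub_mul, Matrix.mul_assoc,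
      Matrix.mul_one, Matrix.one_mul, Matrix.mul_zero, Matrix.zero_mul]; abel)
    rw [this, k3, k4, m2]
    (simp only [Matrix.mul_add, Matrix.add_mul, Matrix.mul_sub, Matrix.sub_mul, Matrix.mul_assoc,
      Matrix.mul_one, Matrix.one_mul, Matrix.mul_zero, Matrix.zero_mul]; abel)
  have hfin := Peel.det_top hD n1 n2
  rw [← hfin]
  congr 1
  rw [ha', hc']
  (simp only [Matrix.mul_add, Matrix.add_mul, Matrix.mul_sub, Matrix.sub_mul, Matrix.mul_assoc,
      Matrix.mul_one, Matrix.one_mul, Matrix.mul_zero, Matrix.zero_mul]; abel)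

end Pool.Agent.IntComm
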