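import Pool.Agent.Work.MP_584b0c_al.Api

set_option autoImplicit false

/-! MP_584b0c_al, item C15: powers. -/

namespace Pool.Agent.IntComm

open Matrix Polynomial

namespace PowAux

theorem El_mul {n : Type} [Fintype n] [DecidableEq n] {r s : ℕ} {M N : Matrix n n ℤ}
    (h : El r M) (h' : El s N) : El (r + s) (M * N) := by
  obtain ⟨L, hL, rfl⟩ := h
  obtain ⟨L', hL', rfl⟩ := h'
  refine ⟨L ++ L', ?_, ?_⟩
  · rw [List.length_append]
    exact Nat.add_le_add hL hL'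
  · rw [List.map_append, List.prod_append]

theorem corner_eq (A : Matrix (Fin 2) (Fin 2) ℤ) :
    (corner A : Matrix (Fin 3) (Fin 3) ℤ) = !![A 0 0, A 0 1, 0; A 1 0, A 1 1, 0; 0, 0, 1] := by
  ext i j
  fin_cases i <;> fin_cases j <;> simp [corner]

theorem corner_mul (A B : Matrix (Fin 2) (Fin 2) ℤ) :
    (corner (A * B) : Matrix (Fin 3) (Fin 3) ℤ) = corner A * corner B := by
  rw [corner_eq, corner_eq, corner_eq]
  ext i j
  fin_cases i <;> fin_cases j <;>
    simp [Matrix.mul_apply, Fin.sum_univ_three, Fin.sum_univ_two]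

theorem El_low (a : ℤ) : El 1 (corner !![1, 0; a, 1] : Matrix (Fin 3) (Fin 3) ℤ) := by
  refine ⟨[⟨1, 0, by decide, a⟩], by simp, ?_⟩
  rw [corner_eq, List.map_singleton, List.prod_singleton, TransvectionStruct.toMatrix_mk]
  ext i j
  fin_cases i <;> fin_cases j <;> simp [transvection, Matrix.single]

/-- a matrix of determinant one with a given first row -/
theorem exists_row {p q : ℤ} (h : IsCoprime p q) : ∃ M : Matrix (Fin 2) (Fin 2) ℤ,
    M.det = 1 ∧ M 0 0 = p ∧ M 0 1 = q := by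
  obtain ⟨u, v, huv⟩ := h
  refine ⟨!![p, q; -v, u], ?_, rfl, rfl⟩
  rw [Matrix.det_fin_two_of]
  linarith

theorem pow_form (A : Matrix (Fin 2) (Fin 2) ℤ) (hA : A.det = 1) (m : ℕ) :
    ∃ f g : ℤ, (A ^ m) 0 0 = f + g * A 0 0 ∧ (A ^ m) 0 1 = g * A 0 1 ∧
      (A ^ m) 1 0 = g * A 1 0 ∧ (A ^ m) 1 1 = f + g * A 1 1 ∧
      A 0 1 ∣ (A ^ m) 0 0 - A 0 0 ^ m := by
  rw [Matrix.det_fin_two] at hA
  induction m with
  | zero => exact ⟨1, 0, by simp, by simp, by simp, by simp, by simp⟩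
  | succ m ih =>
    obtain ⟨f, g, h1, h2, h3, h4, z, hz⟩ := ih
    refine ⟨-g, f + g * (A 0 0 + A 1 1), ?_, ?_, ?_, ?_, z * A 0 0 + g * A 1 0, ?_⟩
    · rw [pow_succ, Matrix.mul_apply, Fin.sum_univ_two, h1, h2]
      linear_combination (-g) * hA
    · rw [pow_succ, Matrix.mul_apply, Fin.sum_univ_two, h1, h2]
      ring
    · rw [pow_succ, Matrix.mul_apply, Fin.sum_univ_two, h3, h4]
      ring
    · rw [pow_succ, Matrix.mul_apply, Fin.sum_univ_two, h3, h4]
      linear_combination (-g) * hA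
    · rw [pow_succ, Matrix.mul_apply, Fin.sum_univ_two, pow_succ, h2]
      linear_combination (A 0 0) * hz

end PowAux

open PowAux in
/-- C15 -/
theorem claimPow (h1 : ClaimMen) (h2 : ClaimTriv) : ClaimPow := by
  intro A m hA hdiv
  obtain ⟨f, g, hx00, hx01, hx10, hx11, hx⟩ := pow_form A hA m
  have hdetm : (A ^ m).det = 1 := by rw [Matrix.det_pow, hA, one_pow]
  have hA' := hA
  rw [Matrix.det_fin_two] at hA'
  -- the basic relation
  have hrel : f * (f + g * (A 0 0 + A 1 1)) + g * g = 1 := by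
    have := hdetm
    rw [Matrix.det_fin_two, hx00, hx01, hx10, hx11] at this
    linear_combination this - g * g * hA'
  set x := (A ^ m) 0 0 with hxdef
  have hcop : IsCoprime f g := ⟨f + g * (A 0 0 + A 1 1), g, by linarith⟩
  obtain ⟨g1, g2, hg1, hg2, hg⟩ := exists_dvd_and_dvd_of_dvd_mul
    (show g ∣ (f - 1) * (f + 1) from ⟨-((A 0 0 + A 1 1) * f + g), by linear_combination hrel⟩)
  have hcop1 : IsCoprime f g1 := by
    obtain ⟨z, hz⟩ := hg1
    exact ⟨1, -z, by linear_combination hz⟩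
  have hcop2 : IsCoprime f g2 := by
    obtain ⟨z, hz⟩ := hg2
    exact ⟨-1, z, by linear_combination -hz⟩
  obtain ⟨M1, d1, a1, b1⟩ := exists_row hcop1
  obtain ⟨M2, d2, a2, b2⟩ := exists_row hcop2
  obtain ⟨M, d, a, b⟩ := exists_row hcop
  have e1 : El 9 (corner M1 : Matrix (Fin 3) (Fin 3) ℤ) :=
    h2 M1 d1 (Or.inl (by rw [a1, b1]; exact hg1))
  have e2 : El 9 (corner M2 : Matrix (Fin 3) (Fin 3) ℤ) :=
    h2 M2 d2 (Or.inr (by rw [a2, b2]; exact hg2))
  have e3 : El (9 + 9 + 5) (corner M : Matrix (Fin 3) (Fin 3) ℤ) :=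
    h1 M1 M2 M 9 9 d1 d2 d (by rw [a1, a2]) (by rw [a, a1]) (by rw [b, b1, b2, hg]) e1 e2
  have e4 : El (9 + 9 + 5 + 1) (corner (M * !![1, 0; A 0 0, 1]) : Matrix (Fin 3) (Fin 3) ℤ) := by
    rw [corner_mul]
    exact El_mul e3 (El_low _)
  have p00 : (M * !![1, 0; A 0 0, 1]) 0 0 = x := by
    rw [hx00, Matrix.mul_apply, Fin.sum_univ_two, a, b]
    simp
  have p01 : (M * !![1, 0; A 0 0, 1]) 0 1 = g := by
    rw [Matrix.mul_apply, Fin.sum_univ_two, a, b]
    simp
  have pdet : (M * !![1, 0; A 0 0, 1]).det = 1 := by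
    rw [Matrix.det_mul, d, Matrix.det_fin_two_of]
    ring
  have hxdiv : A 0 1 ∣ x - 1 ∨ A 0 1 ∣ x + 1 := by
    rcases hdiv with h | h
    · left
      have := dvd_add hx h
      have e : x - A 0 0 ^ m + (A 0 0 ^ m - 1) = x - 1 := by ring
      rwa [e] at this
    · right
      have := dvd_add hx h
      have e : x - A 0 0 ^ m + (A 0 0 ^ m + 1) = x + 1 := by ring
      rwa [e] at this
  have hcopx : IsCoprime x (A 0 1) := by
    rcases hxdiv with ⟨z, hz⟩ | ⟨z, hz⟩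
    · exact ⟨1, -z, by linear_combination hz⟩
    · exact ⟨-1, z, by linear_combination -hz⟩
  obtain ⟨N, dN, aN, bN⟩ := exists_row hcopx
  have e5 : El 9 (corner N : Matrix (Fin 3) (Fin 3) ℤ) := h2 N dN (by rw [aN, bN]; exact hxdiv)
  have e6 := h1 (M * !![1, 0; A 0 0, 1]) N (A ^ m) (9 + 9 + 5 + 1) 9 pdet dN hdetm
    (by rw [p00, aN]) (by rw [p00]) (by rw [p01, bN, hx01]) e4 e5
  exact e6

end Pool.Agent.IntComm
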