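import Pool.Agent.Work.MP_584b0c_al.Api

set_option autoImplicit false

/-! Item B3: replacing the first block row of a block companion matrix. -/

namespace Pool.Agent.IntComm

open Matrix Polynomial

theorem claimRepl : ClaimRepl := by
  intro τ σ _ _ _ _ q P P' H hH
  cases q with
  | zero =>
    obtain ⟨γ, hγ⟩ := hH
    refine ⟨γ, ?_⟩
    subst hγ
    ext i j
    rcases i with i | i
    · rcases j with (j | j) | j <;> rfl
    · rfl
  | succ q =>
    obtain ⟨P'', H', h1, h2⟩ := hH
    refine ⟨P'', H', h1, ?_⟩
    subst h2
    ext i j
    rcases i with i | i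
    · rcases j with j | j <;> rfl
    · rfl

end Pool.Agent.IntComm
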