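import Pool.Agent.Work.MP_584b0c_al.Api

set_option autoImplicit false

namespace Pool.Agent.IntComm

open Matrix Polynomial

namespace SR

theorem three (a d g : ℤ) (hg : g ≠ 0) (h : ∃ x y z : ℤ, a * x + d * y + g * z = 1) :
    ∃ c : ℤ, IsCoprime (a + d * c) g := by
  obtain ⟨x, y, z, h⟩ := h
  classical
  set S : Finset ℕ := g.natAbs.primeFactors.filter (fun p : ℕ => ¬ ((p : ℤ) ∣ a)) with hS
  refine ⟨∏ p ∈ S, (p : ℤ), ?_⟩
  rw [Int.isCoprime_iff_gcd_eq_one]
  by_contra hne
  obtain ⟨p, hp, hpd⟩ := Nat.exists_prime_and_dvd hne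
  have h1 : (p : ℤ) ∣ a + d * (∏ p ∈ S, (p : ℤ)) :=
    (Int.natCast_dvd_natCast.2 hpd).trans (Int.gcd_dvd_left _ _)
  have h2 : (p : ℤ) ∣ g := (Int.natCast_dvd_natCast.2 hpd).trans (Int.gcd_dvd_right _ _)
  have hpP : Prime (p : ℤ) := Nat.prime_iff_prime_int.1 hp
  by_cases hpa : (p : ℤ) ∣ a
  · have h3 : (p : ℤ) ∣ d * (∏ p ∈ S, (p : ℤ)) := (dvd_add_right hpa).1 h1
    rcases hpP.dvd_or_dvd h3 with h4 | h4
    · have : (p : ℤ) ∣ 1 := by
        rw [← h]
        exact dvd_add (dvd_add (hpa.mul_right _) (h4.mul_right _)) (h2.mul_right _)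
      exact hpP.not_isUnit (isUnit_of_dvd_one this)
    · obtain ⟨q, hq, hpq⟩ := (hpP.dvd_finsetProd_iff _).1 h4
      rw [hS, Finset.mem_filter] at hq
      have hq1 : q.Prime := Nat.prime_of_mem_primeFactors hq.1
      have hpq' : p = q := (Nat.prime_dvd_prime_iff_eq hp hq1).1 (Int.natCast_dvd_natCast.1 hpq)
      exact hq.2 (hpq' ▸ hpa)
  · have h3 : (p : ℤ) ∣ ∏ p ∈ S, (p : ℤ) := by
      apply Finset.dvd_prod_of_mem
      rw [hS, Finset.mem_filter]
      refine ⟨?_, hpa⟩
      rw [Nat.mem_primeFactors]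
      exact ⟨hp, Int.natCast_dvd.1 h2, by simpa using hg⟩
    exact hpa ((dvd_add_left (h3.mul_left _)).1 h1)

end SR

theorem claimSR : ClaimSR := by
  intro k hk γ δ h
  obtain ⟨y, y₀, hy⟩ := h
  classical
  obtain ⟨k, rfl⟩ : ∃ k', k = k' + 2 := ⟨k - 2, by omega⟩
  rw [Fin.sum_univ_succ] at hy
  by_cases h0 : ∀ i : Fin (k + 1), γ i.succ = 0
  · refine ⟨fun i => if i = 1 then 1 else 0, fun i => if i = 0 then y 0 else if i = 1 then y₀ else 0, ?_⟩
    rw [Fin.sum_univ_succ, Fin.sum_univ_succ]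
    have h2 : ∀ i : Fin k, (i.succ.succ : Fin (k + 2)) ≠ 1 := by
      intro i hi
      have := congrArg Fin.val hi
      simp at this
    have h01 : (0 : Fin (k + 2)) ≠ 1 := by
      intro hi
      have := congrArg Fin.val hi
      simp at this
    have h10 : ((0 : Fin (k + 1)).succ : Fin (k + 2)) = 1 := rfl
    rw [Finset.sum_eq_zero (s := Finset.univ) (f := fun i : Fin k => _)]
    · simp only [h10]
      have h1 : γ 1 = 0 := h0 0
      simp only [h0, zero_mul, Finset.sum_const_zero, add_zero] at hy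
      rw [if_neg h01, if_pos trivial, if_pos trivial, if_neg h01.symm, if_pos trivial, h1]
      linarith
    · intro i _
      simp only [h0]
      rw [if_neg (h2 i), if_neg (Fin.succ_ne_zero _), if_neg (h2 i)]
      ring
  · push Not at h0
    obtain ⟨j, hj⟩ := h0
    obtain ⟨g, hg⟩ : ∃ g : ℤ, Ideal.span (Set.range fun i : Fin (k + 1) => γ i.succ) =
        Ideal.span {g} := by
      obtain ⟨g, hg⟩ := (IsPrincipalIdealRing.principal
        (Ideal.span (Set.range fun i : Fin (k + 1) => γ i.succ))).principal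
      exact ⟨g, hg⟩
    have hmem : ∀ i : Fin (k + 1), g ∣ γ i.succ := by
      intro i
      rw [← Ideal.mem_span_singleton, ← hg]
      exact Ideal.subset_span ⟨i, rfl⟩
    have hg0 : g ≠ 0 := by
      rintro rfl
      exact hj (zero_dvd_iff.1 (hmem j))
    have hgm : g ∈ Ideal.span (Set.range fun i : Fin (k + 1) => γ i.succ) := by
      rw [hg]
      exact Ideal.mem_span_singleton_self g
    rw [Ideal.mem_span_range_iff_exists_fun] at hgm
    obtain ⟨w, hw⟩ := hgm
    have hsum : g ∣ ∑ i : Fin (k + 1), γ i.succ * y i.succ :=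
      Finset.dvd_sum fun i _ => (hmem i).mul_right _
    obtain ⟨t, ht⟩ := hsum
    obtain ⟨c, hc⟩ := SR.three (γ 0) δ g hg0 ⟨y 0, y₀, t, by rw [← ht]; linarith⟩
    obtain ⟨a, b, hab⟩ := hc
    refine ⟨fun i => if i = 0 then c else 0, Fin.cons a fun i => b * w i, ?_⟩
    rw [Fin.sum_univ_succ]
    simp only [Fin.cons_zero, Fin.cons_succ, if_true, Fin.succ_ne_zero, if_false, mul_zero,
      add_zero]
    have : ∑ i : Fin (k + 1), γ i.succ * (b * w i) = b * g := by
      rw [← hw, Finset.mul_sum]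
      exact Finset.sum_congr rfl fun i _ => by ring
    rw [this, ← hab]
    ring

end Pool.Agent.IntComm
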