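import Pool.Agent.Work.MP_584b0c_al.Api

set_option autoImplicit false

/-! Item B1: conjugation making the top left block equal to `d`. -/

namespace Pool.Agent.IntComm

open Matrix Polynomial

namespace Schur

variable {m n : Type} [Fintype m] [DecidableEq m] [Fintype n] [DecidableEq n]

/-- The unit `[[1, W], [0, 1]]`. -/
def upU (W : Matrix m n ℤ) : (Matrix (m ⊕ n) (m ⊕ n) ℤ)ˣ where
  val := fromBlocks 1 W 0 1
  inv := fromBlocks 1 (-W) 0 1
  val_inv := by rw [fromBlocks_multiply]; simp [fromBlocks_one]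
  inv_val := by rw [fromBlocks_multiply]; simp [fromBlocks_one]

end Schur

theorem claimSchur : ClaimSchur := by
  intro κ n _ _ _ _ d r H
  let e : Matrix (κ ⊕ n) κ ℤ := fromRows 1 0
  let x : Matrix κ (κ ⊕ n) ℤ := fromCols (d : Matrix κ κ ℤ) 0
  have hxe : x * e = (d : Matrix κ κ ℤ) := by
    simp only [x, e]
    rw [fromCols_mul_fromRows, Matrix.mul_one, Matrix.mul_zero, add_zero]
  refine ⟨r + x * H - (d : Matrix κ κ ℤ) * x, e, H - e * x, ⟨Schur.upU x, ?_⟩, ?_⟩
  · change fromBlocks 1 x 0 1 * fromBlocks 0 r e H =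
      fromBlocks (d : Matrix κ κ ℤ) (r + x * H - (d : Matrix κ κ ℤ) * x) e (H - e * x) *
        fromBlocks 1 x 0 1
    rw [fromBlocks_multiply, fromBlocks_multiply, hxe]
    simp
  · have h1 : ((d⁻¹ : (Matrix κ κ ℤ)ˣ) : Matrix κ κ ℤ) * x = fromCols 1 0 := by
      simp only [x]
      rw [mul_fromCols, Matrix.mul_zero, Units.inv_mul]
    have h2 : H - e * x - e * ((d⁻¹ : (Matrix κ κ ℤ)ˣ) : Matrix κ κ ℤ) *
        (r + x * H - (d : Matrix κ κ ℤ) * x) =
        H - e * (((d⁻¹ : (Matrix κ κ ℤ)ˣ) : Matrix κ κ ℤ) * r) -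
          e * ((((d⁻¹ : (Matrix κ κ ℤ)ˣ) : Matrix κ κ ℤ) * x) * H) := by
      rw [Matrix.mul_sub, Matrix.mul_add]
      have h3 : e * ((d⁻¹ : (Matrix κ κ ℤ)ˣ) : Matrix κ κ ℤ) * ((d : Matrix κ κ ℤ) * x) = e * x := by
        rw [Matrix.mul_assoc, ← Matrix.mul_assoc _ _ x, Units.inv_mul, Matrix.one_mul]
      rw [h3]
      simp only [Matrix.mul_assoc]
      abel
    rw [h2, h1]
    have h4 : fromCols (1 : Matrix κ κ ℤ) (0 : Matrix κ n ℤ) * H = H.toRows₁ := by
      conv_lhs => rw [← fromRows_toRows H]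
      rw [fromCols_mul_fromRows, Matrix.one_mul, Matrix.zero_mul, add_zero]
    rw [h4]
    simp only [e]
    rw [fromRows_mul, fromRows_mul, Matrix.one_mul, Matrix.zero_mul, Matrix.one_mul,
      Matrix.zero_mul]
    ext i j
    rcases i with i | i <;> simp [Matrix.toRows₁, Matrix.toRows₂]

end Pool.Agent.IntComm
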