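import Pool.Agent.Work.MP_584b0c_al.Api

set_option autoImplicit false

/-! D9. The short block. -/

namespace Pool.Agent.IntComm

open Matrix Polynomial

namespace Short

theorem card_idx (τ σ : Type) [Fintype τ] [Fintype σ] : ∀ q : ℕ,
    Fintype.card (Idx τ σ q) = q * (Fintype.card τ + Fintype.card σ) + Fintype.card σ
  | 0 => by
      show Fintype.card σ = _
      simp
  | q + 1 => by
      show Fintype.card ((τ ⊕ σ) ⊕ Idx τ σ q) = _
      rw [Fintype.card_sum, Fintype.card_sum, card_idx τ σ q]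
      ring

theorem frame_succ_mul {n τ σ p : Type} [Fintype n] [Fintype τ] [Fintype σ] (C : Matrix n n ℤ)
    (q : ℕ) (V : Matrix n (τ ⊕ σ) ℤ) (A : Matrix (τ ⊕ σ) p ℤ) (E : Matrix (Idx τ σ q) p ℤ) :
    frame C (q + 1) V * (show Matrix (Idx τ σ (q + 1)) p ℤ from fromRows A E) =
      V * A + frame C q (C * V) * E :=
  fromCols_mul_fromRows V (frame C q (C * V)) A E

theorem frame_low {n τ σ : Type} [Fintype n] [DecidableEq n] [Fintype τ] [DecidableEq τ]
    [Fintype σ] [DecidableEq σ] (C : Matrix n n ℤ) :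
    ∀ (q : ℕ) (V : Matrix n (τ ⊕ σ) ℤ) (i : ℕ), i < q →
      ∃ E : Matrix (Idx τ σ q) (τ ⊕ σ) ℤ, C ^ i * V = frame C q V * E ∧
        ∀ (t : σ) (a : τ ⊕ σ), E (lastIdx q t) a = 0
  | 0, V, i, hi => absurd hi (Nat.not_lt_zero i)
  | q + 1, V, 0, _ => by
      refine ⟨(show Matrix (Idx τ σ (q + 1)) (τ ⊕ σ) ℤ from
        fromRows (1 : Matrix (τ ⊕ σ) (τ ⊕ σ) ℤ) (0 : Matrix (Idx τ σ q) (τ ⊕ σ) ℤ)), ?_, ?_⟩
      · rw [frame_succ_mul, Matrix.mul_one, Matrix.mul_zero, add_zero, pow_zero,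
          Matrix.one_mul]
      · intro t a
        show fromRows (1 : Matrix (τ ⊕ σ) (τ ⊕ σ) ℤ) (0 : Matrix (Idx τ σ q) (τ ⊕ σ) ℤ)
          (Sum.inr (lastIdx q t)) a = 0
        rw [fromRows_apply_inr]
        rfl
  | q + 1, V, i + 1, hi => by
      obtain ⟨E, hE, hE'⟩ := frame_low C q (C * V) i (Nat.lt_of_succ_lt_succ hi)
      refine ⟨(show Matrix (Idx τ σ (q + 1)) (τ ⊕ σ) ℤ from
        fromRows (0 : Matrix (τ ⊕ σ) (τ ⊕ σ) ℤ) E), ?_, ?_⟩
      · rw [frame_succ_mul, Matrix.mul_zero, zero_add, ← hE, pow_succ, Matrix.mul_assoc]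
      · intro t a
        show fromRows (0 : Matrix (τ ⊕ σ) (τ ⊕ σ) ℤ) E (Sum.inr (lastIdx q t)) a = 0
        rw [fromRows_apply_inr]
        exact hE' t a

theorem frame_last {n τ σ : Type} [Fintype n] [DecidableEq n] [Fintype τ] [DecidableEq τ]
    [Fintype σ] [DecidableEq σ] (C : Matrix n n ℤ) :
    ∀ (q : ℕ) (V : Matrix n (τ ⊕ σ) ℤ),
      ∃ E : Matrix (Idx τ σ q) σ ℤ, (C ^ q * V).toCols₂ = frame C q V * E
  | 0, V => by
      refine ⟨(1 : Matrix σ σ ℤ), ?_⟩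
      show (C ^ 0 * V).toCols₂ = V.toCols₂ * (1 : Matrix σ σ ℤ)
      rw [Matrix.mul_one, pow_zero, Matrix.one_mul]
  | q + 1, V => by
      obtain ⟨E, hE⟩ := frame_last C q (C * V)
      refine ⟨(show Matrix (Idx τ σ (q + 1)) σ ℤ from fromRows (0 : Matrix (τ ⊕ σ) σ ℤ) E), ?_⟩
      rw [frame_succ_mul, Matrix.mul_zero, zero_add, ← hE, pow_succ, Matrix.mul_assoc]

theorem mul_toCols₁ {p q a b : Type} [Fintype q] (A : Matrix p q ℤ) (B : Matrix q (a ⊕ b) ℤ) :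
    (A * B).toCols₁ = A * B.toCols₁ := rfl

theorem mul_toCols₂ {p q a b : Type} [Fintype q] (A : Matrix p q ℤ) (B : Matrix q (a ⊕ b) ℤ) :
    (A * B).toCols₂ = A * B.toCols₂ := rfl

theorem kry_split {N k : ℕ} (C : Matrix (Fin N) (Fin N) ℤ) (V : Matrix (Fin N) (Fin k) ℤ) (Q : ℕ)
    (x : Fin (Q + 1) × Fin k → ℤ) :
    (Kry C V (Q + 1)).mulVec x = (Kry C V Q).mulVec (fun a => x (a.1.castSucc, a.2)) +
      (C ^ Q * V).mulVec (fun a => x (Fin.last Q, a)) := by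
  ext i
  simp only [Matrix.mulVec, dotProduct, Pi.add_apply]
  rw [Fintype.sum_prod_type, Fin.sum_univ_castSucc, Fintype.sum_prod_type]
  rfl

end Short

theorem claimShort (h6 : ClaimComplete) (h8 : ClaimSplit) : ClaimShort := by
  intro N Q k s j C V₀ hN hk hP hS
  obtain ⟨B, K, L, hKS, hLB, hKB, hLS, hid⟩ := h6 (Fin N) (Fin Q × Fin k) (Kry C V₀ Q) s hP (by
    simp [hN])
  set K₀ := Kry C V₀ Q with hK₀
  set M : Matrix (Fin s) (Fin k) ℤ := L * (C ^ Q * V₀) with hM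
  -- `M` is onto
  have honto : ∀ w : Fin s → ℤ, ∃ x : Fin k → ℤ, M.mulVec x = w := by
    intro w
    obtain ⟨x, hx⟩ := hS (B.mulVec w)
    rw [Short.kry_split] at hx
    refine ⟨fun a => x (Fin.last Q, a), ?_⟩
    have h1 := congrArg L.mulVec hx
    rw [Matrix.mulVec_add, Matrix.mulVec_mulVec, Matrix.mulVec_mulVec, Matrix.mulVec_mulVec, ← hK₀,
      hLS, hLB, Matrix.zero_mulVec, zero_add, Matrix.one_mulVec] at h1
    exact h1
  choose r hr using honto
  set R : Matrix (Fin k) (Fin s) ℤ := Matrix.of fun a t => r (Pi.single t 1) a with hR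
  have hMR : M * R = 1 := by
    ext t t'
    have h1 := congrFun (hr (Pi.single t' 1)) t
    have h2 : (M * R) t t' = M.mulVec (r (Pi.single t' 1)) t := by
      simp only [Matrix.mul_apply, Matrix.mulVec, dotProduct, hR, Matrix.of_apply]
    rw [h2, h1, Matrix.one_apply, Pi.single_apply]
  obtain ⟨g, g', hgg', hg'g, hMg⟩ := h8 (Fin k) (Fin s) j M R hMR (by simp [hk])
  set V : Matrix (Fin N) (Fin j ⊕ Fin s) ℤ := V₀ * g with hV
  set W : Matrix (Fin N) (Fin j ⊕ Fin s) ℤ := C ^ Q * V with hW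
  have hLW : L * W = fromCols 0 1 := by
    rw [hW, hV, ← Matrix.mul_assoc (C ^ Q), ← Matrix.mul_assoc L, ← hM, hMg]
  have hLW1 : L * W.toCols₁ = 0 := by
    rw [← Short.mul_toCols₁, hLW, toCols₁_fromCols]
  have hLW2 : L * W.toCols₂ = 1 := by
    rw [← Short.mul_toCols₂, hLW, toCols₂_fromCols]
  -- the columns of `K₀`
  have hlow : ∀ i : Fin Q, ∃ E : Matrix (Idx (Fin j) (Fin s) Q) (Fin j ⊕ Fin s) ℤ,
      C ^ (i : ℕ) * V = frame C Q V * E ∧
        ∀ (t : Fin s) (a : Fin j ⊕ Fin s), E (lastIdx Q t) a = 0 := fun i =>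
    Short.frame_low C Q V i i.2
  choose E hE hE' using hlow
  obtain ⟨E2, hE2⟩ := Short.frame_last C Q V
  set E0 : Matrix (Idx (Fin j) (Fin s) Q) (Fin Q × Fin k) ℤ :=
    Matrix.of fun u a => (E a.1 * g') u a.2 with hE0
  have hK₀E : K₀ = frame C Q V * E0 := by
    ext i a
    have h1 : C ^ (a.1 : ℕ) * V₀ = frame C Q V * (E a.1 * g') := by
      rw [← Matrix.mul_assoc, ← hE a.1, hV, Matrix.mul_assoc (C ^ (a.1 : ℕ)), Matrix.mul_assoc V₀,
        hgg', Matrix.mul_one]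
    have h2 : K₀ i a = (C ^ (a.1 : ℕ) * V₀) i a.2 := rfl
    rw [h2, h1]
    simp only [Matrix.mul_apply (M := frame C Q V), hE0, Matrix.of_apply]
  have hE0z : ∀ (t : Fin s) (a : Fin Q × Fin k), E0 (lastIdx Q t) a = 0 := by
    intro t a
    simp only [hE0, Matrix.of_apply, Matrix.mul_apply, hE' a.1 t, zero_mul, Finset.sum_const_zero]
  have hB : B = frame C Q V * (E2 - E0 * K * W.toCols₂) := by
    have h1 : W.toCols₂ = K₀ * K * W.toCols₂ + B * (L * W.toCols₂) := by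
      rw [← Matrix.mul_assoc B, ← Matrix.add_mul, hid, Matrix.one_mul]
    rw [hLW2, Matrix.mul_one] at h1
    have h2 : B = W.toCols₂ - K₀ * K * W.toCols₂ := by
      rw [eq_sub_iff_add_eq, add_comm]; exact h1.symm
    rw [h2]
    conv_lhs => rw [hK₀E]
    rw [Matrix.mul_sub, ← hE2]
    simp only [Matrix.mul_assoc]
    rfl
  set h' : Matrix (Idx (Fin j) (Fin s) Q) (Fin N) ℤ :=
    E0 * K + (E2 - E0 * K * W.toCols₂) * L with hh'
  have hfh : frame C Q V * h' = 1 := by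
    rw [hh', Matrix.mul_add, ← Matrix.mul_assoc, ← Matrix.mul_assoc, ← hK₀E, ← hB, hid]
  have hcard : Fintype.card (Idx (Fin j) (Fin s) Q) = Fintype.card (Fin N) := by
    rw [Short.card_idx, Fintype.card_fin, Fintype.card_fin, Fintype.card_fin, hN, hk]
  have hhf : h' * frame C Q V = 1 :=
    (Matrix.mul_eq_one_comm_of_equiv (Fintype.equivOfCardEq hcard)).mpr hfh
  refine ⟨V, h', E0 * K * W.toCols₁, hhf, hfh, ?_, ?_⟩
  · show W.toCols₁ = _
    have h1 : W.toCols₁ = K₀ * K * W.toCols₁ + B * (L * W.toCols₁) := by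
      rw [← Matrix.mul_assoc B, ← Matrix.add_mul, hid, Matrix.one_mul]
    rw [hLW1, Matrix.mul_zero, add_zero] at h1
    conv_lhs => rw [h1, hK₀E]
    simp only [Matrix.mul_assoc]
  · intro t a
    rw [Matrix.mul_assoc, Matrix.mul_apply]
    simp only [hE0z t, zero_mul, Finset.sum_const_zero]

end Pool.Agent.IntComm
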