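import Pool.Agent.Work.MP_584b0c_al.Api

set_option autoImplicit false

/-! MP_584b0c_al, item D8: splitting a surjection. -/

namespace Pool.Agent.IntComm

open Matrix Polynomial

/-- D8 -/
theorem claimSplit (h : ClaimComplete) : ClaimSplit := by
  intro κ σ _ _ _ _ j M R hMR hcard
  have hPI : PInd R := by
    intro p _ x hx
    have h1 : (M.map (Int.cast : ℤ → ZMod p)) * (R.map (Int.cast : ℤ → ZMod p)) = 1 := by
      have := congrArg (fun A : Matrix σ σ ℤ => A.map (Int.castRingHom (ZMod p))) hMR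
      simp only [Matrix.map_mul] at this
      rw [Matrix.map_one _ (map_zero _) (map_one _)] at this
      exact this
    have h2 := congrArg (fun y => (M.map (Int.cast : ℤ → ZMod p)).mulVec y) hx
    simp only [Matrix.mulVec_mulVec, h1, Matrix.one_mulVec, Matrix.mulVec_zero] at h2
    exact h2
  obtain ⟨B, K, L, hKR, hLB, hKB, hLR, hsum⟩ := h κ σ R j hPI (by omega)
  set N := B - R * (M * B) with hN
  have hMN : M * N = 0 := by
    rw [hN, Matrix.mul_sub, ← Matrix.mul_assoc M R, hMR, Matrix.one_mul, sub_self]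
  have hLN : L * N = 1 := by
    rw [hN, Matrix.mul_sub, ← Matrix.mul_assoc L R, hLR, Matrix.zero_mul, sub_zero, hLB]
  have hKN : K * N = -(M * B) := by
    rw [hN, Matrix.mul_sub, ← Matrix.mul_assoc K R, hKR, Matrix.one_mul, hKB, zero_sub]
  refine ⟨fromCols N R, fromRows L (K + M * B * L), ?_, ?_, ?_⟩
  · rw [Matrix.fromCols_mul_fromRows, Matrix.mul_add, ← hsum, hN, Matrix.sub_mul]
    simp only [Matrix.mul_assoc]
    abel
  · rw [Matrix.fromRows_mul_fromCols, hLN, hLR, Matrix.add_mul, Matrix.add_mul, hKN, hKR,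
      Matrix.mul_assoc (M * B) L N, hLN, Matrix.mul_one, Matrix.mul_assoc (M * B) L R, hLR,
      Matrix.mul_zero, neg_add_cancel, add_zero, Matrix.fromBlocks_one]
  · rw [Matrix.mul_fromCols, hMN, hMR]

end Pool.Agent.IntComm
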