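import Pool.Agent.Work.MP_584b0c_al.Local

set_option autoImplicit false

/-! MP_584b0c_al, item D4: extension by a Krylov string modulo all primes. -/

namespace Pool.Agent.IntComm

open Matrix Polynomial

namespace Step

/-- Chinese remainders for a finite set of primes. -/
theorem crt (P : Finset ℕ) (hP : ∀ p ∈ P, p.Prime) (f : ℕ → ℤ) :
    ∃ z : ℤ, ∀ p ∈ P, (z : ZMod p) = (f p : ZMod p) := by
  classical
  induction P using Finset.induction_on with
  | empty => exact ⟨0, by simp⟩
  | insert p P hpP ih =>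
    obtain ⟨z, hz⟩ := ih (fun q hq => hP q (Finset.mem_insert_of_mem hq))
    have hp : p.Prime := hP p (Finset.mem_insert_self _ _)
    haveI : Fact p.Prime := ⟨hp⟩
    have hN : ((∏ q ∈ P, q : ℕ) : ZMod p) ≠ 0 := by
      intro h
      rw [ZMod.natCast_eq_zero_iff, Prime.dvd_finsetProd_iff hp.prime] at h
      obtain ⟨q, hq, hpq⟩ := h
      have := (Nat.prime_dvd_prime_iff_eq hp (hP q (Finset.mem_insert_of_mem hq))).1 hpq
      rw [this] at hpP
      exact hpP hq
    obtain ⟨k, hk⟩ := ZMod.intCast_surjective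
      (((f p : ZMod p) - (z : ZMod p)) / ((∏ q ∈ P, q : ℕ) : ZMod p))
    refine ⟨z + ((∏ q ∈ P, q : ℕ) : ℤ) * k, ?_⟩
    intro q hq
    rw [Finset.mem_insert] at hq
    rcases hq with rfl | hq
    · push_cast at hk hN ⊢
      rw [hk, mul_div_cancel₀ _ hN]
      ring
    · have h0 : ((∏ q ∈ P, q : ℕ) : ZMod q) = 0 := by
        rw [ZMod.natCast_eq_zero_iff]
        exact Finset.dvd_prod_of_mem _ hq
      have h1 : ((z + ((∏ q ∈ P, q : ℕ) : ℤ) * k : ℤ) : ZMod q) =
          (z : ZMod q) + ((∏ q ∈ P, q : ℕ) : ZMod q) * (k : ZMod q) := by push_cast; ring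
      rw [h1, h0, zero_mul, add_zero]
      exact hz q hq

section

variable {n ρ ν : Type} [Fintype n] [DecidableEq n] [Fintype ρ] [Fintype ν]

theorem kry1_add {R' : Type} [CommRing R'] (C : Matrix n n R') (v w : n → R') (t : R') (d : ℕ)
    (a : Fin d → R') : (Kry1 C (v + t • w) d).mulVec a =
      (Kry1 C v d).mulVec a + (Kry1 C w d).mulVec (t • a) := by
  rw [Local.kry1_mulVec, Local.kry1_mulVec, Local.kry1_mulVec, ← Finset.sum_add_distrib]
  refine Finset.sum_congr rfl fun k _ => ?_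
  rw [Matrix.mulVec_add, Matrix.mulVec_smul, smul_add, Pi.smul_apply, smul_smul, smul_eq_mul,
    mul_comm]

/-- Independence modulo `p` depends only on the vector modulo `p`. -/
theorem pindAt_congr (p d : ℕ) (C : Matrix n n ℤ) (S : Matrix n ρ ℤ) (G : Matrix n ν ℤ)
    (b : n → ℤ) (x x' : ν → ℤ) (h : ∀ j, (x j : ZMod p) = (x' j : ZMod p)) :
    PIndAt p (fromCols S (Kry1 C (b + G.mulVec x) d)) ↔
      PIndAt p (fromCols S (Kry1 C (b + G.mulVec x') d)) := by
  have h1 : (Int.castRingHom (ZMod p)) ∘ (b + G.mulVec x) =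
      (Int.castRingHom (ZMod p)) ∘ (b + G.mulVec x') := by
    ext i
    simp only [Function.comp, Pi.add_apply, map_add]
    rw [RingHom.map_mulVec, RingHom.map_mulVec]
    have h2 : (Int.castRingHom (ZMod p)) ∘ x = (Int.castRingHom (ZMod p)) ∘ x' := funext h
    rw [h2]
  rw [Local.pindAt_iff, Local.pindAt_iff, h1]

end

end Step

open Step in
theorem claimStep (h2 : ClaimLocal) (h3 : ClaimFin) : ClaimStep := by
  intro n ρ ν _ _ _ _ _ _ C S G b d κ₀ hKB hcard hS hG
  classical
  have hcard1 : Fintype.card ρ + d + κ₀ ≤ Fintype.card ν := by omega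
  have hcard2 : Fintype.card (ρ ⊕ Fin d) + d + κ₀ ≤ Fintype.card ν := by
    rw [Fintype.card_sum, Fintype.card_fin]
    omega
  obtain ⟨x0, hx0⟩ := h2 n ρ ν C S G b d κ₀ hKB hcard1 2 Nat.prime_two (hS 2 Nat.prime_two)
    (hG 2 Nat.prime_two)
  have hfin0 := h3 n (ρ ⊕ Fin d) _ 2 Nat.prime_two hx0
  obtain ⟨z2, hz2⟩ := h2 n (ρ ⊕ Fin d) ν C (fromCols S (Kry1 C (b + G.mulVec x0) d)) G 0 d κ₀ hKB
    hcard2 2 Nat.prime_two hx0 (hG 2 Nat.prime_two)
  have hxp : ∀ p : ℕ, ∃ xp : ν → ℤ, p.Prime → PIndAt p (fromCols S (Kry1 C (b + G.mulVec xp) d)) := by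
    intro p
    by_cases hp : p.Prime
    · obtain ⟨xp, hxp⟩ := h2 n ρ ν C S G b d κ₀ hKB hcard1 p hp (hS p hp) (hG p hp)
      exact ⟨xp, fun _ => hxp⟩
    · exact ⟨0, fun h => absurd h hp⟩
  choose xp hxp using hxp
  have h2P0 : 2 ∉ hfin0.toFinset := by
    rw [Set.Finite.mem_toFinset]
    exact fun h => h.2 hx0
  have hz : ∃ z : ν → ℤ, (∀ j, (z j : ZMod 2) = (z2 j : ZMod 2)) ∧
      ∀ p ∈ hfin0.toFinset, ∀ j, (z j : ZMod p) = ((xp p j - x0 j : ℤ) : ZMod p) := by
    have h4 : ∀ j, ∃ zj : ℤ, ∀ p ∈ insert 2 hfin0.toFinset,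
        (zj : ZMod p) = ((if p = 2 then z2 j else xp p j - x0 j : ℤ) : ZMod p) := by
      intro j
      refine crt _ ?_ (fun p => if p = 2 then z2 j else xp p j - x0 j)
      intro p hp
      rw [Finset.mem_insert, Set.Finite.mem_toFinset] at hp
      rcases hp with rfl | hp
      · exact Nat.prime_two
      · exact hp.1
    choose z hz using h4
    refine ⟨z, fun j => ?_, fun p hp j => ?_⟩
    · have := hz j 2 (Finset.mem_insert_self _ _)
      simpa using this
    · have := hz j p (Finset.mem_insert_of_mem hp)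
      rw [if_neg (by rintro rfl; exact h2P0 hp)] at this
      exact this
  obtain ⟨z, hz2', hzp⟩ := hz
  have hM1 : PIndAt 2 (fromCols (fromCols S (Kry1 C (b + G.mulVec x0) d))
      (Kry1 C (0 + G.mulVec z) d)) := (pindAt_congr 2 d C _ G 0 z z2 hz2').2 hz2
  have hfin1 := h3 n ((ρ ⊕ Fin d) ⊕ Fin d) _ 2 Nat.prime_two hM1
  obtain ⟨t, ht⟩ := crt (hfin0.toFinset ∪ hfin1.toFinset) (by
    intro p hp
    rw [Finset.mem_union, Set.Finite.mem_toFinset, Set.Finite.mem_toFinset] at hp
    rcases hp with hp | hp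
    · exact hp.1
    · exact hp.1) (fun p => if p ∈ hfin0.toFinset then 1 else 0)
  refine ⟨x0 + t • z, ?_⟩
  intro p hp
  haveI : Fact p.Prime := ⟨hp⟩
  by_cases hp0 : p ∈ hfin0.toFinset
  · have h5 := ht p (Finset.mem_union_left _ hp0)
    rw [if_pos hp0] at h5
    refine (pindAt_congr p d C S G b _ (xp p) ?_).2 (hxp p hp)
    intro j
    have h6 := hzp p hp0 j
    simp only [Pi.add_apply, Pi.smul_apply, smul_eq_mul, Int.cast_add, Int.cast_mul, Int.cast_one,
      Int.cast_sub] at h5 h6 ⊢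
    rw [h5, h6]
    ring
  · by_cases hp1 : p ∈ hfin1.toFinset
    · have h5 := ht p (Finset.mem_union_right _ hp1)
      rw [if_neg hp0] at h5
      have h7 : PIndAt p (fromCols S (Kry1 C (b + G.mulVec x0) d)) := by
        by_contra h8
        exact hp0 ((Set.Finite.mem_toFinset _).2 ⟨hp, h8⟩)
      refine (pindAt_congr p d C S G b _ x0 ?_).2 h7
      intro j
      simp only [Pi.add_apply, Pi.smul_apply, smul_eq_mul, Int.cast_add, Int.cast_mul,
        Int.cast_zero] at h5 ⊢
      rw [h5]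
      ring
    · have h8 : PIndAt p (fromCols (fromCols S (Kry1 C (b + G.mulVec x0) d))
          (Kry1 C (0 + G.mulVec z) d)) := by
        by_contra h8
        exact hp1 ((Set.Finite.mem_toFinset _).2 ⟨hp, h8⟩)
      rw [Local.pindAt_iff] at h8 ⊢
      intro s a hsa
      have h9 : (Int.castRingHom (ZMod p)) ∘ (b + G.mulVec (x0 + t • z)) =
          (Int.castRingHom (ZMod p)) ∘ (b + G.mulVec x0) +
            (t : ZMod p) • ((Int.castRingHom (ZMod p)) ∘ (0 + G.mulVec z)) := by
        ext i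
        rw [Matrix.mulVec_add, Matrix.mulVec_smul]
        simp only [Function.comp, Pi.add_apply, Pi.smul_apply, smul_eq_mul, map_add, map_mul,
          eq_intCast, Pi.zero_apply, zero_add]
        ring
      rw [h9, kry1_add] at hsa
      have h10 := h8 (Sum.elim s a) ((t : ZMod p) • a) (by
        have h11 : (fromCols S (Kry1 C (b + G.mulVec x0) d)).map (Int.castRingHom (ZMod p)) =
            fromCols (S.map (Int.castRingHom (ZMod p))) (Kry1 (C.map (Int.castRingHom (ZMod p)))
              ((Int.castRingHom (ZMod p)) ∘ (b + G.mulVec x0)) d) := by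
          rw [← Local.map_kry1]
          ext i j
          rcases j with j | j <;> rfl
        rw [h11, Local.fromCols_mulVec', Sum.elim_comp_inl, Sum.elim_comp_inr, add_assoc]
        exact hsa)
      constructor
      · have := congrArg (fun y => y ∘ Sum.inl) h10.1
        simpa using this
      · have := congrArg (fun y => y ∘ Sum.inr) h10.1
        simpa using this

end Pool.Agent.IntComm
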