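import Pool.Agent.Work.MP_584b0c_al.Api

set_option autoImplicit false

/-! One step of the block LU factorization. -/

namespace Pool.Agent.IntComm

open Matrix Polynomial

namespace StepLU

variable {m n : Type} [Fintype m] [DecidableEq m] [Fintype n] [DecidableEq n]

/-- A block lower triangular unit. -/
def lo (P : (Matrix m m ℤ)ˣ) (Q : (Matrix n n ℤ)ˣ) (Y : Matrix n m ℤ) :
    (Matrix (m ⊕ n) (m ⊕ n) ℤ)ˣ where
  val := fromBlocks (P : Matrix m m ℤ) 0 Y (Q : Matrix n n ℤ)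
  inv := fromBlocks ((P⁻¹ : (Matrix m m ℤ)ˣ) : Matrix m m ℤ) 0
    (-(((Q⁻¹ : (Matrix n n ℤ)ˣ) : Matrix n n ℤ) * (Y * ((P⁻¹ : (Matrix m m ℤ)ˣ) : Matrix m m ℤ))))
    ((Q⁻¹ : (Matrix n n ℤ)ˣ) : Matrix n n ℤ)
  val_inv := by
    rw [fromBlocks_multiply]
    simp only [Matrix.mul_zero, Matrix.zero_mul, add_zero, zero_add, Units.mul_inv,
      Matrix.mul_neg]
    rw [← Matrix.mul_assoc (Q : Matrix n n ℤ), Units.mul_inv, Matrix.one_mul, add_neg_cancel]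
    simp
  inv_val := by
    rw [fromBlocks_multiply]
    simp only [Matrix.mul_zero, Matrix.zero_mul, add_zero, zero_add, Units.inv_mul,
      Matrix.neg_mul]
    rw [Matrix.mul_assoc _ (Y * _) (P : Matrix m m ℤ), Matrix.mul_assoc Y, Units.inv_mul,
      Matrix.mul_one, neg_add_cancel]
    simp

/-- A block upper triangular unit. -/
def up (P : (Matrix m m ℤ)ˣ) (Q : (Matrix n n ℤ)ˣ) (Y : Matrix m n ℤ) :
    (Matrix (m ⊕ n) (m ⊕ n) ℤ)ˣ where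
  val := fromBlocks (P : Matrix m m ℤ) Y 0 (Q : Matrix n n ℤ)
  inv := fromBlocks ((P⁻¹ : (Matrix m m ℤ)ˣ) : Matrix m m ℤ)
    (-(((P⁻¹ : (Matrix m m ℤ)ˣ) : Matrix m m ℤ) * (Y * ((Q⁻¹ : (Matrix n n ℤ)ˣ) : Matrix n n ℤ)))) 0
    ((Q⁻¹ : (Matrix n n ℤ)ˣ) : Matrix n n ℤ)
  val_inv := by
    rw [fromBlocks_multiply]
    simp only [Matrix.mul_zero, Matrix.zero_mul, add_zero, zero_add, Units.mul_inv,
      Matrix.mul_neg]
    rw [← Matrix.mul_assoc (P : Matrix m m ℤ), Units.mul_inv, Matrix.one_mul, neg_add_cancel]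
    simp
  inv_val := by
    rw [fromBlocks_multiply]
    simp only [Matrix.mul_zero, Matrix.zero_mul, add_zero, zero_add, Units.inv_mul,
      Matrix.neg_mul]
    rw [Matrix.mul_assoc _ (Y * _) (Q : Matrix n n ℤ), Matrix.mul_assoc Y, Units.inv_mul,
      Matrix.mul_one, add_neg_cancel]
    simp

end StepLU

open StepLU in
theorem claimStepLU (h : ClaimDiag) : ClaimStepLU := by
  intro m n _ _ _ _ F F' X g B E D hc hX hS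
  obtain ⟨L', U', ⟨P, hP⟩, hLU, hL'⟩ := hS
  -- normalization
  obtain ⟨L1, U1, h1, hsim, hL1⟩ : ∃ L1 U1 : (Matrix n n ℤ)ˣ,
      D - E * (((X * g * X⁻¹ * g⁻¹)⁻¹ : (Matrix m m ℤ)ˣ) : Matrix m m ℤ) * B =
        (L1 : Matrix n n ℤ) * (U1 : Matrix n n ℤ) ∧
      Sim (L1 : Matrix n n ℤ) ((U1⁻¹ : (Matrix n n ℤ)ˣ) : Matrix n n ℤ) ∧
      aeval (L1 : Matrix n n ℤ) F' = 0 := by
    have e1 : ∀ T : (Matrix n n ℤ)ˣ, Sim (T : Matrix n n ℤ)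
        ((P⁻¹ * T * P : (Matrix n n ℤ)ˣ) : Matrix n n ℤ) := by
      intro T
      refine ⟨P⁻¹, ?_⟩
      rw [← Units.val_mul, ← Units.val_mul]
      congr 1
      group
    refine ⟨P⁻¹ * L' * P, P⁻¹ * U' * P, ?_, ?_, (e1 L').aeval_eq_zero hL'⟩
    · generalize D - E * (((X * g * X⁻¹ * g⁻¹)⁻¹ : (Matrix m m ℤ)ˣ) : Matrix m m ℤ) * B = S at hP
      calc S = ((P⁻¹ : (Matrix n n ℤ)ˣ) : Matrix n n ℤ) * ((P : Matrix n n ℤ) * S) := by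
            rw [← Matrix.mul_assoc, Units.inv_mul, Matrix.one_mul]
        _ = ((P⁻¹ * ((L' * U') * P) : (Matrix n n ℤ)ˣ) : Matrix n n ℤ) := by
            rw [hP]; rfl
        _ = (((P⁻¹ * L' * P) * (P⁻¹ * U' * P) : (Matrix n n ℤ)ˣ) : Matrix n n ℤ) := by
            congr 1
            group
        _ = _ := Units.val_mul _ _
    · have e2 : (P⁻¹ * U' * P)⁻¹ = P⁻¹ * U'⁻¹ * P := by group
      rw [e2]
      exact (e1 L').symm.trans (hLU.trans (e1 U'⁻¹))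
  -- the units
  set Z : (Matrix m m ℤ)ˣ := g * X⁻¹ * g⁻¹ with hZ
  have hd : X * g * X⁻¹ * g⁻¹ = X * Z := by rw [hZ]; group
  rw [hd] at h1 ⊢
  have hXZ : Sim (X : Matrix m m ℤ) ((Z⁻¹ : (Matrix m m ℤ)ˣ) : Matrix m m ℤ) := by
    refine ⟨g, ?_⟩
    rw [← Units.val_mul, ← Units.val_mul]
    congr 1
    rw [hZ]
    group
  clear_value Z
  set L : (Matrix (m ⊕ n) (m ⊕ n) ℤ)ˣ :=
    lo X L1 (E * ((Z⁻¹ : (Matrix m m ℤ)ˣ) : Matrix m m ℤ)) with hLdef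
  set U : (Matrix (m ⊕ n) (m ⊕ n) ℤ)ˣ :=
    up Z U1 (((X⁻¹ : (Matrix m m ℤ)ˣ) : Matrix m m ℤ) * B) with hUdef
  have hprod : fromBlocks ((X * Z : (Matrix m m ℤ)ˣ) : Matrix m m ℤ) B E D =
      ((L * U : (Matrix (m ⊕ n) (m ⊕ n) ℤ)ˣ) : Matrix (m ⊕ n) (m ⊕ n) ℤ) := by
    rw [Units.val_mul]
    show _ = fromBlocks (X : Matrix m m ℤ) 0 (E * ((Z⁻¹ : (Matrix m m ℤ)ˣ) : Matrix m m ℤ))
      (L1 : Matrix n n ℤ) * fromBlocks (Z : Matrix m m ℤ)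
      (((X⁻¹ : (Matrix m m ℤ)ˣ) : Matrix m m ℤ) * B) 0 (U1 : Matrix n n ℤ)
    rw [fromBlocks_multiply]
    simp only [Matrix.zero_mul, Matrix.mul_zero, add_zero]
    have a2 : (X : Matrix m m ℤ) * (((X⁻¹ : (Matrix m m ℤ)ˣ) : Matrix m m ℤ) * B) = B := by
      rw [← Matrix.mul_assoc, Units.mul_inv, Matrix.one_mul]
    have a3 : E * ((Z⁻¹ : (Matrix m m ℤ)ˣ) : Matrix m m ℤ) * (Z : Matrix m m ℤ) = E := by
      rw [Matrix.mul_assoc, Units.inv_mul, Matrix.mul_one]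
    have a4 : E * ((Z⁻¹ : (Matrix m m ℤ)ˣ) : Matrix m m ℤ) *
        (((X⁻¹ : (Matrix m m ℤ)ˣ) : Matrix m m ℤ) * B) + (L1 : Matrix n n ℤ) * (U1 : Matrix n n ℤ) =
        D := by
      have e5 : (X * Z)⁻¹ = Z⁻¹ * X⁻¹ := _root_.mul_inv_rev X Z
      rw [← h1, e5, Units.val_mul]
      simp only [Matrix.mul_assoc]
      abel
    rw [a2, a3, a4]
  have hZF : aeval ((Z⁻¹ : (Matrix m m ℤ)ˣ) : Matrix m m ℤ) F = 0 := hXZ.aeval_eq_zero hX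
  have hUF : aeval ((U1⁻¹ : (Matrix n n ℤ)ˣ) : Matrix n n ℤ) F' = 0 := hsim.aeval_eq_zero hL1
  obtain ⟨-, hlow, haev⟩ := h m n (X : Matrix m m ℤ) (L1 : Matrix n n ℤ) F F' hX hL1 hc
  obtain ⟨hupp, -, -⟩ := h m n ((Z⁻¹ : (Matrix m m ℤ)ˣ) : Matrix m m ℤ)
    ((U1⁻¹ : (Matrix n n ℤ)ˣ) : Matrix n n ℤ) F F' hZF hUF hc
  have hL : Sim (L : Matrix (m ⊕ n) (m ⊕ n) ℤ)
      (fromBlocks (X : Matrix m m ℤ) 0 0 (L1 : Matrix n n ℤ)) := hlow _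
  have hU : Sim ((U⁻¹ : (Matrix (m ⊕ n) (m ⊕ n) ℤ)ˣ) : Matrix (m ⊕ n) (m ⊕ n) ℤ)
      (fromBlocks ((Z⁻¹ : (Matrix m m ℤ)ˣ) : Matrix m m ℤ) 0 0
        ((U1⁻¹ : (Matrix n n ℤ)ˣ) : Matrix n n ℤ)) := hupp _
  have hdiag : Sim (fromBlocks (X : Matrix m m ℤ) 0 0 (L1 : Matrix n n ℤ))
      (fromBlocks ((Z⁻¹ : (Matrix m m ℤ)ˣ) : Matrix m m ℤ) 0 0
        ((U1⁻¹ : (Matrix n n ℤ)ˣ) : Matrix n n ℤ)) := by
    obtain ⟨P1, hP1⟩ := hXZ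
    obtain ⟨P2, hP2⟩ := hsim
    refine ⟨lo P1 P2 0, ?_⟩
    show fromBlocks (P1 : Matrix m m ℤ) 0 0 (P2 : Matrix n n ℤ) * _ =
      _ * fromBlocks (P1 : Matrix m m ℤ) 0 0 (P2 : Matrix n n ℤ)
    rw [fromBlocks_multiply, fromBlocks_multiply, hP1, hP2]
    simp
  refine ⟨L, U, ?_, hL.trans (hdiag.trans hU.symm), hL.symm.aeval_eq_zero haev⟩
  rw [hprod]
  exact Sim.refl _

end Pool.Agent.IntComm
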