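import Pool.Agent.Work.MP_584b0c_al.Api

set_option autoImplicit false

/-! Item A1: the Sylvester equation. -/

namespace Pool.Agent.IntComm

open Matrix Polynomial

namespace Sylv

variable {m n : Type} [Fintype m] [DecidableEq m] [Fintype n] [DecidableEq n]

theorem pow_step (A : Matrix m m ℤ) (D : Matrix n n ℤ) (Y : Matrix m n ℤ) (k : ℕ) :
    ∃ W : Matrix m n ℤ, A * W - W * D = A ^ k * Y - Y * D ^ k := by
  induction k with
  | zero => exact ⟨0, by simp⟩
  | succ k ih =>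
    obtain ⟨W, hW⟩ := ih
    refine ⟨W * D + A ^ k * Y, ?_⟩
    have h1 : A * (W * D) - W * D * D = (A ^ k * Y - Y * D ^ k) * D := by
      rw [← hW, Matrix.sub_mul, Matrix.mul_assoc A W D]
    have h2 : A * (W * D + A ^ k * Y) - (W * D + A ^ k * Y) * D =
        (A * (W * D) - W * D * D) + (A * (A ^ k * Y) - A ^ k * Y * D) := by
      rw [Matrix.mul_add, Matrix.add_mul]; abel
    rw [h2, h1, Matrix.sub_mul, pow_succ', pow_succ]
    simp only [Matrix.mul_assoc]
    abel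

theorem poly_step (A : Matrix m m ℤ) (D : Matrix n n ℤ) (Y : Matrix m n ℤ) (f : ℤ[X]) :
    ∃ W : Matrix m n ℤ, A * W - W * D = aeval A f * Y - Y * aeval D f := by
  induction f using Polynomial.induction_on' with
  | add p q hp hq =>
    obtain ⟨W, hW⟩ := hp
    obtain ⟨W', hW'⟩ := hq
    refine ⟨W + W', ?_⟩
    rw [map_add, map_add, Matrix.mul_add, Matrix.add_mul, Matrix.add_mul, Matrix.mul_add,
      add_sub_add_comm, hW, hW']
    abel
  | monomial k a =>
    obtain ⟨W, hW⟩ := pow_step A D Y k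
    refine ⟨a • W, ?_⟩
    rw [aeval_monomial, aeval_monomial, Algebra.algebraMap_eq_smul_one,
      Algebra.algebraMap_eq_smul_one, smul_mul_assoc, smul_mul_assoc, one_mul, one_mul,
      Matrix.mul_smul, Matrix.smul_mul, ← smul_sub, hW, smul_sub, Matrix.smul_mul, Matrix.mul_smul]

end Sylv

theorem claimSylv : ClaimSylv := by
  intro m n _ _ _ _ A D f hA hD Y
  obtain ⟨u, hu⟩ := hD
  obtain ⟨W, hW⟩ := Sylv.poly_step A D Y f
  rw [hA, Matrix.zero_mul, zero_sub] at hW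
  have hcomm : (u : Matrix n n ℤ) * D = D * (u : Matrix n n ℤ) := by
    rw [hu]
    have h1 : aeval D (f * X) = aeval D (X * f) := by rw [mul_comm]
    rwa [map_mul, map_mul, aeval_X] at h1
  have hcomm' : ((u⁻¹ : (Matrix n n ℤ)ˣ) : Matrix n n ℤ) * D =
      D * ((u⁻¹ : (Matrix n n ℤ)ˣ) : Matrix n n ℤ) := by
    calc ((u⁻¹ : (Matrix n n ℤ)ˣ) : Matrix n n ℤ) * D
        = ((u⁻¹ : (Matrix n n ℤ)ˣ) : Matrix n n ℤ) * (D * (u : Matrix n n ℤ)) *
            ((u⁻¹ : (Matrix n n ℤ)ˣ) : Matrix n n ℤ) := by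
          rw [Matrix.mul_assoc, Matrix.mul_assoc, Units.mul_inv, Matrix.mul_one]
      _ = D * ((u⁻¹ : (Matrix n n ℤ)ˣ) : Matrix n n ℤ) := by
          rw [← hcomm, ← Matrix.mul_assoc, Units.inv_mul, Matrix.one_mul]
  refine ⟨-(W * ((u⁻¹ : (Matrix n n ℤ)ˣ) : Matrix n n ℤ)), ?_⟩
  rw [Matrix.mul_neg, Matrix.neg_mul, Matrix.mul_assoc W, hcomm', ← Matrix.mul_assoc,
    ← Matrix.mul_assoc, ← neg_sub', ← Matrix.sub_mul, hW, ← hu, Matrix.neg_mul, neg_neg,
    Matrix.mul_assoc, Units.mul_inv, Matrix.mul_one]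

end Pool.Agent.IntComm
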