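import Pool.Agent.Work.MP_584b0c_al.Api

set_option autoImplicit false

namespace Pool.Agent.IntComm

open Matrix

namespace TrivC14

/-- Elementary matrices of size three, inside the corner. -/
def e12 (c : ℤ) : TransvectionStruct (Fin 3) ℤ := ⟨0, 1, by decide, c⟩

def e21 (c : ℤ) : TransvectionStruct (Fin 3) ℤ := ⟨1, 0, by decide, c⟩

theorem e12_mat (c : ℤ) : (e12 c).toMatrix = !![1, c, 0; 0, 1, 0; 0, 0, 1] := by
  ext i j
  fin_cases i <;> fin_cases j <;> simp [e12, TransvectionStruct.toMatrix, transvection, Matrix.single]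

theorem e21_mat (c : ℤ) : (e21 c).toMatrix = !![1, 0, 0; c, 1, 0; 0, 0, 1] := by
  ext i j
  fin_cases i <;> fin_cases j <;> simp [e21, TransvectionStruct.toMatrix, transvection, Matrix.single]

theorem corner_eq (A : Matrix (Fin 2) (Fin 2) ℤ) :
    (corner A : Matrix (Fin 3) (Fin 3) ℤ) = !![A 0 0, A 0 1, 0; A 1 0, A 1 1, 0; 0, 0, 1] := by
  ext i j
  fin_cases i <;> fin_cases j <;> simp [corner]

end TrivC14

open TrivC14 in
theorem claimTriv : ClaimTriv := by
  intro A hA h
  rw [det_fin_two] at hA
  rw [corner_eq]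
  generalize A 0 0 = a at *
  generalize A 0 1 = b at *
  generalize A 1 0 = c at *
  generalize A 1 1 = d at *
  rcases h with ⟨t, ht⟩ | ⟨t, ht⟩
  · -- a = 1 + t b
    refine ⟨[e21 (c - t * d), e12 b, e21 t], by simp, ?_⟩
    simp only [List.map_cons, List.map_nil, List.prod_cons, List.prod_nil, mul_one, e12_mat,
      e21_mat]
    ext i j
    fin_cases i <;> fin_cases j <;> simp [Matrix.mul_apply, Fin.sum_univ_three]
    · linear_combination ht
    · linear_combination t * hA - t * d * ht
    · linear_combination hA - d * ht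
  · refine ⟨[e12 1, e21 (-1), e12 1, e12 1, e21 (-1), e12 1, e21 (-(c - t * d)), e12 (-b), e21 t],
      by simp, ?_⟩
    simp only [List.map_cons, List.map_nil, List.prod_cons, List.prod_nil, mul_one, e12_mat,
      e21_mat]
    ext i j
    fin_cases i <;> fin_cases j <;> simp [Matrix.mul_apply, Fin.sum_univ_three]
    · linear_combination ht
    · ring
    · linear_combination (-t) * hA + t * d * ht
    · linear_combination (-1) * hA + d * ht

end Pool.Agent.IntComm
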