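import Pool.Agent.Work.MP_584b0c_al.Api

set_option autoImplicit false

namespace Pool.Agent.IntComm

open Matrix Polynomial

namespace ULUL

/-- The reindexing of block matrices. -/
def R {k : ℕ} (M : Matrix (Fin k ⊕ Fin 1) (Fin k ⊕ Fin 1) ℤ) : Matrix (Fin (k + 1)) (Fin (k + 1)) ℤ :=
  M.submatrix finSumFinEquiv.symm finSumFinEquiv.symm

theorem R_mul {k : ℕ} (M N : Matrix (Fin k ⊕ Fin 1) (Fin k ⊕ Fin 1) ℤ) : R (M * N) = R M * R N := by
  unfold R
  rw [Matrix.submatrix_mul_equiv]

theorem R_back {k : ℕ} (D : Matrix (Fin (k + 1)) (Fin (k + 1)) ℤ) :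
    R (D.submatrix finSumFinEquiv finSumFinEquiv) = D := by
  unfold R
  rw [Matrix.submatrix_submatrix]
  simp

theorem R_up {k : ℕ} {u : Matrix (Fin k) (Fin k) ℤ} (hu : UpU u) (v : Matrix (Fin k) (Fin 1) ℤ) :
    UpU (R (fromBlocks u v 0 1)) := by
  constructor
  · intro i
    obtain ⟨i, rfl⟩ := finSumFinEquiv.surjective i
    rcases i with i | i
    · simpa [R] using hu.1 i
    · simp [R]
  · intro i j hij
    obtain ⟨i, rfl⟩ := finSumFinEquiv.surjective i
    obtain ⟨j, rfl⟩ := finSumFinEquiv.surjective j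
    rcases i with i | i <;> rcases j with j | j
    · have : j < i := by
        rw [finSumFinEquiv_apply_left, finSumFinEquiv_apply_left, Fin.lt_def] at hij
        simpa using hij
      simpa [R] using hu.2 i j this
    · exfalso
      rw [finSumFinEquiv_apply_left, finSumFinEquiv_apply_right, Fin.lt_def] at hij
      simp at hij
      omega
    · simp [R]
    · exfalso
      rw [Subsingleton.elim i j] at hij
      exact lt_irrefl _ hij

theorem R_lo {k : ℕ} {u : Matrix (Fin k) (Fin k) ℤ} (hu : LoU u) (v : Matrix (Fin 1) (Fin k) ℤ) :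
    LoU (R (fromBlocks u 0 v 1)) := by
  constructor
  · intro i
    obtain ⟨i, rfl⟩ := finSumFinEquiv.surjective i
    rcases i with i | i
    · simpa [R] using hu.1 i
    · simp [R]
  · intro i j hij
    obtain ⟨i, rfl⟩ := finSumFinEquiv.surjective i
    obtain ⟨j, rfl⟩ := finSumFinEquiv.surjective j
    rcases i with i | i <;> rcases j with j | j
    · have : i < j := by
        rw [finSumFinEquiv_apply_left, finSumFinEquiv_apply_left, Fin.lt_def] at hij
        simpa using hij
      simpa [R] using hu.2 i j this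
    · simp [R]
    · exfalso
      rw [finSumFinEquiv_apply_left, finSumFinEquiv_apply_right, Fin.lt_def] at hij
      simp at hij
      omega
    · exfalso
      rw [Subsingleton.elim i j] at hij
      exact lt_irrefl _ hij

theorem R_apply {k : ℕ} (M : Matrix (Fin k ⊕ Fin 1) (Fin k ⊕ Fin 1) ℤ) (i j : Fin k ⊕ Fin 1) :
    R M (finSumFinEquiv i) (finSumFinEquiv j) = M i j := by
  unfold R
  rw [submatrix_apply, Equiv.symm_apply_apply, Equiv.symm_apply_apply]

theorem corner_apply {k : ℕ} (A : Matrix (Fin 2) (Fin 2) ℤ) (i j : Fin k) :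
    corner A i j = if hi : i.val < 2 then
      (if hj : j.val < 2 then A ⟨i.val, hi⟩ ⟨j.val, hj⟩ else 0)
    else if i = j then 1 else 0 := rfl

theorem R_corner {k : ℕ} (hk : 2 ≤ k) (A : Matrix (Fin 2) (Fin 2) ℤ) :
    R (fromBlocks (corner A : Matrix (Fin k) (Fin k) ℤ) 0 0 1) = corner A := by
  ext i j
  obtain ⟨i, rfl⟩ := finSumFinEquiv.surjective i
  obtain ⟨j, rfl⟩ := finSumFinEquiv.surjective j
  rw [R_apply, corner_apply]
  rcases i with i | i <;> rcases j with j | j
  · rw [fromBlocks_apply₁₁, corner_apply]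
    simp only [finSumFinEquiv_apply_left, Fin.val_castAdd]
    by_cases h1 : (i : ℕ) < 2
    · by_cases h2 : (j : ℕ) < 2
      · simp [h1, h2]
      · simp [h1, h2]
    · by_cases h2 : i = j
      · simp [h1, h2]
      · have h3 : Fin.castAdd 1 i ≠ Fin.castAdd 1 j := fun h => h2 (Fin.castAdd_injective _ _ h)
        simp [h1, h2]
  · rw [fromBlocks_apply₁₂]
    have h1 : ¬ ((finSumFinEquiv (Sum.inr j : Fin k ⊕ Fin 1)).val < 2) := by
      rw [finSumFinEquiv_apply_right, Fin.val_natAdd]
      omega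
    have h2 : (finSumFinEquiv (Sum.inl i : Fin k ⊕ Fin 1)) ≠
        finSumFinEquiv (Sum.inr j : Fin k ⊕ Fin 1) := by
      intro h
      exact Sum.inl_ne_inr (finSumFinEquiv.injective h)
    by_cases h0 : (finSumFinEquiv (Sum.inl i : Fin k ⊕ Fin 1)).val < 2
    · rw [dif_pos h0, dif_neg h1]
      rfl
    · rw [dif_neg h0, if_neg h2]
      rfl
  · rw [fromBlocks_apply₂₁]
    have h1 : ¬ ((finSumFinEquiv (Sum.inr i : Fin k ⊕ Fin 1)).val < 2) := by
      rw [finSumFinEquiv_apply_right, Fin.val_natAdd]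
      omega
    have h2 : (finSumFinEquiv (Sum.inr i : Fin k ⊕ Fin 1)) ≠
        finSumFinEquiv (Sum.inl j : Fin k ⊕ Fin 1) := by
      intro h
      exact Sum.inr_ne_inl (finSumFinEquiv.injective h)
    rw [dif_neg h1, if_neg h2]
    rfl
  · rw [fromBlocks_apply₂₂]
    have h1 : ¬ ((finSumFinEquiv (Sum.inr i : Fin k ⊕ Fin 1)).val < 2) := by
      rw [finSumFinEquiv_apply_right, Fin.val_natAdd]
      omega
    rw [dif_neg h1, Subsingleton.elim i j, if_pos rfl, Matrix.one_apply_eq]

theorem UpU_one {k : ℕ} : UpU (1 : Matrix (Fin k) (Fin k) ℤ) :=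
  ⟨fun i => Matrix.one_apply_eq i, fun _ _ h => Matrix.one_apply_ne h.ne'⟩

theorem LoU_one {k : ℕ} : LoU (1 : Matrix (Fin k) (Fin k) ℤ) :=
  ⟨fun i => Matrix.one_apply_eq i, fun _ _ h => Matrix.one_apply_ne h.ne⟩

end ULUL

theorem claimULUL (h : ClaimPeel) : ClaimULUL := by
  intro k
  induction k with
  | zero =>
    intro D hD
    refine ⟨1, 1, 1, 1, D, ULUL.UpU_one, ULUL.LoU_one, ULUL.UpU_one, ULUL.LoU_one, hD, ?_⟩
    rw [one_mul, one_mul, one_mul, mul_one]
    ext i j
    rw [ULUL.corner_apply, dif_pos i.isLt, dif_pos j.isLt]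
  | succ k ih =>
    intro D hD
    obtain ⟨a, b, c, d, habcd⟩ : ∃ (a : Matrix (Fin (k + 2)) (Fin (k + 2)) ℤ)
        (b : Matrix (Fin (k + 2)) (Fin 1) ℤ) (c : Matrix (Fin 1) (Fin (k + 2)) ℤ)
        (d : Matrix (Fin 1) (Fin 1) ℤ),
        D.submatrix (finSumFinEquiv (m := k + 2) (n := 1)) (finSumFinEquiv (m := k + 2) (n := 1)) =
          fromBlocks a b c d :=
      ⟨_, _, _, _, (fromBlocks_toBlocks _).symm⟩
    have hdet : (fromBlocks a b c d).det = 1 := by
      rw [← habcd]
      exact (Matrix.det_submatrix_equiv_self (finSumFinEquiv (m := k + 2) (n := 1)) D).trans hD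
    have hDR : D = ULUL.R (fromBlocks a b c d) := by
      rw [← habcd]
      exact (ULUL.R_back (k := k + 2) D).symm
    obtain ⟨x, z, hxz⟩ := h (k + 2) (by omega) a b c d hdet
    obtain ⟨u, l, u', l', A, hu, hl, hu', hl', hA, hfac⟩ := ih _ hxz
    set a2 := a + x * c + (b + x * d) * z with ha2
    have hu2 : IsUnit a2.det := by rw [hxz]; exact isUnit_one
    set b2 := b + x * d with hb2
    set c2 := c + d * z with hc2
    set K : Matrix (Fin (k + 2)) (Fin (k + 2)) ℤ := corner A with hK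
    have hinv1 : a2⁻¹ * a2 = 1 := Matrix.nonsing_inv_mul _ hu2
    have hinv2 : a2 * a2⁻¹ = 1 := Matrix.mul_nonsing_inv _ hu2
    -- the lower right entry
    have hd : d - c2 * a2⁻¹ * b2 = 1 := by
      have h1 : fromBlocks a2 b2 c2 d =
          fromBlocks 1 x 0 1 * fromBlocks a b c d * fromBlocks 1 0 z 1 := by
        rw [fromBlocks_multiply, fromBlocks_multiply]
        simp only [Matrix.mul_one, Matrix.one_mul, Matrix.mul_zero, Matrix.zero_mul,
          zero_add, ha2, hb2, hc2]
      have h2 : (fromBlocks a2 b2 c2 d).det = 1 := by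
        rw [h1, det_mul, det_mul, hdet, det_fromBlocks_zero₂₁, det_fromBlocks_zero₁₂]
        simp
      have h3 : fromBlocks a2 b2 c2 d = fromBlocks 1 0 (c2 * a2⁻¹) 1 *
          fromBlocks a2 b2 0 (d - c2 * a2⁻¹ * b2) := by
        rw [fromBlocks_multiply]
        simp only [Matrix.mul_one, Matrix.one_mul, Matrix.mul_zero, Matrix.zero_mul,
          add_zero, Matrix.mul_assoc, hinv1]
        congr 1
        abel
      rw [h3, det_mul, det_fromBlocks_zero₂₁, det_fromBlocks_zero₁₂, hxz] at h2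
      simp only [det_one, one_mul, det_unique] at h2
      ext i j
      rw [Subsingleton.elim i default, Subsingleton.elim j default, Matrix.one_apply_eq]
      simpa using h2
    have hd' : c2 * a2⁻¹ * b2 + 1 = d := by rw [← hd]; abel
    have key : fromBlocks a b c d = fromBlocks u (-x) 0 1 *
        fromBlocks l 0 (c2 * a2⁻¹ * u * l) 1 *
        fromBlocks u' (u' * K * l' * a2⁻¹ * b2) 0 1 *
        fromBlocks K 0 0 1 * fromBlocks l' 0 (-z) 1 := by
      have e1 : u * (l * (u' * (K * l'))) = a2 := by rw [hfac]; simp only [mul_assoc]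
      have e1' : ∀ t : Matrix (Fin (k + 2)) (Fin 1) ℤ, u * (l * (u' * (K * (l' * t)))) = a2 * t := by
        intro t
        rw [← e1]
        simp only [Matrix.mul_assoc]
      have e2 : ∀ t : Matrix (Fin (k + 2)) (Fin 1) ℤ, a2 * (a2⁻¹ * t) = t := by
        intro t
        rw [← Matrix.mul_assoc, hinv2, Matrix.one_mul]
      have e4 : c2 * (a2⁻¹ * b2) = d - 1 := by
        rw [← Matrix.mul_assoc, ← hd']
        abel
      rw [fromBlocks_multiply, fromBlocks_multiply, fromBlocks_multiply, fromBlocks_multiply]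
      simp only [Matrix.mul_one, Matrix.one_mul, Matrix.mul_zero, Matrix.zero_mul,
        zero_add, add_zero, Matrix.add_mul, Matrix.mul_assoc, e1, e1',
        Matrix.neg_mul, Matrix.mul_neg, hinv1, e2, e4]
      rw [fromBlocks_inj]
      refine ⟨?_, ?_, ?_, ?_⟩
      · rw [ha2, hc2]
        simp only [Matrix.mul_add, Matrix.sub_mul, Matrix.mul_sub, Matrix.one_mul]
        abel
      · rw [hb2]
        simp only [Matrix.mul_sub, Matrix.mul_one]
        abel
      · rw [hc2]
        simp only [Matrix.sub_mul, Matrix.one_mul]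
        abel
      · abel
    refine ⟨ULUL.R (fromBlocks u (-x) 0 1), ULUL.R (fromBlocks l 0 (c2 * a2⁻¹ * u * l) 1),
      ULUL.R (fromBlocks u' (u' * K * l' * a2⁻¹ * b2) 0 1), ULUL.R (fromBlocks l' 0 (-z) 1), A,
      ULUL.R_up hu _, ULUL.R_lo hl _, ULUL.R_up hu' _, ULUL.R_lo hl' _, hA, ?_⟩
    rw [hDR, key, ULUL.R_mul, ULUL.R_mul, ULUL.R_mul, ULUL.R_mul, hK, ULUL.R_corner (by omega)]

end Pool.Agent.IntComm
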