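import Pool.Agent.Work.MP_584b0c_al.Api

set_option autoImplicit false

/-!
C8: upper unitriangular matrices are good.
-/

namespace Pool.Agent.IntComm

open Matrix Polynomial

section

variable {n : Type} [Fintype n] [DecidableEq n]

/-- `ProdComm` is invariant under conjugation by units. -/
theorem prodComm_conj (P : (Matrix n n ℤ)ˣ) : ∀ (Fs : List ℤ[X]) (D : Matrix n n ℤ),
    ProdComm Fs D →
    ProdComm Fs ((P : Matrix n n ℤ) * D * ((P⁻¹ : (Matrix n n ℤ)ˣ) : Matrix n n ℤ))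
  | [], D, h => by
      have h' : D = 1 := h
      show (P : Matrix n n ℤ) * D * ((P⁻¹ : (Matrix n n ℤ)ˣ) : Matrix n n ℤ) = 1
      rw [h', Matrix.mul_one, Units.mul_inv]
  | F :: Fs, D, h => by
      obtain ⟨X, g, hX, D', hD', hD⟩ := h
      refine ⟨P * X * P⁻¹, P * g * P⁻¹, ?_,
        (P : Matrix n n ℤ) * D' * ((P⁻¹ : (Matrix n n ℤ)ˣ) : Matrix n n ℤ),
        prodComm_conj P Fs D' hD', ?_⟩
      · rw [Units.val_mul, Units.val_mul, aeval_conj, hX, Matrix.mul_zero, Matrix.zero_mul]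
      · have : (P * X * P⁻¹) * (P * g * P⁻¹) * (P * X * P⁻¹)⁻¹ * (P * g * P⁻¹)⁻¹ =
            P * (X * g * X⁻¹ * g⁻¹) * P⁻¹ := by group
        rw [this, hD]
        generalize X * g * X⁻¹ * g⁻¹ = c
        rw [Units.val_mul, Units.val_mul]
        simp only [Matrix.mul_assoc]
        rw [← Matrix.mul_assoc ((P⁻¹ : (Matrix n n ℤ)ˣ) : Matrix n n ℤ) (P : Matrix n n ℤ),
          Units.inv_mul, Matrix.one_mul]

theorem prodComm_appendUp : ∀ (Fs Gs : List ℤ[X]) (D D' : Matrix n n ℤ),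
    ProdComm Fs D → ProdComm Gs D' → ProdComm (Fs ++ Gs) (D * D')
  | [], Gs, D, D', h, h' => by
      have h1 : D = 1 := h
      rw [h1, Matrix.one_mul]
      exact h'
  | F :: Fs, Gs, D, D', h, h' => by
      obtain ⟨X, g, hX, E, hE, hD⟩ := h
      refine ⟨X, g, hX, E * D', prodComm_appendUp Fs Gs E D' hE h', ?_⟩
      rw [hD, Matrix.mul_assoc]

theorem prodComm_single (F : ℤ[X]) (X g : (Matrix n n ℤ)ˣ)
    (hX : aeval (X : Matrix n n ℤ) F = 0) :
    ProdComm [F] ((X * g * X⁻¹ * g⁻¹ : (Matrix n n ℤ)ˣ) : Matrix n n ℤ) :=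
  ⟨X, g, hX, 1, rfl, (Matrix.mul_one _).symm⟩

end

namespace UpItem

theorem UpU.det_eq_one {k : ℕ} {T : Matrix (Fin k) (Fin k) ℤ} (h : UpU T) : T.det = 1 := by
  rw [Matrix.det_of_isUpperTriangular (fun i j hij => h.2 i j hij)]
  exact Finset.prod_eq_one fun i _ => h.1 i

theorem compan_eq {K : ℕ} (hK : 0 < K) (F G : ℤ[X]) (ε : ℤ) (hε : ε * ε = 1)
    (hF : F.coeff 0 = ε) :
    (1 + Matrix.of fun (i j : Fin K) => if j.val = 0 then ε * (G.coeff i.val - F.coeff i.val)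
      else 0) * (compan F : Matrix (Fin K) (Fin K) ℤ) = compan G := by
  rw [Matrix.add_mul, Matrix.one_mul]
  ext i j
  rw [Matrix.add_apply, Matrix.mul_apply]
  have h0 : (⟨0, hK⟩ : Fin K) ∈ Finset.univ := Finset.mem_univ _
  rw [Finset.sum_eq_single_of_mem _ h0]
  · simp only [compan, Matrix.of_apply, if_true, hF]
    by_cases hj : j.val + 1 = K
    · rw [if_pos hj, if_pos hj, if_pos hj]
      linear_combination (F.coeff i.val - G.coeff i.val) * hε
    · rw [if_neg hj, if_neg hj, if_neg hj, if_neg (by omega : ¬ 0 = j.val + 1)]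
      ring
  · intro b _ hb
    have hb0 : ¬ b.val = 0 := fun h => hb (Fin.ext h)
    simp only [Matrix.of_apply, if_neg hb0, zero_mul]

end UpItem

open UpItem in
theorem claimUp (h2 : ClaimCompan) (h3 : ClaimCyc) (h6 : ClaimCol) (h7 : ClaimHess) :
    ClaimUp := by
  intro m K hm hK T hT Fs hFs hFam
  obtain ⟨F1, F2, F3, rfl⟩ := List.length_eq_three.mp hFs
  have hK0 : 0 < K := by omega
  have hev : ((-1 : ℤ)) ^ K = 1 := by rw [hK]; exact Even.neg_one_pow (even_two_mul m)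
  obtain ⟨f, g, hf, hg, hfd, hgd, hf0, hg0, -, hF⟩ := hFam F3 (by simp)
  have hFm : F3.Monic := by rw [hF]; exact hf.mul hg
  have hFd : F3.natDegree = K := by
    rw [hF, hf.natDegree_mul hg, hfd, hgd, hK]; ring
  have hF0 : IsUnit (F3.coeff 0) := by
    rw [hF, Polynomial.mul_coeff_zero]; exact hf0.mul hg0
  have hεε : F3.coeff 0 * F3.coeff 0 = 1 := Int.isUnit_mul_self hF0
  obtain ⟨hCa, hCd⟩ := h2 K F3 hK0 hFm hFd
  rw [hev, one_mul] at hCd
  set v : Fin K → ℤ := fun i => if i.val = 0 then 1 else 0 with hv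
  have hh := h7 K F3 T hT v (fun i => rfl)
  have hcyc := h3 K (T * compan F3) v
  set h := Kry1 (T * compan F3) v K with hhd
  set G := (T * compan F3).charpoly with hG
  have hG0 : G.coeff 0 = F3.coeff 0 := by
    have h1 := Matrix.det_eq_sign_charpoly_coeff (T * (compan F3 : Matrix (Fin K) (Fin K) ℤ))
    rw [Fintype.card_fin, hev, one_mul, Matrix.det_mul, UpU.det_eq_one hT, one_mul, hCd] at h1
    exact h1.symm
  obtain ⟨C, hC⟩ : IsUnit (compan F3 : Matrix (Fin K) (Fin K) ℤ) := by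
    rw [Matrix.isUnit_iff_isUnit_det, hCd]; exact hF0
  obtain ⟨H, hH⟩ : IsUnit h := by
    rw [Matrix.isUnit_iff_isUnit_det, UpU.det_eq_one hh]; exact isUnit_one
  have hcomp := compan_eq hK0 F3 G (F3.coeff 0) hεε rfl
  have hcol := h6 m K hm hK (fun i => F3.coeff 0 * (G.coeff i.val - F3.coeff i.val)) (by
    intro i hi
    simp only [hi, hG0, sub_self, mul_zero])
  set M : Matrix (Fin K) (Fin K) ℤ := 1 + Matrix.of fun (i j : Fin K) =>
    if j.val = 0 then F3.coeff 0 * (G.coeff i.val - F3.coeff i.val) else 0 with hM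
  have h12 : ProdComm [F1, F2] M := hcol [F1, F2] rfl (by
    intro F hF'
    apply hFam
    simp only [List.mem_cons, List.not_mem_nil, or_false] at hF' ⊢
    tauto)
  have h12' := prodComm_conj H [F1, F2] M h12
  have h33 := prodComm_single F3 (H * C * H⁻¹) H⁻¹ (by
    rw [Units.val_mul, Units.val_mul, aeval_conj, hC, hCa, Matrix.mul_zero, Matrix.zero_mul])
  have hall := prodComm_appendUp _ _ _ _ h12' h33
  have hT' : T = (H : Matrix (Fin K) (Fin K) ℤ) * M * ((H⁻¹ : (Matrix (Fin K) (Fin K) ℤ)ˣ) :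
      Matrix (Fin K) (Fin K) ℤ) * (((H * C * H⁻¹) * H⁻¹ * (H * C * H⁻¹)⁻¹ * (H⁻¹)⁻¹ :
      (Matrix (Fin K) (Fin K) ℤ)ˣ) : Matrix (Fin K) (Fin K) ℤ) := by
    have e1 : (H * C * H⁻¹) * H⁻¹ * (H * C * H⁻¹)⁻¹ * (H⁻¹)⁻¹ = H * (C * H⁻¹ * C⁻¹) := by group
    rw [e1]
    have e2 : T * (C : Matrix (Fin K) (Fin K) ℤ) * (H : Matrix (Fin K) (Fin K) ℤ) =
        (H : Matrix (Fin K) (Fin K) ℤ) * (M * (C : Matrix (Fin K) (Fin K) ℤ)) := by
      rw [hC, hH, hcyc, hcomp]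
    have e3 : T = (T * (C : Matrix (Fin K) (Fin K) ℤ) * (H : Matrix (Fin K) (Fin K) ℤ)) *
        (((H⁻¹ : (Matrix (Fin K) (Fin K) ℤ)ˣ) : Matrix (Fin K) (Fin K) ℤ) *
        ((C⁻¹ : (Matrix (Fin K) (Fin K) ℤ)ˣ) : Matrix (Fin K) (Fin K) ℤ)) := by
      rw [Matrix.mul_assoc (T * (C : Matrix (Fin K) (Fin K) ℤ)), ← Matrix.mul_assoc
        (H : Matrix (Fin K) (Fin K) ℤ), Units.mul_inv, Matrix.one_mul, Matrix.mul_assoc,
        Units.mul_inv, Matrix.mul_one]
    rw [e2] at e3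
    rw [Units.val_mul, Units.val_mul, Units.val_mul]
    nth_rewrite 1 [e3]
    simp only [Matrix.mul_assoc]
    rw [← Matrix.mul_assoc ((H⁻¹ : (Matrix (Fin K) (Fin K) ℤ)ˣ) : Matrix (Fin K) (Fin K) ℤ)
      (H : Matrix (Fin K) (Fin K) ℤ), Units.inv_mul, Matrix.one_mul]
  rw [hT']
  exact hall

end Pool.Agent.IntComm
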