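import Pool.Agent.Work.MP_584b0c_al.Assembly
import Pool.Agent.Work.MP_584b0c_al.Base
import Pool.Agent.Work.MP_584b0c_al.Block
import Pool.Agent.Work.MP_584b0c_al.CK
import Pool.Agent.Work.MP_584b0c_al.Col
import Pool.Agent.Work.MP_584b0c_al.Comp
import Pool.Agent.Work.MP_584b0c_al.Compan
import Pool.Agent.Work.MP_584b0c_al.Complete
import Pool.Agent.Work.MP_584b0c_al.Cyc
import Pool.Agent.Work.MP_584b0c_al.DetH
import Pool.Agent.Work.MP_584b0c_al.Diag
import Pool.Agent.Work.MP_584b0c_al.Dir
import Pool.Agent.Work.MP_584b0c_al.ElGood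
import Pool.Agent.Work.MP_584b0c_al.Emb
import Pool.Agent.Work.MP_584b0c_al.Ext
import Pool.Agent.Work.MP_584b0c_al.Fact
import Pool.Agent.Work.MP_584b0c_al.FinBad
import Pool.Agent.Work.MP_584b0c_al.Frame
import Pool.Agent.Work.MP_584b0c_al.Frames
import Pool.Agent.Work.MP_584b0c_al.Hess
import Pool.Agent.Work.MP_584b0c_al.Ker
import Pool.Agent.Work.MP_584b0c_al.Lo
import Pool.Agent.Work.MP_584b0c_al.Local
import Pool.Agent.Work.MP_584b0c_al.Men
import Pool.Agent.Work.MP_584b0c_al.Param
import Pool.Agent.Work.MP_584b0c_al.Peel
import Pool.Agent.Work.MP_584b0c_al.Poly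
import Pool.Agent.Work.MP_584b0c_al.Pow
import Pool.Agent.Work.MP_584b0c_al.Repl
import Pool.Agent.Work.MP_584b0c_al.SR
import Pool.Agent.Work.MP_584b0c_al.Schur
import Pool.Agent.Work.MP_584b0c_al.Short
import Pool.Agent.Work.MP_584b0c_al.Split
import Pool.Agent.Work.MP_584b0c_al.Step
import Pool.Agent.Work.MP_584b0c_al.StepLU
import Pool.Agent.Work.MP_584b0c_al.Sylv
import Pool.Agent.Work.MP_584b0c_al.Triv
import Pool.Agent.Work.MP_584b0c_al.ULUL
import Pool.Agent.Work.MP_584b0c_al.Up

set_option autoImplicit false

namespace Pool.Agent.IntComm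

theorem diag_all : ClaimDiag := claimDiag claimSylv
theorem stepLU_all : ClaimStepLU := claimStepLU diag_all
theorem detH_all : ClaimDetH := claimDetH claimSchur claimBase claimRepl
theorem comp_all : ClaimComp := claimComp stepLU_all claimSchur claimBase claimRepl
theorem block_all : ClaimBlock := claimBlock claimSylv claimCompan diag_all
theorem elGood_all : ClaimElGood := claimElGood block_all
theorem col_all : ClaimCol := claimCol block_all
theorem up_all : ClaimUp := claimUp claimCompan claimCyc col_all claimHess
theorem lo_all : ClaimLo := claimLo up_all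
theorem peel_all : ClaimPeel := claimPeel claimSR
theorem ulul_all : ClaimULUL := claimULUL peel_all
theorem pow_all : ClaimPow := claimPow claimMen claimTriv
theorem ck_all : ClaimCK := claimCK pow_all claimDir
theorem fact_all : ClaimFact := claimFact elGood_all up_all lo_all ulul_all ck_all claimEmb
theorem step_all : ClaimStep := claimStep claimLocal claimFin
theorem ext_all : ClaimExt := claimExt step_all
theorem frames_all : ClaimFrames := claimFrames ext_all claimComplete
theorem split_all : ClaimSplit := claimSplit claimComplete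
theorem short_all : ClaimShort := claimShort claimComplete split_all

theorem target : Target :=
  target_of detH_all comp_all claimFrame claimPoly fact_all claimKer frames_all short_all claimParam

end Pool.Agent.IntComm
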