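import Pool.Agent.Work.MP_584b0c_al.Api2

set_option autoImplicit false

namespace Pool.Agent.IntComm

open Matrix Polynomial

theorem targetLUF_of (hB4 : ClaimDetH) (hF2 : ClaimComp2) (hB6 : ClaimFrame) (hF3 : ClaimPoly2)
    (hC19 : ClaimFact) (hD1 : ClaimKer) (hD7 : ClaimFrames) (hD9 : ClaimShort)
    (hF4 : ClaimParam2) : TargetLUF := by
  obtain ⟨A, Lm, hLm, hA, hFs⟩ := hF3 92
  obtain ⟨c, hc, n₀, hn₀⟩ := hF4 92 Lm (by norm_num) hLm
  refine ⟨A, c, n₀, hc, hA, fun n hn C e hdet he he' => ?_⟩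
  obtain ⟨m, s, j, j₀, δ, hm1, hm2, h1, h2, h3, h4, h5, h6, h7⟩ := hn₀ n hn e he
  have hKB := hD1 (Fin n) C e he'
  obtain ⟨V₀, hV1, hV2⟩ := hD7 n 92 e (2 * m) s j₀ δ C (by norm_num) hKB h1 h3 h4 h5 h6 h7
  obtain ⟨V, h', Y, hh1, hh2, hY, hY0⟩ := hD9 n 92 (2 * m) s j C V₀ h1 h2 hV1 hV2
  obtain ⟨P, hP⟩ := hB6 (Fin n) (Fin j) (Fin s) C V 91 h' Y hh1 hh2 hY hY0
  set H := h' * C * frame C (91 + 1) V with hH
  have hdetH : H.det = 1 := by
    rw [hH, Matrix.det_conj_of_mul_eq_one hh1 hh2, hdet]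
  obtain ⟨Fs, hFl, hF1, hF2', hF3', r, hr⟩ := hFs m (by omega) hm1
  have hD := hB4 (Fin j) (Fin s) 91 P H hP
  set D : Matrix (Fin j ⊕ Fin s) (Fin j ⊕ Fin s) ℤ := (-1 : ℤ) ^ 91 • (P * J (Fin j) (Fin s)) with hDdef
  have hDdet : D.det = 1 := by rw [← hD, hdetH]
  have hPC : ProdComm Fs D := by
    refine hC19 m hm2 (Fin j ⊕ Fin s) ?_ Fs hF1 (by omega) D hDdet
    simp only [Fintype.card_sum, Fintype.card_fin]
    omega
  have hPD : (-1 : ℤ) ^ 91 • (D * J (Fin j) (Fin s)) = P := by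
    rw [hDdef, Matrix.smul_mul, smul_smul, Matrix.mul_assoc, J_mul_J, Matrix.mul_one]
    norm_num
  have hLU := hF2 (Fin j) (Fin s) 91 (rep 2) Fs LUF.rep2 hFl hF2' hF3' D hPC H
    (by rw [hPD]; exact hP)
  exact ⟨r, LUF.mono hr (LUF.of_rect (frame C (91 + 1) V) h' hh1 hh2 hLU)⟩

theorem target2_of (hr : ClaimRep) (hT : TargetLUF) (hI : ClaimIter) (hP : ClaimPrimes)
    (hL : ClaimList) (hK : ClaimConst) : Target2 := by
  obtain ⟨A, c, n₀, hc, hA, hT⟩ := hT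
  obtain ⟨K₀, hK₀⟩ := hP A
  obtain ⟨C₀, hC₀⟩ := hK c n₀ K₀ hc
  refine ⟨C₀, fun n C hdet hC => ?_⟩
  rcases lt_or_ge n 2 with hn | hn
  · -- tiny matrices
    have hC1 : C = 1 := by
      interval_cases n
      · ext i; exact i.elim0
      · ext i j
        have hi : i = 0 := Subsingleton.elim _ _
        have hj : j = 0 := Subsingleton.elim _ _
        subst hi hj
        simpa using hdet
    exact ⟨1, 1, by rw [hC1]; simp⟩
  -- the bound for the eigenspaces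
  set x : ℝ := C₀ * Real.sqrt (n * Real.log n) with hx
  have hx0 : x ≤ n := by
    have hp2 : Fact (Nat.Prime 2) := ⟨Nat.prime_two⟩
    have h0 := hC 2 0
    have h1 : (0 : ℝ) ≤ (mult (AlgebraicClosure (ZMod 2)) C 0 : ℝ) := Nat.cast_nonneg _
    linarith
  set m : ℕ := min ⌊(n : ℝ) - x⌋₊ n with hm
  have hfl : ((⌊(n : ℝ) - x⌋₊ : ℕ) : ℝ) ≤ n - x := Nat.floor_le (by linarith)
  have hmn : m ≤ n := min_le_right _ _
  have hmC : ∀ (p : ℕ) [Fact p.Prime] (μ : AlgebraicClosure (ZMod p)),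
      mult (AlgebraicClosure (ZMod p)) C μ ≤ m := by
    intro p _ μ
    refine le_min (Nat.le_floor (hC p μ)) ?_
    unfold mult
    refine (Submodule.finrank_le _).trans ?_
    rw [Module.finrank_fintype_fun_eq_card, Fintype.card_fin]
  obtain ⟨ρ, hρ⟩ := Nat.exists_eq_add_of_le hmn
  have hρn : ρ ≤ n := by omega
  have hxρ : x ≤ ρ := by
    have hc1 : (n : ℝ) = m + ρ := by rw [hρ]; push_cast; ring
    rcases le_total ⌊(n : ℝ) - x⌋₊ n with h1 | h1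
    · have h2 : m = ⌊(n : ℝ) - x⌋₊ := min_eq_left h1
      rw [← h2] at hfl
      linarith
    · have h2 : m = n := min_eq_right h1
      have h3 : (n : ℝ) ≤ ((⌊(n : ℝ) - x⌋₊ : ℕ) : ℝ) := by exact_mod_cast h1
      have h4 : (0 : ℝ) ≤ ρ := Nat.cast_nonneg _
      linarith
  obtain ⟨K, s, hK4, hKK, hs1, hns, hsK, h100, h7, h2n⟩ := hC₀ n ρ hn hρn hxρ
  have hpr := hK₀ K hKK
  obtain ⟨L, n', hL1, hL2, hL3, hL4, hL5⟩ := hL A K n ρ hK4 (by omega) (by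
    have hKpos : (0 : ℝ) ≤ K := Nat.cast_nonneg _
    have := h2n.trans (mul_le_mul_of_nonneg_left hpr hKpos)
    exact_mod_cast this)
  have hn'K : ρ ≤ n' + K := by
    rcases hL5 with h | h <;> omega
  obtain ⟨S, hS1, hS2, hS3⟩ := hI K (6 * K) s n' (by omega) hs1 (by omega) (by omega) L
    (fun y hy => ⟨(hL1 y hy).1, (hL1 y hy).2.1, (hL1 y hy).2.2.1, (hL1 y hy).2.2.2.1⟩) hL2 n m C
    hL3 hns (by omega) hdet hmC
  have hS4 : ∀ (p : ℕ) [Fact p.Prime] (μ : AlgebraicClosure (ZMod p)),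
      mult (AlgebraicClosure (ZMod p)) S μ ≤ 7 * K := by
    intro p _ μ
    refine (hS2 p μ).trans ?_
    omega
  obtain ⟨r, hLU⟩ := hT n' (by omega) S (7 * K) hS1 (by
    have h8 : (ρ : ℝ) - K ≤ n' := by
      have : (ρ : ℝ) ≤ n' + K := by exact_mod_cast hn'K
      linarith
    push_cast
    exact h7.trans (mul_le_mul_of_nonneg_left h8 hc.le)) hS4
  refine LUF.isComm (hS3 _ (fun y hy => ?_) hLU)
  refine IsCoprime.pow_right (IsCoprime.prod_right fun ℓ hℓ => hr.1 _ _ ?_)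
  obtain ⟨hy1, -, -, -, hyA⟩ := hL1 y hy
  exact (Nat.coprime_primes hy1 (hA ℓ hℓ)).2 fun h => hyA (h ▸ hℓ)

end Pool.Agent.IntComm
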