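import Pool.Agent.Work.MP_584b0c_al.Api2
import Pool.Agent.Work.MP_584b0c_al.Step

set_option autoImplicit false

/-! MP_584b0c_al, item G6: one more column, good everywhere. -/

namespace Pool.Agent.IntComm

open Matrix Polynomial

namespace CSL1

section

variable {n ρ : Type} [Fintype n] [DecidableEq n] [Fintype ρ]

theorem map_mulVec_col {K : Type} [Field K] (S : Matrix n ρ ℤ) (v : n → ℤ)
    (a : ρ ⊕ Fin 1 → K) :
    ((fromCols S (colM v)).map (Int.castRingHom K)).mulVec a =
      (S.map (Int.castRingHom K)).mulVec (a ∘ Sum.inl) +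
        (a (Sum.inr 0)) • ((Int.castRingHom K) ∘ v) := by
  ext i
  simp only [Matrix.mulVec, dotProduct, Fintype.sum_sum_type, Matrix.map_apply, fromCols_apply_inl,
    fromCols_apply_inr, Pi.add_apply, Pi.smul_apply, Function.comp, smul_eq_mul, colM,
    Matrix.of_apply, Finset.univ_unique, Fin.default_eq_zero, Finset.sum_singleton]
  rw [mul_comm (a (Sum.inr 0))]

theorem cind_iff {K : Type} [Field K] (C : Matrix n n ℤ) (S : Matrix n ρ ℤ) (v : n → ℤ) (μ : K) :
    CInd K C (fromCols S (colM v)) μ ↔ ∀ (a : ρ → K) (α : K) (u : n → K),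
      (S.map (Int.castRingHom K)).mulVec a + α • ((Int.castRingHom K) ∘ v) =
        (C.map (Int.castRingHom K) - Matrix.scalar n μ).mulVec u → a = 0 ∧ α = 0 := by
  constructor
  · intro h a α u hu
    have h1 := h (Sum.elim a (fun _ => α)) u (by
      rw [map_mulVec_col, Sum.elim_comp_inl]
      exact hu)
    constructor
    · ext j
      have := congrFun h1 (Sum.inl j)
      simpa using this
    · have := congrFun h1 (Sum.inr 0)
      simpa using this
  · intro h a u hu
    rw [map_mulVec_col] at hu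
    obtain ⟨h1, h2⟩ := h _ _ u hu
    ext j
    rcases j with j | j
    · exact congrFun h1 j
    · have : j = 0 := Subsingleton.elim _ _
      rw [this, h2]
      rfl

theorem cind_comb {K : Type} [Field K] (C : Matrix n n ℤ) (S : Matrix n ρ ℤ) (v w : n → ℤ)
    (τ : ℤ) (μ : K) (h : CInd K C (fromCols (fromCols S (colM v)) (colM w)) μ) :
    CInd K C (fromCols S (colM (v + τ • w))) μ := by
  rw [cind_iff] at h ⊢
  intro a α u hu
  have h1 := h (Sum.elim a (fun _ => α)) (α * (Int.castRingHom K) τ) u (by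
    rw [map_mulVec_col, Sum.elim_comp_inl, ← hu]
    ext i
    simp only [Pi.add_apply, Pi.smul_apply, Function.comp, smul_eq_mul, map_add, map_mul,
      Sum.elim_inr]
    ring)
  constructor
  · ext j
    have := congrFun h1.1 (Sum.inl j)
    simpa using this
  · have := congrFun h1.1 (Sum.inr 0)
    simpa using this

theorem goodP_congr (p : ℕ) [Fact p.Prime] (C : Matrix n n ℤ) (S : Matrix n ρ ℤ) (v w : n → ℤ)
    (t : ℕ) (h : ∀ i, (v i : ZMod p) = (w i : ZMod p))
    (hv : GoodP p C (fromCols S (colM v)) t) : GoodP p C (fromCols S (colM w)) t := by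
  intro μ hμ
  have h1 := hv μ hμ
  rw [cind_iff] at h1 ⊢
  have h2 : (Int.castRingHom (AlgebraicClosure (ZMod p))) ∘ w =
      (Int.castRingHom (AlgebraicClosure (ZMod p))) ∘ v := by
    ext i
    have h3 := congrArg (algebraMap (ZMod p) (AlgebraicClosure (ZMod p))) (h i)
    rw [map_intCast, map_intCast] at h3
    simp only [Function.comp, eq_intCast]
    exact h3.symm
  rw [h2]
  exact h1

theorem cast_congr {ν : Type} [Fintype ν] (p : ℕ) (G : Matrix n ν ℤ) (b : n → ℤ)
    (x x' : ν → ℤ) (h : ∀ j, (x j : ZMod p) = (x' j : ZMod p)) (i : n) :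
    (((b + G.mulVec x) i : ℤ) : ZMod p) = (((b + G.mulVec x') i : ℤ) : ZMod p) := by
  simp only [Pi.add_apply, Int.cast_add, Matrix.mulVec, dotProduct, Int.cast_sum, Int.cast_mul]
  congr 1
  refine Finset.sum_congr rfl fun j _ => ?_
  rw [h j]

end

end CSL1

open CSL1 in
theorem claimCSL1 (h3 : ClaimFinGood) (h4 : ClaimLocP) (h5 : ClaimLoc0) : ClaimCSL1 := by
  intro n ρ ν _ _ _ _ _ _ C S G b t s ht hs hcard hdim hG hS0 hSp
  classical
  obtain ⟨x0, -, hx0⟩ := h5 n ρ ν C S G b t ht (by omega) hG hS0 1 0 one_pos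
  have hfin0 := h3 n (ρ ⊕ Fin 1) C _ t hx0
  have hxp : ∀ p : ℕ, ∃ xp : ν → ℤ, ∀ hp : p.Prime,
      @GoodP n (ρ ⊕ Fin 1) _ _ _ p ⟨hp⟩ C (fromCols S (colM (b + G.mulVec xp))) t := by
    intro p
    by_cases hp : p.Prime
    · haveI : Fact p.Prime := ⟨hp⟩
      obtain ⟨xp, hxp⟩ := h4 n ρ ν C S G b t s ht hcard (by omega) p (hG p hp) (hSp p)
      exact ⟨xp, fun _ => hxp⟩
    · exact ⟨0, fun h => absurd h hp⟩
  choose xp hxp using hxp
  have hy : ∃ y : ν → ℤ, ∀ p ∈ hfin0.toFinset, ∀ j,
      (y j : ZMod p) = ((xp p j - x0 j : ℤ) : ZMod p) := by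
    have h6 : ∀ j, ∃ yj : ℤ, ∀ p ∈ hfin0.toFinset,
        (yj : ZMod p) = ((xp p j - x0 j : ℤ) : ZMod p) := by
      intro j
      refine Step.crt _ ?_ (fun p => xp p j - x0 j)
      intro p hp
      rw [Set.Finite.mem_toFinset] at hp
      exact hp.1
    choose y hy using h6
    exact ⟨y, fun p hp j => hy j p hp⟩
  obtain ⟨y, hy⟩ := hy
  have hN : 0 < ∏ p ∈ hfin0.toFinset, p := by
    refine Finset.prod_pos fun p hp => ?_
    rw [Set.Finite.mem_toFinset] at hp
    exact hp.1.pos
  obtain ⟨z, hzy, hz⟩ := h5 n (ρ ⊕ Fin 1) ν C (fromCols S (colM (b + G.mulVec x0))) G 0 t ht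
    (by rw [Fintype.card_sum, Fintype.card_fin]; omega) hG hx0 _ y hN
  have hfin1 := h3 n ((ρ ⊕ Fin 1) ⊕ Fin 1) C _ t hz
  obtain ⟨τ, hτ⟩ := Step.crt (hfin0.toFinset ∪ hfin1.toFinset) (by
    intro p hp
    rw [Finset.mem_union, Set.Finite.mem_toFinset, Set.Finite.mem_toFinset] at hp
    rcases hp with hp | hp
    · exact hp.1
    · exact hp.1) (fun p => if p ∈ hfin0.toFinset then 1 else 0)
  have hcomb : b + G.mulVec (x0 + τ • z) = (b + G.mulVec x0) + τ • (0 + G.mulVec z) := by
    rw [Matrix.mulVec_add, Matrix.mulVec_smul, zero_add, add_assoc]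
  refine ⟨x0 + τ • z, ?_, ?_⟩
  · intro K _ _ μ hμ
    rw [hcomb]
    exact cind_comb C S _ _ τ μ (hz K μ hμ)
  · intro p hp
    have hpp : p.Prime := hp.out
    by_cases hp0 : p ∈ hfin0.toFinset
    · have h6 := hτ p (Finset.mem_union_left _ hp0)
      rw [if_pos hp0] at h6
      refine goodP_congr p C S _ _ t ?_ (hxp p hpp)
      refine cast_congr p G b _ _ ?_
      intro j
      have h7 := hy p hp0 j
      have h8 : (z j : ZMod p) = (y j : ZMod p) := by
        have h9 : (p : ℤ) ∣ z j - y j := by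
          refine dvd_trans ?_ (hzy j)
          exact_mod_cast Finset.dvd_prod_of_mem _ hp0
        have h10 := (ZMod.intCast_zmod_eq_zero_iff_dvd (z j - y j) p).2 h9
        rw [Int.cast_sub, sub_eq_zero] at h10
        exact h10
      simp only [Pi.add_apply, Pi.smul_apply, smul_eq_mul, Int.cast_add, Int.cast_mul,
        Int.cast_one, Int.cast_sub] at h6 h7 ⊢
      rw [h6, h8, h7]
      ring
    · by_cases hp1 : p ∈ hfin1.toFinset
      · have h6 := hτ p (Finset.mem_union_right _ hp1)
        rw [if_neg hp0] at h6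
        have h7 : GoodP p C (fromCols S (colM (b + G.mulVec x0))) t := by
          by_contra h8
          exact hp0 ((Set.Finite.mem_toFinset _).2 ⟨hpp, h8⟩)
        refine goodP_congr p C S _ _ t ?_ h7
        refine cast_congr p G b _ _ ?_
        intro j
        simp only [Pi.add_apply, Pi.smul_apply, smul_eq_mul, Int.cast_add, Int.cast_mul,
          Int.cast_zero] at h6 ⊢
        rw [h6]
        ring
      · have h8 : GoodP p C (fromCols (fromCols S (colM (b + G.mulVec x0)))
            (colM (0 + G.mulVec z))) t := by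
          by_contra h8
          exact hp1 ((Set.Finite.mem_toFinset _).2 ⟨hpp, h8⟩)
        intro μ hμ
        rw [hcomb]
        exact cind_comb C S _ _ τ μ (h8 μ hμ)

end Pool.Agent.IntComm
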