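import Pool.Agent.Work.MP_584b0c_al.Api2

set_option autoImplicit false

/-! G1. Certificates over a field. -/

namespace Pool.Agent.IntComm

open Matrix

namespace Cert

theorem exists_left_inv {K m n : Type} [Field K] [Fintype m] [DecidableEq m] [Fintype n]
    [DecidableEq n] (f : (m → K) →ₗ[K] (n → K)) (hf : LinearMap.ker f = ⊥) :
    ∃ Y : Matrix m n K, Y * LinearMap.toMatrix' f = 1 := by
  obtain ⟨g, hg⟩ := LinearMap.exists_leftInverse_of_injective f hf
  refine ⟨LinearMap.toMatrix' g, ?_⟩
  rw [← LinearMap.toMatrix'_comp, hg, LinearMap.toMatrix'_id]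

theorem part1 {K n : Type} [Field K] [Fintype n] [DecidableEq n] (M : Matrix n n K) (t : ℕ) :
    t ≤ Module.finrank K (LinearMap.ker (Matrix.toLin' M)) ↔
    ∃ (Z : Matrix n (Fin t) K) (Y : Matrix (Fin t) n K), M * Z = 0 ∧ Y * Z = 1 := by
  constructor
  · intro h
    set U := LinearMap.ker (Matrix.toLin' M) with hU
    let b := Module.finBasis K U
    let v : Fin t → (n → K) := fun i => ((b (Fin.castLE h i) : U) : n → K)
    have hv : LinearIndependent K v := by
      have h1 : LinearIndependent K (fun i : Fin t => b (Fin.castLE h i)) :=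
        b.linearIndependent.comp _ (Fin.castLE_injective h)
      exact h1.map' U.subtype (Submodule.ker_subtype U)
    let Z : Matrix n (Fin t) K := Matrix.of fun i j => v j i
    have hZ : Function.Injective Z.mulVec := by
      rw [Matrix.mulVec_injective_iff]
      exact hv
    obtain ⟨Y, hY⟩ := exists_left_inv (Matrix.toLin' Z) (by
      rw [LinearMap.ker_eq_bot]
      exact hZ)
    rw [LinearMap.toMatrix'_toLin'] at hY
    refine ⟨Z, Y, ?_, hY⟩
    ext i j
    have h2 : v j ∈ U := (b (Fin.castLE h j)).2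
    have h3 : M.mulVec (v j) = 0 := by
      have := LinearMap.mem_ker.1 h2
      rwa [Matrix.toLin'_apply] at this
    have h4 := congrFun h3 i
    simpa [Matrix.mul_apply, Matrix.mulVec, dotProduct, Z] using h4
  · rintro ⟨Z, Y, hZ, hY⟩
    have hm : ∀ x, Matrix.toLin' Z x ∈ LinearMap.ker (Matrix.toLin' M) := by
      intro x
      rw [LinearMap.mem_ker, Matrix.toLin'_apply, Matrix.toLin'_apply, Matrix.mulVec_mulVec, hZ,
        Matrix.zero_mulVec]
    have h5 := LinearMap.finrank_le_finrank_of_injective (f := LinearMap.codRestrict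
      (LinearMap.ker (Matrix.toLin' M)) (Matrix.toLin' Z) hm) (by
        intro x y hxy
        have h6 := congrArg Subtype.val hxy
        have h7 : Z *ᵥ x = Z *ᵥ y := h6
        have h8 := congrArg (fun v => Y *ᵥ v) h7
        simpa only [Matrix.mulVec_mulVec, hY, Matrix.one_mulVec] using h8)
    simpa using h5

theorem part2 {K n ρ : Type} [Field K] [Fintype n] [DecidableEq n] [Fintype ρ] [DecidableEq ρ]
    (M : Matrix n n K) (W : Matrix n ρ K) :
    (∀ (a : ρ → K) (u : n → K), W.mulVec a = M.mulVec u → a = 0) ↔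
    ∃ Λ : Matrix ρ n K, Λ * M = 0 ∧ Λ * W = 1 := by
  constructor
  · intro h
    set R := LinearMap.range (Matrix.toLin' M) with hR
    let q := R.mkQ
    let g : (ρ → K) →ₗ[K] ((n → K) ⧸ R) := q ∘ₗ Matrix.toLin' W
    have hg : LinearMap.ker g = ⊥ := by
      rw [LinearMap.ker_eq_bot']
      intro a ha
      have h1 : R.mkQ (Matrix.toLin' W a) = 0 := ha
      rw [Submodule.mkQ_apply, Submodule.Quotient.mk_eq_zero] at h1
      obtain ⟨u, hu⟩ := h1
      rw [Matrix.toLin'_apply, Matrix.toLin'_apply] at hu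
      exact h a u hu.symm
    obtain ⟨g', hg'⟩ := LinearMap.exists_leftInverse_of_injective g hg
    refine ⟨LinearMap.toMatrix' (g' ∘ₗ q), ?_, ?_⟩
    · apply Matrix.toLin'.injective
      rw [Matrix.toLin'_mul, Matrix.toLin'_toMatrix', map_zero]
      apply LinearMap.ext
      intro x
      have h2 : q (Matrix.toLin' M x) = 0 := by
        show R.mkQ _ = 0
        rw [Submodule.mkQ_apply, Submodule.Quotient.mk_eq_zero]
        exact ⟨x, rfl⟩
      show g' (q (Matrix.toLin' M x)) = 0
      rw [h2, map_zero]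
    · apply Matrix.toLin'.injective
      rw [Matrix.toLin'_mul, Matrix.toLin'_toMatrix', Matrix.toLin'_one]
      exact hg'
  · rintro ⟨Λ, h1, h2⟩ a u h
    have h3 : Λ.mulVec (W.mulVec a) = Λ.mulVec (M.mulVec u) := by rw [h]
    rwa [Matrix.mulVec_mulVec, Matrix.mulVec_mulVec, h1, h2, Matrix.one_mulVec,
      Matrix.zero_mulVec] at h3

end Cert

theorem claimCert : ClaimCert := by
  intro K _ n ρ _ _ _ _ M W
  exact ⟨fun t => Cert.part1 M t, Cert.part2 M W⟩

end Pool.Agent.IntComm
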