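import Pool.Agent.Work.MP_584b0c_al.Api2
import Pool.Agent.Work.MP_584b0c_al.Comp

set_option autoImplicit false

namespace Pool.Agent.IntComm

open Matrix Polynomial


theorem claimComp2 (h0 : ClaimStepLU) (h1 : ClaimSchur) (h2 : ClaimBase) (h3 : ClaimRepl) :
    ClaimComp2 := by
  intro τ σ _ _ _ _ q F₀
  induction q with
  | zero =>
    intro Fs hF₀ hlen hpw hX D hD H hH
    obtain ⟨F, rfl⟩ : ∃ F, Fs = [F] := List.length_eq_one_iff.1 hlen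
    obtain ⟨Y, g, hFY, D', hD', rfl⟩ := hD
    change D' = 1 at hD'
    subst hD'
    obtain ⟨γ, rfl⟩ := hH
    rw [mul_one, pow_zero, one_smul, Comp.toCols_mul_J₁, Comp.toCols_mul_J₂]
    obtain ⟨B, E, D, hS, hSchur⟩ := h2 τ σ (Y * g * Y⁻¹ * g⁻¹) γ
    refine LUF.of_sim hS ?_
    have hF : [F].prod = F := by simp
    rw [hF]
    apply h0 (τ ⊕ σ) σ F F₀ Y g B E D (hX F (by simp)) hFY
    rw [hSchur]
    exact hF₀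
  | succ q ih =>
    intro Fs hF₀ hlen hpw hX D hD H hH
    obtain ⟨F, Fs, rfl⟩ : ∃ F Fs', Fs = F :: Fs' := by
      cases Fs with
      | nil => simp at hlen
      | cons F Fs => exact ⟨F, Fs, rfl⟩
    rw [List.length_cons] at hlen
    have hlen' : Fs.length = q + 1 := by omega
    rw [List.pairwise_cons] at hpw
    obtain ⟨Y, g, hFY, D', hD', rfl⟩ := hD
    obtain ⟨P', H', hH', rfl⟩ := hH
    set d : (Matrix (τ ⊕ σ) (τ ⊕ σ) ℤ)ˣ := Y * g * Y⁻¹ * g⁻¹ with hd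
    obtain ⟨B, E, D, hS, hSchur⟩ := h1 (τ ⊕ σ) (Idx τ σ q) d
      (row q ((-1 : ℤ) ^ (q + 1) • ((d : Matrix (τ ⊕ σ) (τ ⊕ σ) ℤ) * D' * J τ σ))) H'
    refine LUF.of_sim hS ?_
    rw [List.prod_cons, mul_assoc]
    apply h0 (τ ⊕ σ) _ F (Fs.prod * F₀) Y g B E D
      (IsCoprime.mul_right (Comp.list_prod_coprime hpw.1) (hX F (by simp))) hFY
    have hP : -(((d⁻¹ : (Matrix (τ ⊕ σ) (τ ⊕ σ) ℤ)ˣ) : Matrix (τ ⊕ σ) (τ ⊕ σ) ℤ) *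
        ((-1 : ℤ) ^ (q + 1) • ((d : Matrix (τ ⊕ σ) (τ ⊕ σ) ℤ) * D' * J τ σ))) =
        (-1 : ℤ) ^ q • (D' * J τ σ) := by
      rw [Matrix.mul_smul, Matrix.mul_assoc, ← Matrix.mul_assoc
        ((d⁻¹ : (Matrix (τ ⊕ σ) (τ ⊕ σ) ℤ)ˣ) : Matrix (τ ⊕ σ) (τ ⊕ σ) ℤ)
        (d : Matrix (τ ⊕ σ) (τ ⊕ σ) ℤ), Units.inv_mul, Matrix.one_mul, pow_succ]
      simp
    have e1 : -(((d⁻¹ : (Matrix (τ ⊕ σ) (τ ⊕ σ) ℤ)ˣ) : Matrix (τ ⊕ σ) (τ ⊕ σ) ℤ) *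
        row q ((-1 : ℤ) ^ (q + 1) • ((d : Matrix (τ ⊕ σ) (τ ⊕ σ) ℤ) * D' * J τ σ))) =
        row q ((-1 : ℤ) ^ q • (D' * J τ σ)) := by
      rw [← row_mul, ← row_neg, hP]
    have e2 : D - E * ((d⁻¹ : (Matrix (τ ⊕ σ) (τ ⊕ σ) ℤ)ˣ) : Matrix (τ ⊕ σ) (τ ⊕ σ) ℤ) * B =
        fromRows (row q ((-1 : ℤ) ^ q • (D' * J τ σ))) H'.toRows₂ :=
      hSchur.trans (congrArg (fun M => fromRows M H'.toRows₂) e1)
    rw [← hd, e2]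
    exact ih Fs hF₀ hlen' hpw.2 (fun G hG => hX G (by simp [hG])) D' hD' _ (h3 τ σ q _ P' H' hH')

end Pool.Agent.IntComm
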