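import Pool.Agent.Work.MP_584b0c_al.Api2

set_option autoImplicit false

/-! I3. Final choice of the constants. -/

namespace Pool.Agent.IntComm

theorem claimConst : ClaimConst := by
  intro c n₀ K₀ hc
  set d : ℝ := min c 1 / 400 with hd
  have hd0 : 0 < d := by
    rw [hd]; have := lt_min hc one_pos; positivity
  have hdc : d ≤ c / 400 := by
    rw [hd]; have := min_le_left c 1; linarith
  have hd1 : d ≤ 1 / 400 := by
    rw [hd]; have := min_le_right c 1; linarith
  set M : ℝ := 2 * K₀ + n₀ + 64 with hM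
  have hM64 : 64 ≤ M := by
    rw [hM]
    have h1 : (0 : ℝ) ≤ K₀ := Nat.cast_nonneg _
    have h2 : (0 : ℝ) ≤ n₀ := Nat.cast_nonneg _
    linarith
  have hMK : 2 * (K₀ : ℝ) ≤ M := by
    rw [hM]
    have h2 : (0 : ℝ) ≤ n₀ := Nat.cast_nonneg _
    linarith
  have hMn : (n₀ : ℝ) ≤ M := by
    rw [hM]
    have h2 : (0 : ℝ) ≤ K₀ := Nat.cast_nonneg _
    linarith
  refine ⟨M / d, ?_⟩
  intro n ρ hn hρn hρ
  have hn2 : (2 : ℝ) ≤ n := by exact_mod_cast hn
  have hl2 := Real.log_two_gt_d9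
  have hln2 : Real.log 2 ≤ Real.log n := Real.log_le_log (by norm_num) hn2
  have hlnpos : 0 < Real.log n := by linarith
  have hlnle : Real.log n ≤ n := by
    have := Real.log_le_sub_one_of_pos (by linarith : (0 : ℝ) < n)
    linarith
  set q : ℝ := Real.sqrt (n * Real.log n) with hq
  have hqsq : q ^ 2 = n * Real.log n := by
    rw [hq]; exact Real.sq_sqrt (by positivity)
  have hq1 : 1 ≤ q := by
    rw [hq]; apply Real.one_le_sqrt.2; nlinarith
  have hql : Real.log n ≤ q := by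
    rw [hq]; apply Real.le_sqrt_of_sq_le; nlinarith
  have hdρ : M * q ≤ d * ρ := by
    have h1 : M / d * q * d ≤ ρ * d := mul_le_mul_of_nonneg_right hρ hd0.le
    have h2 : M / d * q * d = M * q := by field_simp
    linarith
  have hMq : M ≤ M * q := by nlinarith
  have hρ0 : (0 : ℝ) ≤ ρ := Nat.cast_nonneg _
  set K := ⌊d * (ρ : ℝ)⌋₊ with hK
  have hK1 : (K : ℝ) ≤ d * ρ := Nat.floor_le (by positivity)
  have hK2 : d * ρ < K + 1 := Nat.lt_floor_add_one _
  have hK3 : M * q / 2 ≤ K := by nlinarith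
  have hK4 : (4 : ℝ) ≤ K := by nlinarith
  have hKK : (K₀ : ℝ) ≤ K := by nlinarith
  have hKρ : (K : ℝ) ≤ ρ / 400 := by nlinarith
  have hKcρ : (K : ℝ) ≤ c / 400 * ρ := by nlinarith
  have hρnr : (ρ : ℝ) ≤ n := by exact_mod_cast hρn
  refine ⟨K, Nat.log 2 n + 1, by exact_mod_cast hK4, by exact_mod_cast hKK, by omega,
    Nat.lt_pow_succ_log_self (by norm_num) n, ?_, ?_, ?_, ?_⟩
  · have h1 : ((Nat.log 2 n : ℕ) : ℝ) * Real.log 2 ≤ Real.log n := by
      have h2 : 2 ^ Nat.log 2 n ≤ n := Nat.pow_log_le_self 2 (by omega)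
      have h3 : ((2 : ℝ) ^ Nat.log 2 n) ≤ n := by exact_mod_cast h2
      have h4 := Real.log_le_log (by positivity) h3
      rwa [Real.log_pow] at h4
    have h5 : ((Nat.log 2 n + 1 : ℕ) : ℝ) ≤ K := by
      push_cast
      have h6 : ((Nat.log 2 n : ℕ) : ℝ) ≤ 2 * q := by
        have h7 : (0 : ℝ) ≤ ((Nat.log 2 n : ℕ) : ℝ) := Nat.cast_nonneg _
        nlinarith
      nlinarith
    exact_mod_cast h5
  · have h1 : ((n₀ + 100 * K : ℕ) : ℝ) ≤ ρ := by
      push_cast
      nlinarith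
    exact_mod_cast h1
  · nlinarith
  · have hlogK : 0 < Real.log K := Real.log_pos (by linarith)
    have hlogKn : Real.log K ≤ Real.log n := Real.log_le_log (by linarith) (by linarith)
    have h1 : (M * q / 2) ^ 2 ≤ (K : ℝ) ^ 2 := by
      apply pow_le_pow_left₀ _ hK3
      positivity
    have h2 : 1024 * (n * Real.log n) ≤ (K : ℝ) ^ 2 := by
      refine le_trans ?_ h1
      have h3 : (M * q / 2) ^ 2 = M ^ 2 / 4 * q ^ 2 := by ring
      rw [h3, hqsq]
      apply mul_le_mul_of_nonneg_right _ (by positivity)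
      nlinarith
    have h4 : (K : ℝ) * ((K : ℝ) / (8 * Real.log K)) = (K : ℝ) ^ 2 / (8 * Real.log K) := by ring
    rw [h4, le_div_iff₀ (by positivity)]
    calc 2 * (n : ℝ) * (8 * Real.log K) ≤ 2 * (n : ℝ) * (8 * Real.log n) := by gcongr
      _ ≤ 1024 * (n * Real.log n) := by
          have : 0 ≤ (n : ℝ) * Real.log n := by positivity
          nlinarith
      _ ≤ _ := h2

end Pool.Agent.IntComm
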