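import Pool.Agent.Work.MP_584b0c_al.Api2

set_option autoImplicit false

/-! G3. Good in characteristic zero implies good at almost all primes. -/

namespace Pool.Agent.IntComm

open Matrix

namespace FinGood

/-- The ideal of families vanishing at all but finitely many indices. -/
def finIdeal (I : Type) (F : I → Type) [∀ p, Field (F p)] : Ideal (∀ p, F p) where
  carrier := {f | {p | f p ≠ 0}.Finite}
  add_mem' := by
    intro f g hf hg
    apply (hf.union hg).subset
    intro p hp
    by_contra hcon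
    simp only [Set.mem_union, Set.mem_setOf_eq, not_or, not_not] at hcon
    exact hp (by simp [hcon.1, hcon.2])
  zero_mem' := by simp
  smul_mem' := by
    intro c f hf
    apply hf.subset
    intro p hp
    by_contra hcon
    simp only [Set.mem_setOf_eq, not_not] at hcon
    exact hp (by simp [hcon])

theorem exists_ultra (I : Type) [Infinite I] (F : I → Type) [∀ p, Field (F p)]
    (hN : ∀ N : ℕ, 0 < N → {p | ((N : ℕ) : F p) = 0}.Finite) :
    ∃ (K : Type) (_ : Field K) (_ : CharZero K), Nonempty ((∀ p, F p) →+* K) := by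
  have hJ : finIdeal I F ≠ ⊤ := by
    intro h
    have h1 : (1 : ∀ p, F p) ∈ finIdeal I F := by rw [h]; trivial
    have h2 : {p : I | (1 : ∀ p, F p) p ≠ 0}.Finite := h1
    have h3 : {p : I | (1 : ∀ p, F p) p ≠ 0} = Set.univ := by
      ext p; simp
    rw [h3] at h2
    exact Set.infinite_univ h2
  obtain ⟨m, hm, hle⟩ := Ideal.exists_le_maximal _ hJ
  letI : Field ((∀ p, F p) ⧸ m) := Ideal.Quotient.field m
  refine ⟨(∀ p, F p) ⧸ m, inferInstance, ?_, ⟨Ideal.Quotient.mk m⟩⟩
  apply charZero_of_inj_zero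
  intro N hN0
  by_contra hne
  have hpos : 0 < N := Nat.pos_of_ne_zero hne
  have h1 : ((N : ∀ p, F p) * (fun p => ((N : ℕ) : F p)⁻¹) - 1) ∈ finIdeal I F := by
    apply (hN N hpos).subset
    intro p hp
    by_contra hcon
    apply hp
    have hcon' : ((N : ℕ) : F p) ≠ 0 := hcon
    simp [hcon']
  have h2 := Ideal.Quotient.eq_zero_iff_mem.2 (hle h1)
  rw [map_sub, map_mul, map_natCast, hN0, zero_mul, map_one, zero_sub, neg_eq_zero] at h2
  exact one_ne_zero h2

theorem map_mat {R K n : Type} [CommRing R] [CommRing K] [Fintype n] [DecidableEq n]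
    (φ : R →+* K) (C : Matrix n n ℤ) (μ : R) :
    (C.map (Int.castRingHom R) - Matrix.scalar n μ).map φ =
      C.map (Int.castRingHom K) - Matrix.scalar n (φ μ) := by
  ext i j
  by_cases h : i = j
  · subst h
    simp
  · simp [h]

theorem map_int {R K m n : Type} [CommRing R] [CommRing K]
    (φ : R →+* K) (C : Matrix m n ℤ) :
    (C.map (Int.castRingHom R)).map φ = C.map (Int.castRingHom K) := by
  ext i j
  simp

/-- The matrix over a product ring with given components. -/
def glue {I m n : Type} {F : I → Type} (Z : ∀ p, Matrix m n (F p)) : Matrix m n (∀ p, F p) :=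
  Matrix.of fun i j p => Z p i j

theorem eq_of_eval {I m n : Type} {F : I → Type} [∀ p, Field (F p)]
    (A B : Matrix m n (∀ p, F p))
    (h : ∀ p, A.map (Pi.evalRingHom F p) = B.map (Pi.evalRingHom F p)) : A = B := by
  ext i j p
  exact congrFun (congrFun (h p) i) j

theorem glue_eval {I m n : Type} {F : I → Type} [∀ p, Field (F p)] (Z : ∀ p, Matrix m n (F p))
    (p : I) : (glue Z).map (Pi.evalRingHom F p) = Z p := by
  ext i j
  rfl

end FinGood

open FinGood in
theorem claimFinGood (h : ClaimCert) : ClaimFinGood := by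
  intro n ρ _ _ _ _ C W t hgood
  by_contra hinf
  set S := {p : ℕ | ∃ h : p.Prime, ¬ @GoodP n ρ _ _ _ p ⟨h⟩ C W t} with hS
  haveI : Infinite S := Set.infinite_coe_iff.2 hinf
  haveI hfact : ∀ p : S, Fact (p.1.Prime) := fun p => ⟨p.2.1⟩
  let F : S → Type := fun p => AlgebraicClosure (ZMod p.1)
  letI : ∀ p : S, Field (F p) := fun p => inferInstanceAs (Field (AlgebraicClosure (ZMod p.1)))
  have key : ∀ p : S, ∃ (μ : F p) (Z : Matrix n (Fin t) (F p)) (Y : Matrix (Fin t) n (F p))
      (a : ρ → F p) (u : n → F p) (α : ρ → F p),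
      (C.map (Int.castRingHom (F p)) - Matrix.scalar n μ) * Z = 0 ∧ Y * Z = 1 ∧
      (W.map (Int.castRingHom (F p))).mulVec a =
        (C.map (Int.castRingHom (F p)) - Matrix.scalar n μ).mulVec u ∧ α ⬝ᵥ a = 1 := by
    intro p
    obtain ⟨hp, hbad⟩ := p.2
    have hbad' : ¬ GoodP p.1 C W t := hbad
    unfold GoodP at hbad'
    push Not at hbad'
    obtain ⟨μ, hμ, hc⟩ := hbad'
    unfold mult at hμ
    obtain ⟨Z, Y, hZ, hY⟩ := ((h (F p) n ρ (C.map (Int.castRingHom (F p)) - Matrix.scalar n μ)
      (W.map (Int.castRingHom (F p)))).1 t).1 hμ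
    unfold CInd at hc
    push Not at hc
    obtain ⟨a, u, hau, ha⟩ := hc
    obtain ⟨i, hi⟩ := Function.ne_iff.1 ha
    refine ⟨μ, Z, Y, a, u, Pi.single i (a i)⁻¹, hZ, hY, hau, ?_⟩
    rw [single_dotProduct]
    exact inv_mul_cancel₀ hi
  choose μ Z Y a u α h1 h2 h3 h4 using key
  obtain ⟨K, hK, hK0, ⟨φ⟩⟩ := exists_ultra S F (by
    intro N hN
    have hfin : {q : ℕ | q ∣ N}.Finite := by
      apply (Set.finite_Iic N).subset
      intro q hq
      exact Nat.le_of_dvd hN hq
    apply Set.Finite.subset (hfin.preimage (f := fun p : S => (p : ℕ))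
      (Subtype.val_injective.injOn))
    intro p hp
    haveI : CharP (F p) p.1 := inferInstanceAs (CharP (AlgebraicClosure (ZMod p.1)) p.1)
    exact (CharP.cast_eq_zero_iff (F p) p.1 N).1 hp)
  let μR : ∀ p, F p := fun p => μ p
  set MR : Matrix n n (∀ p, F p) := C.map (Int.castRingHom (∀ p, F p)) - Matrix.scalar n μR
    with hMR
  have hMe : ∀ p, MR.map (Pi.evalRingHom F p) =
      C.map (Int.castRingHom (F p)) - Matrix.scalar n (μ p) := by
    intro p
    rw [hMR, map_mat]
    rfl
  have hMφ : MR.map φ = C.map (Int.castRingHom K) - Matrix.scalar n (φ μR) := by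
    rw [hMR, map_mat]
  have e1 : MR * glue Z = 0 := by
    apply eq_of_eval
    intro p
    rw [Matrix.map_mul, hMe, glue_eval, h1]
    ext i j
    rfl
  have e2 : glue Y * glue Z = 1 := by
    apply eq_of_eval
    intro p
    rw [Matrix.map_mul, glue_eval, glue_eval, h2, Matrix.map_one _ (map_zero _) (map_one _)]
  have f1 : (C.map (Int.castRingHom K) - Matrix.scalar n (φ μR)) * (glue Z).map φ = 0 := by
    rw [← hMφ, ← Matrix.map_mul, e1]
    ext i j
    simp
  have f2 : (glue Y).map φ * (glue Z).map φ = 1 := by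
    rw [← Matrix.map_mul, e2, Matrix.map_one _ (map_zero _) (map_one _)]
  have hmult : t ≤ mult K C (φ μR) :=
    ((h K n ρ (C.map (Int.castRingHom K) - Matrix.scalar n (φ μR))
      (W.map (Int.castRingHom K))).1 t).2 ⟨_, _, f1, f2⟩
  let aR : ρ → (∀ p, F p) := fun i p => a p i
  let uR : n → (∀ p, F p) := fun i p => u p i
  let αR : ρ → (∀ p, F p) := fun i p => α p i
  have e3 : (W.map (Int.castRingHom (∀ p, F p))).mulVec aR = MR.mulVec uR := by
    ext i p
    have hl := RingHom.map_mulVec (Pi.evalRingHom F p) (W.map (Int.castRingHom (∀ p, F p))) aR i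
    have hr := RingHom.map_mulVec (Pi.evalRingHom F p) MR uR i
    rw [map_int] at hl
    rw [hMe] at hr
    have h5 := congrFun (h3 p) i
    exact hl.trans (h5.trans hr.symm)
  have e4 : αR ⬝ᵥ aR = 1 := by
    ext p
    have hl := RingHom.map_dotProduct (Pi.evalRingHom F p) αR aR
    exact hl.trans (h4 p)
  have f3 : (W.map (Int.castRingHom K)).mulVec (φ ∘ aR) =
      (C.map (Int.castRingHom K) - Matrix.scalar n (φ μR)).mulVec (φ ∘ uR) := by
    ext i
    rw [← hMφ, ← map_int φ, ← RingHom.map_mulVec, ← RingHom.map_mulVec, e3]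
  have f4 : (φ ∘ αR) ⬝ᵥ (φ ∘ aR) = 1 := by
    rw [← RingHom.map_dotProduct, e4, map_one]
  have h0 := hgood K (φ μR) hmult _ _ f3
  rw [h0, dotProduct_zero] at f4
  exact zero_ne_one f4

end Pool.Agent.IntComm
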