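import Pool.Agent.Work.MP_584b0c_al.Api2

set_option autoImplicit false

/-! Item H7: many peeling steps. -/

namespace Pool.Agent.IntComm

open Matrix Polynomial

namespace Iter

theorem unit_compan (hc : ClaimCompan) (k : ℕ) (f : ℤ[X]) (hk : 0 < k) (hm : f.Monic)
    (hd : f.natDegree = k) (h0 : f.coeff 0 = 1) :
    ∃ X : (Matrix (Fin k) (Fin k) ℤ)ˣ, aeval (X : Matrix (Fin k) (Fin k) ℤ) f = 0 := by
  obtain ⟨h1, h2⟩ := hc k f hk hm hd
  have hu : IsUnit (compan f : Matrix (Fin k) (Fin k) ℤ).det := by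
    rw [h2, h0, mul_one]
    exact IsUnit.pow _ (isUnit_one.neg)
  obtain ⟨X, hX⟩ := (Matrix.isUnit_iff_isUnit_det _).2 hu
  exact ⟨X, by rw [hX]; exact h1⟩

theorem rep_pow (hr : ClaimRep) (l k : ℕ) (hl : l.Prime) (hd : (l - 1) ∣ k) :
    (rep l ^ (k / (l - 1))).Monic ∧ (rep l ^ (k / (l - 1))).natDegree = k ∧
      (rep l ^ (k / (l - 1))).coeff 0 = 1 := by
  obtain ⟨h1, h2, h3⟩ := hr.2 l hl.one_lt.le
  refine ⟨h1.pow _, ?_, ?_⟩
  · rw [h1.natDegree_pow, h2]
    exact Nat.div_mul_cancel hd
  · rw [Polynomial.coeff_zero_eq_eval_zero, Polynomial.eval_pow,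
      ← Polynomial.coeff_zero_eq_eval_zero, h3, one_pow]

theorem coprime_list {α : Type} (a : ℤ[X]) (f : α → ℤ[X]) (L : List α)
    (h : ∀ x ∈ L, IsCoprime a (f x)) : IsCoprime a (L.map f).prod := by
  induction L with
  | nil => simpa using isCoprime_one_right
  | cons x L ih =>
    rw [List.map_cons, List.prod_cons]
    exact IsCoprime.mul_right (h x (by simp)) (ih fun y hy => h y (by simp [hy]))

end Iter

theorem claimIter (h : ClaimPeelStep) (hr : ClaimRep) (hc : ClaimCompan) : ClaimIter := by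
  intro K t s n' ht hs hst hn' L
  induction L with
  | nil =>
    intro _ _ n m C hn _ _ hdet hmult
    have hn2 : n = n' := by simpa using hn
    subst hn2
    refine ⟨C, hdet, ?_, ?_⟩
    · intro p _ μ
      refine (hmult p μ).trans (le_max_of_le_left ?_)
      simp
    · intro F₀ _ hF
      simpa using hF
  | cons x L ih =>
    intro hL hnd n m C hn hn2 hm hdet hmult
    obtain ⟨l, k⟩ := x
    have hx := hL (l, k) (by simp)
    obtain ⟨hl, hk0, hdvd, hkK⟩ := hx
    simp only at hl hk0 hdvd hkK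
    rw [List.map_cons, List.nodup_cons] at hnd
    obtain ⟨n1, hn1⟩ : ∃ n1, n1 = (L.map Prod.snd).sum + n' := ⟨_, rfl⟩
    have hn3 : n = k + n1 := by
      rw [hn, hn1, List.map_cons, List.sum_cons]
      ring
    clear hn
    subst hn3
    obtain ⟨S1, hS1det, hS1mult, hS1LUF⟩ := h k n1 t s m C ht hs hdet hmult (by omega) hn2
      (by omega)
    have hS1mult' : ∀ (p : ℕ) [Fact p.Prime] (μ : AlgebraicClosure (ZMod p)),
        mult (AlgebraicClosure (ZMod p)) S1 μ ≤ max (m - k) (t + K) := by
      intro p _ μ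
      refine (hS1mult p μ).trans (max_le_max le_rfl ?_)
      omega
    have hmax : max (m - k) (t + K) + 2 * K + 2 ≤ n1 := by
      rcases le_total (m - k) (t + K) with hle | hle
      · rw [max_eq_right hle]
        omega
      · rw [max_eq_left hle]
        omega
    obtain ⟨S, hSdet, hSmult, hSLUF⟩ := ih (fun y hy => hL y (by simp [hy])) hnd.2 n1
      (max (m - k) (t + K)) S1 hn1 (by omega) hmax hS1det hS1mult'
    refine ⟨S, hSdet, ?_, ?_⟩
    · intro p _ μ
      refine (hSmult p μ).trans (max_le ?_ (le_max_right _ _))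
      rw [List.map_cons, List.sum_cons]
      rcases le_total (m - k) (t + K) with hle | hle
      · rw [max_eq_right hle]
        exact le_max_of_le_right (Nat.sub_le _ _)
      · rw [max_eq_left hle]
        refine le_max_of_le_left ?_
        simp only
        omega
    · intro F₀ hF₀ hLUF
      have h1 := hSLUF F₀ (fun y hy => hF₀ y (by simp [hy])) hLUF
      obtain ⟨hG1, hG2, hG3⟩ := Iter.rep_pow hr l k hl hdvd
      obtain ⟨X, hX⟩ := Iter.unit_compan hc k _ hk0 hG1 hG2 hG3
      have hcop : IsCoprime (rep l ^ (k / (l - 1)))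
          (F₀ * (L.map fun x => rep x.1 ^ (x.2 / (x.1 - 1))).prod) := by
        refine IsCoprime.pow_left (IsCoprime.mul_right (hF₀ (l, k) (by simp)) ?_)
        refine Iter.coprime_list _ _ _ (fun y hy => IsCoprime.pow_right ?_)
        have hy2 := hL y (by simp [hy])
        refine hr.1 l y.1 ((Nat.coprime_primes hl hy2.1).2 ?_)
        rintro rfl
        exact hnd.1 (List.mem_map.2 ⟨y, hy, rfl⟩)
      have h2 := hS1LUF _ _ X hX hcop h1
      have h3 : F₀ * (((l, k) :: L).map fun x => rep x.1 ^ (x.2 / (x.1 - 1))).prod =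
          rep l ^ (k / (l - 1)) * (F₀ * (L.map fun x => rep x.1 ^ (x.2 / (x.1 - 1))).prod) := by
        rw [List.map_cons, List.prod_cons]
        ring
      rw [h3]
      exact h2

end Pool.Agent.IntComm
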