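import Pool.Agent.Work.MP_584b0c_al.Api2

set_option autoImplicit false

/-! H1: unimodular basis of the kernel of an integer matrix. -/

namespace Pool.Agent.IntComm

open Matrix Polynomial

namespace KerBasis

section

variable {m n : Type} [Fintype m] [DecidableEq m] [Fintype n] [DecidableEq n]

/-- The kernel. -/
def NN (M : Matrix m n ℤ) : Submodule ℤ (n → ℤ) := LinearMap.ker (Matrix.toLin' M)

theorem mem_NN (M : Matrix m n ℤ) (y : n → ℤ) : y ∈ NN M ↔ M.mulVec y = 0 := by
  unfold NN
  rw [LinearMap.mem_ker, Matrix.toLin'_apply]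

theorem rank (M : Matrix m n ℤ) :
    Fintype.card n ≤ Module.finrank ℤ (NN M) + Fintype.card m := by
  have h1 := Submodule.finrank_quotient_add_finrank (LinearMap.ker (Matrix.toLin' M))
  rw [(Matrix.toLin' M).quotKerEquivRange.finrank_eq] at h1
  have h2 : Module.finrank ℤ (LinearMap.range (Matrix.toLin' M)) ≤ Fintype.card m := by
    have := Submodule.finrank_le (LinearMap.range (Matrix.toLin' M))
    rwa [Module.finrank_fintype_fun_eq_card] at this
  rw [Module.finrank_fintype_fun_eq_card] at h1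
  have h3 : Module.finrank ℤ (NN M) = Module.finrank ℤ (LinearMap.ker (Matrix.toLin' M)) := rfl
  omega

/-- The matrix of a basis. -/
noncomputable def GG (M : Matrix m n ℤ) {ν : ℕ} (b : Module.Basis (Fin ν) ℤ (NN M)) : Matrix n (Fin ν) ℤ :=
  Matrix.of fun i j => (b j : n → ℤ) i

theorem GG_mulVec (M : Matrix m n ℤ) {ν : ℕ} (b : Module.Basis (Fin ν) ℤ (NN M))
    (c : Fin ν → ℤ) : (GG M b).mulVec c = ((∑ j, c j • b j : NN M) : n → ℤ) := by
  ext i
  show ∑ j, (b j : n → ℤ) i * c j = _
  rw [Submodule.coe_sum, Finset.sum_apply]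
  refine Finset.sum_congr rfl fun j _ => ?_
  rw [Submodule.coe_smul, Pi.smul_apply, smul_eq_mul, mul_comm]

end

end KerBasis

open KerBasis in
theorem claimKerBasis : ClaimKerBasis := by
  intro m n _ _ _ _ M
  have b : Module.Basis (Fin (Module.finrank ℤ (NN M))) ℤ (NN M) := Module.finBasis ℤ (NN M)
  refine ⟨Module.finrank ℤ (NN M), GG M b, rank M, ?_, ?_⟩
  · intro p hp x hx
    have : Fact p.Prime := ⟨hp⟩
    choose x' hx' using fun i => ZMod.intCast_surjective (x i)
    have h1 : ∀ i, (p : ℤ) ∣ (GG M b).mulVec x' i := by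
      intro i
      rw [← ZMod.intCast_zmod_eq_zero_iff_dvd]
      have h2 := congrFun hx i
      have h3 : (((GG M b).mulVec x' i : ℤ) : ZMod p) =
          ((GG M b).map (Int.cast : ℤ → ZMod p)).mulVec x i := by
        show ((∑ j, GG M b i j * x' j : ℤ) : ZMod p) = ∑ j, ((GG M b i j : ℤ) : ZMod p) * x j
        push_cast
        exact Finset.sum_congr rfl fun j _ => by rw [hx']
      rw [h3, h2]
      rfl
    choose y hy using h1
    have hy' : (GG M b).mulVec x' = (p : ℤ) • y := by
      ext i
      rw [hy i, Pi.smul_apply, smul_eq_mul]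
    have hp0 : (p : ℤ) ≠ 0 := by exact_mod_cast hp.ne_zero
    have h4 : (GG M b).mulVec x' ∈ NN M := by
      rw [GG_mulVec]
      exact Submodule.coe_mem _
    have h5 : y ∈ NN M := by
      rw [mem_NN] at h4 ⊢
      rw [hy', Matrix.mulVec_smul] at h4
      exact (smul_eq_zero.mp h4).resolve_left hp0
    have h6 : (⟨y, h5⟩ : NN M) = ∑ j, b.repr ⟨y, h5⟩ j • b j := (b.sum_repr _).symm
    have h7 : (∑ j, x' j • b j : NN M) = ∑ j, ((p : ℤ) * b.repr ⟨y, h5⟩ j) • b j := by
      apply Subtype.ext
      rw [← GG_mulVec, hy']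
      have h8 : (∑ j, ((p : ℤ) * b.repr ⟨y, h5⟩ j) • b j : NN M) = (p : ℤ) • (⟨y, h5⟩ : NN M) := by
        conv_rhs => rw [h6, Finset.smul_sum]
        exact Finset.sum_congr rfl fun j _ => by rw [mul_smul]
      rw [h8]
      rfl
    have h9 : x' = fun j => (p : ℤ) * b.repr ⟨y, h5⟩ j := by
      have hli := b.linearIndependent
      rw [Fintype.linearIndependent_iff] at hli
      funext j
      have := hli (fun j => x' j - (p : ℤ) * b.repr ⟨y, h5⟩ j) (by
        simp only [sub_smul]
        rw [Finset.sum_sub_distrib, h7, sub_self]) j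
      linarith
    funext j
    rw [← hx' j, h9]
    simp
  · ext i j
    have h := (mem_NN M (b j : n → ℤ)).mp (b j).2
    exact congrFun h i

end Pool.Agent.IntComm
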