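import Pool.Agent.Work.MP_584b0c_al.Api2
import Pool.Agent.Work.MP_584b0c_al.Complete

set_option autoImplicit false

/-! G5. Existence in characteristic zero, in a given residue class. -/

namespace Pool.Agent.IntComm

open Matrix Polynomial

namespace Loc0

/-- A large eigenvalue is a root of the characteristic polynomial. -/
theorem isRoot {n K : Type} [Fintype n] [DecidableEq n] [Field K] (C : Matrix n n ℤ) (μ : K)
    (h : 1 ≤ mult K C μ) : (C.map (Int.castRingHom K)).charpoly.IsRoot μ := by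
  have h1 : ∃ v, v ≠ 0 ∧ (C.map (Int.castRingHom K) - Matrix.scalar n μ).mulVec v = 0 := by
    unfold mult at h
    have : Nontrivial (LinearMap.ker (Matrix.toLin'
        (C.map (Int.castRingHom K) - Matrix.scalar n μ))) :=
      Module.nontrivial_of_finrank_pos (R := K) (by omega)
    obtain ⟨v, hv⟩ := exists_ne (0 : LinearMap.ker (Matrix.toLin'
        (C.map (Int.castRingHom K) - Matrix.scalar n μ)))
    refine ⟨v, fun h0 => hv (Subtype.ext h0), ?_⟩
    have := v.2
    rwa [LinearMap.mem_ker, Matrix.toLin'_apply] at this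
  rw [Matrix.exists_mulVec_eq_zero_iff] at h1
  rw [Polynomial.IsRoot, Matrix.eval_charpoly, ← neg_sub, Matrix.det_neg, h1, mul_zero]

/-- The integer point on the moment curve. -/
def pt {ν : Type} (idx : ν → ℕ) (x₀ : ν → ℤ) (N : ℕ) (τ : ℤ) : ν → ℤ :=
  fun i => x₀ i + N * τ ^ (idx i + 1)

/-- A proper affine condition excludes only finitely many points of the moment curve. -/
theorem finite_bad {n ν K : Type} [Fintype n] [DecidableEq n] [Fintype ν] [DecidableEq ν] [Field K]
    [CharZero K] (G : Matrix n ν K) (hG : Function.Injective G.mulVec)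
    (R : Submodule K (n → K)) (hR : Module.finrank K R < Fintype.card ν) (b : n → K)
    (idx : ν → ℕ) (hidx : Function.Injective idx) (x₀ : ν → ℤ) (N : ℕ) (hN : 0 < N) :
    {τ : ℤ | b + G.mulVec (fun i => ((pt idx x₀ N τ i : ℤ) : K)) ∈ R}.Finite := by
  classical
  set E : Submodule K (ν → K) := R.comap (Matrix.toLin' G) with hE
  have hE1 : Module.finrank K E ≤ Module.finrank K R := by
    have hm : ∀ x : E, Matrix.toLin' G x ∈ R := fun x => x.2
    let f : E →ₗ[K] R := LinearMap.codRestrict R (Matrix.toLin' G ∘ₗ E.subtype) hm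
    apply LinearMap.finrank_le_finrank_of_injective (f := f)
    intro x y hxy
    have := congrArg Subtype.val hxy
    exact Subtype.ext (hG this)
  have hE2 : E < ⊤ := by
    rw [lt_top_iff_ne_top]
    intro h0
    rw [h0, finrank_top, Module.finrank_fintype_fun_eq_card] at hE1
    omega
  obtain ⟨φ, hφ0, hφ⟩ := E.exists_le_ker_of_lt_top hE2
  -- the polynomial
  set P : K[X] := ∑ i : ν, Polynomial.C ((N : K) * φ (Pi.single i 1)) * X ^ (idx i + 1) with hP
  have hPe : ∀ τ : ℤ, P.eval (τ : K) =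
      φ (fun i => ((pt idx x₀ N τ i : ℤ) : K) - ((x₀ i : ℤ) : K)) := by
    intro τ
    have h1 : (fun i => ((pt idx x₀ N τ i : ℤ) : K) - ((x₀ i : ℤ) : K)) =
        ∑ i : ν, ((N : K) * (τ : K) ^ (idx i + 1)) • (Pi.single i (1 : K) : ν → K) := by
      ext j
      rw [Finset.sum_apply]
      simp [pt, Pi.single_apply]
    rw [h1, map_sum, hP, Polynomial.eval_finsetSum]
    refine Finset.sum_congr rfl fun i _ => ?_
    rw [map_smul, smul_eq_mul]
    simp
    ring
  have hφi : ∃ i, φ (Pi.single i 1) ≠ 0 := by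
    by_contra h0
    push Not at h0
    apply hφ0
    apply LinearMap.pi_ext'
    intro i
    ext
    simpa using h0 i
  obtain ⟨i₀, hi₀⟩ := hφi
  have hcoef : P.coeff (idx i₀ + 1) ≠ 0 := by
    rw [hP, Polynomial.finsetSum_coeff, Finset.sum_eq_single i₀]
    · rw [Polynomial.coeff_C_mul, Polynomial.coeff_X_pow, if_pos rfl, mul_one]
      exact mul_ne_zero (by exact_mod_cast hN.ne') hi₀
    · intro j _ hj
      rw [Polynomial.coeff_C_mul, Polynomial.coeff_X_pow, if_neg, mul_zero]
      intro h0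
      exact hj (hidx (by omega))
    · intro h0; exact absurd (Finset.mem_univ _) h0
  by_cases hne : {τ : ℤ | b + G.mulVec (fun i => ((pt idx x₀ N τ i : ℤ) : K)) ∈ R}.Nonempty
  swap
  · rw [Set.not_nonempty_iff_eq_empty] at hne
    rw [hne]
    exact Set.finite_empty
  obtain ⟨τ₁, hτ₁⟩ := hne
  set Q : K[X] := P - Polynomial.C (P.eval (τ₁ : K)) with hQ
  have hQ0 : Q ≠ 0 := by
    intro h0
    have := congrArg (fun q : K[X] => q.coeff (idx i₀ + 1)) h0
    simp only [hQ, Polynomial.coeff_sub, Polynomial.coeff_C_succ, sub_zero,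
      Polynomial.coeff_zero] at this
    exact hcoef this
  refine Set.Finite.subset ((Q.roots.toFinset.finite_toSet).preimage
    (f := fun τ : ℤ => (τ : K)) (Int.cast_injective.injOn)) ?_
  intro τ hτ
  rw [Set.mem_preimage, Finset.mem_coe, Multiset.mem_toFinset, Polynomial.mem_roots hQ0,
    Polynomial.IsRoot, hQ, Polynomial.eval_sub, Polynomial.eval_C, sub_eq_zero, hPe, hPe]
  have hmem : (fun i => ((pt idx x₀ N τ i : ℤ) : K)) - (fun i => ((pt idx x₀ N τ₁ i : ℤ) : K)) ∈
      E := by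
    rw [hE, Submodule.mem_comap, Matrix.toLin'_apply, Matrix.mulVec_sub]
    have := R.sub_mem hτ hτ₁
    rwa [add_sub_add_left_eq_sub] at this
  have h2 := hφ hmem
  rw [LinearMap.mem_ker, map_sub, sub_eq_zero] at h2
  have h3 : ∀ τ : ℤ, (fun i => ((pt idx x₀ N τ i : ℤ) : K) - ((x₀ i : ℤ) : K)) =
      (fun i => ((pt idx x₀ N τ i : ℤ) : K)) - (fun i => ((x₀ i : ℤ) : K)) := fun τ => rfl
  rw [h3, h3, map_sub, map_sub, h2]

theorem main {n ρ ν Ω : Type} [Fintype n] [DecidableEq n] [Fintype ρ] [DecidableEq ρ]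
    [Fintype ν] [DecidableEq ν] [Field Ω] [CharZero Ω] (C : Matrix n n ℤ) (S : Matrix n ρ ℤ)
    (G : Matrix n ν ℤ) (b : n → ℤ) (t : ℕ) (ht : 1 ≤ t)
    (hcard : Fintype.card n + Fintype.card ρ + 1 ≤ Fintype.card ν + t) (hG : PInd G)
    (hS : ∀ μ : Ω, t ≤ mult Ω C μ → CInd Ω C S μ) (N : ℕ) (x₀ : ν → ℤ) (hN : 0 < N) :
    ∃ x : ν → ℤ, (∀ i, (N : ℤ) ∣ x i - x₀ i) ∧
      ∀ μ : Ω, t ≤ mult Ω C μ → CInd Ω C (fromCols S (colM (b + G.mulVec x))) μ := by
  classical
  -- an integer left inverse of G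
  have hGcard : Fintype.card ν ≤ Fintype.card n := by
    have := LinearMap.finrank_le_finrank_of_injective (Complete.inj G hG)
    simpa using this
  obtain ⟨δ, hδ⟩ := Nat.exists_eq_add_of_le hGcard
  obtain ⟨B, K, L, hKG, -, -, -, -⟩ := claimComplete n ν G δ hG hδ
  have hGinj : Function.Injective (G.map (Int.castRingHom Ω)).mulVec := by
    intro x y hxy
    have h1 : (K.map (Int.castRingHom Ω)) * (G.map (Int.castRingHom Ω)) = 1 := by
      rw [← Matrix.map_mul, hKG, Matrix.map_one _ (map_zero _) (map_one _)]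
    have h2 := congrArg (fun v => (K.map (Int.castRingHom Ω)).mulVec v) hxy
    simpa only [Matrix.mulVec_mulVec, h1, Matrix.one_mulVec] using h2
  let idx : ν → ℕ := fun i => (Fintype.equivFin ν i : ℕ)
  have hidx : Function.Injective idx := fun i j hij =>
    (Fintype.equivFin ν).injective (Fin.ext hij)
  -- the bad subspaces
  let R : Ω → Submodule Ω (n → Ω) := fun μ =>
    LinearMap.range (Matrix.toLin' (S.map (Int.castRingHom Ω))) ⊔
      LinearMap.range (Matrix.toLin' (C.map (Int.castRingHom Ω) - Matrix.scalar n μ))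
  have hR : ∀ μ : Ω, t ≤ mult Ω C μ → Module.finrank Ω (R μ) < Fintype.card ν := by
    intro μ hμ
    have h1 : Module.finrank Ω (R μ) ≤ _ := Submodule.finrank_add_le_finrank_add_finrank
      (LinearMap.range (Matrix.toLin' (S.map (Int.castRingHom Ω))))
      (LinearMap.range (Matrix.toLin' (C.map (Int.castRingHom Ω) - Matrix.scalar n μ)))
    have h2 := LinearMap.finrank_range_le (Matrix.toLin' (S.map (Int.castRingHom Ω)))
    have h3 := LinearMap.finrank_range_add_finrank_ker
      (Matrix.toLin' (C.map (Int.castRingHom Ω) - Matrix.scalar n μ))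
    rw [Module.finrank_fintype_fun_eq_card] at h2 h3
    unfold mult at hμ
    omega
  -- finitely many bad parameters
  set A := C.map (Int.castRingHom Ω) with hA
  have hfin : (⋃ μ ∈ {μ ∈ A.charpoly.roots.toFinset | t ≤ mult Ω C μ},
      {τ : ℤ | (fun i => ((b i : ℤ) : Ω)) + (G.map (Int.castRingHom Ω)).mulVec
        (fun i => ((pt idx x₀ N τ i : ℤ) : Ω)) ∈ R μ}).Finite := by
    apply Set.Finite.biUnion (Finset.finite_toSet _)
    intro μ hμ
    rw [Finset.mem_coe, Finset.mem_filter] at hμ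
    exact finite_bad _ hGinj _ (hR μ hμ.2) _ idx hidx x₀ N hN
  obtain ⟨τ, hτ⟩ := hfin.infinite_compl.nonempty
  refine ⟨pt idx x₀ N τ, fun i => ⟨τ ^ (idx i + 1), by simp [pt]⟩, ?_⟩
  intro μ hμ a u hau
  have hroot : μ ∈ A.charpoly.roots := by
    rw [Polynomial.mem_roots (Matrix.charpoly_monic A).ne_zero]
    exact isRoot C μ (ht.trans hμ)
  have hbad : ¬ ((fun i => ((b i : ℤ) : Ω)) + (G.map (Int.castRingHom Ω)).mulVec
        (fun i => ((pt idx x₀ N τ i : ℤ) : Ω)) ∈ R μ) := by
    intro h0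
    apply hτ
    simp only [Set.mem_iUnion]
    exact ⟨μ, by simpa using ⟨by simpa using hroot, hμ⟩, h0⟩
  -- split the solution
  have hv : ∀ i, (((b + G.mulVec (pt idx x₀ N τ)) i : ℤ) : Ω) =
      ((fun i => ((b i : ℤ) : Ω)) + (G.map (Int.castRingHom Ω)).mulVec
        (fun i => ((pt idx x₀ N τ i : ℤ) : Ω))) i := by
    intro i
    simp [Matrix.mulVec, dotProduct]
  set v : n → Ω := (fun i => ((b i : ℤ) : Ω)) + (G.map (Int.castRingHom Ω)).mulVec
        (fun i => ((pt idx x₀ N τ i : ℤ) : Ω)) with hvdef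
  have hsplit : ((fromCols S (colM (b + G.mulVec (pt idx x₀ N τ)))).map
      (Int.castRingHom Ω)).mulVec a = (S.map (Int.castRingHom Ω)).mulVec (fun j => a (Sum.inl j)) +
        a (Sum.inr 0) • v := by
    ext i
    simp only [Matrix.mulVec, dotProduct, Fintype.sum_sum_type, Pi.add_apply, Pi.smul_apply,
      smul_eq_mul, Matrix.map_apply, fromCols_apply_inl, fromCols_apply_inr, Finset.univ_unique,
      Fin.default_eq_zero, Finset.sum_singleton]
    congr 1
    rw [mul_comm, ← hv i]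
    rfl
  rw [hsplit] at hau
  have ha0 : a (Sum.inr 0) = 0 := by
    by_contra hne
    apply hbad
    have h1 : v = (a (Sum.inr 0))⁻¹ • (A - Matrix.scalar n μ).mulVec u -
        (a (Sum.inr 0))⁻¹ • (S.map (Int.castRingHom Ω)).mulVec (fun j => a (Sum.inl j)) := by
      rw [← hau, smul_add, smul_smul, inv_mul_cancel₀ hne, one_smul, add_sub_cancel_left]
    rw [h1]
    refine Submodule.sub_mem _ (Submodule.smul_mem _ _ ?_) (Submodule.smul_mem _ _ ?_)
    · exact Submodule.mem_sup_right ⟨u, by rw [Matrix.toLin'_apply]⟩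
    · exact Submodule.mem_sup_left ⟨_, by rw [Matrix.toLin'_apply]⟩
  rw [ha0, zero_smul, add_zero] at hau
  have h2 := hS μ hμ _ u hau
  ext j
  rcases j with j | j
  · exact congrFun h2 j
  · rw [Subsingleton.elim j 0]
    exact ha0

end Loc0

theorem claimLoc0 (h : ClaimTr0) : ClaimLoc0 := by
  intro n ρ ν _ _ _ _ _ _ C S G b t ht hcard hG hS N x₀ hN
  obtain ⟨x, hx1, hx2⟩ := Loc0.main (Ω := AlgebraicClosure ℚ) C S G b t ht hcard hG
    (fun μ hμ => hS _ μ hμ) N x₀ hN
  exact ⟨x, hx1, h n (ρ ⊕ Fin 1) C _ t ht hx2⟩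

end Pool.Agent.IntComm
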