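import Pool.Agent.Work.MP_584b0c_al.Api2

set_option autoImplicit false

/-! MP_584b0c_al, item G4: local existence of a good vector. -/

namespace Pool.Agent.IntComm

open Matrix Polynomial

namespace LocP

section

variable {F Ω : Type} [Field F] [Field Ω] [Algebra F Ω] {n ν ρ : Type} [Fintype n] [DecidableEq n]
  [Fintype ν] [DecidableEq ν] [Fintype ρ] [DecidableEq ρ]

/-- independence over the small field gives a dimension bound over the large field -/
theorem dim_le {X : Type} [AddCommGroup X] [Module F X] [FiniteDimensional F X]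
    (ψ : X →ₗ[F] (n → F)) (hψ : Function.Injective ψ) (T : Submodule Ω (n → Ω))
    (h : ∀ x, (fun i => algebraMap F Ω (ψ x i)) ∈ T) :
    Module.finrank F X ≤ Module.finrank Ω T := by
  classical
  set d := Module.finrank F X with hd
  let b := Module.finBasis F X
  let e : (Fin d → F) →ₗ[F] (n → F) := ψ ∘ₗ b.equivFun.symm.toLinearMap
  have he : Function.Injective e := hψ.comp b.equivFun.symm.injective
  obtain ⟨l, hl⟩ := e.exists_leftInverse_of_injective (LinearMap.ker_eq_bot.2 he)
  have h1 : LinearMap.toMatrix' l * LinearMap.toMatrix' e = 1 := by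
    rw [← LinearMap.toMatrix'_comp, hl, LinearMap.toMatrix'_id]
  have h2 : (LinearMap.toMatrix' l).map (algebraMap F Ω) *
      (LinearMap.toMatrix' e).map (algebraMap F Ω) = 1 := by
    rw [← Matrix.map_mul, h1, Matrix.map_one _ (map_zero _) (map_one _)]
  have h3 : Function.Injective (Matrix.toLin' ((LinearMap.toMatrix' e).map (algebraMap F Ω))) := by
    intro x y hxy
    rw [Matrix.toLin'_apply, Matrix.toLin'_apply] at hxy
    have h4 := congrArg ((LinearMap.toMatrix' l).map (algebraMap F Ω)).mulVec hxy
    rw [Matrix.mulVec_mulVec, Matrix.mulVec_mulVec, h2, Matrix.one_mulVec, Matrix.one_mulVec] at h4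
    exact h4
  have h4 : ∀ x, Matrix.toLin' ((LinearMap.toMatrix' e).map (algebraMap F Ω)) x ∈ T := by
    intro x
    have e1 : Matrix.toLin' ((LinearMap.toMatrix' e).map (algebraMap F Ω)) x =
        ∑ j, x j • (fun i => algebraMap F Ω (ψ (b j) i)) := by
      ext i
      rw [Matrix.toLin'_apply, Finset.sum_apply]
      simp only [Matrix.mulVec, dotProduct, Matrix.map_apply, Pi.smul_apply, smul_eq_mul]
      refine Finset.sum_congr rfl fun j _ => ?_
      rw [mul_comm, LinearMap.toMatrix'_apply]
      congr 2
      show ψ (b.equivFun.symm (Pi.single j 1)) i = ψ (b j) i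
      have : b.equivFun.symm (Pi.single j 1) = b j := by
        rw [Module.Basis.equivFun_symm_apply, Finset.sum_eq_single j]
        · simp
        · intro k _ hk
          rw [Pi.single_eq_of_ne hk, zero_smul]
        · intro hj
          exact absurd (Finset.mem_univ j) hj
      rw [this]
    rw [e1]
    exact Submodule.sum_mem _ fun j _ => T.smul_mem _ (h _)
  have h5 := LinearMap.finrank_le_finrank_of_injective
    (f := (Matrix.toLin' ((LinearMap.toMatrix' e).map (algebraMap F Ω))).codRestrict T h4)
    (by
      intro x y hxy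
      exact h3 (congrArg Subtype.val hxy))
  rw [Module.finrank_fintype_fun_eq_card, Fintype.card_fin] at h5
  exact h5

/-- number of bad parameters -/
theorem card_bad [Fintype F] [DecidableEq F] (G : Matrix n ν F) (hG : ∀ x, G.mulVec x = 0 → x = 0)
    (b : n → F) (T : Submodule Ω (n → Ω)) (κ : ℕ) (hT : Module.finrank Ω T ≤ κ) :
    Nat.card {x : ν → F // (fun i => algebraMap F Ω ((b + G.mulVec x) i)) ∈ T} ≤
      Fintype.card F ^ κ := by
  classical
  by_cases hne : ∃ x : ν → F, (fun i => algebraMap F Ω ((b + G.mulVec x) i)) ∈ T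
  · obtain ⟨x0, hx0⟩ := hne
    let X : Submodule F (ν → F) :=
      { carrier := {x | (fun i => algebraMap F Ω (G.mulVec x i)) ∈ T}
        add_mem' := by
          intro x y hx hy
          have := T.add_mem hx hy
          have e : (fun i => algebraMap F Ω (G.mulVec (x + y) i)) =
              (fun i => algebraMap F Ω (G.mulVec x i)) +
                (fun i => algebraMap F Ω (G.mulVec y i)) := by
            ext i
            rw [Matrix.mulVec_add]
            simp
          show (fun i => algebraMap F Ω (G.mulVec (x + y) i)) ∈ T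
          rw [e]
          exact this
        zero_mem' := by
          show (fun i => algebraMap F Ω (G.mulVec 0 i)) ∈ T
          have e : (fun i => algebraMap F Ω (G.mulVec 0 i)) = 0 := by
            ext i
            rw [Matrix.mulVec_zero]
            simp
          rw [e]
          exact T.zero_mem
        smul_mem' := by
          intro c x hx
          have := T.smul_mem (algebraMap F Ω c) hx
          have e : (fun i => algebraMap F Ω (G.mulVec (c • x) i)) =
              algebraMap F Ω c • (fun i => algebraMap F Ω (G.mulVec x i)) := by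
            ext i
            rw [Matrix.mulVec_smul]
            simp
          show (fun i => algebraMap F Ω (G.mulVec (c • x) i)) ∈ T
          rw [e]
          exact this }
    have hX : Module.finrank F X ≤ κ := by
      refine le_trans (dim_le ((Matrix.toLin' G).comp X.subtype) ?_ T ?_) hT
      · intro x y hxy
        have h1 : G.mulVec x.1 = G.mulVec y.1 := by
          have := hxy
          simp only [LinearMap.comp_apply, Matrix.toLin'_apply, Submodule.subtype_apply] at this
          exact this
        have h2 : G.mulVec (x.1 - y.1) = 0 := by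
          rw [Matrix.mulVec_sub, h1, sub_self]
        exact Subtype.ext (sub_eq_zero.1 (hG _ h2))
      · intro x
        exact x.2
    let φ : {x : ν → F // (fun i => algebraMap F Ω ((b + G.mulVec x) i)) ∈ T} → X :=
      fun x => ⟨x.1 - x0, by
        show (fun i => algebraMap F Ω (G.mulVec (x.1 - x0) i)) ∈ T
        have := T.sub_mem x.2 hx0
        have e : (fun i => algebraMap F Ω (G.mulVec (x.1 - x0) i)) =
            (fun i => algebraMap F Ω ((b + G.mulVec x.1) i)) -
              (fun i => algebraMap F Ω ((b + G.mulVec x0) i)) := by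
          ext i
          rw [Matrix.mulVec_sub]
          simp
        rw [e]
        exact this⟩
    have hφ : Function.Injective φ := by
      intro x y hxy
      have h2 : x.1 - x0 = y.1 - x0 := congrArg Subtype.val hxy
      exact Subtype.ext (sub_left_injective h2)
    have h4 := Nat.card_le_card_of_injective φ hφ
    refine h4.trans ?_
    rw [Module.natCard_eq_pow_finrank (K := F), Nat.card_eq_fintype_card]
    exact Nat.pow_le_pow_right Fintype.card_pos hX
  · have : IsEmpty {x : ν → F // (fun i => algebraMap F Ω ((b + G.mulVec x) i)) ∈ T} :=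
      ⟨fun x => hne ⟨x.1, x.2⟩⟩
    rw [Nat.card_of_isEmpty]
    exact Nat.zero_le _

/-- the space generated by the columns of `S` and the image of `M` -/
noncomputable def sp (M : Matrix n n Ω) (S : Matrix n ρ Ω) : Submodule Ω (n → Ω) :=
  LinearMap.range (Matrix.toLin' M) ⊔ LinearMap.range (Matrix.toLin' S)

theorem sp_finrank (M : Matrix n n Ω) (S : Matrix n ρ Ω) (t : ℕ)
    (ht : t ≤ Module.finrank Ω (LinearMap.ker (Matrix.toLin' M))) :
    Module.finrank Ω (sp M S) ≤ (Fintype.card n - t) + Fintype.card ρ := by
  have h1 := Submodule.finrank_add_le_finrank_add_finrank (LinearMap.range (Matrix.toLin' M))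
    (LinearMap.range (Matrix.toLin' S))
  have h2 := LinearMap.finrank_range_add_finrank_ker (Matrix.toLin' M)
  have h3 := LinearMap.finrank_range_le (Matrix.toLin' S)
  rw [Module.finrank_fintype_fun_eq_card] at h2 h3
  unfold sp
  omega

theorem mem_sp (M : Matrix n n Ω) (S : Matrix n ρ Ω) (u : n → Ω) (a : ρ → Ω) :
    M.mulVec u + S.mulVec a ∈ sp M S := by
  refine Submodule.add_mem_sup ⟨u, ?_⟩ ⟨a, ?_⟩
  · rw [Matrix.toLin'_apply]
  · rw [Matrix.toLin'_apply]

/-- eigenvalues are roots -/
theorem root_of_ker [DecidableEq Ω] (A : Matrix n n Ω) (μ : Ω)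
    (h : 1 ≤ Module.finrank Ω (LinearMap.ker (Matrix.toLin' (A - Matrix.scalar n μ)))) :
    μ ∈ A.charpoly.roots.toFinset := by
  rw [Multiset.mem_toFinset, Polynomial.mem_roots A.charpoly_monic.ne_zero, Polynomial.IsRoot.def,
    Matrix.eval_charpoly]
  have h1 : LinearMap.ker (Matrix.toLin' (A - Matrix.scalar n μ)) ≠ ⊥ := by
    intro h0
    rw [h0, finrank_bot] at h
    omega
  obtain ⟨v, hv, hv0⟩ := (Submodule.ne_bot_iff _).1 h1
  rw [LinearMap.mem_ker, Matrix.toLin'_apply] at hv
  have h2 : (Matrix.scalar n μ - A).mulVec v = 0 := by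
    have : Matrix.scalar n μ - A = -(A - Matrix.scalar n μ) := by abel
    rw [this, Matrix.neg_mulVec, hv, neg_zero]
  exact Matrix.exists_mulVec_eq_zero_iff.1 ⟨v, hv0, h2⟩

end

end LocP

open LocP in
theorem claimLocP : ClaimLocP := by
  intro n ρ ν _ _ _ _ _ _ C S G b t s ht hs hcard p _ hG hS
  classical
  have hp : p.Prime := Fact.out
  set Ω := AlgebraicClosure (ZMod p) with hΩ
  set f := Int.castRingHom (ZMod p) with hf
  set g := Int.castRingHom Ω with hg
  have hfg : ∀ z : ℤ, algebraMap (ZMod p) Ω (f z) = g z := fun z => by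
    rw [hf, hg]
    simp
  set A := C.map g with hA
  set T : Ω → Submodule Ω (n → Ω) := fun μ => sp (A - Matrix.scalar n μ) (S.map g) with hT
  have hgood : ∃ x : ν → ZMod p, ∀ μ ∈ A.charpoly.roots.toFinset,
      t ≤ mult Ω C μ → (fun i => algebraMap (ZMod p) Ω ((f ∘ b + (G.map f).mulVec x) i)) ∉ T μ := by
    by_contra hall
    push Not at hall
    set E := A.charpoly.roots.toFinset.filter (fun μ => t ≤ mult Ω C μ) with hE
    have hsub : (Finset.univ : Finset (ν → ZMod p)) ⊆
        E.biUnion (fun μ => Finset.univ.filter fun x : ν → ZMod p =>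
          (fun i => algebraMap (ZMod p) Ω ((f ∘ b + (G.map f).mulVec x) i)) ∈ T μ) := by
      intro x _
      obtain ⟨μ, h1, h2, h3⟩ := hall x
      rw [Finset.mem_biUnion]
      exact ⟨μ, Finset.mem_filter.2 ⟨h1, h2⟩, Finset.mem_filter.2 ⟨Finset.mem_univ _, h3⟩⟩
    have h1 := (Finset.card_le_card hsub).trans Finset.card_biUnion_le
    have hnt : ∀ μ, t ≤ mult Ω C μ → t ≤ Fintype.card n := by
      intro μ h
      refine h.trans ?_
      have := Submodule.finrank_le (LinearMap.ker (Matrix.toLin' (C.map (Int.castRingHom Ω) -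
        Matrix.scalar n μ)))
      rw [Module.finrank_fintype_fun_eq_card] at this
      exact this
    have h2 : ∀ μ ∈ E, (Finset.univ.filter fun x : ν → ZMod p =>
          (fun i => algebraMap (ZMod p) Ω ((f ∘ b + (G.map f).mulVec x) i)) ∈ T μ).card ≤
        p ^ ((Fintype.card n - t) + Fintype.card ρ) := by
      intro μ hμ
      rw [Finset.mem_filter] at hμ
      have h3 := card_bad (Ω := Ω) (G.map f) hG (f ∘ b) (T μ) _ (sp_finrank _ _ t hμ.2)
      rw [ZMod.card] at h3
      rw [Nat.card_eq_fintype_card, Fintype.card_subtype] at h3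
      exact h3
    have h3 := h1.trans (Finset.sum_le_card_nsmul _ _ _ h2)
    have h4 : E.card ≤ Fintype.card n := by
      refine (Finset.card_filter_le _ _).trans ((Multiset.toFinset_card_le _).trans ?_)
      refine (Polynomial.card_roots' _).trans ?_
      rw [Matrix.charpoly_natDegree_eq_dim]
    rw [Finset.card_univ, smul_eq_mul] at h3
    simp only [Fintype.card_fun, ZMod.card] at h3
    by_cases hEe : E = ∅
    · rw [hEe, Finset.card_empty, Nat.zero_mul] at h3
      have := pow_pos hp.pos (Fintype.card ν)
      omega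
    · obtain ⟨μ, hμ⟩ := Finset.nonempty_iff_ne_empty.2 hEe
      have hnt' := hnt μ (Finset.mem_filter.1 hμ).2
      have hp0 : 0 < p ^ ((Fintype.card n - t) + Fintype.card ρ) := pow_pos hp.pos _
      have h5 : p ^ Fintype.card ν < 2 ^ s * p ^ ((Fintype.card n - t) + Fintype.card ρ) :=
        lt_of_le_of_lt h3 (Nat.mul_lt_mul_of_pos_right (lt_of_le_of_lt h4 hs) hp0)
      have h6 : 2 ^ s ≤ p ^ s := Nat.pow_le_pow_left hp.two_le s
      have h7 : p ^ Fintype.card ν < p ^ s * p ^ ((Fintype.card n - t) + Fintype.card ρ) :=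
        lt_of_lt_of_le h5 (Nat.mul_le_mul_right _ h6)
      rw [← pow_add] at h7
      exact absurd (Nat.pow_le_pow_right hp.pos (by omega)) (not_le.2 h7)
  obtain ⟨x, hx⟩ := hgood
  have hlift : ∃ x' : ν → ℤ, f ∘ x' = x := by
    have h2 : ∀ i, ∃ z : ℤ, (z : ZMod p) = x i := fun i => ZMod.intCast_surjective _
    choose x' hx' using h2
    exact ⟨x', funext hx'⟩
  obtain ⟨x', hx'⟩ := hlift
  refine ⟨x', ?_⟩
  have h6 : f ∘ (b + G.mulVec x') = (f ∘ b) + (G.map f).mulVec x := by
    ext i
    simp only [Function.comp, Pi.add_apply, map_add]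
    rw [RingHom.map_mulVec, ← hx']
  intro μ hμ a u hau
  have hroot : μ ∈ A.charpoly.roots.toFinset := root_of_ker A μ (le_trans ht hμ)
  have hnot := hx μ hroot hμ
  rw [← h6] at hnot
  have e1 : (fun i => algebraMap (ZMod p) Ω ((f ∘ (b + G.mulVec x')) i)) =
      fun i => g ((b + G.mulVec x') i) := by
    ext i
    exact hfg _
  rw [e1] at hnot
  set v : n → Ω := fun i => g ((b + G.mulVec x') i) with hv
  have e2 : ((fromCols S (colM (b + G.mulVec x'))).map (Int.castRingHom Ω)).mulVec a =
      (S.map g).mulVec (a ∘ Sum.inl) + a (Sum.inr 0) • v := by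
    ext i
    simp only [Matrix.mulVec, dotProduct, Fintype.sum_sum_type, Pi.add_apply, Pi.smul_apply,
      smul_eq_mul, Matrix.map_apply, Function.comp_apply, Matrix.fromCols_apply_inl,
      Matrix.fromCols_apply_inr]
    congr 1
    rw [Fin.sum_univ_one, mul_comm]
    rfl
  rw [e2] at hau
  have ha0 : a (Sum.inr 0) = 0 := by
    by_contra hne
    apply hnot
    have e3 : v = (A - Matrix.scalar n μ).mulVec ((a (Sum.inr 0))⁻¹ • u) +
        (S.map g).mulVec (-((a (Sum.inr 0))⁻¹ • (a ∘ Sum.inl))) := by
      rw [Matrix.mulVec_smul, Matrix.mulVec_neg, Matrix.mulVec_smul]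
      have e4 : (A - Matrix.scalar n μ).mulVec u =
          (S.map g).mulVec (a ∘ Sum.inl) + a (Sum.inr 0) • v := hau.symm
      rw [e4, smul_add, smul_smul, inv_mul_cancel₀ hne, one_smul]
      abel
    rw [e3]
    exact mem_sp _ _ _ _
  rw [ha0, zero_smul, add_zero] at hau
  have hal : a ∘ Sum.inl = 0 := hS μ hμ _ u hau
  ext j
  rcases j with j | j
  · exact congrFun hal j
  · have : j = 0 := Subsingleton.elim _ _
    rw [this, ha0]
    rfl

end Pool.Agent.IntComm
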