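import Pool.Agent.Work.MP_584b0c_al.Api2

set_option autoImplicit false

/-! H5: change of the eigenspace dimensions under a perturbation of small rank. -/

namespace Pool.Agent.IntComm

open Matrix Polynomial

namespace MultBound

section

variable {K : Type} [Field K] {E F G : Type} [AddCommGroup E] [Module K E] [AddCommGroup F]
  [Module K F] [AddCommGroup G] [Module K G] [FiniteDimensional K E]

/-- Rank-nullity for the restriction of `g` to the kernel of `f`. -/
theorem rank_nullity (f : E →ₗ[K] F) (g : E →ₗ[K] G) :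
    Module.finrank K (LinearMap.range (g ∘ₗ (LinearMap.ker f).subtype)) +
      Module.finrank K (LinearMap.ker f ⊓ LinearMap.ker g : Submodule K E) =
      Module.finrank K (LinearMap.ker f) := by
  have h := LinearMap.finrank_range_add_finrank_ker (g ∘ₗ (LinearMap.ker f).subtype)
  have h2 : Module.finrank K (LinearMap.ker f ⊓ LinearMap.ker g : Submodule K E) =
      Module.finrank K (LinearMap.ker (g ∘ₗ (LinearMap.ker f).subtype)) := by
    have h3 : (LinearMap.ker f ⊓ LinearMap.ker g : Submodule K E) =
        Submodule.map (LinearMap.ker f).subtype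
          (LinearMap.ker (g ∘ₗ (LinearMap.ker f).subtype)) := by
      ext x
      rw [Submodule.mem_inf, Submodule.mem_map]
      constructor
      · rintro ⟨h4, h5⟩
        exact ⟨⟨x, h4⟩, h5, rfl⟩
      · rintro ⟨y, hy, rfl⟩
        exact ⟨y.2, hy⟩
    rw [h3, Submodule.finrank_map_subtype_eq]
  rw [h2]
  exact h

end

theorem repr {K ι : Type} [Field K] [Fintype ι] [DecidableEq ι] (f : (ι → K) →ₗ[K] K) :
    ∃ a : ι → K, ∀ y, f y = a ⬝ᵥ y := by
  refine ⟨fun i => f (fun j => if i = j then 1 else 0), fun y => ?_⟩
  rw [LinearMap.pi_apply_eq_sum_univ f y]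
  refine Finset.sum_congr rfl fun i _ => ?_
  rw [smul_eq_mul, mul_comm]

end MultBound

theorem claimMultBound : ClaimMultBound := by
  intro K _ n κ _ _ _ _ A V ψ μ
  set M := A - Matrix.scalar n μ with hM
  set M1 := A - Matrix.scalar n μ + μ • (V * ψ) with hM1
  have hmul : ∀ x : n → K, M1.mulVec x = M.mulVec x + μ • V.mulVec (ψ.mulVec x) := by
    intro x
    rw [hM1, Matrix.add_mulVec, Matrix.smul_mulVec, ← Matrix.mulVec_mulVec]
  refine ⟨?_, ?_⟩
  · have h1 := MultBound.rank_nullity (Matrix.toLin' M1) (Matrix.toLin' ψ)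
    have h2 : Module.finrank K (LinearMap.range
        (Matrix.toLin' ψ ∘ₗ (LinearMap.ker (Matrix.toLin' M1)).subtype)) ≤ Fintype.card κ := by
      have := Submodule.finrank_le (LinearMap.range
        (Matrix.toLin' ψ ∘ₗ (LinearMap.ker (Matrix.toLin' M1)).subtype))
      rwa [Module.finrank_fintype_fun_eq_card] at this
    have h3 : Module.finrank K (LinearMap.ker (Matrix.toLin' M1) ⊓
        LinearMap.ker (Matrix.toLin' ψ) : Submodule K (n → K)) ≤
        Module.finrank K (LinearMap.ker (Matrix.toLin' M)) := by
      apply Submodule.finrank_mono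
      rintro x ⟨h4, h5⟩
      replace h4 : Matrix.toLin' M1 x = 0 := h4
      replace h5 : Matrix.toLin' ψ x = 0 := h5
      rw [Matrix.toLin'_apply] at h4 h5
      rw [LinearMap.mem_ker, Matrix.toLin'_apply]
      rw [hmul, h5, Matrix.mulVec_zero, smul_zero, add_zero] at h4
      exact h4
    omega
  · intro hμ hV hψ
    have h1 := MultBound.rank_nullity (Matrix.toLin' M) (Matrix.toLin' ψ)
    have h2 : LinearMap.range
        (Matrix.toLin' ψ ∘ₗ (LinearMap.ker (Matrix.toLin' M)).subtype) = ⊤ := by
      by_contra hne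
      obtain ⟨f, hf, hf'⟩ := Submodule.exists_le_ker_of_lt_top _ (lt_top_iff_ne_top.mpr hne)
      obtain ⟨a, ha⟩ := MultBound.repr f
      have h3 : f ∘ₗ Matrix.toLin' ψ ∈ (LinearMap.ker (Matrix.toLin' M)).dualAnnihilator := by
        rw [Submodule.mem_dualAnnihilator]
        intro x hx
        have : Matrix.toLin' ψ x ∈ LinearMap.range
            (Matrix.toLin' ψ ∘ₗ (LinearMap.ker (Matrix.toLin' M)).subtype) := ⟨⟨x, hx⟩, rfl⟩
        exact hf' this
      rw [← LinearMap.range_dualMap_eq_dualAnnihilator_ker] at h3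
      obtain ⟨η, hη⟩ := h3
      obtain ⟨u, hu⟩ := MultBound.repr η
      have h4 : ∀ x : n → K, u ⬝ᵥ (M.mulVec x) = a ⬝ᵥ (ψ.mulVec x) := by
        intro x
        have := LinearMap.congr_fun hη x
        rw [LinearMap.dualMap_apply, LinearMap.comp_apply, Matrix.toLin'_apply,
          Matrix.toLin'_apply, hu, ha] at this
        exact this
      have h5 : Matrix.vecMul u M = Matrix.vecMul a ψ := by
        refine dotProduct_eq _ _ fun x => ?_
        rw [← Matrix.dotProduct_mulVec, ← Matrix.dotProduct_mulVec]
        exact h4 x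
      have h6 : a = 0 := by
        refine hψ a u ?_
        have h7 : Aᵀ - Matrix.scalar n μ = Mᵀ := by
          rw [hM, Matrix.transpose_sub]
          congr 1
          simp [Matrix.scalar_apply]
        rw [h7, Matrix.mulVec_transpose, Matrix.mulVec_transpose]
        exact h5.symm
      apply hf
      ext i
      simp [ha, h6]
    rw [h2, finrank_top, Module.finrank_fintype_fun_eq_card] at h1
    have h3 : Module.finrank K (LinearMap.ker (Matrix.toLin' M1)) ≤
        Module.finrank K (LinearMap.ker (Matrix.toLin' M) ⊓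
        LinearMap.ker (Matrix.toLin' ψ) : Submodule K (n → K)) := by
      apply Submodule.finrank_mono
      intro x hx
      rw [LinearMap.mem_ker, Matrix.toLin'_apply, hmul] at hx
      have h4 : V.mulVec (-(μ • ψ.mulVec x)) = M.mulVec x := by
        rw [Matrix.mulVec_neg, Matrix.mulVec_smul]
        exact (eq_neg_of_add_eq_zero_left hx).symm
      have h5 := hV _ _ h4
      have h6 : ψ.mulVec x = 0 := by
        rw [neg_eq_zero] at h5
        exact (smul_eq_zero.mp h5).resolve_left hμ
      refine ⟨?_, ?_⟩
      · show Matrix.toLin' M x = 0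
        rw [Matrix.toLin'_apply, ← h4, h5, Matrix.mulVec_zero]
      · show Matrix.toLin' ψ x = 0
        rw [Matrix.toLin'_apply, h6]
    omega

end Pool.Agent.IntComm
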