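import Pool.Agent.Work.MP_584b0c_al.Api2

set_option autoImplicit false

/-! H2. Transposed matrices have the same eigenspace dimensions. -/

namespace Pool.Agent.IntComm

open Matrix

namespace MultT

theorem ker_eq {K n : Type} [Field K] [Fintype n] [DecidableEq n] (M : Matrix n n K) :
    M.rank + Module.finrank K (LinearMap.ker (Matrix.toLin' M)) = Fintype.card n := by
  have h := LinearMap.finrank_range_add_finrank_ker (Matrix.toLin' M)
  rw [Module.finrank_fintype_fun_eq_card] at h
  exact h

end MultT

theorem claimMultT : ClaimMultT := by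
  intro n _ _ K _ C μ
  unfold mult
  have h1 : (Cᵀ.map (Int.castRingHom K) - Matrix.scalar n μ) =
      (C.map (Int.castRingHom K) - Matrix.scalar n μ)ᵀ := by
    ext i j
    by_cases h : i = j
    · subst h; simp
    · have h' : j ≠ i := fun e => h e.symm
      simp [h, h']
  rw [h1]
  have h2 := MultT.ker_eq (C.map (Int.castRingHom K) - Matrix.scalar n μ)
  have h3 := MultT.ker_eq (C.map (Int.castRingHom K) - Matrix.scalar n μ)ᵀ
  rw [Matrix.rank_transpose] at h3
  omega

end Pool.Agent.IntComm
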