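import Pool.Agent.Work.MP_584b0c_al.Api2

set_option autoImplicit false

/-! F4. Choice of the parameters with `L ∣ m`. -/

namespace Pool.Agent.IntComm

namespace Param2

/-- Natural number core; `Y = Q e`, `X = Q Q e`, `Z = (Q - 1) e`. -/
theorem core (Q Lb m s n rr Y X Z : ℕ) (hQ : 1 ≤ Q) (h2n : 2 * n = 4 * (Q * m) + m + rr)
    (hrr : rr ≤ 5 * Lb) (hs : n = 2 * (Q * m) + s) (hX : X = Q * Y) (hZ : Z ≤ Y)
    (he : 40 * X ≤ m) (hm : 100 * (Q * Q) + 100 + 100 * Lb ≤ m) :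
    ∃ j j₀ δ : ℕ, 2 * m = j + s ∧ n = (Q + 1) * j₀ + δ ∧ j₀ + δ ≤ 2 * m ∧
      Q + 1 + Y ≤ δ ∧ Q * δ + Q + Z ≤ j₀ ∧ Q + Z ≤ s := by
  have h2s : 2 * s = m + rr := by omega
  have hQQ : Q ≤ Q * Q := Nat.le_mul_of_pos_left Q hQ
  have hYX : Y ≤ X := hX ▸ Nat.le_mul_of_pos_left _ hQ
  have hm1 : Q * (100 * (Q * Q) + 100 + 100 * Lb) ≤ Q * m := Nat.mul_le_mul_left Q hm
  have hm1' : Q * (100 * (Q * Q) + 100 + 100 * Lb) =
      100 * (Q * (Q * Q)) + 100 * Q + 100 * (Q * Lb) := by ring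
  rw [hm1'] at hm1
  have hmX : Q * (40 * X) ≤ Q * m := Nat.mul_le_mul_left Q he
  have hmX' : Q * (40 * X) = 40 * (Q * X) := by ring
  rw [hmX'] at hmX
  have hmQ : m ≤ Q * m := Nat.le_mul_of_pos_left m hQ
  have hcube : Q * Q ≤ Q * (Q * Q) := Nat.le_mul_of_pos_left _ hQ
  clear hm1' hmX'
  generalize Q * Lb = QL at *
  generalize hQm : Q * m = Qm at *
  have hsm : s ≤ 2 * m := by omega
  obtain ⟨lo, hlo⟩ : ∃ lo, lo = Q + 1 + Y := ⟨_, rfl⟩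
  have hlon : lo ≤ n := by omega
  obtain ⟨md, hmd⟩ : ∃ md, md = (n - lo) % (Q + 1) := ⟨_, rfl⟩
  obtain ⟨dv, hdv⟩ : ∃ dv, dv = (n - lo) / (Q + 1) := ⟨_, rfl⟩
  have hmd1 : md ≤ Q := by
    have : (n - lo) % (Q + 1) < Q + 1 := Nat.mod_lt (n - lo) (Nat.succ_pos Q)
    rw [← hmd] at this
    exact Nat.lt_succ_iff.1 this
  have hdiv : (Q + 1) * dv + md = n - lo := by
    rw [hmd, hdv]; exact Nat.div_add_mod (n - lo) (Q + 1)
  clear hmd hdv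
  obtain ⟨δ, hδ⟩ : ∃ δ, δ = lo + md := ⟨_, rfl⟩
  have e1 : (Q + 1) * dv + δ = n := by omega
  have e2 : δ ≤ 2 * Q + 1 + Y := by omega
  have e3 : Q * δ ≤ Q * (2 * Q + 1 + Y) := Nat.mul_le_mul_left Q e2
  have e3' : Q * (2 * Q + 1 + Y) = 2 * (Q * Q) + Q + X := by rw [hX]; ring
  rw [e3'] at e3
  clear hdiv e3'
  refine ⟨2 * m - s, dv, δ, by omega, e1.symm, ?_, by omega, ?_, by omega⟩
  · have h1 : (Q + 1) * (dv + δ) ≤ (Q + 1) * (2 * m) := by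
      have e5 : (Q + 1) * (dv + δ) = n + Q * δ := by
        rw [← e1]; ring
      have e7 : (Q + 1) * (2 * m) = 2 * Qm + 2 * m := by rw [← hQm]; ring
      rw [e5, e7]
      clear e5 e7 e1
      generalize Q * δ = Qδ at *
      generalize Q * X = QX at *
      generalize Q * (Q * Q) = Q3 at *
      generalize Q * Q = Q2 at *
      omega
    exact Nat.le_of_mul_le_mul_left h1 (Nat.succ_pos Q)
  · have e7 : (Q + 1) * (Q * δ + Q + Z) ≤ (Q + 1) * dv := by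
      have a1 : (Q + 1) * (Q * δ + Q + Z) ≤ (Q + 1) * (2 * (Q * Q) + Q + X + Q + Y) :=
        Nat.mul_le_mul_left _ (by omega)
      have a2 : (Q + 1) * (2 * (Q * Q) + Q + X + Q + Y) =
          2 * (Q * (Q * Q)) + 4 * (Q * Q) + 2 * Q + Q * X + 2 * X + Y := by
        rw [hX]; ring
      rw [a2] at a1
      clear a2 h2s
      linarith [Nat.zero_le s, Nat.zero_le Lb, Nat.zero_le QL, Nat.zero_le (Q * X)]
    exact Nat.le_of_mul_le_mul_left e7 (Nat.succ_pos Q)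

end Param2

theorem claimParam2 : ClaimParam2 := by
  intro Q L hQ hL
  refine ⟨1 / (200 * (Q : ℝ) ^ 3), by positivity,
    (4 * Q + 1) * L * (1000 * (Q * Q) + 1000 + 1000 * (Q * L)), ?_⟩
  intro n hn e he
  obtain ⟨D, hD⟩ : ∃ D, D = (4 * Q + 1) * L := ⟨_, rfl⟩
  rw [← hD] at hn
  have hDpos : 0 < D := hD ▸ Nat.mul_pos (Nat.succ_pos _) hL
  obtain ⟨q, hq⟩ : ∃ q, q = 2 * n / D := ⟨_, rfl⟩
  obtain ⟨rr, hrr⟩ : ∃ rr, rr = 2 * n % D := ⟨_, rfl⟩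
  have hdiv : D * q + rr = 2 * n := by rw [hq, hrr]; exact Nat.div_add_mod (2 * n) D
  have hmod : rr < D := hrr ▸ Nat.mod_lt (2 * n) hDpos
  obtain ⟨m, hm⟩ : ∃ m, m = L * q := ⟨_, rfl⟩
  have hqq : 1000 * (Q * Q) + 1000 + 1000 * (Q * L) ≤ q := by
    rw [hq, Nat.le_div_iff_mul_le hDpos]
    calc (1000 * (Q * Q) + 1000 + 1000 * (Q * L)) * D =
        D * (1000 * (Q * Q) + 1000 + 1000 * (Q * L)) := by ring
      _ ≤ n := hn
      _ ≤ 2 * n := by omega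
  have hqm : q ≤ m := hm ▸ Nat.le_mul_of_pos_left q hL
  have hDe : D = 4 * (Q * L) + L := by rw [hD]; ring
  have h2n : 2 * n = 4 * (Q * m) + m + rr := by
    rw [← hdiv, hD, hm]; ring
  have hLQ : L ≤ Q * L := Nat.le_mul_of_pos_left L hQ
  have hrr' : rr ≤ 5 * (Q * L) := by omega
  have hmQ : m ≤ Q * m := Nat.le_mul_of_pos_left m hQ
  have hle : 2 * (Q * m) ≤ n := by omega
  obtain ⟨s, hs⟩ := Nat.exists_eq_add_of_le hle
  have hn3 : n ≤ 5 * (Q * m) := by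
    clear hn hdiv hq hrr hs
    omega
  have he40 : 40 * (Q * (Q * e)) ≤ m := by
    have hQpos : (0 : ℝ) < Q := by exact_mod_cast hQ
    have h1 : (e : ℝ) * (200 * (Q : ℝ) ^ 3) ≤ n := by
      rw [div_mul_eq_mul_div, one_mul, le_div_iff₀ (by positivity)] at he
      exact he
    have h2 : (n : ℝ) ≤ 5 * ((Q : ℝ) * m) := by exact_mod_cast hn3
    have h3 : (Q : ℝ) * (40 * ((Q : ℝ) * (Q * e))) ≤ Q * m := by
      have : (Q : ℝ) * (40 * ((Q : ℝ) * (Q * e))) = (e * (200 * (Q : ℝ) ^ 3)) / 5 := by ring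
      rw [this]
      linarith
    have h4 := le_of_mul_le_mul_left h3 hQpos
    exact_mod_cast h4
  obtain ⟨j, j₀, δ, h1, h2, h3, h4, h5, h6⟩ := Param2.core Q (Q * L) m s n rr (Q * e)
    (Q * (Q * e)) ((Q - 1) * e) hQ h2n hrr' hs rfl (Nat.mul_le_mul_right e (Nat.sub_le Q 1)) he40
    (by omega)
  refine ⟨m, s, j, j₀, δ, ⟨q, hm⟩, by omega, ?_, h1, h2, h3, h4, h5, h6⟩
  rw [hs]; ring

end Pool.Agent.IntComm
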