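import Pool.Agent.Work.MP_584b0c_al.Api2

set_option autoImplicit false

/-! H4: algebra of peeling. -/

namespace Pool.Agent.IntComm

open Matrix Polynomial

namespace PeelAlg

section

variable {K : Type} [Field K] {n κ ν : Type} [Fintype n] [DecidableEq n] [Fintype κ]
  [DecidableEq κ] [Fintype ν] [DecidableEq ν]

theorem ker_eq (C : Matrix n n K) (V : Matrix n κ K) (ψ : Matrix κ n K) (Z : Matrix n ν K)
    (L : Matrix ν n K) (hψZ : ψ * Z = 0) (hLV : L * V = 0) (hLZ : L * Z = 1)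
    (hVZ : V * ψ + Z * L = 1) (hC : ψ * (C * V) = 1) (μ : K) :
    Module.finrank K (LinearMap.ker (Matrix.toLin'
      (L * (C * Z) - L * (C * V) * (ψ * (C * Z)) - Matrix.scalar ν μ))) =
    Module.finrank K (LinearMap.ker (Matrix.toLin'
      (C - Matrix.scalar n μ + μ • (V * ψ)))) := by
  obtain ⟨Zb, hZb⟩ : ∃ Zb : Matrix n ν K, Zb = Z - V * (ψ * (C * Z)) := ⟨_, rfl⟩
  have i1 : ψ * (C * Zb) = 0 := by
    rw [hZb, Matrix.mul_sub, Matrix.mul_sub, ← Matrix.mul_assoc C V, ← Matrix.mul_assoc ψ (C * V),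
      hC, Matrix.one_mul, sub_self]
  have i2 : Z * (L * (C * Zb)) = C * Zb := by
    have : (V * ψ + Z * L) * (C * Zb) = C * Zb := by rw [hVZ, Matrix.one_mul]
    rw [Matrix.add_mul, Matrix.mul_assoc, i1, Matrix.mul_zero, zero_add, Matrix.mul_assoc] at this
    exact this
  have i3 : L * (C * Z) - L * (C * V) * (ψ * (C * Z)) = L * (C * Zb) := by
    rw [hZb, Matrix.mul_sub, Matrix.mul_sub]
    simp only [Matrix.mul_assoc]
  have i4 : L * Zb = 1 := by
    rw [hZb, Matrix.mul_sub, hLZ, ← Matrix.mul_assoc, hLV, Matrix.zero_mul, sub_zero]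
  rw [i3]
  obtain ⟨S, hS⟩ : ∃ S, S = L * (C * Zb) := ⟨_, rfl⟩
  obtain ⟨M, hM⟩ : ∃ M, M = C - Matrix.scalar n μ + μ • (V * ψ) := ⟨_, rfl⟩
  rw [← hS, ← hM]
  rw [← hS] at i2
  have hsc : ∀ (v : n → K), (Matrix.scalar n μ).mulVec v = μ • v := by
    intro v
    rw [Matrix.scalar_apply]
    ext i
    rw [Matrix.mulVec_diagonal, Pi.smul_apply, smul_eq_mul]
  have hsc' : ∀ (v : ν → K), (Matrix.scalar ν μ).mulVec v = μ • v := by
    intro v
    rw [Matrix.scalar_apply]
    ext i
    rw [Matrix.mulVec_diagonal, Pi.smul_apply, smul_eq_mul]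
  have hdec : ∀ v : n → K, V.mulVec (ψ.mulVec v) + Z.mulVec (L.mulVec v) = v := by
    intro v
    rw [Matrix.mulVec_mulVec, Matrix.mulVec_mulVec, ← Matrix.add_mulVec, hVZ, Matrix.one_mulVec]
  have hMv : ∀ v : n → K, M.mulVec v = C.mulVec v - μ • Z.mulVec (L.mulVec v) := by
    intro v
    rw [hM, Matrix.add_mulVec, Matrix.sub_mulVec, hsc, Matrix.smul_mulVec, ← Matrix.mulVec_mulVec]
    have h1 : V.mulVec (ψ.mulVec v) = v - Z.mulVec (L.mulVec v) := eq_sub_of_add_eq (hdec v)
    rw [h1, smul_sub]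
    abel
  have hLZb : ∀ y : ν → K, L.mulVec (Zb.mulVec y) = y := by
    intro y
    rw [Matrix.mulVec_mulVec, i4, Matrix.one_mulVec]
  have hMZ : ∀ y : ν → K, M.mulVec (Zb.mulVec y) = Z.mulVec ((S - Matrix.scalar ν μ).mulVec y) := by
    intro y
    rw [hMv, hLZb, Matrix.sub_mulVec, hsc', Matrix.mulVec_sub, Matrix.mulVec_smul,
      Matrix.mulVec_mulVec y C Zb, Matrix.mulVec_mulVec y Z S, i2]
  have hback : ∀ v : n → K, M.mulVec v = 0 → Zb.mulVec (L.mulVec v) = v := by
    intro v hv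
    rw [hMv, sub_eq_zero] at hv
    have h1 : ψ.mulVec (C.mulVec v) = 0 := by
      rw [hv, Matrix.mulVec_smul, Matrix.mulVec_mulVec, hψZ, Matrix.zero_mulVec, smul_zero]
    have h2 : ψ.mulVec (C.mulVec v) = ψ.mulVec v + (ψ * (C * Z)).mulVec (L.mulVec v) := by
      conv_lhs => rw [← hdec v]
      rw [Matrix.mulVec_add, Matrix.mulVec_add, Matrix.mulVec_mulVec (ψ.mulVec v) C V,
        Matrix.mulVec_mulVec (ψ.mulVec v) ψ (C * V), hC, Matrix.one_mulVec,
        Matrix.mulVec_mulVec (L.mulVec v) C Z, Matrix.mulVec_mulVec (L.mulVec v) ψ (C * Z)]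
    rw [h1] at h2
    have h3 : ψ.mulVec v = -(ψ * (C * Z)).mulVec (L.mulVec v) := eq_neg_of_add_eq_zero_left h2.symm
    have h4 := hdec v
    rw [h3] at h4
    rw [hZb, Matrix.sub_mulVec]
    conv_rhs => rw [← h4]
    rw [Matrix.mulVec_neg, ← Matrix.mulVec_mulVec (L.mulVec v) V]
    abel
  apply le_antisymm
  · let f : LinearMap.ker (Matrix.toLin' (S - Matrix.scalar ν μ)) →ₗ[K]
        LinearMap.ker (Matrix.toLin' M) :=
      LinearMap.codRestrict _ ((Matrix.toLin' Zb).domRestrict _) (by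
        rintro ⟨y, hy⟩
        rw [LinearMap.mem_ker, Matrix.toLin'_apply] at hy
        show Matrix.toLin' M (Matrix.toLin' Zb y) = 0
        rw [Matrix.toLin'_apply, Matrix.toLin'_apply, hMZ, hy, Matrix.mulVec_zero])
    refine LinearMap.finrank_le_finrank_of_injective (f := f) ?_
    rintro ⟨y, hy⟩ ⟨y', hy'⟩ h
    have h1 : Zb.mulVec y = Zb.mulVec y' := congrArg Subtype.val h
    apply Subtype.ext
    show y = y'
    rw [← hLZb y, ← hLZb y', h1]
  · let f : LinearMap.ker (Matrix.toLin' M) →ₗ[K]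
        LinearMap.ker (Matrix.toLin' (S - Matrix.scalar ν μ)) :=
      LinearMap.codRestrict _ ((Matrix.toLin' L).domRestrict _) (by
        rintro ⟨v, hv⟩
        rw [LinearMap.mem_ker, Matrix.toLin'_apply] at hv
        show Matrix.toLin' (S - Matrix.scalar ν μ) (Matrix.toLin' L v) = 0
        rw [Matrix.toLin'_apply, Matrix.toLin'_apply]
        have h1 := hMZ (L.mulVec v)
        rw [hback v hv, hv] at h1
        have h2 := congrArg (fun w => L.mulVec w) h1
        simp only [Matrix.mulVec_zero, Matrix.mulVec_mulVec] at h2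
        rw [← Matrix.mul_assoc, hLZ, Matrix.one_mul] at h2
        rw [Matrix.mulVec_mulVec]
        exact h2.symm)
    refine LinearMap.finrank_le_finrank_of_injective (f := f) ?_
    rintro ⟨v, hv⟩ ⟨v', hv'⟩ h
    rw [LinearMap.mem_ker, Matrix.toLin'_apply] at hv hv'
    have h1 : L.mulVec v = L.mulVec v' := congrArg Subtype.val h
    apply Subtype.ext
    show v = v'
    rw [← hback v hv, ← hback v' hv', h1]

end

end PeelAlg

theorem claimPeelAlg (h1 : ClaimComplete) (h2 : ClaimStepLU) : ClaimPeelAlg := by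
  intro k n' C V ψ hψV hψC
  have hPI : PInd V := by
    intro p _ x hx
    have h3 := congrArg (fun w => (ψ.map (Int.cast : ℤ → ZMod p)).mulVec w) hx
    simp only [Matrix.mulVec_zero, Matrix.mulVec_mulVec] at h3
    have h4 : ψ.map (Int.cast : ℤ → ZMod p) * V.map (Int.cast : ℤ → ZMod p) = 1 := by
      have h5 : (ψ * V).map (Int.castRingHom (ZMod p)) =
          ψ.map (Int.castRingHom (ZMod p)) * V.map (Int.castRingHom (ZMod p)) := Matrix.map_mul
      rw [hψV] at h5
      have h6 : (1 : Matrix (Fin k) (Fin k) ℤ).map (Int.castRingHom (ZMod p)) = 1 :=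
        Matrix.map_one _ (map_zero _) (map_one _)
      rw [h6] at h5
      exact h5.symm
    rw [h4, Matrix.one_mulVec] at h3
    exact h3
  obtain ⟨B, K', L, a1, a2, a3, a4, a5⟩ := h1 (Fin (k + n')) (Fin k) V n' hPI (by simp)
  set Z : Matrix (Fin (k + n')) (Fin n') ℤ := B - V * (ψ * B) with hZ
  have hψZ : ψ * Z = 0 := by
    rw [hZ, Matrix.mul_sub, ← Matrix.mul_assoc ψ V, hψV, Matrix.one_mul, sub_self]
  have hLZ : L * Z = 1 := by
    rw [hZ, Matrix.mul_sub, a2, ← Matrix.mul_assoc, a4, Matrix.zero_mul, sub_zero]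
  have hVZ : V * ψ + Z * L = 1 := by
    have e1 : B * L = 1 - V * K' := eq_sub_of_add_eq' a5
    have e2 : V * (ψ * B) * L = V * ψ - V * K' := by
      have : V * (ψ * B) * L = V * ψ * (B * L) := by simp only [Matrix.mul_assoc]
      rw [this, e1, Matrix.mul_sub, Matrix.mul_one, Matrix.mul_assoc V ψ (V * K'),
        ← Matrix.mul_assoc ψ V K', hψV, Matrix.one_mul]
    rw [hZ, Matrix.sub_mul, e1, e2]
    abel
  set h : Matrix (Fin (k + n')) (Fin k ⊕ Fin n') ℤ := fromCols V Z with hh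
  set h' : Matrix (Fin k ⊕ Fin n') (Fin (k + n')) ℤ := fromRows ψ L with hh'
  have hh1 : h' * h = 1 := by
    rw [hh, hh', Matrix.fromRows_mul_fromCols, hψV, hψZ, a4, hLZ, Matrix.fromBlocks_one]
  have hh2 : h * h' = 1 := by
    rw [hh, hh', Matrix.fromCols_mul_fromRows, hVZ]
  have hC' : h' * C * h = fromBlocks 1 (ψ * (C * Z)) (L * (C * V)) (L * (C * Z)) := by
    rw [hh, hh', Matrix.fromRows_mul, Matrix.fromRows_mul_fromCols, Matrix.mul_assoc,
      Matrix.mul_assoc, Matrix.mul_assoc, Matrix.mul_assoc, hψC]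
  refine ⟨L * (C * Z) - L * (C * V) * (ψ * (C * Z)), ?_, ?_, ?_⟩
  · rw [← Matrix.det_fromBlocks_one₁₁, ← hC']
    exact Matrix.det_conj_of_mul_eq_one hh1 hh2
  · intro K _ μ
    have hm : ∀ {a b c : Type} [Fintype b] (M : Matrix a b ℤ) (N : Matrix b c ℤ),
        (M * N).map (Int.castRingHom K) =
          M.map (Int.castRingHom K) * N.map (Int.castRingHom K) := fun M N => Matrix.map_mul
    have hone : ∀ (a : Type) [DecidableEq a],
        (1 : Matrix a a ℤ).map (Int.castRingHom K) = 1 := fun a _ =>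
      Matrix.map_one _ (map_zero _) (map_one _)
    have e1 : ψ.map (Int.castRingHom K) * Z.map (Int.castRingHom K) = 0 := by
      rw [← hm, hψZ]
      exact Matrix.map_zero _ (map_zero _)
    have e2 : L.map (Int.castRingHom K) * V.map (Int.castRingHom K) = 0 := by
      rw [← hm, a4]
      exact Matrix.map_zero _ (map_zero _)
    have e3 : L.map (Int.castRingHom K) * Z.map (Int.castRingHom K) = 1 := by
      rw [← hm, hLZ, hone]
    have e4 : V.map (Int.castRingHom K) * ψ.map (Int.castRingHom K) +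
        Z.map (Int.castRingHom K) * L.map (Int.castRingHom K) = 1 := by
      rw [← hm, ← hm, ← Matrix.map_add _ (map_add _), hVZ, hone]
    have e5 : ψ.map (Int.castRingHom K) * (C.map (Int.castRingHom K) *
        V.map (Int.castRingHom K)) = 1 := by
      rw [← hm, ← hm, hψC, hone]
    have e6 := PeelAlg.ker_eq (C.map (Int.castRingHom K)) (V.map (Int.castRingHom K))
      (ψ.map (Int.castRingHom K)) (Z.map (Int.castRingHom K)) (L.map (Int.castRingHom K))
      e1 e2 e3 e4 e5 μ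
    rw [← e6]
    unfold mult
    rw [Matrix.map_sub _ (map_sub _), hm L (C * Z), hm (L * (C * V)) (ψ * (C * Z)),
      hm L (C * V), hm ψ (C * Z), hm C Z, hm C V]
  · intro G F' X hX hco hLUF
    apply LUF.of_rect h h' hh1 hh2
    rw [hC']
    have e1 : (X * 1 * X⁻¹ * 1⁻¹ : (Matrix (Fin k) (Fin k) ℤ)ˣ) = 1 := by group
    have e2 := h2 (Fin k) (Fin n') G F' X 1 (ψ * (C * Z)) (L * (C * V)) (L * (C * Z)) hco hX (by
      rw [e1, inv_one, Units.val_one, Matrix.mul_one]
      exact hLUF)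
    rw [e1, Units.val_one] at e2
    exact e2

end Pool.Agent.IntComm
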