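import Pool.Agent.Work.MP_584b0c_al.Api2

set_option autoImplicit false

/-! I2. The list of peeled blocks. -/

namespace Pool.Agent.IntComm

namespace PeelList

theorem aux (K ρ : ℕ) (hKρ : K ≤ ρ) : ∀ (P : List (ℕ × ℕ)) (n : ℕ), (∀ x ∈ P, x.2 ≤ K) →
    n ≤ (P.map Prod.snd).sum → ∃ (L : List (ℕ × ℕ)) (n' : ℕ), L.Sublist P ∧
      n = (L.map Prod.snd).sum + n' ∧ n' ≤ ρ ∧ (ρ < n' + K ∨ n' = n) := by
  intro P
  induction P with
  | nil =>
    intro n _ hn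
    refine ⟨[], n, List.Sublist.refl _, by simp, ?_, Or.inr rfl⟩
    have : n = 0 := by simpa using hn
    omega
  | cons x P ih =>
    intro n hP hn
    by_cases hnρ : n ≤ ρ
    · exact ⟨[], n, List.nil_sublist _, by simp, hnρ, Or.inr rfl⟩
    · have hx : x.2 ≤ K := hP x (List.mem_cons_self)
      rw [List.map_cons, List.sum_cons] at hn
      obtain ⟨L, n', h1, h2, h3, h4⟩ := ih (n - x.2)
        (fun y hy => hP y (List.mem_cons_of_mem _ hy)) (by omega)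
      refine ⟨x :: L, n', h1.cons_cons x, ?_, h3, ?_⟩
      · rw [List.map_cons, List.sum_cons]
        omega
      · left
        rcases h4 with h4 | h4
        · exact h4
        · omega

theorem half (K m : ℕ) (hm : 0 < m) (hmK : 2 * m ≤ K) : K ≤ 2 * (m * (K / m)) := by
  have h1 := Nat.div_add_mod K m
  have h2 := Nat.mod_lt K hm
  omega

end PeelList

theorem claimList : ClaimList := by
  intro A K n ρ hK hKρ hn
  set s := (Finset.range (K / 2 + 1)).filter fun ℓ => ℓ.Prime ∧ ℓ ∉ A with hs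
  have hmem : ∀ ℓ ∈ s, ℓ.Prime ∧ ℓ ∉ A ∧ ℓ ≤ K / 2 := by
    intro ℓ hℓ
    rw [hs, Finset.mem_filter, Finset.mem_range] at hℓ
    exact ⟨hℓ.2.1, hℓ.2.2, by omega⟩
  let f : ℕ → ℕ × ℕ := fun ℓ => (ℓ, (ℓ - 1) * (K / (ℓ - 1)))
  let P : List (ℕ × ℕ) := s.toList.map f
  have hP : ∀ x ∈ P, x.1.Prime ∧ 0 < x.2 ∧ (x.1 - 1) ∣ x.2 ∧ x.2 ≤ K ∧ x.1 ∉ A := by
    intro x hx
    obtain ⟨ℓ, hℓ, rfl⟩ := List.mem_map.1 hx
    rw [Finset.mem_toList] at hℓ
    obtain ⟨h1, h2, h3⟩ := hmem ℓ hℓ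
    have h4 := h1.two_le
    have h5 : ℓ - 1 ≤ K := by omega
    refine ⟨h1, Nat.mul_pos (by omega) (Nat.div_pos h5 (by omega)), Dvd.intro _ rfl,
      Nat.mul_div_le K (ℓ - 1), h2⟩
  have hsum : n ≤ (P.map Prod.snd).sum := by
    have h1 : (P.map Prod.snd).sum = ∑ ℓ ∈ s, (ℓ - 1) * (K / (ℓ - 1)) := by
      show ((s.toList.map f).map Prod.snd).sum = _
      rw [List.map_map]
      exact Finset.sum_map_toList s (Prod.snd ∘ f)
    rw [h1]
    have h2 : K * s.card ≤ 2 * ∑ ℓ ∈ s, (ℓ - 1) * (K / (ℓ - 1)) := by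
      rw [Finset.mul_sum, mul_comm, ← smul_eq_mul, ← Finset.sum_const]
      apply Finset.sum_le_sum
      intro ℓ hℓ
      obtain ⟨h3, _, h4⟩ := hmem ℓ hℓ
      have h5 := h3.two_le
      exact PeelList.half K (ℓ - 1) (by omega) (by omega)
    omega
  obtain ⟨L, n', h1, h2, h3, h4⟩ := PeelList.aux K ρ hKρ P n (fun x hx => (hP x hx).2.2.2.1) hsum
  refine ⟨L, n', fun x hx => hP x (h1.subset hx), ?_, h2, h3, h4⟩
  have h5 : (L.map Prod.fst).Sublist (P.map Prod.fst) := h1.map _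
  apply h5.nodup
  show ((s.toList.map f).map Prod.fst).Nodup
  rw [List.map_map]
  have h6 : (Prod.fst ∘ f) = id := rfl
  rw [h6, List.map_id]
  exact s.nodup_toList

end Pool.Agent.IntComm
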