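import Pool.Agent.Work.MP_584b0c_al.Api2

set_option autoImplicit false

/-! Item H6: one peeling step. -/

namespace Pool.Agent.IntComm

open Matrix Polynomial

namespace PeelStep

theorem ker_zero {n : Type} [Fintype n] [DecidableEq n] (K : Type) [Field K]
    (C : Matrix n n ℤ) (hC : C.det = 1) (B : Matrix n n K) :
    Module.finrank K (LinearMap.ker (Matrix.toLin' (C.map (Int.castRingHom K) -
        Matrix.scalar n (0 : K) + (0 : K) • B))) = 0 := by
  have hdet : (C.map (Int.castRingHom K)).det = 1 := by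
    have := (RingHom.map_det (Int.castRingHom K) C)
    rw [hC, map_one] at this
    rw [this]
    rfl
  have h0 : C.map (Int.castRingHom K) - Matrix.scalar n (0 : K) + (0 : K) • B =
      C.map (Int.castRingHom K) := by
    rw [map_zero, sub_zero, zero_smul, add_zero]
  rw [h0]
  have hker : LinearMap.ker (Matrix.toLin' (C.map (Int.castRingHom K))) = ⊥ := by
    rw [LinearMap.ker_eq_bot']
    intro x hx
    rw [Matrix.toLin'_apply] at hx
    have hu : IsUnit (C.map (Int.castRingHom K)).det := by rw [hdet]; exact isUnit_one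
    calc x = (1 : Matrix n n K).mulVec x := (Matrix.one_mulVec x).symm
      _ = ((C.map (Int.castRingHom K))⁻¹ * C.map (Int.castRingHom K)).mulVec x := by
          rw [Matrix.nonsing_inv_mul _ hu]
      _ = (C.map (Int.castRingHom K))⁻¹.mulVec ((C.map (Int.castRingHom K)).mulVec x) := by
          rw [Matrix.mulVec_mulVec]
      _ = 0 := by rw [hx, Matrix.mulVec_zero]
  rw [hker]
  exact finrank_bot K _

end PeelStep

theorem claimPeelStep (h1 : ClaimKer) (h2 : ClaimMultT) (h3 : ClaimVPsi) (h4 : ClaimPeelAlg)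
    (h5 : ClaimMultBound) : ClaimPeelStep := by
  intro k n' t s m C ht hs hdet hmult hN hlt hst
  have hKB : ∀ d : ℕ, KB C d ((d - 1) * m) := h1 (Fin (k + n')) C m hmult
  obtain ⟨V, ψ, hψV, hψCV, hgood⟩ := h3 (k + n') k t s m C ht hs hKB hN hlt hst
  obtain ⟨S, hSdet, hSmult, hSLUF⟩ := h4 k n' C V ψ hψV hψCV
  refine ⟨S, hSdet.trans hdet, ?_, hSLUF⟩
  intro p _ μ
  rw [hSmult]
  have hb := h5 (AlgebraicClosure (ZMod p)) (Fin (k + n')) (Fin k)
    (C.map (Int.castRingHom (AlgebraicClosure (ZMod p))))
    (V.map (Int.castRingHom (AlgebraicClosure (ZMod p))))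
    (ψ.map (Int.castRingHom (AlgebraicClosure (ZMod p)))) μ
  rw [Fintype.card_fin] at hb
  obtain ⟨hb1, hb2⟩ := hb
  have hm := hmult p μ
  by_cases hμ : μ = 0
  · subst hμ
    rw [PeelStep.ker_zero (AlgebraicClosure (ZMod p)) C hdet]
    exact Nat.zero_le _
  by_cases htm : t ≤ mult (AlgebraicClosure (ZMod p)) C μ
  · have hV : CInd (AlgebraicClosure (ZMod p)) C V μ := (hgood p).1 μ htm
    have hψ : CInd (AlgebraicClosure (ZMod p)) Cᵀ ψᵀ μ := by
      refine (hgood p).2 μ ?_
      rw [h2]
      exact htm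
    have h6 := hb2 hμ hV (by
      intro a u hau
      refine hψ a u ?_
      rw [Matrix.transpose_map, Matrix.transpose_map]
      exact hau)
    refine le_max_of_le_left ?_
    have h7 : Module.finrank (AlgebraicClosure (ZMod p)) (LinearMap.ker (Matrix.toLin'
        (C.map (Int.castRingHom (AlgebraicClosure (ZMod p))) - Matrix.scalar (Fin (k + n')) μ)))
          ≤ m := hm
    exact Nat.le_sub_of_add_le (h6.trans h7)
  · refine le_max_of_le_right (hb1.trans ?_)
    have h8 : Module.finrank (AlgebraicClosure (ZMod p)) (LinearMap.ker (Matrix.toLin'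
        (C.map (Int.castRingHom (AlgebraicClosure (ZMod p))) - Matrix.scalar (Fin (k + n')) μ)))
          < t := not_le.1 htm
    exact Nat.add_le_add_right h8.le k

end Pool.Agent.IntComm
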