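import Pool.Agent.Work.MP_584b0c_al.Api2

set_option autoImplicit false

/-! F3. The family of polynomials, with factors `rep ℓ`. -/

namespace Pool.Agent.IntComm

open Matrix Polynomial

namespace Poly2

/-- Distinct odd primes. -/
noncomputable def pr (i : ℕ) : ℕ := Nat.nth Nat.Prime (i + 1)

theorem pr_prime (i : ℕ) : (pr i).Prime := Nat.prime_nth_prime _

theorem pr_inj : Function.Injective pr := fun i j h => by
  have := (Nat.nth_injective Nat.infinite_setOf_prime) h
  omega

theorem pr_ne_two (i : ℕ) : pr i ≠ 2 := by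
  intro h
  have h0 : Nat.nth Nat.Prime 0 = 2 := Nat.nth_prime_zero_eq_two
  have := (Nat.nth_injective Nat.infinite_setOf_prime) (h.trans h0.symm)
  omega

theorem pr_ge (i : ℕ) : 3 ≤ pr i := by
  have h1 := (pr_prime i).two_le
  have h2 := pr_ne_two i
  omega

/-- The factor of degree `m`. -/
noncomputable def fac (m i : ℕ) : ℤ[X] := rep (pr i) ^ (m / (pr i - 1))

/-- The member of the family. -/
noncomputable def pol (m j : ℕ) : ℤ[X] := fac m (2 * j) * fac m (2 * j + 1)

variable (h : ClaimRep)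

include h in
theorem fac_props (m i : ℕ) (hd : (pr i - 1) ∣ m) :
    (fac m i).Monic ∧ (fac m i).natDegree = m ∧ IsUnit ((fac m i).coeff 0) := by
  obtain ⟨h1, h2, h3⟩ := h.2 (pr i) (by have := pr_ge i; omega)
  refine ⟨h1.pow _, ?_, ?_⟩
  · unfold fac
    rw [h1.natDegree_pow, h2, Nat.div_mul_cancel hd]
  · unfold fac
    rw [Polynomial.coeff_zero_eq_eval_zero, Polynomial.eval_pow,
      ← Polynomial.coeff_zero_eq_eval_zero, h3, one_pow]
    exact isUnit_one

include h in
theorem fac_coprime (m : ℕ) {i j : ℕ} (hij : i ≠ j) : IsCoprime (fac m i) (fac m j) :=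
  IsCoprime.pow (h.1 _ _ ((Nat.coprime_primes (pr_prime i) (pr_prime j)).2
    fun h0 => hij (pr_inj h0)))

include h in
theorem fac_coprime_two (m i : ℕ) : IsCoprime (fac m i) (rep 2) :=
  IsCoprime.pow_left (h.1 _ _ ((Nat.coprime_primes (pr_prime i) Nat.prime_two).2 (pr_ne_two i)))

theorem fac_dvd (m i : ℕ) (A : Finset ℕ) (hi : pr i ∈ A) :
    fac m i ∣ (∏ ℓ ∈ A, rep ℓ) ^ m := by
  unfold fac
  refine (pow_dvd_pow _ (Nat.div_le_self m _)).trans (pow_dvd_pow_of_dvd ?_ m)
  exact Finset.dvd_prod_of_mem _ hi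

end Poly2

open Poly2 in
theorem claimPoly2 (h : ClaimRep) : ClaimPoly2 := by
  intro Q
  refine ⟨insert 2 ((Finset.range (2 * Q)).image pr), ∏ i ∈ Finset.range (2 * Q), (pr i - 1),
    ?_, ?_, ?_⟩
  · exact Finset.prod_pos fun i _ => by have := pr_ge i; omega
  · intro ℓ hℓ
    rw [Finset.mem_insert, Finset.mem_image] at hℓ
    rcases hℓ with rfl | ⟨i, -, rfl⟩
    · exact Nat.prime_two
    · exact pr_prime i
  intro m hm hL
  have hdvd : ∀ i, i < 2 * Q → (pr i - 1) ∣ m := fun i hi =>
    (Finset.dvd_prod_of_mem (fun i => pr i - 1) (Finset.mem_range.2 hi)).trans hL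
  refine ⟨(List.range Q).map (pol m), by simp, ?_, ?_, ?_, 2 * m * Q + 1, ?_⟩
  · intro F hF
    obtain ⟨j, hj, rfl⟩ := List.mem_map.1 hF
    have hjQ := List.mem_range.1 hj
    obtain ⟨a1, a2, a3⟩ := fac_props h m (2 * j) (hdvd _ (by omega))
    obtain ⟨b1, b2, b3⟩ := fac_props h m (2 * j + 1) (hdvd _ (by omega))
    exact ⟨fac m (2 * j), fac m (2 * j + 1), a1, b1, a2, b2, a3, b3,
      fac_coprime h m (by omega), rfl⟩
  · rw [List.pairwise_map]
    refine List.Pairwise.imp (R := fun i j : ℕ => i ≠ j) ?_ List.nodup_range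
    intro i j hij
    exact IsCoprime.mul_left
      (IsCoprime.mul_right (fac_coprime h m (by omega)) (fac_coprime h m (by omega)))
      (IsCoprime.mul_right (fac_coprime h m (by omega)) (fac_coprime h m (by omega)))
  · intro F hF
    obtain ⟨j, hj, rfl⟩ := List.mem_map.1 hF
    exact IsCoprime.mul_left (fac_coprime_two h m _) (fac_coprime_two h m _)
  · set A := insert 2 ((Finset.range (2 * Q)).image pr) with hA
    have h2 : rep 2 ∣ ∏ ℓ ∈ A, rep ℓ := Finset.dvd_prod_of_mem _ (by simp [hA])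
    have h3 : ∀ q ≤ Q, ((List.range q).map (pol m)).prod ∣ (∏ ℓ ∈ A, rep ℓ) ^ (2 * m * q) := by
      intro q
      induction q with
      | zero => intro _; simp
      | succ q ih =>
        intro hq
        rw [List.range_succ, List.map_append, List.prod_append]
        have e : (∏ ℓ ∈ A, rep ℓ) ^ (2 * m * (q + 1)) =
            (∏ ℓ ∈ A, rep ℓ) ^ (2 * m * q) * ((∏ ℓ ∈ A, rep ℓ) ^ m * (∏ ℓ ∈ A, rep ℓ) ^ m) := by
          rw [← pow_add, ← pow_add]
          congr 1
          ring
        rw [e]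
        refine mul_dvd_mul (ih (by omega)) ?_
        simp only [List.map_cons, List.map_nil, List.prod_cons, List.prod_nil, mul_one]
        refine mul_dvd_mul (fac_dvd m _ A ?_) (fac_dvd m _ A ?_)
        · rw [hA]
          exact Finset.mem_insert_of_mem (Finset.mem_image_of_mem _ (Finset.mem_range.2 (by omega)))
        · rw [hA]
          exact Finset.mem_insert_of_mem (Finset.mem_image_of_mem _ (Finset.mem_range.2 (by omega)))
    rw [pow_succ]
    exact mul_dvd_mul (h3 Q le_rfl) h2

end Pool.Agent.IntComm
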