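import Pool.Agent.Work.MP_584b0c_al.Api2

set_option autoImplicit false

/-! I1. Enough primes. -/

namespace Pool.Agent.IntComm

open Filter

theorem claimPrimes : ClaimPrimes := by
  intro A
  have hA : (0 : ℝ) < (A.card : ℝ) + 1 := by positivity
  have h1 : ∀ᶠ x : ℝ in atTop, ‖Real.log x‖ ≤ (0.1 / ((A.card : ℝ) + 1)) * ‖x‖ :=
    Real.isLittleO_log_id_atTop.def (by positivity)
  obtain ⟨X, hX⟩ := eventually_atTop.1 h1
  refine ⟨max 10 ⌈X⌉₊, ?_⟩
  intro K hK
  have hK10 : 10 ≤ K := le_trans (le_max_left _ _) hK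
  have hKX : X ≤ (K : ℝ) :=
    le_trans (Nat.le_ceil X) (by exact_mod_cast le_trans (le_max_right _ _) hK)
  have hK10r : (10 : ℝ) ≤ K := by exact_mod_cast hK10
  have h2 := hX K hKX
  have hlogK : 0 < Real.log K := Real.log_pos (by linarith)
  rw [Real.norm_of_nonneg hlogK.le, Real.norm_of_nonneg (by linarith : (0 : ℝ) ≤ K)] at h2
  have h3 : ((A.card : ℝ) + 1) * Real.log K ≤ 0.1 * K := by
    calc ((A.card : ℝ) + 1) * Real.log K ≤
        ((A.card : ℝ) + 1) * (0.1 / ((A.card : ℝ) + 1) * K) := by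
          apply mul_le_mul_of_nonneg_left h2 hA.le
      _ = 0.1 * K := by field_simp
  have hl2 := Real.log_two_gt_d9
  set x := K / 2 with hx
  have hx5 : 5 ≤ x := by omega
  have hx1 : ((K : ℝ) - 1) / 2 ≤ x := by
    have : K ≤ 2 * x + 1 := by omega
    have h4 : (K : ℝ) ≤ 2 * x + 1 := by exact_mod_cast this
    linarith
  have hx5r : (5 : ℝ) ≤ x := by exact_mod_cast hx5
  have hxK : (x : ℝ) + 1 ≤ K := by
    have : x + 1 ≤ K := by omega
    exact_mod_cast this
  have hlogx : 0 < Real.log x := Real.log_pos (by linarith)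
  have hlogxK : Real.log x ≤ Real.log K := Real.log_le_log (by linarith) (by linarith)
  have hlogx1K : Real.log (x + 1) ≤ Real.log K := Real.log_le_log (by linarith) hxK
  have h5 := Chebyshev.pi_ge x
  have h6 : (K : ℝ) / (8 * Real.log K) + A.card ≤ (Nat.primeCounting x : ℝ) := by
    have h7 : (K : ℝ) / 8 + A.card * Real.log K ≤ x * Real.log 2 - Real.log (x + 1) := by
      nlinarith
    have h8 : (0 : ℝ) ≤ x * Real.log 2 - Real.log (x + 1) := by
      refine le_trans ?_ h7
      positivity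
    calc (K : ℝ) / (8 * Real.log K) + A.card = ((K : ℝ) / 8 + A.card * Real.log K) / Real.log K := by
          field_simp
      _ ≤ (x * Real.log 2 - Real.log (x + 1)) / Real.log K := by
          gcongr
      _ ≤ (x * Real.log 2 - Real.log (x + 1)) / Real.log x := by
          gcongr
      _ ≤ _ := h5
  have h9 : Nat.primeCounting x ≤
      ((Finset.range (x + 1)).filter fun ℓ => ℓ.Prime ∧ ℓ ∉ A).card + A.card := by
    have h10 : Nat.primeCounting x = ((Finset.range (x + 1)).filter fun ℓ => ℓ.Prime).card := by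
      rw [Nat.primeCounting, Nat.primeCounting', Nat.count_eq_card_filter_range]
    rw [h10]
    have h11 : ((Finset.range (x + 1)).filter fun ℓ => ℓ.Prime) ⊆
        ((Finset.range (x + 1)).filter fun ℓ => ℓ.Prime ∧ ℓ ∉ A) ∪ A := by
      intro y hy
      rw [Finset.mem_filter] at hy
      rw [Finset.mem_union, Finset.mem_filter]
      by_cases hyA : y ∈ A
      · exact Or.inr hyA
      · exact Or.inl ⟨hy.1, hy.2, hyA⟩
    exact le_trans (Finset.card_le_card h11) (Finset.card_union_le _ _)
  have h9r : (Nat.primeCounting x : ℝ) ≤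
      (((Finset.range (x + 1)).filter fun ℓ => ℓ.Prime ∧ ℓ ∉ A).card : ℝ) + A.card := by
    exact_mod_cast h9
  linarith

end Pool.Agent.IntComm
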