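import Pool.Agent.Work.MP_584b0c_al.Api2

set_option autoImplicit false

/-! F1. The polynomials `1 + X + ... + X^(a-1)`. -/

namespace Pool.Agent.IntComm

open Matrix Polynomial

namespace Rep

theorem rep_add (a b : ℕ) : rep (a + b) = rep a + X ^ a * rep b := by
  unfold rep
  rw [Finset.sum_range_add, Finset.mul_sum]
  congr 1
  exact Finset.sum_congr rfl fun i _ => pow_add _ _ _

theorem rep_succ (a : ℕ) : rep (a + 1) = 1 + X * rep a := by
  rw [add_comm, rep_add, pow_one]
  simp [rep]

theorem coprime_X (a : ℕ) (ha : 1 ≤ a) : IsCoprime (rep a) X := by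
  obtain ⟨b, rfl⟩ := Nat.exists_eq_add_of_le' ha
  exact ⟨1, -rep b, by rw [rep_succ]; ring⟩

theorem step (a b : ℕ) (ha : 1 ≤ a) (h : IsCoprime (rep a) (rep b)) :
    IsCoprime (rep a) (rep (a + b)) := by
  rw [rep_add]
  have h1 : IsCoprime (rep a) (X ^ a * rep b) := IsCoprime.mul_right (coprime_X a ha).pow_right h
  have := h1.add_mul_left_right 1
  rwa [mul_one, add_comm] at this

theorem coprime : ∀ (s a b : ℕ), a + b ≤ s → Nat.Coprime a b → IsCoprime (rep a) (rep b) := by
  intro s
  induction s with
  | zero =>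
    intro a b hs h
    obtain rfl : a = 0 := by omega
    obtain rfl : b = 0 := by omega
    simp at h
  | succ s ih =>
    intro a b hs h
    rcases Nat.eq_zero_or_pos a with rfl | ha
    · rw [Nat.coprime_zero_left] at h
      subst h
      simp [rep, isCoprime_one_right]
    rcases Nat.eq_zero_or_pos b with rfl | hb
    · rw [Nat.coprime_zero_right] at h
      subst h
      simp [rep, isCoprime_one_left]
    rcases le_total a b with hab | hab
    · obtain ⟨c, rfl⟩ := Nat.exists_eq_add_of_le hab
      refine step a c ha (ih a c (by omega) ?_)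
      simpa using h
    · obtain ⟨c, rfl⟩ := Nat.exists_eq_add_of_le hab
      refine (step b c hb (ih b c (by omega) ?_)).symm
      simpa using h.symm

theorem monic (a : ℕ) (ha : 1 ≤ a) : (rep a).Monic ∧ (rep a).natDegree = a - 1 := by
  obtain ⟨b, rfl⟩ := Nat.exists_eq_add_of_le' ha
  have hdeg : (rep b).degree < (b : WithBot ℕ) := by
    unfold rep
    refine lt_of_le_of_lt (Polynomial.degree_sum_le _ _) ?_
    rw [Finset.sup_lt_iff (by exact_mod_cast WithBot.bot_lt_coe b)]
    intro i hi
    rw [Polynomial.degree_X_pow]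
    exact_mod_cast Finset.mem_range.1 hi
  have he : rep (b + 1) = X ^ b + rep b := by
    unfold rep
    rw [Finset.sum_range_succ, add_comm]
  constructor
  · rw [he]
    exact Polynomial.monic_X_pow_add (by exact_mod_cast hdeg)
  · rw [he, Polynomial.natDegree_add_eq_left_of_degree_lt, Polynomial.natDegree_X_pow]
    · omega
    · rwa [Polynomial.degree_X_pow]

theorem coeff_zero (a : ℕ) (ha : 1 ≤ a) : (rep a).coeff 0 = 1 := by
  obtain ⟨b, rfl⟩ := Nat.exists_eq_add_of_le' ha
  rw [rep_succ]
  simp

end Rep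

theorem claimRep : ClaimRep :=
  ⟨fun a b h => Rep.coprime (a + b) a b le_rfl h,
    fun a ha => ⟨(Rep.monic a ha).1, (Rep.monic a ha).2, Rep.coeff_zero a ha⟩⟩

end Pool.Agent.IntComm
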