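import Pool.Agent.Work.MP_584b0c_al.Api2

set_option autoImplicit false

/-! G2: in characteristic zero it suffices to look at the algebraic closure of the rationals. -/

namespace Pool.Agent.IntComm

open Matrix Polynomial

namespace Tr0

section rank

variable {F F' : Type} [Field F] [Field F'] {n : Type} [Fintype n] [DecidableEq n]

theorem rank_block (K : Type) [Field K] (a b : ℕ) :
    (fromBlocks 1 0 0 0 : Matrix (Fin a ⊕ Fin b) (Fin a ⊕ Fin b) K).rank = a := by
  classical
  rw [← diagonal_one, ← diagonal_zero, fromBlocks_diagonal, rank_diagonal, Fintype.card_subtype]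
  have : (Finset.univ.filter fun i : Fin a ⊕ Fin b =>
      (Sum.elim (1 : Fin a → K) (0 : Fin b → K) i) ≠ 0) =
      Finset.univ.map ⟨Sum.inl, Sum.inl_injective⟩ := by
    ext i
    rcases i with i | i <;> simp
  rw [show (Finset.univ.filter fun i : Fin a ⊕ Fin b =>
      (Sum.elim (fun _ => (1 : K)) (fun _ => (0 : K)) i) ≠ 0) =
      Finset.univ.map ⟨Sum.inl, Sum.inl_injective⟩ from this]
  simp

theorem rank_map (i : F →+* F') (M : Matrix n n F) : (M.map i).rank = M.rank := by
  obtain ⟨V, U, e, hV, hU, h⟩ := exists_rank_normal_form M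
  have h1 : V.map i * M.map i * U.map i =
      ((fromBlocks 1 0 0 0 : Matrix (Fin M.rank ⊕ Fin (Fintype.card n - M.rank))
        (Fin M.rank ⊕ Fin (Fintype.card n - M.rank)) F')).submatrix e e := by
    rw [← Matrix.map_mul, ← Matrix.map_mul, h]
    ext x y
    rw [Matrix.map_apply, Matrix.submatrix_apply, Matrix.submatrix_apply]
    rcases e x with a | a <;> rcases e y with b | b <;> simp [Matrix.one_apply]
  have hV' : IsUnit (V.map i).det := by
    have := (Matrix.isUnit_iff_isUnit_det _).mp hV
    have h2 := this.map i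
    rwa [RingHom.map_det] at h2
  have hU' : IsUnit (U.map i).det := by
    have := (Matrix.isUnit_iff_isUnit_det _).mp hU
    have h2 := this.map i
    rwa [RingHom.map_det] at h2
  have h3 := congrArg Matrix.rank h1
  rw [rank_mul_eq_left_of_isUnit_det _ _ hU', rank_mul_eq_right_of_isUnit_det _ _ hV',
    rank_submatrix, rank_block] at h3
  exact h3

theorem ker_add_rank (M : Matrix n n F) :
    M.rank + Module.finrank F (LinearMap.ker (Matrix.toLin' M)) = Fintype.card n := by
  have := LinearMap.finrank_range_add_finrank_ker (Matrix.toLin' M)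
  rw [Module.finrank_fintype_fun_eq_card] at this
  exact this

theorem map_sub_scalar (i : F →+* F') (C : Matrix n n ℤ) (μ : F) :
    (C.map (Int.castRingHom F) - Matrix.scalar n μ).map i =
      C.map (Int.castRingHom F') - Matrix.scalar n (i μ) := by
  ext x y
  rw [Matrix.map_apply, Matrix.sub_apply, Matrix.sub_apply, map_sub]
  congr 1
  · simp
  · rw [Matrix.scalar_apply, Matrix.scalar_apply, Matrix.diagonal_apply, Matrix.diagonal_apply]
    split_ifs <;> simp

theorem mult_map (i : F →+* F') (C : Matrix n n ℤ) (μ : F) :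
    mult F' C (i μ) = mult F C μ := by
  have h1 := ker_add_rank (C.map (Int.castRingHom F) - Matrix.scalar n μ)
  have h2 := ker_add_rank (C.map (Int.castRingHom F') - Matrix.scalar n (i μ))
  rw [← map_sub_scalar i C μ, rank_map, map_sub_scalar] at h2
  unfold mult
  omega

theorem map_W (i : F →+* F') {ρ : Type} (W : Matrix n ρ ℤ) :
    (W.map (Int.castRingHom F)).map i = W.map (Int.castRingHom F') := by
  ext x y
  simp

theorem map_mulVec (i : F →+* F') {ρ : Type} [Fintype ρ] (A : Matrix n ρ F) (a : ρ → F) :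
    (A.map i).mulVec (fun j => i (a j)) = fun j => i (A.mulVec a j) := by
  ext j
  show ∑ l, (A.map i) j l * i (a l) = i (∑ l, A j l * a l)
  rw [map_sum]
  exact Finset.sum_congr rfl fun l _ => by rw [Matrix.map_apply, map_mul]

/-- Descent. -/
theorem cind_of_map (i : F →+* F') {ρ : Type} [Fintype ρ] (C : Matrix n n ℤ) (W : Matrix n ρ ℤ)
    (μ : F) (h : CInd F' C W (i μ)) : CInd F C W μ := by
  intro a u hau
  have h1 := h (fun j => i (a j)) (fun j => i (u j)) (by
    rw [← map_sub_scalar, ← map_W i W, map_mulVec, map_mulVec, hau])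
  funext j
  have h2 := congrFun h1 j
  exact (map_eq_zero i).mp h2

/-- Ascent. -/
theorem cind_map (hc : ClaimCert) (i : F →+* F') {ρ : Type} [Fintype ρ] [DecidableEq ρ]
    (C : Matrix n n ℤ) (W : Matrix n ρ ℤ) (μ : F) (h : CInd F C W μ) : CInd F' C W (i μ) := by
  obtain ⟨Λ, h1, h2⟩ := (hc F n ρ (C.map (Int.castRingHom F) - Matrix.scalar n μ)
    (W.map (Int.castRingHom F))).2.mp h
  refine (hc F' n ρ (C.map (Int.castRingHom F') - Matrix.scalar n (i μ))
    (W.map (Int.castRingHom F'))).2.mpr ⟨Λ.map i, ?_, ?_⟩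
  · rw [← map_sub_scalar, ← Matrix.map_mul, h1]
    exact Matrix.map_zero _ (map_zero _)
  · rw [← map_W i W, ← Matrix.map_mul, h2]
    exact Matrix.map_one _ (map_zero _) (map_one _)

/-- Eigenvalues are integral. -/
theorem integral (C : Matrix n n ℤ) (μ : F) (h : 1 ≤ mult F C μ) : IsIntegral ℤ μ := by
  unfold mult at h
  rw [Submodule.one_le_finrank_iff] at h
  obtain ⟨v, hv, hv0⟩ := Submodule.exists_mem_ne_zero_of_ne_bot h
  rw [LinearMap.mem_ker, Matrix.toLin'_apply] at hv
  have h1 : (C.map (Int.castRingHom F) - Matrix.scalar n μ).det = 0 :=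
    Matrix.exists_mulVec_eq_zero_iff.mp ⟨v, hv0, hv⟩
  refine ⟨C.charpoly, Matrix.charpoly_monic C, ?_⟩
  have h2 : Polynomial.eval₂ (algebraMap ℤ F) μ C.charpoly =
      (C.map (Int.castRingHom F)).charpoly.eval μ := by
    rw [Matrix.charpoly_map, Polynomial.eval_map]
    rfl
  rw [h2, Matrix.eval_charpoly, ← neg_sub, Matrix.det_neg, h1, mul_zero]

end rank

end Tr0

theorem claimTr0 (h : ClaimCert) : ClaimTr0 := by
  intro n ρ _ _ _ _ C W t ht hbar K _ _ μ hμ
  have hint : IsIntegral ℤ μ := Tr0.integral C μ (ht.trans hμ)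
  have hQ : IsIntegral ℚ μ := hint.tower_top
  let E := IntermediateField.adjoin ℚ ({μ} : Set K)
  have hfin : FiniteDimensional ℚ E := IntermediateField.adjoin.finiteDimensional hQ
  let φ : E →ₐ[ℚ] AlgebraicClosure ℚ := IsAlgClosed.lift
  let μE : E := ⟨μ, IntermediateField.mem_adjoin_simple_self ℚ μ⟩
  let i : E →+* K := algebraMap E K
  have hi : i μE = μ := rfl
  have h1 : mult K C μ = mult E C μE := by
    rw [← hi]
    exact Tr0.mult_map i C μE
  have h2 : mult (AlgebraicClosure ℚ) C (φ.toRingHom μE) = mult E C μE :=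
    Tr0.mult_map φ.toRingHom C μE
  have h3 : CInd (AlgebraicClosure ℚ) C W (φ.toRingHom μE) := hbar _ (by rw [h2, ← h1]; exact hμ)
  have h4 : CInd E C W μE := Tr0.cind_of_map φ.toRingHom C W μE h3
  have h5 := Tr0.cind_map h i C W μE h4
  rw [hi] at h5
  exact h5

end Pool.Agent.IntComm
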