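import Pool.Agent.Work.MP_584b0c_al.Api2
import Pool.Agent.Work.MP_584b0c_al.Ext

set_option autoImplicit false

/-! MP_584b0c_al, item H3: the vectors and covectors used for peeling. -/

namespace Pool.Agent.IntComm

open Matrix Polynomial

namespace VPsi

theorem pind_of_left {n ρ : Type} [Fintype n] [Fintype ρ] [DecidableEq ρ] (S : Matrix n ρ ℤ)
    (K : Matrix ρ n ℤ) (h : K * S = 1) : PInd S := by
  intro p hp x hx
  have h1 : (K.map (Int.cast : ℤ → ZMod p)) * (S.map (Int.cast : ℤ → ZMod p)) = 1 := by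
    have h2 := congrArg (fun M : Matrix ρ ρ ℤ => M.map (Int.castRingHom (ZMod p))) h
    simp only [Matrix.map_mul] at h2
    rw [Matrix.map_one _ (map_zero _) (map_one _)] at h2
    exact h2
  calc x = (1 : Matrix ρ ρ (ZMod p)).mulVec x := by rw [Matrix.one_mulVec]
    _ = (K.map (Int.cast : ℤ → ZMod p)).mulVec ((S.map (Int.cast : ℤ → ZMod p)).mulVec x) := by
        rw [Matrix.mulVec_mulVec, h1]
    _ = 0 := by rw [hx, Matrix.mulVec_zero]

/-- the four blocks of `K * (V | W) = 1`. -/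
theorem split_one {N k : ℕ} (K : Matrix (Fin k ⊕ Fin k) (Fin N) ℤ) (V W : Matrix (Fin N) (Fin k) ℤ)
    (h : K * fromCols V W = 1) :
    K.toRows₁ * V = 1 ∧ K.toRows₁ * W = 0 ∧ K.toRows₂ * V = 0 ∧ K.toRows₂ * W = 1 := by
  have hb : fromBlocks (K.toRows₁ * V) (K.toRows₁ * W) (K.toRows₂ * V) (K.toRows₂ * W) =
      fromBlocks (1 : Matrix (Fin k) (Fin k) ℤ) 0 0 1 := by
    rw [fromBlocks_one, ← h, ← fromRows_mul_fromCols, fromRows_toRows]
  rw [fromBlocks_inj] at hb
  exact hb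

end VPsi

open VPsi in
theorem claimVPsi (h1 : ClaimExt) (h2 : ClaimComplete) (h3 : ClaimCSL) (h4 : ClaimKerBasis) :
    ClaimVPsi := by
  intro N k t s m C ht hs hKB hN hNs hst
  classical
  -- step 1
  obtain ⟨V0, hV0⟩ := h1 (Fin N) (Fin 0) (Fin N) C 0 1 2 ((2 - 1) * m) k 0 (hKB 2)
    (by simp only [Fintype.card_fin]; omega)
    (by
      intro p _ x _
      exact Subsingleton.elim _ _)
    (by
      intro p _ x hx
      rw [Matrix.map_one _ Int.cast_zero Int.cast_one, Matrix.one_mulVec] at hx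
      exact hx)
  rw [Matrix.one_mul, zero_add] at hV0
  have hS0 : PInd (fromCols V0 (C * V0)) := by
    have e : fromCols V0 (C * V0) = (Kry C (fromCols (0 : Matrix (Fin N) (Fin 0) ℤ) V0) 2).submatrix
        id (Sum.elim (fun j => ((0 : Fin 2), Sum.inr j)) (fun j => ((1 : Fin 2), Sum.inr j))) := by
      ext i j
      rcases j with j | j
      · rw [fromCols_apply_inl, submatrix_apply, Sum.elim_inl]
        show V0 i j = (C ^ (((0 : Fin 2) : ℕ)) * fromCols (0 : Matrix (Fin N) (Fin 0) ℤ) V0) i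
          (Sum.inr j)
        simp
      · rw [fromCols_apply_inr, submatrix_apply, Sum.elim_inr]
        show (C * V0) i j = (C ^ (((1 : Fin 2) : ℕ)) * fromCols (0 : Matrix (Fin N) (Fin 0) ℤ) V0) i
          (Sum.inr j)
        simp [mul_fromCols]
    rw [e]
    refine ExtItem.PInd.sub hV0 _ ?_
    rintro (a | a) (b | b) hab
    · simp only [Sum.elim_inl, Prod.mk.injEq, Sum.inr.injEq] at hab
      rw [hab.2]
    · simp at hab
    · simp at hab
    · simp only [Sum.elim_inr, Prod.mk.injEq, Sum.inr.injEq] at hab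
      rw [hab.2]
  obtain ⟨-, K, -, hK, -⟩ := h2 (Fin N) (Fin k ⊕ Fin k) (fromCols V0 (C * V0)) (N - 2 * k) hS0
    (by simp only [Fintype.card_fin, Fintype.card_sum]; omega)
  -- step 2
  obtain ⟨ν, G, hν, hG, hMG⟩ := h4 ((Fin k ⊕ Fin k) ⊕ (Fin k ⊕ Fin k)) (Fin N)
    (fromRows K (K * C))
  simp only [Fintype.card_fin, Fintype.card_sum] at hν
  have hKG : K * G = 0 ∧ K * C * G = 0 := by
    rw [fromRows_mul] at hMG
    constructor
    · ext i j
      exact congrFun (congrFun hMG (Sum.inl i)) j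
    · ext i j
      exact congrFun (congrFun hMG (Sum.inr i)) j
  obtain ⟨X, hX⟩ := h3 (Fin N) (Fin ν) C G k V0 t s ht hs (by rw [Fintype.card_fin]; exact hNs)
    (by simp only [Fintype.card_fin]; omega) hG
  have hKV : K * fromCols (V0 + G * X) (C * (V0 + G * X)) = 1 := by
    rw [← hK, mul_fromCols, mul_fromCols]
    have e1 : K * (V0 + G * X) = K * V0 := by
      rw [Matrix.mul_add, ← Matrix.mul_assoc, hKG.1, Matrix.zero_mul, add_zero]
    have e2 : K * (C * (V0 + G * X)) = K * (C * V0) := by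
      rw [Matrix.mul_add, Matrix.mul_add, ← Matrix.mul_assoc C G X, ← Matrix.mul_assoc K (C * G) X,
        ← Matrix.mul_assoc K C G, hKG.2, Matrix.zero_mul, add_zero]
    rw [e1, e2]
  set V := V0 + G * X with hV
  -- step 3
  obtain ⟨B', -, L, -, hLB, -, hLS, -⟩ := h2 (Fin N) (Fin k ⊕ Fin k) (fromCols V (C * V))
    (N - 2 * k) (pind_of_left _ K hKV)
    (by simp only [Fintype.card_fin, Fintype.card_sum]; omega)
  have hLV : L * V = 0 ∧ L * (C * V) = 0 := by
    rw [mul_fromCols] at hLS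
    constructor
    · ext i j
      exact congrFun (congrFun hLS i) (Sum.inl j)
    · ext i j
      exact congrFun (congrFun hLS i) (Sum.inr j)
  have hG2 : PInd Lᵀ := pind_of_left _ B'ᵀ (by
    rw [← Matrix.transpose_mul, hLB, Matrix.transpose_one])
  obtain ⟨hb1, hb2, hb3, hb4⟩ := split_one K V (C * V) hKV
  obtain ⟨Y, hY⟩ := h3 (Fin N) (Fin (N - 2 * k)) Cᵀ Lᵀ k (K.toRows₁ + K.toRows₂)ᵀ t s ht hs
    (by rw [Fintype.card_fin]; exact hNs) (by simp only [Fintype.card_fin]; omega) hG2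
  refine ⟨V, (K.toRows₁ + K.toRows₂) + Yᵀ * L, ?_, ?_, ?_⟩
  · rw [Matrix.add_mul, Matrix.add_mul, hb1, hb3, Matrix.mul_assoc, hLV.1, Matrix.mul_zero,
      add_zero, add_zero]
  · rw [Matrix.add_mul, Matrix.add_mul, hb2, hb4, Matrix.mul_assoc, hLV.2, Matrix.mul_zero,
      zero_add, add_zero]
  · intro p hp
    refine ⟨hX p, ?_⟩
    have e : ((K.toRows₁ + K.toRows₂) + Yᵀ * L)ᵀ = (K.toRows₁ + K.toRows₂)ᵀ + Lᵀ * Y := by
      rw [Matrix.transpose_add _ (Yᵀ * L), Matrix.transpose_mul, Matrix.transpose_transpose]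
    rw [e]
    exact hY p

end Pool.Agent.IntComm
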