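import Pool.Agent.Work.MP_584b0c_al.All
import Pool.Agent.Work.MP_584b0c_al.Assembly2
import Pool.Agent.Work.MP_584b0c_al.Rep
import Pool.Agent.Work.MP_584b0c_al.Comp2
import Pool.Agent.Work.MP_584b0c_al.Poly2
import Pool.Agent.Work.MP_584b0c_al.Param2
import Pool.Agent.Work.MP_584b0c_al.Cert
import Pool.Agent.Work.MP_584b0c_al.Tr0
import Pool.Agent.Work.MP_584b0c_al.FinGood
import Pool.Agent.Work.MP_584b0c_al.LocP
import Pool.Agent.Work.MP_584b0c_al.Loc0
import Pool.Agent.Work.MP_584b0c_al.CSL1
import Pool.Agent.Work.MP_584b0c_al.CSL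
import Pool.Agent.Work.MP_584b0c_al.KerBasis
import Pool.Agent.Work.MP_584b0c_al.MultT
import Pool.Agent.Work.MP_584b0c_al.VPsi
import Pool.Agent.Work.MP_584b0c_al.PeelAlg
import Pool.Agent.Work.MP_584b0c_al.MultBound
import Pool.Agent.Work.MP_584b0c_al.PeelStep
import Pool.Agent.Work.MP_584b0c_al.Iter
import Pool.Agent.Work.MP_584b0c_al.Primes
import Pool.Agent.Work.MP_584b0c_al.PeelList
import Pool.Agent.Work.MP_584b0c_al.Const

set_option autoImplicit false

namespace Pool.Agent.IntComm

theorem comp2_all : ClaimComp2 := claimComp2 stepLU_all claimSchur claimBase claimRepl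
theorem poly2_all : ClaimPoly2 := claimPoly2 claimRep
theorem tr0_all : ClaimTr0 := claimTr0 claimCert
theorem finGood_all : ClaimFinGood := claimFinGood claimCert
theorem loc0_all : ClaimLoc0 := claimLoc0 tr0_all
theorem csl1_all : ClaimCSL1 := claimCSL1 finGood_all claimLocP loc0_all
theorem csl_all : ClaimCSL := claimCSL csl1_all
theorem vPsi_all : ClaimVPsi := claimVPsi ext_all claimComplete csl_all claimKerBasis
theorem peelAlg_all : ClaimPeelAlg := claimPeelAlg claimComplete stepLU_all
theorem peelStep_all : ClaimPeelStep :=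
  claimPeelStep claimKer claimMultT vPsi_all peelAlg_all claimMultBound
theorem iter_all : ClaimIter := claimIter peelStep_all claimRep claimCompan

theorem targetLUF : TargetLUF :=
  targetLUF_of detH_all comp2_all claimFrame poly2_all fact_all claimKer frames_all short_all
    claimParam2

theorem target2 : Target2 :=
  target2_of claimRep targetLUF iter_all claimPrimes claimList claimConst

end Pool.Agent.IntComm
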