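import Pool.Agent.Work.MP_584b0c_al.Stmts

set_option autoImplicit false

/-! Small API: similarity, `LUF`, `IsComm`, rows and frames. -/

namespace Pool.Agent.IntComm

open Matrix Polynomial

section

variable {n m : Type} [Fintype n] [DecidableEq n] [Fintype m] [DecidableEq m]

theorem Sim.refl (A : Matrix n n ℤ) : Sim A A := ⟨1, by simp⟩

theorem Sim.of_unit (P : (Matrix n n ℤ)ˣ) (A : Matrix n n ℤ) :
    Sim A ((P : Matrix n n ℤ) * A * ((P⁻¹ : (Matrix n n ℤ)ˣ) : Matrix n n ℤ)) :=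
  ⟨P, by rw [Matrix.mul_assoc, Units.inv_mul, Matrix.mul_one]⟩

theorem Sim.symm {A B : Matrix n n ℤ} (h : Sim A B) : Sim B A := by
  obtain ⟨P, hP⟩ := h
  refine ⟨P⁻¹, ?_⟩
  calc ((P⁻¹ : (Matrix n n ℤ)ˣ) : Matrix n n ℤ) * B
      = ((P⁻¹ : (Matrix n n ℤ)ˣ) : Matrix n n ℤ) * (B * (P : Matrix n n ℤ)) *
          ((P⁻¹ : (Matrix n n ℤ)ˣ) : Matrix n n ℤ) := by
        rw [Matrix.mul_assoc, Matrix.mul_assoc, Units.mul_inv, Matrix.mul_one]
    _ = A * ((P⁻¹ : (Matrix n n ℤ)ˣ) : Matrix n n ℤ) := by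
        rw [← hP, ← Matrix.mul_assoc, Units.inv_mul, Matrix.one_mul]

theorem Sim.trans {A B C : Matrix n n ℤ} (h : Sim A B) (h' : Sim B C) : Sim A C := by
  obtain ⟨P, hP⟩ := h
  obtain ⟨Q, hQ⟩ := h'
  refine ⟨Q * P, ?_⟩
  rw [Units.val_mul, Matrix.mul_assoc, hP, ← Matrix.mul_assoc, hQ, Matrix.mul_assoc]

theorem Sim.eq_conj {A B : Matrix n n ℤ} (h : Sim A B) : ∃ P : (Matrix n n ℤ)ˣ,
    B = (P : Matrix n n ℤ) * A * ((P⁻¹ : (Matrix n n ℤ)ˣ) : Matrix n n ℤ) := by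
  obtain ⟨P, hP⟩ := h
  exact ⟨P, by rw [hP, Matrix.mul_assoc, Units.mul_inv, Matrix.mul_one]⟩

/-- Similar units have similar inverses. -/
theorem Sim.inv {A B : (Matrix n n ℤ)ˣ} (h : Sim (A : Matrix n n ℤ) (B : Matrix n n ℤ)) :
    Sim ((A⁻¹ : (Matrix n n ℤ)ˣ) : Matrix n n ℤ) ((B⁻¹ : (Matrix n n ℤ)ˣ) : Matrix n n ℤ) := by
  obtain ⟨P, hP⟩ := h
  refine ⟨P, ?_⟩
  have h1 : P * A = B * P := Units.ext hP
  have h2 : P * A⁻¹ = B⁻¹ * P := by
    rw [mul_inv_eq_iff_eq_mul, mul_assoc, h1, ← mul_assoc, inv_mul_cancel, one_mul]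
  have := congrArg (fun u : (Matrix n n ℤ)ˣ => (u : Matrix n n ℤ)) h2
  simpa using this

theorem Sim.det_eq {A B : Matrix n n ℤ} (h : Sim A B) : A.det = B.det := by
  obtain ⟨P, hP⟩ := h.eq_conj
  rw [hP, Matrix.det_mul, Matrix.det_mul, mul_comm, ← mul_assoc, ← Matrix.det_mul, Units.inv_mul,
    Matrix.det_one, one_mul]

theorem aeval_conj (P : (Matrix n n ℤ)ˣ) (A : Matrix n n ℤ) (F : ℤ[X]) :
    aeval ((P : Matrix n n ℤ) * A * ((P⁻¹ : (Matrix n n ℤ)ˣ) : Matrix n n ℤ)) F =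
      (P : Matrix n n ℤ) * aeval A F * ((P⁻¹ : (Matrix n n ℤ)ˣ) : Matrix n n ℤ) := by
  induction F using Polynomial.induction_on' with
  | add p q hp hq => rw [map_add, map_add, hp, hq, Matrix.mul_add, Matrix.add_mul]
  | monomial k a =>
    rw [aeval_monomial, aeval_monomial]
    have hk : ((P : Matrix n n ℤ) * A * ((P⁻¹ : (Matrix n n ℤ)ˣ) : Matrix n n ℤ)) ^ k =
        (P : Matrix n n ℤ) * A ^ k * ((P⁻¹ : (Matrix n n ℤ)ˣ) : Matrix n n ℤ) := by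
      induction k with
      | zero => simp
      | succ k ih =>
        rw [pow_succ, ih, pow_succ]
        simp only [Matrix.mul_assoc]
        rw [← Matrix.mul_assoc ((P⁻¹ : (Matrix n n ℤ)ˣ) : Matrix n n ℤ) (P : Matrix n n ℤ),
          Units.inv_mul, Matrix.one_mul]
    rw [hk]
    simp only [Algebra.algebraMap_eq_smul_one, smul_mul_assoc, one_mul, mul_smul_comm]

theorem Sim.aeval_eq_zero {A B : Matrix n n ℤ} (h : Sim A B) {F : ℤ[X]} (hF : aeval A F = 0) :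
    aeval B F = 0 := by
  obtain ⟨P, hP⟩ := h.eq_conj
  rw [hP, aeval_conj, hF, Matrix.mul_zero, Matrix.zero_mul]

theorem LUF.of_sim {F : ℤ[X]} {M M' : Matrix n n ℤ} (h : Sim M M') (hM : LUF F M') : LUF F M := by
  obtain ⟨L, U, h1, h2, h3⟩ := hM
  exact ⟨L, U, h.trans h1, h2, h3⟩

theorem LUF.one : LUF (X - 1) (1 : Matrix n n ℤ) :=
  ⟨1, 1, by simpa using Sim.refl _, by simpa using Sim.refl _, by simp⟩

theorem IsComm.of_sim {M M' : Matrix n n ℤ} (h : Sim M M') (hM : IsComm M') : IsComm M := by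
  obtain ⟨P, hP⟩ := h.symm.eq_conj
  obtain ⟨A, B, hAB⟩ := hM
  refine ⟨P * A * P⁻¹, P * B * P⁻¹, ?_⟩
  have : (P * A * P⁻¹) * (P * B * P⁻¹) * (P * A * P⁻¹)⁻¹ * (P * B * P⁻¹)⁻¹ =
      P * (A * B * A⁻¹ * B⁻¹) * P⁻¹ := by group
  rw [this, Units.val_mul, Units.val_mul, hAB, hP]

theorem LUF.isComm {F : ℤ[X]} {M : Matrix n n ℤ} (h : LUF F M) : IsComm M := by
  obtain ⟨L, U, h1, h2, -⟩ := h
  refine IsComm.of_sim h1 ?_
  obtain ⟨P, hP⟩ := h2
  have h3 : P * L = U⁻¹ * P := Units.ext hP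
  refine ⟨L, P, ?_⟩
  have h4 : U = P * L⁻¹ * P⁻¹ := by
    rw [eq_mul_inv_iff_mul_eq, eq_mul_inv_iff_mul_eq, mul_assoc, h3, ← mul_assoc, mul_inv_cancel,
      one_mul]
  have h5 : L * P * L⁻¹ * P⁻¹ = L * U := by rw [h4]; group
  rw [h5]

end

/-! ### rows and frames -/

theorem row_mul {τ σ : Type} : ∀ (q : ℕ) {p p' : Type} [Fintype p] (A : Matrix p' p ℤ)
    (P : Matrix p (τ ⊕ σ) ℤ), row q (A * P) = A * row q P
  | 0, p, p', _, A, P => by
      show fromCols (fromCols (A * P).toCols₁ 0) (A * P).toCols₂ =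
        A * fromCols (fromCols P.toCols₁ 0) P.toCols₂
      rw [mul_fromCols, mul_fromCols, Matrix.mul_zero]
      rfl
  | q + 1, p, p', _, A, P => by
      show fromCols 0 (row q (A * P)) = A * fromCols (0 : Matrix p (τ ⊕ σ) ℤ) (row q P)
      rw [mul_fromCols, Matrix.mul_zero, row_mul q]

theorem row_neg {τ σ : Type} : ∀ (q : ℕ) {p : Type} (P : Matrix p (τ ⊕ σ) ℤ),
    row q (-P) = -row q P
  | 0, p, P => by
      show fromCols (fromCols (-P).toCols₁ 0) (-P).toCols₂ = -fromCols (fromCols P.toCols₁ 0) P.toCols₂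
      ext i j
      rcases j with (j | j) | j <;> simp [Matrix.toCols₁, Matrix.toCols₂]
  | q + 1, p, P => by
      show fromCols 0 (row q (-P)) = -fromCols (0 : Matrix p (τ ⊕ σ) ℤ) (row q P)
      rw [row_neg q]
      ext i j
      rcases j with j | j <;> simp

theorem mul_frame {n τ σ : Type} [Fintype n] (C : Matrix n n ℤ) :
    ∀ (q : ℕ) (V : Matrix n (τ ⊕ σ) ℤ), C * frame C q V = frame C q (C * V)
  | 0, V => rfl
  | q + 1, V => by
      show C * fromCols V (frame C q (C * V)) = fromCols (C * V) (frame C q (C * (C * V)))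
      rw [mul_fromCols, mul_frame C q]

theorem J_mul_J (τ σ : Type) [Fintype τ] [DecidableEq τ] [Fintype σ] [DecidableEq σ] :
    J τ σ * J τ σ = 1 := by
  unfold J
  rw [fromBlocks_multiply]
  simp

end Pool.Agent.IntComm
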