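import Pool.Agent.Work.MP_584b0c_al.Api

set_option autoImplicit false

/-!
Second part: every C in SL_n(Z) whose eigenspaces modulo every prime have dimension at most
n - C0 sqrt(n log n) is a commutator.
-/

namespace Pool.Agent.IntComm

open Matrix Polynomial

/-! ## Part F: polynomials, and the LUF form of the first theorem -/

/-- `1 + X + ... + X^(a-1)`. -/
noncomputable def rep (a : ℕ) : ℤ[X] := ∑ i ∈ Finset.range a, X ^ i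

/-- F1. Coprime lengths give comaximal polynomials. -/
def ClaimRep : Prop := (∀ a b : ℕ, Nat.Coprime a b → IsCoprime (rep a) (rep b)) ∧
  ∀ a : ℕ, 1 ≤ a → (rep a).Monic ∧ (rep a).natDegree = a - 1 ∧ (rep a).coeff 0 = 1

/-- F2. `ClaimComp` with a general last polynomial. -/
def ClaimComp2 : Prop := ∀ (τ σ : Type) [Fintype τ] [DecidableEq τ] [Fintype σ] [DecidableEq σ]
  (q : ℕ) (F₀ : ℤ[X]) (Fs : List ℤ[X]), LUF F₀ (1 : Matrix σ σ ℤ) → Fs.length = q + 1 →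
  Fs.Pairwise IsCoprime → (∀ F ∈ Fs, IsCoprime F F₀) → ∀ D : Matrix (τ ⊕ σ) (τ ⊕ σ) ℤ,
  ProdComm Fs D → ∀ H : Matrix (Idx τ σ (q + 1)) (Idx τ σ (q + 1)) ℤ,
  IsH q ((-1 : ℤ) ^ q • (D * J τ σ)) H → LUF (Fs.prod * F₀) H

/-- F3. The family of polynomials, with factors `rep ℓ`. -/
def ClaimPoly2 : Prop := ∀ Q : ℕ, ∃ (A : Finset ℕ) (L : ℕ), 0 < L ∧ (∀ ℓ ∈ A, ℓ.Prime) ∧
  ∀ m : ℕ, 0 < m → L ∣ m → ∃ Fs : List ℤ[X], Fs.length = Q ∧ (∀ F ∈ Fs, Fam m F) ∧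
    Fs.Pairwise IsCoprime ∧ (∀ F ∈ Fs, IsCoprime F (rep 2)) ∧
    ∃ e : ℕ, Fs.prod * rep 2 ∣ (∏ ℓ ∈ A, rep ℓ) ^ e

/-- F4. Choice of the parameters with `L ∣ m`. -/
def ClaimParam2 : Prop := ∀ (Q L : ℕ), 1 ≤ Q → 1 ≤ L → ∃ c : ℝ, 0 < c ∧ ∃ n₀ : ℕ,
  ∀ n : ℕ, n₀ ≤ n → ∀ e : ℕ, (e : ℝ) ≤ c * n → ∃ m s j j₀ δ : ℕ, L ∣ m ∧ 2 ≤ m ∧
    n = Q * (2 * m) + s ∧ 2 * m = j + s ∧ n = (Q + 1) * j₀ + δ ∧ j₀ + δ ≤ 2 * m ∧
    Q + 1 + Q * e ≤ δ ∧ Q * δ + Q + (Q - 1) * e ≤ j₀ ∧ Q + (Q - 1) * e ≤ s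

/-! ## Part G: vectors independent modulo `C - μ` -/

/-- The dimension of the eigenspace of `C` for `μ` over the field `K`. -/
noncomputable def mult {n : Type} [Fintype n] [DecidableEq n] (K : Type) [Field K]
    (C : Matrix n n ℤ) (μ : K) : ℕ :=
  Module.finrank K (LinearMap.ker (Matrix.toLin'
    (C.map (Int.castRingHom K) - Matrix.scalar n μ)))

/-- The columns of `W` are linearly independent over `K` modulo the image of `C - μ`. -/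
def CInd {n ρ : Type} [Fintype n] [DecidableEq n] [Fintype ρ] (K : Type) [Field K]
    (C : Matrix n n ℤ) (W : Matrix n ρ ℤ) (μ : K) : Prop :=
  ∀ (a : ρ → K) (u : n → K), (W.map (Int.castRingHom K)).mulVec a =
    (C.map (Int.castRingHom K) - Matrix.scalar n μ).mulVec u → a = 0

/-- `W` is good at the prime `p`: independent modulo `C - μ` for all `μ` with a large eigenspace. -/
def GoodP {n ρ : Type} [Fintype n] [DecidableEq n] [Fintype ρ] (p : ℕ) [Fact p.Prime]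
    (C : Matrix n n ℤ) (W : Matrix n ρ ℤ) (t : ℕ) : Prop :=
  ∀ μ : AlgebraicClosure (ZMod p), t ≤ mult (AlgebraicClosure (ZMod p)) C μ →
    CInd (AlgebraicClosure (ZMod p)) C W μ

/-- `W` is good in characteristic zero. -/
def Good0 {n ρ : Type} [Fintype n] [DecidableEq n] [Fintype ρ]
    (C : Matrix n n ℤ) (W : Matrix n ρ ℤ) (t : ℕ) : Prop :=
  ∀ (K : Type) [Field K] [CharZero K] (μ : K), t ≤ mult K C μ → CInd K C W μ

/-- A vector as a matrix with one column. -/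
def colM {n : Type} (v : n → ℤ) : Matrix n (Fin 1) ℤ := Matrix.of fun i _ => v i

/-- G1. Certificates over a field. -/
def ClaimCert : Prop := ∀ (K : Type) [Field K] (n ρ : Type) [Fintype n] [DecidableEq n]
  [Fintype ρ] [DecidableEq ρ] (M : Matrix n n K) (W : Matrix n ρ K),
  (∀ t : ℕ, t ≤ Module.finrank K (LinearMap.ker (Matrix.toLin' M)) ↔
    ∃ (Z : Matrix n (Fin t) K) (Y : Matrix (Fin t) n K), M * Z = 0 ∧ Y * Z = 1) ∧
  ((∀ (a : ρ → K) (u : n → K), W.mulVec a = M.mulVec u → a = 0) ↔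
    ∃ Λ : Matrix ρ n K, Λ * M = 0 ∧ Λ * W = 1)

/-- G2. In characteristic zero it suffices to look at the algebraic closure of the rationals. -/
def ClaimTr0 : Prop := ∀ (n ρ : Type) [Fintype n] [DecidableEq n] [Fintype ρ] [DecidableEq ρ]
  (C : Matrix n n ℤ) (W : Matrix n ρ ℤ) (t : ℕ), 1 ≤ t →
  (∀ μ : AlgebraicClosure ℚ, t ≤ mult (AlgebraicClosure ℚ) C μ →
    CInd (AlgebraicClosure ℚ) C W μ) → Good0 C W t

/-- G3. Good in characteristic zero implies good at almost all primes. -/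
def ClaimFinGood : Prop := ∀ (n ρ : Type) [Fintype n] [DecidableEq n] [Fintype ρ]
  [DecidableEq ρ] (C : Matrix n n ℤ) (W : Matrix n ρ ℤ) (t : ℕ), Good0 C W t →
  {p : ℕ | ∃ h : p.Prime, ¬ @GoodP n ρ _ _ _ p ⟨h⟩ C W t}.Finite

/-- G4. Local existence. -/
def ClaimLocP : Prop := ∀ (n ρ ν : Type) [Fintype n] [DecidableEq n] [Fintype ρ] [DecidableEq ρ]
  [Fintype ν] [DecidableEq ν] (C : Matrix n n ℤ) (S : Matrix n ρ ℤ) (G : Matrix n ν ℤ)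
  (b : n → ℤ) (t s : ℕ), 1 ≤ t → Fintype.card n < 2 ^ s →
  s + Fintype.card n + Fintype.card ρ ≤ Fintype.card ν + t →
  ∀ (p : ℕ) [Fact p.Prime], PIndAt p G → GoodP p C S t →
  ∃ x : ν → ℤ, GoodP p C (fromCols S (colM (b + G.mulVec x))) t

/-- G5. Existence in characteristic zero, in a given residue class. -/
def ClaimLoc0 : Prop := ∀ (n ρ ν : Type) [Fintype n] [DecidableEq n] [Fintype ρ] [DecidableEq ρ]
  [Fintype ν] [DecidableEq ν] (C : Matrix n n ℤ) (S : Matrix n ρ ℤ) (G : Matrix n ν ℤ)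
  (b : n → ℤ) (t : ℕ), 1 ≤ t → Fintype.card n + Fintype.card ρ + 1 ≤ Fintype.card ν + t →
  PInd G → Good0 C S t → ∀ (N : ℕ) (x₀ : ν → ℤ), 0 < N →
  ∃ x : ν → ℤ, (∀ i, (N : ℤ) ∣ x i - x₀ i) ∧ Good0 C (fromCols S (colM (b + G.mulVec x))) t

/-- G6. One more column, good everywhere. -/
def ClaimCSL1 : Prop := ∀ (n ρ ν : Type) [Fintype n] [DecidableEq n] [Fintype ρ] [DecidableEq ρ]
  [Fintype ν] [DecidableEq ν] (C : Matrix n n ℤ) (S : Matrix n ρ ℤ) (G : Matrix n ν ℤ)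
  (b : n → ℤ) (t s : ℕ), 1 ≤ t → 1 ≤ s → Fintype.card n < 2 ^ s →
  s + Fintype.card n + Fintype.card ρ + 1 ≤ Fintype.card ν + t →
  PInd G → Good0 C S t → (∀ (p : ℕ) [Fact p.Prime], GoodP p C S t) →
  ∃ x : ν → ℤ, Good0 C (fromCols S (colM (b + G.mulVec x))) t ∧
    ∀ (p : ℕ) [Fact p.Prime], GoodP p C (fromCols S (colM (b + G.mulVec x))) t

/-- G7. Several columns. -/
def ClaimCSL : Prop := ∀ (n ν : Type) [Fintype n] [DecidableEq n] [Fintype ν] [DecidableEq ν]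
  (C : Matrix n n ℤ) (G : Matrix n ν ℤ) (k : ℕ) (B : Matrix n (Fin k) ℤ) (t s : ℕ), 1 ≤ t →
  1 ≤ s → Fintype.card n < 2 ^ s → s + Fintype.card n + k ≤ Fintype.card ν + t → PInd G →
  ∃ X : Matrix ν (Fin k) ℤ, ∀ (p : ℕ) [Fact p.Prime], GoodP p C (B + G * X) t

/-! ## Part H: peeling off a block -/

/-- H1. Unimodular basis of the kernel of an integer matrix. -/
def ClaimKerBasis : Prop := ∀ (m n : Type) [Fintype m] [DecidableEq m] [Fintype n]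
  [DecidableEq n] (M : Matrix m n ℤ), ∃ (ν : ℕ) (G : Matrix n (Fin ν) ℤ),
    Fintype.card n ≤ ν + Fintype.card m ∧ PInd G ∧ M * G = 0

/-- H2. Transposed matrices have the same eigenspace dimensions. -/
def ClaimMultT : Prop := ∀ (n : Type) [Fintype n] [DecidableEq n] (K : Type) [Field K]
  (C : Matrix n n ℤ) (μ : K), mult K Cᵀ μ = mult K C μ

/-- H3. The vectors and covectors used for peeling. -/
def ClaimVPsi : Prop := ∀ (N k t s m : ℕ) (C : Matrix (Fin N) (Fin N) ℤ), 1 ≤ t → 1 ≤ s →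
  (∀ d : ℕ, KB C d ((d - 1) * m)) → 2 * k + 2 + m ≤ N → N < 2 ^ s → s + 5 * k ≤ t →
  ∃ (V : Matrix (Fin N) (Fin k) ℤ) (ψ : Matrix (Fin k) (Fin N) ℤ), ψ * V = 1 ∧
    ψ * (C * V) = 1 ∧ ∀ (p : ℕ) [Fact p.Prime], GoodP p C V t ∧ GoodP p Cᵀ ψᵀ t

/-- H4. Algebra of peeling. -/
def ClaimPeelAlg : Prop := ∀ (k n' : ℕ) (C : Matrix (Fin (k + n')) (Fin (k + n')) ℤ)
  (V : Matrix (Fin (k + n')) (Fin k) ℤ) (ψ : Matrix (Fin k) (Fin (k + n')) ℤ), ψ * V = 1 →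
  ψ * (C * V) = 1 → ∃ S : Matrix (Fin n') (Fin n') ℤ, S.det = C.det ∧
    (∀ (K : Type) [Field K] (μ : K), mult K S μ =
      Module.finrank K (LinearMap.ker (Matrix.toLin' (C.map (Int.castRingHom K) -
        Matrix.scalar (Fin (k + n')) μ +
        μ • (V.map (Int.castRingHom K) * ψ.map (Int.castRingHom K)))))) ∧
    ∀ (G F' : ℤ[X]) (X : (Matrix (Fin k) (Fin k) ℤ)ˣ),
      aeval (X : Matrix (Fin k) (Fin k) ℤ) G = 0 → IsCoprime G F' → LUF F' S → LUF (G * F') C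

/-- H5. Change of the eigenspace dimensions under a perturbation of rank `card κ`. -/
def ClaimMultBound : Prop := ∀ (K : Type) [Field K] (n κ : Type) [Fintype n] [DecidableEq n]
  [Fintype κ] [DecidableEq κ] (A : Matrix n n K) (V : Matrix n κ K) (ψ : Matrix κ n K) (μ : K),
  Module.finrank K (LinearMap.ker (Matrix.toLin' (A - Matrix.scalar n μ + μ • (V * ψ)))) ≤
    Module.finrank K (LinearMap.ker (Matrix.toLin' (A - Matrix.scalar n μ))) + Fintype.card κ ∧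
  (μ ≠ 0 → (∀ (a : κ → K) (u : n → K), V.mulVec a = (A - Matrix.scalar n μ).mulVec u → a = 0) →
    (∀ (a : κ → K) (u : n → K), ψᵀ.mulVec a = (Aᵀ - Matrix.scalar n μ).mulVec u → a = 0) →
    Module.finrank K (LinearMap.ker (Matrix.toLin' (A - Matrix.scalar n μ + μ • (V * ψ)))) +
      Fintype.card κ ≤
      Module.finrank K (LinearMap.ker (Matrix.toLin' (A - Matrix.scalar n μ))))

/-- H6. One peeling step. -/
def ClaimPeelStep : Prop := ∀ (k n' t s m : ℕ) (C : Matrix (Fin (k + n')) (Fin (k + n')) ℤ),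
  1 ≤ t → 1 ≤ s → C.det = 1 →
  (∀ (p : ℕ) [Fact p.Prime] (μ : AlgebraicClosure (ZMod p)),
    mult (AlgebraicClosure (ZMod p)) C μ ≤ m) →
  2 * k + 2 + m ≤ k + n' → k + n' < 2 ^ s → s + 5 * k ≤ t →
  ∃ S : Matrix (Fin n') (Fin n') ℤ, S.det = 1 ∧
    (∀ (p : ℕ) [Fact p.Prime] (μ : AlgebraicClosure (ZMod p)),
      mult (AlgebraicClosure (ZMod p)) S μ ≤ max (m - k) (t + k)) ∧
    ∀ (G F' : ℤ[X]) (X : (Matrix (Fin k) (Fin k) ℤ)ˣ),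
      aeval (X : Matrix (Fin k) (Fin k) ℤ) G = 0 → IsCoprime G F' → LUF F' S → LUF (G * F') C

/-- H7. Many peeling steps. -/
def ClaimIter : Prop := ∀ (K t s n' : ℕ), 1 ≤ t → 1 ≤ s → s + 5 * K ≤ t → t + 3 * K + 2 ≤ n' →
  ∀ (L : List (ℕ × ℕ)), (∀ x ∈ L, x.1.Prime ∧ 0 < x.2 ∧ (x.1 - 1) ∣ x.2 ∧ x.2 ≤ K) →
  (L.map Prod.fst).Nodup → ∀ (n m : ℕ) (C : Matrix (Fin n) (Fin n) ℤ),
  n = (L.map Prod.snd).sum + n' → n < 2 ^ s → m + 2 * K + 2 ≤ n → C.det = 1 →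
  (∀ (p : ℕ) [Fact p.Prime] (μ : AlgebraicClosure (ZMod p)),
    mult (AlgebraicClosure (ZMod p)) C μ ≤ m) →
  ∃ S : Matrix (Fin n') (Fin n') ℤ, S.det = 1 ∧
    (∀ (p : ℕ) [Fact p.Prime] (μ : AlgebraicClosure (ZMod p)),
      mult (AlgebraicClosure (ZMod p)) S μ ≤ max (m - (L.map Prod.snd).sum) (t + K)) ∧
    ∀ F₀ : ℤ[X], (∀ x ∈ L, IsCoprime (rep x.1) F₀) → LUF F₀ S →
      LUF (F₀ * (L.map fun x => rep x.1 ^ (x.2 / (x.1 - 1))).prod) C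

/-! ## Part I: final parameters -/

/-- I1. Enough primes. -/
def ClaimPrimes : Prop := ∀ A : Finset ℕ, ∃ K₀ : ℕ, ∀ K : ℕ, K₀ ≤ K →
  (K : ℝ) / (8 * Real.log K) ≤
    (((Finset.range (K / 2 + 1)).filter fun ℓ => ℓ.Prime ∧ ℓ ∉ A).card : ℝ)

/-- I2. The list of peeled blocks. -/
def ClaimList : Prop := ∀ (A : Finset ℕ) (K n ρ : ℕ), 4 ≤ K → K ≤ ρ →
  2 * n ≤ K * (((Finset.range (K / 2 + 1)).filter fun ℓ => ℓ.Prime ∧ ℓ ∉ A).card) →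
  ∃ (L : List (ℕ × ℕ)) (n' : ℕ),
    (∀ x ∈ L, x.1.Prime ∧ 0 < x.2 ∧ (x.1 - 1) ∣ x.2 ∧ x.2 ≤ K ∧ x.1 ∉ A) ∧
    (L.map Prod.fst).Nodup ∧ n = (L.map Prod.snd).sum + n' ∧ n' ≤ ρ ∧ (ρ < n' + K ∨ n' = n)

/-- I3. Final choice of the constants. -/
def ClaimConst : Prop := ∀ (c : ℝ) (n₀ K₀ : ℕ), 0 < c → ∃ C₀ : ℝ, ∀ n ρ : ℕ, 2 ≤ n → ρ ≤ n →
  C₀ * Real.sqrt (n * Real.log n) ≤ ρ → ∃ K s : ℕ, 4 ≤ K ∧ K₀ ≤ K ∧ 1 ≤ s ∧ n < 2 ^ s ∧ s ≤ K ∧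
    n₀ + 100 * K ≤ ρ ∧ (7 * K : ℝ) ≤ c * (ρ - K) ∧
    (2 * n : ℝ) ≤ K * ((K : ℝ) / (8 * Real.log K))

/-- The first theorem in the LUF form. -/
def TargetLUF : Prop := ∃ (A : Finset ℕ) (c : ℝ) (n₀ : ℕ), 0 < c ∧ (∀ ℓ ∈ A, ℓ.Prime) ∧
  ∀ n : ℕ, n₀ ≤ n → ∀ (C : Matrix (Fin n) (Fin n) ℤ) (e : ℕ), C.det = 1 → (e : ℝ) ≤ c * n →
  (∀ (p : ℕ) [Fact p.Prime] (μ : AlgebraicClosure (ZMod p)),
    mult (AlgebraicClosure (ZMod p)) C μ ≤ e) →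
  ∃ r : ℕ, LUF ((∏ ℓ ∈ A, rep ℓ) ^ r) C

/-- The final theorem. -/
def Target2 : Prop := ∃ C₀ : ℝ, ∀ (n : ℕ) (C : Matrix (Fin n) (Fin n) ℤ), C.det = 1 →
  (∀ (p : ℕ) [Fact p.Prime] (μ : AlgebraicClosure (ZMod p)),
    (mult (AlgebraicClosure (ZMod p)) C μ : ℝ) ≤ n - C₀ * Real.sqrt (n * Real.log n)) →
  IsComm C

end Pool.Agent.IntComm
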