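import Pool.Agent.Work.MP_584b0c_al.Assembly
import Pool.Agent.Work.MP_584b0c_al.Stmts2

set_option autoImplicit false

/-! Small API for the second part. -/

namespace Pool.Agent.IntComm

open Matrix Polynomial

theorem LUF.mono {n : Type} [Fintype n] [DecidableEq n] {F F' : ℤ[X]} {M : Matrix n n ℤ}
    (hd : F ∣ F') (h : LUF F M) : LUF F' M := by
  obtain ⟨L, U, h1, h2, h3⟩ := h
  obtain ⟨Q, rfl⟩ := hd
  exact ⟨L, U, h1, h2, by rw [map_mul, h3, zero_mul]⟩

/-- `1` satisfies the criterion with the polynomial `1 + X` (take `L = U = -1`). -/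
theorem LUF.rep2 {n : Type} [Fintype n] [DecidableEq n] : LUF (rep 2) (1 : Matrix n n ℤ) := by
  refine ⟨-1, -1, ?_, ?_, ?_⟩
  · simpa using Sim.refl (1 : Matrix n n ℤ)
  · simpa using Sim.refl (-1 : Matrix n n ℤ)
  · simp [rep, Finset.sum_range_succ]

/-- Units transported along mutually inverse rectangular matrices. -/
def rectUnit {n m : Type} [Fintype n] [DecidableEq n] [Fintype m] [DecidableEq m]
    (h : Matrix n m ℤ) (h' : Matrix m n ℤ) (h1 : h' * h = 1) (h2 : h * h' = 1)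
    (u : (Matrix m m ℤ)ˣ) : (Matrix n n ℤ)ˣ where
  val := h * (u : Matrix m m ℤ) * h'
  inv := h * ((u⁻¹ : (Matrix m m ℤ)ˣ) : Matrix m m ℤ) * h'
  val_inv := by
    calc h * (u : Matrix m m ℤ) * h' * (h * ((u⁻¹ : (Matrix m m ℤ)ˣ) : Matrix m m ℤ) * h')
        = h * (u : Matrix m m ℤ) * (h' * h) * ((u⁻¹ : (Matrix m m ℤ)ˣ) : Matrix m m ℤ) * h' := by
          simp only [Matrix.mul_assoc]
      _ = h * ((u : Matrix m m ℤ) * ((u⁻¹ : (Matrix m m ℤ)ˣ) : Matrix m m ℤ)) * h' := by
          rw [h1, Matrix.mul_one, Matrix.mul_assoc h]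
      _ = 1 := by rw [Units.mul_inv, Matrix.mul_one, h2]
  inv_val := by
    calc h * ((u⁻¹ : (Matrix m m ℤ)ˣ) : Matrix m m ℤ) * h' * (h * (u : Matrix m m ℤ) * h')
        = h * ((u⁻¹ : (Matrix m m ℤ)ˣ) : Matrix m m ℤ) * (h' * h) * (u : Matrix m m ℤ) * h' := by
          simp only [Matrix.mul_assoc]
      _ = h * (((u⁻¹ : (Matrix m m ℤ)ˣ) : Matrix m m ℤ) * (u : Matrix m m ℤ)) * h' := by
          rw [h1, Matrix.mul_one, Matrix.mul_assoc h]
      _ = 1 := by rw [Units.inv_mul, Matrix.mul_one, h2]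

section

variable {n m : Type} [Fintype n] [DecidableEq n] [Fintype m] [DecidableEq m]
  (h : Matrix n m ℤ) (h' : Matrix m n ℤ) (h1 : h' * h = 1) (h2 : h * h' = 1)

theorem rectUnit_val (u : (Matrix m m ℤ)ˣ) :
    (rectUnit h h' h1 h2 u : Matrix n n ℤ) = h * (u : Matrix m m ℤ) * h' := rfl

theorem rectUnit_inv (u : (Matrix m m ℤ)ˣ) :
    (((rectUnit h h' h1 h2 u)⁻¹ : (Matrix n n ℤ)ˣ) : Matrix n n ℤ) =
      h * ((u⁻¹ : (Matrix m m ℤ)ˣ) : Matrix m m ℤ) * h' := rfl

include h1 in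
theorem rect_mul (A B : Matrix m m ℤ) : (h * A * h') * (h * B * h') = h * (A * B) * h' := by
  calc (h * A * h') * (h * B * h') = h * A * (h' * h) * B * h' := by
        simp only [Matrix.mul_assoc]
    _ = h * (A * B) * h' := by rw [h1, Matrix.mul_one, Matrix.mul_assoc h]

include h1 h2 in
theorem rect_aeval (A : Matrix m m ℤ) (F : ℤ[X]) :
    aeval (h * A * h') F = h * aeval A F * h' := by
  induction F using Polynomial.induction_on' with
  | add p q hp hq => rw [map_add, map_add, hp, hq, Matrix.mul_add, Matrix.add_mul]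
  | monomial k a =>
    have hk : (h * A * h') ^ k = h * A ^ k * h' := by
      induction k with
      | zero => rw [pow_zero, pow_zero, Matrix.mul_one, h2]
      | succ k ih => rw [pow_succ, ih, pow_succ, rect_mul h h' h1]
    rw [aeval_monomial, aeval_monomial, hk]
    simp only [Algebra.algebraMap_eq_smul_one, smul_mul_assoc, one_mul, Matrix.mul_smul,
      Matrix.smul_mul]

include h1 h2 in
theorem Sim.rect {A B : Matrix m m ℤ} (hs : Sim A B) : Sim (h * A * h') (h * B * h') := by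
  obtain ⟨P, hP⟩ := hs
  refine ⟨rectUnit h h' h1 h2 P, ?_⟩
  rw [rectUnit_val, rect_mul h h' h1, rect_mul h h' h1, hP]

include h1 h2 in
theorem LUF.of_rect {F : ℤ[X]} {C : Matrix n n ℤ} (hC : LUF F (h' * C * h)) : LUF F C := by
  obtain ⟨L, U, e1, e2, e3⟩ := hC
  have hCC : h * (h' * C * h) * h' = C := by
    calc h * (h' * C * h) * h' = (h * h') * C * (h * h') := by simp only [Matrix.mul_assoc]
      _ = C := by rw [h2, Matrix.one_mul, Matrix.mul_one]
  refine ⟨rectUnit h h' h1 h2 L, rectUnit h h' h1 h2 U, ?_, ?_, ?_⟩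
  · have := Sim.rect h h' h1 h2 e1
    rw [hCC] at this
    rw [Units.val_mul, rectUnit_val, rectUnit_val, rect_mul h h' h1]
    rw [Units.val_mul] at this
    exact this
  · rw [rectUnit_val, rectUnit_inv]
    exact Sim.rect h h' h1 h2 e2
  · rw [rectUnit_val, rect_aeval h h' h1 h2, e3, Matrix.mul_zero, Matrix.zero_mul]

end

end Pool.Agent.IntComm
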