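import Pool.Agent.Work.MP_584b0c_al.Api

set_option autoImplicit false

namespace Pool.Agent.IntComm

open Matrix Polynomial

/-- Transport of commutators along mutually inverse rectangular matrices. -/
theorem IsComm.of_rect {n m : Type} [Fintype n] [DecidableEq n] [Fintype m] [DecidableEq m]
    (h : Matrix n m ℤ) (h' : Matrix m n ℤ) (h1 : h' * h = 1) (h2 : h * h' = 1) (C : Matrix n n ℤ)
    (hC : IsComm (h' * C * h)) : IsComm C := by
  obtain ⟨A, B, hAB⟩ := hC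
  let φ : (Matrix m m ℤ)ˣ → (Matrix n n ℤ)ˣ := fun u =>
    { val := h * (u : Matrix m m ℤ) * h'
      inv := h * ((u⁻¹ : (Matrix m m ℤ)ˣ) : Matrix m m ℤ) * h'
      val_inv := by
        calc h * (u : Matrix m m ℤ) * h' * (h * ((u⁻¹ : (Matrix m m ℤ)ˣ) : Matrix m m ℤ) * h')
            = h * (u : Matrix m m ℤ) * (h' * h) * ((u⁻¹ : (Matrix m m ℤ)ˣ) : Matrix m m ℤ) * h' := by
              simp only [Matrix.mul_assoc]
          _ = h * ((u : Matrix m m ℤ) * ((u⁻¹ : (Matrix m m ℤ)ˣ) : Matrix m m ℤ)) * h' := by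
              rw [h1, Matrix.mul_one, Matrix.mul_assoc h]
          _ = 1 := by rw [Units.mul_inv, Matrix.mul_one, h2]
      inv_val := by
        calc h * ((u⁻¹ : (Matrix m m ℤ)ˣ) : Matrix m m ℤ) * h' * (h * (u : Matrix m m ℤ) * h')
            = h * ((u⁻¹ : (Matrix m m ℤ)ˣ) : Matrix m m ℤ) * (h' * h) * (u : Matrix m m ℤ) * h' := by
              simp only [Matrix.mul_assoc]
          _ = h * (((u⁻¹ : (Matrix m m ℤ)ˣ) : Matrix m m ℤ) * (u : Matrix m m ℤ)) * h' := by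
              rw [h1, Matrix.mul_one, Matrix.mul_assoc h]
          _ = 1 := by rw [Units.inv_mul, Matrix.mul_one, h2] }
  have hval : ∀ u, ((φ u : (Matrix n n ℤ)ˣ) : Matrix n n ℤ) = h * (u : Matrix m m ℤ) * h' :=
    fun u => rfl
  have hmul : ∀ u v, φ (u * v) = φ u * φ v := by
    intro u v
    apply Units.ext
    rw [Units.val_mul, hval, hval, hval, Units.val_mul]
    calc h * ((u : Matrix m m ℤ) * (v : Matrix m m ℤ)) * h'
        = h * (u : Matrix m m ℤ) * (1 * (v : Matrix m m ℤ) * h') := by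
          simp only [Matrix.mul_assoc, Matrix.one_mul]
      _ = h * (u : Matrix m m ℤ) * ((h' * h) * (v : Matrix m m ℤ) * h') := by rw [h1]
      _ = _ := by simp only [Matrix.mul_assoc]
  have hinv : ∀ u, φ u⁻¹ = (φ u)⁻¹ := by
    intro u
    apply Units.ext
    rfl
  refine ⟨φ A, φ B, ?_⟩
  rw [← hinv, ← hinv, ← hmul, ← hmul, ← hmul, hval, hAB]
  calc h * (h' * C * h) * h' = (h * h') * C * (h * h') := by simp only [Matrix.mul_assoc]
    _ = C := by rw [h2, Matrix.one_mul, Matrix.mul_one]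

theorem target_of (hB4 : ClaimDetH) (hB5 : ClaimComp) (hB6 : ClaimFrame) (hC1 : ClaimPoly)
    (hC19 : ClaimFact) (hD1 : ClaimKer) (hD7 : ClaimFrames) (hD9 : ClaimShort)
    (hE1 : ClaimParam) : Target := by
  obtain ⟨m₀, hm₀⟩ := hC1 92
  obtain ⟨c, hc, n₀, hn₀⟩ := hE1 92 m₀ (by norm_num)
  refine ⟨c, hc, n₀, fun n hn C hdet hC => ?_⟩
  -- the natural number bound for the eigenspaces
  obtain ⟨e, he, he'⟩ : ∃ e : ℕ, (e : ℝ) ≤ c * n ∧
      ∀ (p : ℕ) [Fact p.Prime] (μ : AlgebraicClosure (ZMod p)),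
      Module.finrank (AlgebraicClosure (ZMod p)) (LinearMap.ker (Matrix.toLin'
        (C.map (Int.castRingHom (AlgebraicClosure (ZMod p))) -
          Matrix.scalar (Fin n) μ))) ≤ e := by
    refine ⟨⌊c * n⌋₊, Nat.floor_le (by positivity), fun p _ μ => ?_⟩
    exact Nat.le_floor (hC p μ)
  obtain ⟨m, s, j, j₀, δ, hm1, hm2, h1, h2, h3, h4, h5, h6, h7⟩ := hn₀ n hn e he
  have hKB := hD1 (Fin n) C e he'
  obtain ⟨V₀, hV1, hV2⟩ := hD7 n 92 e (2 * m) s j₀ δ C (by norm_num) hKB h1 h3 h4 h5 h6 h7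
  obtain ⟨V, h', Y, hh1, hh2, hY, hY0⟩ := hD9 n 92 (2 * m) s j C V₀ h1 h2 hV1 hV2
  obtain ⟨P, hP⟩ := hB6 (Fin n) (Fin j) (Fin s) C V 91 h' Y hh1 hh2 hY hY0
  set H := h' * C * frame C (91 + 1) V with hH
  have hdetH : H.det = 1 := by
    rw [hH, Matrix.det_conj_of_mul_eq_one hh1 hh2, hdet]
  obtain ⟨Fs, hFl, hF1, hF2, hF3⟩ := hm₀ m hm1
  -- the invariant
  have hD := hB4 (Fin j) (Fin s) 91 P H hP
  set D : Matrix (Fin j ⊕ Fin s) (Fin j ⊕ Fin s) ℤ := (-1 : ℤ) ^ 91 • (P * J (Fin j) (Fin s)) with hDdef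
  have hDdet : D.det = 1 := by rw [← hD, hdetH]
  have hPC : ProdComm Fs D := by
    refine hC19 m hm2 (Fin j ⊕ Fin s) ?_ Fs hF1 (by omega) D hDdet
    simp only [Fintype.card_sum, Fintype.card_fin]
    omega
  have hPD : (-1 : ℤ) ^ 91 • (D * J (Fin j) (Fin s)) = P := by
    rw [hDdef, Matrix.smul_mul, smul_smul, Matrix.mul_assoc, J_mul_J, Matrix.mul_one]
    norm_num
  have hLU := hB5 (Fin j) (Fin s) 91 Fs hFl hF2 hF3 D hPC H (by rw [hPD]; exact hP)
  exact IsComm.of_rect (frame C (91 + 1) V) h' hh1 hh2 C hLU.isComm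

end Pool.Agent.IntComm
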