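import Pool.Agent.Work.MP_584b0c_al.CSL1

set_option autoImplicit false

/-! MP_584b0c_al, item G7: several columns, good everywhere. -/

namespace Pool.Agent.IntComm

open Matrix Polynomial

namespace CSL

section

variable {n ν : Type} [Fintype n] [DecidableEq n] [Fintype ν]

theorem cind_snoc {K : Type} [Field K] {k : ℕ} (C : Matrix n n ℤ) (G : Matrix n ν ℤ)
    (B : Matrix n (Fin (k + 1)) ℤ) (X : Matrix ν (Fin (k + 1)) ℤ) (μ : K)
    (h : CInd K C (fromCols (B.submatrix id Fin.castSucc + G * X.submatrix id Fin.castSucc)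
      (colM ((fun i => B i (Fin.last k)) + G.mulVec (fun j => X j (Fin.last k))))) μ) :
    CInd K C (B + G * X) μ := by
  rw [CSL1.cind_iff] at h
  intro a u hu
  have h1 := h (fun j => a j.castSucc) (a (Fin.last k)) u (by
    rw [← hu]
    ext i
    simp only [Pi.add_apply, Pi.smul_apply, Function.comp, smul_eq_mul, Matrix.mulVec, dotProduct,
      Matrix.map_apply, Matrix.add_apply, Matrix.mul_apply, Matrix.submatrix_apply, id_eq]
    rw [Fin.sum_univ_castSucc]
    congr 1
    rw [mul_comm])
  ext j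
  refine Fin.lastCases ?_ (fun j => ?_) j
  · exact h1.2
  · exact congrFun h1.1 j

end

end CSL

open CSL in
theorem claimCSL (h : ClaimCSL1) : ClaimCSL := by
  intro n ν _ _ _ _ C G k B t s ht hs hcard hdim hG
  classical
  suffices H : ∀ (k : ℕ) (B : Matrix n (Fin k) ℤ), s + Fintype.card n + k ≤ Fintype.card ν + t →
      ∃ X : Matrix ν (Fin k) ℤ, Good0 C (B + G * X) t ∧
        ∀ (p : ℕ) [Fact p.Prime], GoodP p C (B + G * X) t by
    obtain ⟨X, -, hX⟩ := H k B hdim
    exact ⟨X, hX⟩
  intro k
  induction k with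
  | zero =>
    intro B _
    refine ⟨0, ?_, ?_⟩
    · intro K _ _ μ _ a u _
      exact Subsingleton.elim _ _
    · intro p _ μ _ a u _
      exact Subsingleton.elim _ _
  | succ k ih =>
    intro B hd
    obtain ⟨X', hX0, hXp⟩ := ih (B.submatrix id Fin.castSucc) (by omega)
    obtain ⟨x, hx0, hxp⟩ := h n (Fin k) ν C (B.submatrix id Fin.castSucc + G * X') G
      (fun i => B i (Fin.last k)) t s ht hs hcard (by rw [Fintype.card_fin]; omega) hG hX0 hXp
    have e1 : (Matrix.of fun j i => (Fin.snoc (X' j) (x j) : Fin (k + 1) → ℤ) i).submatrix id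
        (Fin.castSucc : Fin k → Fin (k + 1)) = X' := by
      ext j i
      simp
    have e2 : (fun j => (Matrix.of fun j i => (Fin.snoc (X' j) (x j) : Fin (k + 1) → ℤ) i) j
        (Fin.last k)) = x := by
      ext j
      simp
    refine ⟨Matrix.of fun j i => (Fin.snoc (X' j) (x j) : Fin (k + 1) → ℤ) i, ?_, ?_⟩
    · intro K _ _ μ hμ
      refine cind_snoc C G B _ μ ?_
      rw [e1, e2]
      exact hx0 K μ hμ
    · intro p _ μ hμ
      refine cind_snoc C G B _ μ ?_
      rw [e1, e2]
      exact hxp p μ hμ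

end Pool.Agent.IntComm
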