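import Pool.Agent.Work.MP_584b0c_al.Api

set_option autoImplicit false

namespace Pool.Agent.IntComm

open Polynomial

namespace PolyC1

theorem coprime_X {f : ℤ[X]} (h : IsUnit (f.coeff 0)) : IsCoprime f X := by
  obtain ⟨u, hu⟩ := h
  refine ⟨C ((u⁻¹ : ℤˣ) : ℤ), -(C ((u⁻¹ : ℤˣ) : ℤ) * divX f), ?_⟩
  have h1 : f = divX f * X + C (f.coeff 0) := (divX_mul_X_add f).symm
  calc C ((u⁻¹ : ℤˣ) : ℤ) * f + -(C ((u⁻¹ : ℤˣ) : ℤ) * divX f) * X
      = C ((u⁻¹ : ℤˣ) : ℤ) * (divX f * X + C (f.coeff 0)) +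
          -(C ((u⁻¹ : ℤˣ) : ℤ) * divX f) * X := by rw [← h1]
    _ = C ((u⁻¹ : ℤˣ) : ℤ) * C (f.coeff 0) := by ring
    _ = 1 := by rw [← C_mul, ← hu, Units.inv_mul, C_1]

theorem coprime_X_pow_sub_one {k : ℕ} (hk : 1 ≤ k) : IsCoprime (X : ℤ[X]) (X ^ k - 1) := by
  obtain ⟨k, rfl⟩ := Nat.exists_eq_add_of_le' hk
  exact ⟨X ^ k, -1, by ring⟩

/-- The basic product. -/
noncomputable def MM (Q : ℕ) : ℤ[X] := ∏ d ∈ Finset.range (2 * Q), (X ^ (d + 1) - 1)

theorem MM_monic (Q : ℕ) : (MM Q).Monic := by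
  unfold MM
  refine monic_prod_of_monic _ _ fun d _ => ?_
  simpa using monic_X_pow_sub_C (1 : ℤ) (Nat.succ_ne_zero d)

theorem MM_coeff (Q : ℕ) : IsUnit ((MM Q).coeff 0) := by
  unfold MM
  rw [coeff_zero_eq_eval_zero, eval_prod]
  refine Finset.prod_induction _ IsUnit (fun a b ha hb => ha.mul hb) isUnit_one fun d _ => ?_
  simp

theorem dvd_MM {Q k : ℕ} (hk : 1 ≤ k) (hk2 : k ≤ 2 * Q) : (X ^ k - 1 : ℤ[X]) ∣ MM Q := by
  unfold MM
  have := Finset.dvd_prod_of_mem (fun d => (X ^ (d + 1) - 1 : ℤ[X]))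
    (Finset.mem_range.2 (show k - 1 < 2 * Q by omega))
  simpa [Nat.sub_add_cancel hk] using this

/-- The polynomials. -/
noncomputable def ff (Q r i : ℕ) : ℤ[X] := MM Q * (X - 1) ^ r + X ^ i

theorem ff_nat {Q r i : ℕ} (hi : i < (MM Q).natDegree + r) :
    (ff Q r i).Monic ∧ (ff Q r i).natDegree = (MM Q).natDegree + r := by
  have h1 : (MM Q * (X - 1) ^ r : ℤ[X]).Monic :=
    (MM_monic Q).mul (by simpa using (monic_X_sub_C (1 : ℤ)).pow r)
  have h2 : (MM Q * (X - 1) ^ r : ℤ[X]).natDegree = (MM Q).natDegree + r := by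
    have h3 : ((X - 1 : ℤ[X]) ^ r).Monic := by simpa using (monic_X_sub_C (1 : ℤ)).pow r
    rw [(MM_monic Q).natDegree_mul h3]
    have : (X - 1 : ℤ[X]) = X - C 1 := by simp
    rw [this, (monic_X_sub_C (1 : ℤ)).natDegree_pow, natDegree_X_sub_C, mul_one]
  have h4 : (X ^ i : ℤ[X]).degree < (MM Q * (X - 1) ^ r : ℤ[X]).degree := by
    rw [degree_X_pow, degree_eq_natDegree h1.ne_zero, h2]
    exact_mod_cast hi
  refine ⟨h1.add_of_left h4, ?_⟩
  unfold ff
  rw [natDegree_add_eq_left_of_degree_lt h4, h2]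

theorem ff_coeff {Q r i : ℕ} (hi : 1 ≤ i) : IsUnit ((ff Q r i).coeff 0) := by
  have h := MM_coeff Q
  rw [coeff_zero_eq_eval_zero] at h ⊢
  unfold ff
  have : ((X : ℤ[X]) ^ i).eval 0 = 0 := by simp; omega
  rw [eval_add, this, add_zero, eval_mul]
  refine h.mul ?_
  rw [eval_pow]
  refine IsUnit.pow _ ?_
  simp

theorem ff_one {Q r i : ℕ} (hr : 1 ≤ r) : IsCoprime (ff Q r i) (X - 1) := by
  obtain ⟨r, rfl⟩ := Nat.exists_eq_add_of_le' hr
  have h1 : IsCoprime ((X : ℤ[X]) ^ i) (X - 1) :=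
    IsCoprime.pow_left (by simpa using coprime_X_pow_sub_one (k := 1) le_rfl)
  have h2 : ff Q (r + 1) i = X ^ i + (X - 1) * (MM Q * (X - 1) ^ r) := by unfold ff; ring
  rw [h2]
  exact IsCoprime.add_mul_left_left h1 _

theorem ff_coprime {Q r i j : ℕ} (hi : 1 ≤ i) (hij : i < j) (hj : j ≤ 2 * Q) :
    IsCoprime (ff Q r i) (ff Q r j) := by
  obtain ⟨k, rfl⟩ := Nat.exists_eq_add_of_lt hij
  have h1 : IsCoprime (ff Q r i) (X ^ i) := (coprime_X (ff_coeff hi)).pow_right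
  obtain ⟨N, hN⟩ := dvd_MM (Q := Q) (k := k + 1) (by omega) (by omega)
  have h2 : IsCoprime (ff Q r i) (X ^ (k + 1) - 1) := by
    have h3 : ff Q r i = X ^ i + (X ^ (k + 1) - 1) * (N * (X - 1) ^ r) := by
      unfold ff; rw [hN]; ring
    rw [h3]
    exact IsCoprime.add_mul_left_left (coprime_X_pow_sub_one (by omega)).pow_left _
  have h4 : ff Q r (i + k + 1) = X ^ i * (X ^ (k + 1) - 1) + ff Q r i * 1 := by
    unfold ff; ring
  rw [h4]
  exact IsCoprime.add_mul_left_right (h1.mul_right h2) _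

end PolyC1

open PolyC1 in
theorem claimPoly : ClaimPoly := by
  intro Q
  refine ⟨(MM Q).natDegree + 2 * Q + 2, fun m hm => ?_⟩
  obtain ⟨r, rfl⟩ := Nat.exists_eq_add_of_le (show (MM Q).natDegree ≤ m by omega)
  have hr : 2 * Q + 2 ≤ r := by omega
  refine ⟨(List.range Q).map fun a => ff Q r (2 * a + 1) * ff Q r (2 * a + 2), by simp, ?_, ?_, ?_⟩
  · intro F hF
    obtain ⟨a, ha, rfl⟩ := List.mem_map.1 hF
    have ha' : a < Q := List.mem_range.1 ha
    exact ⟨_, _, (ff_nat (by omega)).1, (ff_nat (by omega)).1, (ff_nat (by omega)).2,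
      (ff_nat (by omega)).2, ff_coeff (by omega), ff_coeff (by omega),
      ff_coprime (by omega) (by omega) (by omega), rfl⟩
  · rw [List.pairwise_map]
    have h : (List.range Q).Pairwise fun a b => a < b ∧ b < Q := by
      rw [List.pairwise_iff_getElem]
      intro i j hi hj hij
      simp only [List.length_range] at hi hj
      simp only [List.getElem_range]
      exact ⟨hij, hj⟩
    refine h.imp ?_
    rintro a b ⟨hab, hb⟩
    exact IsCoprime.mul_left
      (IsCoprime.mul_right (ff_coprime (by omega) (by omega) (by omega))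
        (ff_coprime (by omega) (by omega) (by omega)))
      (IsCoprime.mul_right (ff_coprime (by omega) (by omega) (by omega))
        (ff_coprime (by omega) (by omega) (by omega)))
  · intro F hF
    obtain ⟨a, ha, rfl⟩ := List.mem_map.1 hF
    exact IsCoprime.mul_left (ff_one (by omega)) (ff_one (by omega))

end Pool.Agent.IntComm
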