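import Mathlib

set_option autoImplicit false

/-!
MP_584b0c_al (integral commutators), owner helper87.
Every C in SL_n(Z), n large, all of whose eigenspaces modulo every prime have dimension at most c n
(c > 0 absolute), is a commutator A B A^-1 B^-1 with A, B in GL_n(Z).
-/

namespace Pool.Agent.IntComm

open Matrix Polynomial

section basic

variable {n : Type} [Fintype n] [DecidableEq n]

/-- Similarity over the integers. -/
def Sim (A B : Matrix n n ℤ) : Prop :=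
  ∃ P : (Matrix n n ℤ)ˣ, (P : Matrix n n ℤ) * A = B * (P : Matrix n n ℤ)

/-- `C` is a commutator of units of the integral matrix ring. -/
def IsComm (C : Matrix n n ℤ) : Prop :=
  ∃ A B : (Matrix n n ℤ)ˣ, ((A * B * A⁻¹ * B⁻¹ : (Matrix n n ℤ)ˣ) : Matrix n n ℤ) = C

/-- `M` is similar to a product `L U` of units with `L` similar to `U⁻¹` and `F(L) = 0`. -/
def LUF (F : ℤ[X]) (M : Matrix n n ℤ) : Prop :=
  ∃ L U : (Matrix n n ℤ)ˣ, Sim M ((L * U : (Matrix n n ℤ)ˣ) : Matrix n n ℤ) ∧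
    Sim (L : Matrix n n ℤ) ((U⁻¹ : (Matrix n n ℤ)ˣ) : Matrix n n ℤ) ∧
    aeval (L : Matrix n n ℤ) F = 0

/-- `D` is the product of commutators `[X_i, g_i]` with `F_i(X_i) = 0`, one for each member `F_i` of
the list. -/
def ProdComm : List ℤ[X] → Matrix n n ℤ → Prop
  | [], D => D = 1
  | F :: Fs, D => ∃ X g : (Matrix n n ℤ)ˣ, aeval (X : Matrix n n ℤ) F = 0 ∧
      ∃ D' : Matrix n n ℤ, ProdComm Fs D' ∧
        D = ((X * g * X⁻¹ * g⁻¹ : (Matrix n n ℤ)ˣ) : Matrix n n ℤ) * D'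

end basic

/-- The polynomials used: products of two comaximal monic polynomials of degree `m` with constant
coefficient `±1`. -/
def Fam (m : ℕ) (F : ℤ[X]) : Prop :=
  ∃ f g : ℤ[X], f.Monic ∧ g.Monic ∧ f.natDegree = m ∧ g.natDegree = m ∧
    IsUnit (f.coeff 0) ∧ IsUnit (g.coeff 0) ∧ IsCoprime f g ∧ F = f * g

/-- `T` is a product of `r` commutators for every list of `r` polynomials of the family. -/
def Good {n : Type} [Fintype n] [DecidableEq n] (m r : ℕ) (T : Matrix n n ℤ) : Prop :=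
  ∀ Fs : List ℤ[X], Fs.length = r → (∀ F ∈ Fs, Fam m F) → ProdComm Fs T

/-! ### block companion matrices -/

/-- `q` blocks of size `τ ⊕ σ` followed by one block of size `σ`. -/
def Idx (τ σ : Type) : ℕ → Type
  | 0 => σ
  | q + 1 => (τ ⊕ σ) ⊕ Idx τ σ q

instance instFintypeIdx (τ σ : Type) [Fintype τ] [Fintype σ] : (q : ℕ) → Fintype (Idx τ σ q)
  | 0 => inferInstanceAs (Fintype σ)
  | q + 1 =>
      letI := instFintypeIdx τ σ q
      inferInstanceAs (Fintype ((τ ⊕ σ) ⊕ Idx τ σ q))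

instance instDecEqIdx (τ σ : Type) [DecidableEq τ] [DecidableEq σ] :
    (q : ℕ) → DecidableEq (Idx τ σ q)
  | 0 => inferInstanceAs (DecidableEq σ)
  | q + 1 =>
      letI := instDecEqIdx τ σ q
      inferInstanceAs (DecidableEq ((τ ⊕ σ) ⊕ Idx τ σ q))

/-- The block row `(0, ..., 0, (α | 0), β)` for `P = (α | β)`. -/
def row {τ σ : Type} : (q : ℕ) → {p : Type} → Matrix p (τ ⊕ σ) ℤ → Matrix p (Idx τ σ (q + 1)) ℤ
  | 0, _, P => fromCols (fromCols P.toCols₁ 0) P.toCols₂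
  | q + 1, _, P => fromCols 0 (row q P)

/-- Block companion shape, `q + 1` full blocks and the last short block; the top row is given by
`P`. -/
def IsH {τ σ : Type} [DecidableEq τ] [DecidableEq σ] : (q : ℕ) → Matrix (τ ⊕ σ) (τ ⊕ σ) ℤ →
    Matrix (Idx τ σ (q + 1)) (Idx τ σ (q + 1)) ℤ → Prop
  | 0, P, H => ∃ γ : Matrix σ σ ℤ,
      H = fromBlocks (fromCols P.toCols₁ 0) P.toCols₂ (fromCols (0 : Matrix σ τ ℤ) 1) γ
  | q + 1, P, H => ∃ (P' : Matrix (τ ⊕ σ) (τ ⊕ σ) ℤ)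
      (H' : Matrix (Idx τ σ (q + 1)) (Idx τ σ (q + 1)) ℤ), IsH q P' H' ∧
        H = fromBlocks 0 (row q P)
          (fromRows (1 : Matrix (τ ⊕ σ) (τ ⊕ σ) ℤ) (0 : Matrix (Idx τ σ q) (τ ⊕ σ) ℤ)) H'

/-- `diag(1, -1)`. -/
def J (τ σ : Type) [DecidableEq τ] [DecidableEq σ] : Matrix (τ ⊕ σ) (τ ⊕ σ) ℤ :=
  fromBlocks 1 0 0 (-1)

/-- The columns `V, C V, ..., C^(q-1) V, (C^q V)''`. -/
def frame {n τ σ : Type} [Fintype n] (C : Matrix n n ℤ) :
    (q : ℕ) → Matrix n (τ ⊕ σ) ℤ → Matrix n (Idx τ σ q) ℤ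
  | 0, V => V.toCols₂
  | q + 1, V => fromCols V (frame C q (C * V))

/-- The last block of `Idx τ σ q`. -/
def lastIdx {τ σ : Type} : (q : ℕ) → σ → Idx τ σ q
  | 0, t => t
  | q + 1, t => Sum.inr (lastIdx q t)

/-! ### unitriangular and elementary matrices -/

/-- Upper unitriangular. -/
def UpU {k : ℕ} (T : Matrix (Fin k) (Fin k) ℤ) : Prop :=
  (∀ i, T i i = 1) ∧ ∀ i j, j < i → T i j = 0

/-- Lower unitriangular. -/
def LoU {k : ℕ} (T : Matrix (Fin k) (Fin k) ℤ) : Prop :=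
  (∀ i, T i i = 1) ∧ ∀ i j, i < j → T i j = 0

/-- `diag(A, 1)` with `A` of size two. -/
def corner {k : ℕ} (A : Matrix (Fin 2) (Fin 2) ℤ) : Matrix (Fin k) (Fin k) ℤ :=
  Matrix.of fun i j =>
    if hi : i.val < 2 then
      (if hj : j.val < 2 then A ⟨i.val, hi⟩ ⟨j.val, hj⟩ else 0)
    else if i = j then 1 else 0

/-- `M` is a product of at most `r` transvections. -/
def El {n : Type} [Fintype n] [DecidableEq n] (r : ℕ) (M : Matrix n n ℤ) : Prop :=
  ∃ L : List (TransvectionStruct n ℤ), L.length ≤ r ∧ M = (L.map TransvectionStruct.toMatrix).prod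

/-! ### independence modulo every prime -/

/-- The columns of `S` are linearly independent modulo `p`. -/
def PIndAt {n ρ : Type} [Fintype ρ] (p : ℕ) (S : Matrix n ρ ℤ) : Prop :=
  ∀ x : ρ → ZMod p, (S.map (Int.cast : ℤ → ZMod p)).mulVec x = 0 → x = 0

/-- The columns of `S` are linearly independent modulo every prime. -/
def PInd {n ρ : Type} [Fintype ρ] (S : Matrix n ρ ℤ) : Prop :=
  ∀ p : ℕ, p.Prime → PIndAt p S

/-- The Krylov matrix `(V, C V, ..., C^(d-1) V)`. -/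
def Kry {R n ρ : Type} [CommRing R] [Fintype n] [DecidableEq n] (C : Matrix n n R)
    (V : Matrix n ρ R) (d : ℕ) : Matrix n (Fin d × ρ) R :=
  Matrix.of fun i a => (C ^ (a.1 : ℕ) * V) i a.2

/-- The Krylov matrix of one vector. -/
def Kry1 {R n : Type} [CommRing R] [Fintype n] [DecidableEq n] (C : Matrix n n R)
    (v : n → R) (d : ℕ) : Matrix n (Fin d) R :=
  Matrix.of fun i a => (C ^ (a : ℕ)).mulVec v i

/-- Modulo every prime, the kernel of `a(C)` has dimension at most `κ₀` for every nonzero polynomial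
`a` of degree less than `d`. -/
def KB {n : Type} [Fintype n] [DecidableEq n] (C : Matrix n n ℤ) (d κ₀ : ℕ) : Prop :=
  ∀ (p : ℕ) [Fact p.Prime] (a : (ZMod p)[X]), a ≠ 0 → a.natDegree < d →
    Module.finrank (ZMod p) (LinearMap.ker
      (Matrix.toLin' (aeval (C.map (Int.castRingHom (ZMod p))) a))) ≤ κ₀

/-- Every integer vector is an integer combination of the columns. -/
def Spans {n ρ : Type} [Fintype ρ] (S : Matrix n ρ ℤ) : Prop :=
  ∀ y : n → ℤ, ∃ x : ρ → ℤ, S.mulVec x = y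

end Pool.Agent.IntComm
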