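import Pool.Agent.Work.MP_584b0c_al.Api

set_option autoImplicit false

namespace Pool.Agent.IntComm

open Matrix Polynomial

theorem prodComm_append {n : Type} [Fintype n] [DecidableEq n] :
    ∀ (l1 l2 : List ℤ[X]) (S T : Matrix n n ℤ), ProdComm l1 S → ProdComm l2 T →
      ProdComm (l1 ++ l2) (S * T)
  | [], l2, S, T, hS, hT => by
    have hS : S = 1 := hS
    rw [hS, one_mul]
    exact hT
  | F :: l1, l2, S, T, hS, hT => by
    obtain ⟨X, g, hX, D', hD', rfl⟩ := hS
    exact ⟨X, g, hX, D' * T, prodComm_append l1 l2 D' T hD' hT, by rw [mul_assoc]⟩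

theorem good_mul {n : Type} [Fintype n] [DecidableEq n] {m r s : ℕ} {S T : Matrix n n ℤ}
    (hS : Good m r S) (hT : Good m s T) : Good m (r + s) (S * T) := by
  intro Fs hlen hFam
  have e : Fs = Fs.take r ++ Fs.drop r := (List.take_append_drop r Fs).symm
  rw [e]
  apply prodComm_append
  · apply hS
    · rw [List.length_take, hlen]; omega
    · intro F hF
      exact hFam F (List.mem_of_mem_take hF)
  · apply hT
    · rw [List.length_drop, hlen]; omega
    · intro F hF
      exact hFam F (List.mem_of_mem_drop hF)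

theorem good_zero {n : Type} [Fintype n] [DecidableEq n] (m : ℕ) :
    Good m 0 (1 : Matrix n n ℤ) := by
  intro Fs hlen _
  obtain rfl := List.length_eq_zero_iff.1 hlen
  rfl

namespace ElGood

variable {κ : Type} [Fintype κ] [DecidableEq κ]

/-- An equivalence sending a small set to the left and one more point to the right. -/
theorem exists_equiv {m : ℕ} (hm : 0 < m) (hcard : Fintype.card κ = 2 * m) (S : Finset κ)
    (hS : S.card ≤ m) (b : κ) (hb : b ∉ S) :
    ∃ e : κ ≃ Fin m ⊕ Fin m, (∀ a ∈ S, ∃ x, e a = Sum.inl x) ∧ ∃ y, e b = Sum.inr y := by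
  classical
  have h1 : m ≤ (Finset.univ.erase b).card := by
    rw [Finset.card_erase_of_mem (Finset.mem_univ b), Finset.card_univ, hcard]
    omega
  have h2 : S ⊆ Finset.univ.erase b := by
    intro a ha
    exact Finset.mem_erase.2 ⟨fun h => hb (h ▸ ha), Finset.mem_univ _⟩
  obtain ⟨S', hSS', hS'b, hS'⟩ := Finset.exists_subsuperset_card_eq h2 hS h1
  have hbS' : b ∉ S' := fun h => (Finset.mem_erase.1 (hS'b h)).1 rfl
  have c1 : Fintype.card {a // a ∈ S'} = m := by
    rw [Fintype.card_coe, hS']
  have c2 : Fintype.card {a // ¬ a ∈ S'} = m := by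
    rw [Fintype.card_subtype_compl, hcard, c1]
    omega
  refine ⟨(Equiv.sumCompl (fun a => a ∈ S')).symm.trans
    (Equiv.sumCongr (Fintype.equivFinOfCardEq c1) (Fintype.equivFinOfCardEq c2)), ?_, ?_⟩
  · intro a ha
    refine ⟨Fintype.equivFinOfCardEq c1 ⟨a, hSS' ha⟩, ?_⟩
    rw [Equiv.trans_apply, Equiv.sumCompl_symm_apply_of_pos (hSS' ha)]
    rfl
  · refine ⟨Fintype.equivFinOfCardEq c2 ⟨b, hbS'⟩, ?_⟩
    rw [Equiv.trans_apply, Equiv.sumCompl_symm_apply_of_neg hbS']
    rfl

/-- The block unipotent matrices in general position. -/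
theorem good_of (h : ClaimBlock) {m : ℕ} (hm : 0 < m) (e : κ ≃ Fin m ⊕ Fin m)
    (M : Matrix κ κ ℤ) (hM : ∀ a b, M a b ≠ 0 → (∃ x, e a = Sum.inl x) ∧ ∃ y, e b = Sum.inr y) :
    Good m 1 (1 + M) := by
  have key := h m hm κ e (Matrix.of fun x y => M (e.symm (Sum.inl x)) (e.symm (Sum.inr y)))
  have e1 : (fromBlocks 1 (Matrix.of fun x y => M (e.symm (Sum.inl x)) (e.symm (Sum.inr y))) 0 1 :
      Matrix (Fin m ⊕ Fin m) (Fin m ⊕ Fin m) ℤ).submatrix e e = 1 + M := by
    ext a b
    rw [Matrix.submatrix_apply, Matrix.add_apply]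
    rcases ha : e a with x | x <;> rcases hb : e b with y | y
    · have hz : M a b = 0 := by
        by_contra hne
        obtain ⟨y', hy'⟩ := (hM a b hne).2
        rw [hb] at hy'; simp at hy'
      rw [fromBlocks_apply₁₁, hz, add_zero, Matrix.one_apply, Matrix.one_apply]
      have : x = y ↔ a = b := by
        rw [← e.injective.eq_iff, ha, hb, Sum.inl.injEq]
      simp only [this]
    · have hne : a ≠ b := by
        rintro rfl
        rw [ha] at hb; simp at hb
      rw [fromBlocks_apply₁₂, Matrix.one_apply_ne hne, zero_add, Matrix.of_apply, ← ha, ← hb,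
        e.symm_apply_apply, e.symm_apply_apply]
    · have hne : a ≠ b := by
        rintro rfl
        rw [ha] at hb; simp at hb
      have hz : M a b = 0 := by
        by_contra hne
        obtain ⟨y', hy'⟩ := (hM a b hne).2
        rw [hb] at hy'; simp at hy'
      rw [fromBlocks_apply₂₁, Matrix.one_apply_ne hne, hz]
      simp
    · have hz : M a b = 0 := by
        by_contra hne
        obtain ⟨y', hy'⟩ := (hM a b hne).1
        rw [ha] at hy'; simp at hy'
      rw [fromBlocks_apply₂₂, hz, add_zero, Matrix.one_apply, Matrix.one_apply]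
      have : x = y ↔ a = b := by
        rw [← e.injective.eq_iff, ha, hb, Sum.inr.injEq]
      simp only [this]
  rwa [e1] at key

end ElGood

theorem good_one (h : ClaimBlock) {n : Type} [Fintype n] [DecidableEq n] {m : ℕ} (hm : 0 < m)
    (hcard : Fintype.card n = 2 * m) : Good m 1 (1 : Matrix n n ℤ) := by
  have hne : Nonempty n := by
    rw [← Fintype.card_pos_iff, hcard]; omega
  obtain ⟨b⟩ := hne
  obtain ⟨e, -, -⟩ := ElGood.exists_equiv hm hcard ∅ (by simp) b (by simp)
  have := ElGood.good_of h hm e (0 : Matrix n n ℤ) (by simp)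
  simpa using this

theorem good_mono (h : ClaimBlock) {n : Type} [Fintype n] [DecidableEq n] {m : ℕ} (hm : 0 < m)
    (hcard : Fintype.card n = 2 * m) {r s : ℕ} {T : Matrix n n ℤ} (hT : Good m r T)
    (hrs : r ≤ s) : Good m s T := by
  induction s, hrs using Nat.le_induction with
  | base => exact hT
  | succ s _ ih =>
    have := good_mul ih (good_one h hm hcard)
    rwa [mul_one] at this

theorem claimElGood (h : ClaimBlock) : ClaimElGood := by
  intro m r hm κ _ _ hcard M hM
  obtain ⟨L, hL, rfl⟩ := hM
  apply good_mono h hm hcard _ hL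
  clear hL
  induction L with
  | nil => exact good_zero m
  | cons t L ih =>
    rw [List.map_cons, List.prod_cons, List.length_cons, add_comm]
    apply good_mul _ ih
    obtain ⟨i, j, hij, c⟩ := t
    obtain ⟨e, he, he'⟩ := ElGood.exists_equiv hm hcard {i} (by simp; omega) j
      (by simpa using hij.symm)
    have := ElGood.good_of h hm e (Matrix.single i j c) (by
      intro a b hab
      have : i = a ∧ j = b := by
        by_contra hcon
        exact hab (by rw [Matrix.single_apply, if_neg hcon])
      obtain ⟨rfl, rfl⟩ := this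
      exact ⟨he i (by simp), he'⟩)
    exact this

end Pool.Agent.IntComm
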