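import Pool.Agent.Work.MP_584b0c_al.Defs

set_option autoImplicit false

namespace Pool.Agent.IntComm

open Matrix Polynomial

/-! ## Group A: Sylvester equations and the LU criterion -/

/-- A1. Sylvester equation. -/
def ClaimSylv : Prop := ∀ (m n : Type) [Fintype m] [DecidableEq m] [Fintype n] [DecidableEq n]
  (A : Matrix m m ℤ) (D : Matrix n n ℤ) (f : ℤ[X]), aeval A f = 0 → IsUnit (aeval D f) →
  ∀ Y : Matrix m n ℤ, ∃ W : Matrix m n ℤ, A * W - W * D = Y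

/-- A2. Block triangular matrices with comaximal annihilators are similar to block diagonal ones. -/
def ClaimDiag : Prop := ∀ (m n : Type) [Fintype m] [DecidableEq m] [Fintype n] [DecidableEq n]
  (A : Matrix m m ℤ) (D : Matrix n n ℤ) (f g : ℤ[X]), aeval A f = 0 → aeval D g = 0 →
  IsCoprime f g →
  (∀ Y : Matrix m n ℤ, Sim (fromBlocks A Y 0 D) (fromBlocks A 0 0 D)) ∧
  (∀ Y : Matrix n m ℤ, Sim (fromBlocks A 0 Y D) (fromBlocks A 0 0 D)) ∧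
  aeval (fromBlocks A 0 0 D) (f * g) = 0

/-- A3. One step of the block LU factorization. -/
def ClaimStepLU : Prop := ∀ (m n : Type) [Fintype m] [DecidableEq m] [Fintype n] [DecidableEq n]
  (F F' : ℤ[X]) (X g : (Matrix m m ℤ)ˣ) (B : Matrix m n ℤ) (E : Matrix n m ℤ) (D : Matrix n n ℤ),
  IsCoprime F F' → aeval (X : Matrix m m ℤ) F = 0 →
  LUF F' (D - E * (((X * g * X⁻¹ * g⁻¹)⁻¹ : (Matrix m m ℤ)ˣ) : Matrix m m ℤ) * B) →
  LUF (F * F') (fromBlocks ((X * g * X⁻¹ * g⁻¹ : (Matrix m m ℤ)ˣ) : Matrix m m ℤ) B E D)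

/-! ## Group B: block companion matrices -/

/-- B1. Conjugation making the top left block of a block companion matrix equal to `d`. -/
def ClaimSchur : Prop := ∀ (κ n : Type) [Fintype κ] [DecidableEq κ] [Fintype n] [DecidableEq n]
  (d : (Matrix κ κ ℤ)ˣ) (r : Matrix κ (κ ⊕ n) ℤ) (H : Matrix (κ ⊕ n) (κ ⊕ n) ℤ),
  ∃ (B : Matrix κ (κ ⊕ n) ℤ) (E : Matrix (κ ⊕ n) κ ℤ) (D : Matrix (κ ⊕ n) (κ ⊕ n) ℤ),
    Sim (fromBlocks 0 r (fromRows (1 : Matrix κ κ ℤ) (0 : Matrix n κ ℤ)) H)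
      (fromBlocks (d : Matrix κ κ ℤ) B E D) ∧
    D - E * ((d⁻¹ : (Matrix κ κ ℤ)ˣ) : Matrix κ κ ℤ) * B =
      fromRows (-(((d⁻¹ : (Matrix κ κ ℤ)ˣ) : Matrix κ κ ℤ) * r)) H.toRows₂

/-- B2. The last step: the short block. -/
def ClaimBase : Prop := ∀ (τ σ : Type) [Fintype τ] [DecidableEq τ] [Fintype σ] [DecidableEq σ]
  (d : (Matrix (τ ⊕ σ) (τ ⊕ σ) ℤ)ˣ) (γ : Matrix σ σ ℤ),
  ∃ (B : Matrix (τ ⊕ σ) σ ℤ) (E : Matrix σ (τ ⊕ σ) ℤ) (D : Matrix σ σ ℤ),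
    Sim (fromBlocks (fromCols (d : Matrix (τ ⊕ σ) (τ ⊕ σ) ℤ).toCols₁ 0)
        (-(d : Matrix (τ ⊕ σ) (τ ⊕ σ) ℤ).toCols₂) (fromCols (0 : Matrix σ τ ℤ) 1) γ)
      (fromBlocks (d : Matrix (τ ⊕ σ) (τ ⊕ σ) ℤ) B E D) ∧
    D - E * ((d⁻¹ : (Matrix (τ ⊕ σ) (τ ⊕ σ) ℤ)ˣ) : Matrix (τ ⊕ σ) (τ ⊕ σ) ℤ) * B = 1

/-- B3. Replacing the first block row. -/
def ClaimRepl : Prop := ∀ (τ σ : Type) [Fintype τ] [DecidableEq τ] [Fintype σ] [DecidableEq σ]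
  (q : ℕ) (P P' : Matrix (τ ⊕ σ) (τ ⊕ σ) ℤ)
  (H : Matrix ((τ ⊕ σ) ⊕ Idx τ σ q) ((τ ⊕ σ) ⊕ Idx τ σ q) ℤ),
  IsH q P' H → IsH q P (fromRows (row q P) H.toRows₂)

/-- B4. The determinant of a block companion matrix. -/
def ClaimDetH : Prop := ∀ (τ σ : Type) [Fintype τ] [DecidableEq τ] [Fintype σ] [DecidableEq σ]
  (q : ℕ) (P : Matrix (τ ⊕ σ) (τ ⊕ σ) ℤ) (H : Matrix (Idx τ σ (q + 1)) (Idx τ σ (q + 1)) ℤ),
  IsH q P H → H.det = ((-1 : ℤ) ^ q • (P * J τ σ)).det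

/-- B5. Block companion matrices whose invariant is a product of suitable commutators. -/
def ClaimComp : Prop := ∀ (τ σ : Type) [Fintype τ] [DecidableEq τ] [Fintype σ] [DecidableEq σ]
  (q : ℕ) (Fs : List ℤ[X]), Fs.length = q + 1 → Fs.Pairwise IsCoprime →
  (∀ F ∈ Fs, IsCoprime F (X - 1)) → ∀ D : Matrix (τ ⊕ σ) (τ ⊕ σ) ℤ, ProdComm Fs D →
  ∀ H : Matrix (Idx τ σ (q + 1)) (Idx τ σ (q + 1)) ℤ, IsH q ((-1 : ℤ) ^ q • (D * J τ σ)) H →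
  LUF (Fs.prod * (X - 1)) H

/-- B6. A unimodular Krylov frame puts `C` in block companion shape. -/
def ClaimFrame : Prop := ∀ (n τ σ : Type) [Fintype n] [DecidableEq n] [Fintype τ] [DecidableEq τ]
  [Fintype σ] [DecidableEq σ] (C : Matrix n n ℤ) (V : Matrix n (τ ⊕ σ) ℤ) (q : ℕ)
  (h' : Matrix (Idx τ σ (q + 1)) n ℤ) (Y : Matrix (Idx τ σ (q + 1)) τ ℤ),
  h' * frame C (q + 1) V = 1 → frame C (q + 1) V * h' = 1 →
  (C ^ (q + 1) * V).toCols₁ = frame C (q + 1) V * Y →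
  (∀ (t : σ) (a : τ), Y (lastIdx (q + 1) t) a = 0) →
  ∃ P : Matrix (τ ⊕ σ) (τ ⊕ σ) ℤ, IsH q P (h' * C * frame C (q + 1) V)

/-! ## Group C: factorization of SL into commutators with prescribed characteristic polynomials -/

/-- C1. The family of polynomials. -/
def ClaimPoly : Prop := ∀ Q : ℕ, ∃ m₀ : ℕ, ∀ m : ℕ, m₀ ≤ m → ∃ Fs : List ℤ[X], Fs.length = Q ∧
  (∀ F ∈ Fs, Fam m F) ∧ Fs.Pairwise IsCoprime ∧ ∀ F ∈ Fs, IsCoprime F (X - 1)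

/-- The companion matrix of `f` (columns `e_1, ..., e_(k-1), -f`). -/
def compan {k : ℕ} (f : ℤ[X]) : Matrix (Fin k) (Fin k) ℤ :=
  Matrix.of fun i j => if j.val + 1 = k then -f.coeff i.val else if i.val = j.val + 1 then 1 else 0

/-- C2. Facts about companion matrices. -/
def ClaimCompan : Prop := ∀ (k : ℕ) (f : ℤ[X]), 0 < k → f.Monic → f.natDegree = k →
  aeval (compan f : Matrix (Fin k) (Fin k) ℤ) f = 0 ∧
  (compan f : Matrix (Fin k) (Fin k) ℤ).det = (-1) ^ k * f.coeff 0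

/-- C3. A cyclic matrix is conjugate to the companion matrix of its characteristic polynomial. -/
def ClaimCyc : Prop := ∀ (k : ℕ) (A : Matrix (Fin k) (Fin k) ℤ) (v : Fin k → ℤ),
  A * Kry1 A v k = Kry1 A v k * compan A.charpoly

/-- C4. Block unipotent matrices are commutators. -/
def ClaimBlock : Prop := ∀ (m : ℕ), 0 < m → ∀ (κ : Type) [Fintype κ] [DecidableEq κ]
  (e : κ ≃ Fin m ⊕ Fin m) (Y : Matrix (Fin m) (Fin m) ℤ),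
  Good m 1 ((fromBlocks 1 Y 0 1 : Matrix (Fin m ⊕ Fin m) (Fin m ⊕ Fin m) ℤ).submatrix e e)

/-- C5. Products of transvections are good. -/
def ClaimElGood : Prop := ∀ (m r : ℕ), 0 < m → ∀ (κ : Type) [Fintype κ] [DecidableEq κ],
  Fintype.card κ = 2 * m → ∀ M : Matrix κ κ ℤ, El r M → Good m r M

/-- C6. Matrices differing from the identity only in the first column. -/
def ClaimCol : Prop := ∀ (m K : ℕ), 0 < m → K = 2 * m → ∀ u : Fin K → ℤ,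
  (∀ i : Fin K, i.val = 0 → u i = 0) →
  Good m 2 (1 + Matrix.of fun (i j : Fin K) => if j.val = 0 then u i else 0)

/-- C7. Hessenberg matrices: the Krylov matrix of `T C_f` is unitriangular. -/
def ClaimHess : Prop := ∀ (k : ℕ) (f : ℤ[X]) (T : Matrix (Fin k) (Fin k) ℤ), UpU T →
  ∀ v : Fin k → ℤ, (∀ i : Fin k, v i = if i.val = 0 then 1 else 0) →
  UpU (Kry1 (T * compan f) v k)

/-- C8. Upper unitriangular matrices are good. -/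
def ClaimUp : Prop := ∀ (m K : ℕ), 0 < m → K = 2 * m → ∀ T : Matrix (Fin K) (Fin K) ℤ,
  UpU T → Good m 3 T

/-- C9. Lower unitriangular matrices are good. -/
def ClaimLo : Prop := ∀ (m K : ℕ), 0 < m → K = 2 * m → ∀ T : Matrix (Fin K) (Fin K) ℤ,
  LoU T → Good m 3 T

/-- C10. Stable range two for the integers. -/
def ClaimSR : Prop := ∀ (k : ℕ), 2 ≤ k → ∀ (γ : Fin k → ℤ) (δ : ℤ),
  (∃ (y : Fin k → ℤ) (y₀ : ℤ), ∑ i, γ i * y i + δ * y₀ = 1) →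
  ∃ z y : Fin k → ℤ, ∑ i, (γ i + δ * z i) * y i = 1

/-- C11. Making a principal minor equal to one. -/
def ClaimPeel : Prop := ∀ (k : ℕ), 2 ≤ k → ∀ (α : Matrix (Fin k) (Fin k) ℤ)
  (β : Matrix (Fin k) (Fin 1) ℤ) (γ : Matrix (Fin 1) (Fin k) ℤ) (δ : Matrix (Fin 1) (Fin 1) ℤ),
  (fromBlocks α β γ δ).det = 1 →
  ∃ (x : Matrix (Fin k) (Fin 1) ℤ) (z : Matrix (Fin 1) (Fin k) ℤ),
    (α + x * γ + (β + x * δ) * z).det = 1

/-- C12. Every matrix of determinant one is `u l u' diag(A, 1) l'`. -/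
def ClaimULUL : Prop := ∀ (k : ℕ) (D : Matrix (Fin (k + 2)) (Fin (k + 2)) ℤ), D.det = 1 →
  ∃ (u l u' l' : Matrix (Fin (k + 2)) (Fin (k + 2)) ℤ) (A : Matrix (Fin 2) (Fin 2) ℤ),
    UpU u ∧ LoU l ∧ UpU u' ∧ LoU l' ∧ A.det = 1 ∧ D = u * l * u' * corner A * l'

/-- C13. Mennicke symbols are multiplicative. -/
def ClaimMen : Prop := ∀ (A B A' : Matrix (Fin 2) (Fin 2) ℤ) (r s : ℕ), A.det = 1 → B.det = 1 →
  A'.det = 1 → A 0 0 = B 0 0 → A' 0 0 = A 0 0 → A' 0 1 = A 0 1 * B 0 1 →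
  El r (corner A : Matrix (Fin 3) (Fin 3) ℤ) → El s (corner B : Matrix (Fin 3) (Fin 3) ℤ) →
  El (r + s + 5) (corner A' : Matrix (Fin 3) (Fin 3) ℤ)

/-- C14. Trivial Mennicke symbols. -/
def ClaimTriv : Prop := ∀ (A : Matrix (Fin 2) (Fin 2) ℤ), A.det = 1 →
  (A 0 1 ∣ A 0 0 - 1 ∨ A 0 1 ∣ A 0 0 + 1) → El 9 (corner A : Matrix (Fin 3) (Fin 3) ℤ)

/-- C15. Powers. -/
def ClaimPow : Prop := ∀ (A : Matrix (Fin 2) (Fin 2) ℤ) (m : ℕ), A.det = 1 →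
  (A 0 1 ∣ A 0 0 ^ m - 1 ∨ A 0 1 ∣ A 0 0 ^ m + 1) →
  El 38 (corner (A ^ m) : Matrix (Fin 3) (Fin 3) ℤ)

/-- C16. The arithmetic input (Dirichlet). -/
def ClaimDir : Prop := ∀ a b c d : ℤ, a * d - b * c = 1 → Odd a →
  ∃ (s t : ℤ) (m : ℕ), (b + s * a ∣ a ^ (m + 1) - 1 ∨ b + s * a ∣ a ^ (m + 1) + 1) ∧
    c + t * a ∣ a ^ m - 1

/-- C17. Carter-Keller: `SL₂(ℤ)` inside `SL₃(ℤ)` has bounded elementary length. -/
def ClaimCK : Prop := ∀ (A : Matrix (Fin 2) (Fin 2) ℤ), A.det = 1 →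
  El 80 (corner A : Matrix (Fin 3) (Fin 3) ℤ)

/-- C18. From `SL₃` to `SL_k`. -/
def ClaimEmb : Prop := ∀ (r k : ℕ) (A : Matrix (Fin 2) (Fin 2) ℤ),
  El r (corner A : Matrix (Fin 3) (Fin 3) ℤ) →
  El r (corner A : Matrix (Fin (k + 3)) (Fin (k + 3)) ℤ)

/-- C19. The factorization theorem. -/
def ClaimFact : Prop := ∀ (m : ℕ), 2 ≤ m → ∀ (κ : Type) [Fintype κ] [DecidableEq κ],
  Fintype.card κ = 2 * m → ∀ Fs : List ℤ[X], (∀ F ∈ Fs, Fam m F) → 92 ≤ Fs.length →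
  ∀ D : Matrix κ κ ℤ, D.det = 1 → ProdComm Fs D

/-! ## Group D: unimodular Krylov frames -/

/-- D1. Eigenspace bounds give kernel bounds for polynomials. -/
def ClaimKer : Prop := ∀ (n : Type) [Fintype n] [DecidableEq n] (C : Matrix n n ℤ) (e : ℕ),
  (∀ (p : ℕ) [Fact p.Prime] (μ : AlgebraicClosure (ZMod p)),
    Module.finrank (AlgebraicClosure (ZMod p)) (LinearMap.ker (Matrix.toLin'
      (C.map (Int.castRingHom (AlgebraicClosure (ZMod p))) - Matrix.scalar n μ))) ≤ e) →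
  ∀ d : ℕ, KB C d ((d - 1) * e)

/-- D2. Extension by a Krylov string modulo one prime. -/
def ClaimLocal : Prop := ∀ (n ρ ν : Type) [Fintype n] [DecidableEq n] [Fintype ρ] [DecidableEq ρ]
  [Fintype ν] [DecidableEq ν] (C : Matrix n n ℤ) (S : Matrix n ρ ℤ) (G : Matrix n ν ℤ)
  (b : n → ℤ) (d κ₀ : ℕ), KB C d κ₀ → Fintype.card ρ + d + κ₀ ≤ Fintype.card ν →
  ∀ p : ℕ, p.Prime → PIndAt p S → PIndAt p G →
  ∃ x : ν → ℤ, PIndAt p (fromCols S (Kry1 C (b + G.mulVec x) d))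

/-- D3. Only finitely many primes are bad. -/
def ClaimFin : Prop := ∀ (n ρ : Type) [Fintype n] [DecidableEq n] [Fintype ρ] [DecidableEq ρ]
  (S : Matrix n ρ ℤ) (p : ℕ), p.Prime → PIndAt p S → {q : ℕ | q.Prime ∧ ¬ PIndAt q S}.Finite

/-- D4. Extension by a Krylov string modulo all primes at once. -/
def ClaimStep : Prop := ∀ (n ρ ν : Type) [Fintype n] [DecidableEq n] [Fintype ρ] [DecidableEq ρ]
  [Fintype ν] [DecidableEq ν] (C : Matrix n n ℤ) (S : Matrix n ρ ℤ) (G : Matrix n ν ℤ)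
  (b : n → ℤ) (d κ₀ : ℕ), KB C d κ₀ → Fintype.card ρ + 2 * d + κ₀ ≤ Fintype.card ν →
  PInd S → PInd G →
  ∃ x : ν → ℤ, PInd (fromCols S (Kry1 C (b + G.mulVec x) d))

/-- D5. Extension by several Krylov strings. -/
def ClaimExt : Prop := ∀ (n ι ν : Type) [Fintype n] [DecidableEq n] [Fintype ι] [DecidableEq ι]
  [Fintype ν] [DecidableEq ν] (C : Matrix n n ℤ) (V : Matrix n ι ℤ) (G : Matrix n ν ℤ)
  (d κ₀ t : ℕ) (B : Matrix n (Fin t) ℤ), KB C d κ₀ →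
  d * (Fintype.card ι + t) + d + κ₀ ≤ Fintype.card ν → PInd (Kry C V d) → PInd G →
  ∃ X : Matrix ν (Fin t) ℤ, PInd (Kry C (fromCols V (B + G * X)) d)

/-- D6. Completion to a basis. -/
def ClaimComplete : Prop := ∀ (n ρ : Type) [Fintype n] [DecidableEq n] [Fintype ρ] [DecidableEq ρ]
  (S : Matrix n ρ ℤ) (δ : ℕ), PInd S → Fintype.card n = Fintype.card ρ + δ →
  ∃ (B : Matrix n (Fin δ) ℤ) (K : Matrix ρ n ℤ) (L : Matrix (Fin δ) n ℤ),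
    K * S = 1 ∧ L * B = 1 ∧ K * B = 0 ∧ L * S = 0 ∧ S * K + B * L = 1

/-- D7. Existence of Krylov frames. -/
def ClaimFrames : Prop := ∀ (N Q e k s j₀ δ : ℕ) (C : Matrix (Fin N) (Fin N) ℤ), 1 ≤ Q →
  (∀ d : ℕ, KB C d ((d - 1) * e)) → N = Q * k + s → N = (Q + 1) * j₀ + δ → j₀ + δ ≤ k →
  Q + 1 + Q * e ≤ δ → Q * δ + Q + (Q - 1) * e ≤ j₀ → Q + (Q - 1) * e ≤ s →
  ∃ V : Matrix (Fin N) (Fin k) ℤ, PInd (Kry C V Q) ∧ Spans (Kry C V (Q + 1))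

/-- D8. Splitting a surjection. -/
def ClaimSplit : Prop := ∀ (κ σ : Type) [Fintype κ] [DecidableEq κ] [Fintype σ] [DecidableEq σ]
  (j : ℕ) (M : Matrix σ κ ℤ) (R : Matrix κ σ ℤ), M * R = 1 →
  Fintype.card κ = j + Fintype.card σ →
  ∃ (g : Matrix κ (Fin j ⊕ σ) ℤ) (g' : Matrix (Fin j ⊕ σ) κ ℤ), g * g' = 1 ∧ g' * g = 1 ∧
    M * g = fromCols 0 1

/-- D9. The short block. -/
def ClaimShort : Prop := ∀ (N Q k s j : ℕ) (C : Matrix (Fin N) (Fin N) ℤ)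
  (V₀ : Matrix (Fin N) (Fin k) ℤ), N = Q * k + s → k = j + s → PInd (Kry C V₀ Q) →
  Spans (Kry C V₀ (Q + 1)) →
  ∃ (V : Matrix (Fin N) (Fin j ⊕ Fin s) ℤ) (h' : Matrix (Idx (Fin j) (Fin s) Q) (Fin N) ℤ)
    (Y : Matrix (Idx (Fin j) (Fin s) Q) (Fin j) ℤ),
    h' * frame C Q V = 1 ∧ frame C Q V * h' = 1 ∧ (C ^ Q * V).toCols₁ = frame C Q V * Y ∧
    ∀ (t : Fin s) (a : Fin j), Y (lastIdx Q t) a = 0

/-! ## Group E: parameters -/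

/-- E1. Choice of the parameters. -/
def ClaimParam : Prop := ∀ (Q m₀ : ℕ), 1 ≤ Q → ∃ c : ℝ, 0 < c ∧ ∃ n₀ : ℕ, ∀ n : ℕ, n₀ ≤ n →
  ∀ e : ℕ, (e : ℝ) ≤ c * n → ∃ m s j j₀ δ : ℕ, m₀ ≤ m ∧ 2 ≤ m ∧ n = Q * (2 * m) + s ∧
    2 * m = j + s ∧ n = (Q + 1) * j₀ + δ ∧ j₀ + δ ≤ 2 * m ∧ Q + 1 + Q * e ≤ δ ∧
    Q * δ + Q + (Q - 1) * e ≤ j₀ ∧ Q + (Q - 1) * e ≤ s

end Pool.Agent.IntComm

namespace Pool.Agent.IntComm

open Matrix Polynomial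

/-- The theorem. -/
def Target : Prop := ∃ c : ℝ, 0 < c ∧ ∃ n₀ : ℕ, ∀ n : ℕ, n₀ ≤ n →
  ∀ C : Matrix (Fin n) (Fin n) ℤ, C.det = 1 →
  (∀ (p : ℕ) [Fact p.Prime] (μ : AlgebraicClosure (ZMod p)),
    (Module.finrank (AlgebraicClosure (ZMod p)) (LinearMap.ker (Matrix.toLin'
      (C.map (Int.castRingHom (AlgebraicClosure (ZMod p))) - Matrix.scalar (Fin n) μ))) : ℝ) ≤
        c * n) →
  IsComm C

end Pool.Agent.IntComm
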